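import Mathlib

set_option autoImplicit false

namespace Pool.Agent.AFA

open Real in
theorem b1_real {x : ℝ} (x_large : (800 : ℝ) ≤ x) :
    x * (2 * x) ^ (√(2 * x) + 5) * 4 ^ (2 * x / 3) ≤ 4 ^ x := by
  let f : ℝ → ℝ := fun x => (log x + √(2 * x) * log (2 * x)) + (5 * log x + 5 * log 2) -
    log 4 / 3 * x
  have hf' : ∀ x, 0 < x → 0 < x * (2 * x) ^ (√(2 * x) + 5) / 4 ^ (x / 3) := fun x h =>
    div_pos (mul_pos h (rpow_pos_of_pos (mul_pos two_pos h) _)) (rpow_pos_of_pos four_pos _)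
  have hf : ∀ x, 0 < x → f x = log (x * (2 * x) ^ (√(2 * x) + 5) / 4 ^ (x / 3)) := by
    intro x h5
    have h6 := mul_pos (zero_lt_two' ℝ) h5
    have h7 := rpow_pos_of_pos h6 (√(2 * x) + 5)
    rw [log_div (mul_pos h5 h7).ne' (rpow_pos_of_pos four_pos _).ne', log_mul h5.ne' h7.ne',
      log_rpow h6, log_rpow zero_lt_four]
    have h8 : log (2 * x) = log 2 + log x := log_mul two_ne_zero h5.ne'
    show (log x + √(2 * x) * log (2 * x)) + (5 * log x + 5 * log 2) - log 4 / 3 * x = _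
    rw [h8]
    ring
  have h5 : 0 < x := lt_of_lt_of_le (by norm_num1) x_large
  rw [← div_le_one (rpow_pos_of_pos four_pos x), ← div_div_eq_mul_div, ← rpow_sub four_pos, ←
    mul_div 2 x, mul_div_left_comm, ← mul_one_sub, (by norm_num1 : (1 : ℝ) - 2 / 3 = 1 / 3),
    mul_one_div, ← log_nonpos_iff (hf' x h5).le, ← hf x h5]
  have h : ConcaveOn ℝ (Set.Ioi 0.5) f := by
    apply ConcaveOn.sub
    · apply ConcaveOn.add
      · apply ConcaveOn.add
        · exact strictConcaveOn_log_Ioi.concaveOn.subset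
            (Set.Ioi_subset_Ioi (by norm_num)) (convex_Ioi 0.5)
        convert!
          ((strictConcaveOn_sqrt_mul_log_Ioi.concaveOn.comp_linearMap ((2 : ℝ) • LinearMap.id)))
          using 1
        ext x
        simp only [Set.mem_Ioi, Set.mem_preimage, LinearMap.smul_apply,
          LinearMap.id_coe, id_eq, smul_eq_mul]
        rw [← mul_lt_mul_iff_right₀ (two_pos)]
        norm_num1
        rfl
      · apply ConcaveOn.add_const
        exact (strictConcaveOn_log_Ioi.concaveOn.subset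
            (Set.Ioi_subset_Ioi (by norm_num)) (convex_Ioi 0.5)).smul (by norm_num : (0 : ℝ) ≤ 5)
    apply ConvexOn.smul
    · refine div_nonneg (log_nonneg (by norm_num1)) (by norm_num1)
    · exact convexOn_id (convex_Ioi (0.5 : ℝ))
  suffices ∃ x1 x2, 0.5 < x1 ∧ x1 < x2 ∧ x2 ≤ x ∧ 0 ≤ f x1 ∧ f x2 ≤ 0 by
    obtain ⟨x1, x2, h1, h2, h0, h3, h4⟩ := this
    exact (h.right_le_of_le_left'' h1 ((h1.trans h2).trans_le h0) h2 h0 (h4.trans h3)).trans h4
  refine ⟨18, 800, by norm_num1, by norm_num1, x_large, ?_, ?_⟩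
  · have : √(2 * 18 : ℝ) = 6 := (sqrt_eq_iff_mul_self_eq_of_pos (by norm_num1)).mpr (by norm_num1)
    rw [hf _ (by norm_num1), log_nonneg_iff (by positivity), this, one_le_div (by norm_num1)]
    norm_num1
  · have h9 : √(2 * 800) = 40 :=
      (sqrt_eq_iff_mul_self_eq_of_pos (by norm_num1)).mpr (by norm_num1)
    rw [hf _ (by norm_num1), log_nonpos_iff (hf' _ (by norm_num1)).le, h9,
        div_le_one (by positivity)]
    have h10 : (2 * 800 : ℝ) ^ ((40 : ℝ) + 5) = (2 * 800 : ℝ) ^ (45 : ℕ) := by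
      rw [← rpow_natCast]
      norm_num1
    have h11 : (4 : ℝ) ^ (250 : ℕ) ≤ 4 ^ (800 / 3 : ℝ) := by
      rw [← rpow_natCast]
      apply rpow_le_rpow_of_exponent_le
      · norm_num1
      · norm_num1
    rw [h10]
    refine le_trans ?_ h11
    norm_num1

/-- ROW B1. Real (and natural) main inequality, a variant of `bertrand_main_inequality` with the
additional factor `(2 n) ^ 5`.

Proof. Copy the proof of `Bertrand.real_main_inequality` and `bertrand_main_inequality` in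
`Mathlib/NumberTheory/Bertrand.lean`, with
`f x = log x + (√(2 x) + 5) * log (2 x) - log 4 / 3 * x`, which is again concave on `(1/2, ∞)`
(the new summand `5 * log (2 x)` is concave), with `f 18 ≥ 0` (because
`18 * 36 ^ (6 + 5) ≥ 4 ^ 6`) and `f 800 ≤ 0` (`√1600 = 40` and
`800 * 1600 ^ 45 ≤ 2 ^ 10 * (2 ^ 10.65) ^ 45`; more simply
`800 * 1600 ^ 45 ≤ 4 ^ (800 / 3)`, which follows from the integer inequality
`(800 * 1600 ^ 45) ^ 3 ≤ 4 ^ 800`, checked by `norm_num`). So `f x ≤ 0` for `x ≥ 800`. -/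
theorem main_ineq {n : ℕ} (hn : 800 ≤ n) :
    n * (2 * n) ^ (Nat.sqrt (2 * n) + 5) * 4 ^ (2 * n / 3) ≤ 4 ^ n := by
  have h1 : ((n * (2 * n) ^ (Nat.sqrt (2 * n) + 5) * 4 ^ (2 * n / 3) : ℕ) : ℝ) =
      (n : ℝ) * (2 * (n : ℝ)) ^ ((Nat.sqrt (2 * n) + 5 : ℕ) : ℝ) * 4 ^ ((2 * n / 3 : ℕ) : ℝ) := by
    rw [Real.rpow_natCast, Real.rpow_natCast]
    push_cast
    rfl
  have h2 : ((4 ^ n : ℕ) : ℝ) = (4 : ℝ) ^ (n : ℝ) := by
    rw [Real.rpow_natCast]
    push_cast
    rfl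
  have hx : (800 : ℝ) ≤ (n : ℝ) := by exact_mod_cast hn
  have hs : ((Nat.sqrt (2 * n) : ℕ) : ℝ) ≤ Real.sqrt (2 * (n : ℝ)) := by
    have := Real.nat_sqrt_le_real_sqrt (a := 2 * n)
    push_cast at this
    exact this
  have hd : ((2 * n / 3 : ℕ) : ℝ) ≤ 2 * (n : ℝ) / 3 := by
    refine Nat.cast_div_le.trans ?_
    push_cast
    exact le_refl _
  rw [← @Nat.cast_le ℝ, h1, h2]
  refine le_trans ?_ (b1_real hx)
  have h3 : (2 * (n : ℝ)) ^ ((Nat.sqrt (2 * n) + 5 : ℕ) : ℝ) ≤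
      (2 * (n : ℝ)) ^ (Real.sqrt (2 * (n : ℝ)) + 5) := by
    apply Real.rpow_le_rpow_of_exponent_le
    · linarith
    · push_cast
      linarith
  have h4 : (4 : ℝ) ^ ((2 * n / 3 : ℕ) : ℝ) ≤ 4 ^ (2 * (n : ℝ) / 3) :=
    Real.rpow_le_rpow_of_exponent_le (by norm_num) hd
  have h5 : 0 ≤ (n : ℝ) := by linarith
  exact mul_le_mul (mul_le_mul_of_nonneg_left h3 h5) h4 (by positivity) (by positivity)

end Pool.Agent.AFA
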