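import Mathlib

set_option autoImplicit false

namespace Pool.Agent.AFA

/-- ROW B2. Upper bound for the central binomial coefficient when there is no prime in
`(n + 5, 2 n]`.

Proof. Copy the proofs of `centralBinom_factorization_small` and
`centralBinom_le_of_no_bertrand_prime` in `Mathlib/NumberTheory/Bertrand.lean`. Now the product
`n.prod_pow_factorization_centralBinom` over `p ∈ range (2 n + 1)` is the product over
`p ∈ range (2 n / 3 + 1)`, times the product over the primes `p` with `n < p ≤ n + 5` (the primes
in `(2 n / 3, n]` do not occur by `factorization_centralBinom_of_two_mul_self_lt_three_mul`, and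
there are no primes in `(n + 5, 2 n]`). Each of the at most `5` new factors is at most `2 n`
(`Nat.pow_factorization_choose_le`), which gives the new factor `(2 n) ^ 5`. -/
theorem binom_le {n : ℕ} (hn : 800 ≤ n)
    (no_prime : ∀ p : ℕ, p.Prime → n + 5 < p → 2 * n < p) :
    Nat.centralBinom n ≤ (2 * n) ^ (Nat.sqrt (2 * n) + 5) * 4 ^ (2 * n / 3) := by
  have n_pos : 0 < n := by omega
  have n2_pos : 1 ≤ 2 * n := by omega
  have hfle : ∀ p, p ^ n.centralBinom.factorization p ≤ 2 * n := fun p =>
    Nat.pow_factorization_choose_le (by omega)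
  have hdisj : Disjoint (Finset.range (2 * n / 3 + 1)) (Finset.Ioc n (n + 5)) := by
    rw [Finset.disjoint_left]
    intro x hx hx'
    rw [Finset.mem_range] at hx
    rw [Finset.mem_Ioc] at hx'
    omega
  have hsub : Finset.range (2 * n / 3 + 1) ∪ Finset.Ioc n (n + 5) ⊆ Finset.range (2 * n + 1) := by
    intro x hx
    rw [Finset.mem_union, Finset.mem_range, Finset.mem_Ioc] at hx
    rw [Finset.mem_range]
    omega
  have hprod : n.centralBinom = ∏ p ∈ Finset.range (2 * n / 3 + 1) ∪ Finset.Ioc n (n + 5),
      p ^ n.centralBinom.factorization p := by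
    refine (Eq.trans ?_ n.prod_pow_factorization_centralBinom).symm
    apply Finset.prod_subset hsub
    intro x hx h2x
    rw [Finset.mem_range] at hx
    rw [Finset.mem_union, Finset.mem_range, Finset.mem_Ioc, not_or] at h2x
    obtain ⟨h3, h4⟩ := h2x
    by_cases hp : x.Prime
    · have h5 := no_prime x hp
      have h6 : x ≤ n := by
        by_contra h7
        have h8 : n + 5 < x := by
          by_contra h9
          exact h4 ⟨by omega, by omega⟩
        have := h5 h8
        omega
      rw [Nat.factorization_centralBinom_of_two_mul_self_lt_three_mul (by omega) h6 (by omega),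
        Nat.pow_zero]
    · rw [Nat.factorization_eq_zero_of_not_prime n.centralBinom hp, Nat.pow_zero]
  have hIoc : ∏ p ∈ Finset.Ioc n (n + 5), p ^ n.centralBinom.factorization p ≤ (2 * n) ^ 5 := by
    refine (Finset.prod_le_prod' fun p _ => hfle p).trans ?_
    rw [Finset.prod_const, Nat.card_Ioc]
    have h1 : n + 5 - n = 5 := by omega
    rw [h1]
  have hrange : ∏ p ∈ Finset.range (2 * n / 3 + 1), p ^ n.centralBinom.factorization p ≤
      (2 * n) ^ Nat.sqrt (2 * n) * 4 ^ (2 * n / 3) := by
    have h1 : ∏ x ∈ Finset.range (2 * n / 3 + 1) with Nat.Prime x, x ^ n.centralBinom.factorization x =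
        ∏ x ∈ Finset.range (2 * n / 3 + 1), x ^ n.centralBinom.factorization x := by
      refine Finset.prod_filter_of_ne fun p _ h => ?_
      contrapose h
      rw [Nat.factorization_eq_zero_of_not_prime n.centralBinom h, Nat.pow_zero]
    rw [← h1, ← Finset.prod_filter_mul_prod_filter_not
      (Finset.filter (fun x => Nat.Prime x) (Finset.range (2 * n / 3 + 1))) (· ≤ Nat.sqrt (2 * n))]
    apply mul_le_mul'
    · refine (Finset.prod_le_prod' fun p _ => hfle p).trans ?_
      have h2 : (Finset.Icc 1 (Nat.sqrt (2 * n))).card = Nat.sqrt (2 * n) := by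
        rw [Nat.card_Icc, Nat.add_sub_cancel]
      rw [Finset.prod_const]
      refine pow_right_mono₀ n2_pos ((Finset.card_le_card fun x hx => ?_).trans h2.le)
      obtain ⟨h3, h4⟩ := Finset.mem_filter.1 hx
      exact Finset.mem_Icc.mpr ⟨(Finset.mem_filter.1 h3).2.one_lt.le, h4⟩
    · have h3 : ∏ p ∈ Finset.range (2 * n / 3 + 1) with Nat.Prime p, p ≤ 4 ^ (2 * n / 3) :=
        primorial_le_four_pow (2 * n / 3)
      refine le_trans ?_ h3
      refine (Finset.prod_le_prod' (g := fun p => p) fun p hp => ?_).trans ?_
      · obtain ⟨h4, h5⟩ := Finset.mem_filter.1 hp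
        refine (pow_right_mono₀ (Finset.mem_filter.1 h4).2.one_lt.le ?_).trans (pow_one p).le
        exact Nat.factorization_choose_le_one (Nat.sqrt_lt'.mp <| not_le.1 h5)
      · refine Finset.prod_le_prod_of_subset_of_one_le' (Finset.filter_subset _ _) ?_
        exact fun p hp _ => (Finset.mem_filter.1 hp).2.one_lt.le
  calc n.centralBinom = (∏ p ∈ Finset.range (2 * n / 3 + 1), p ^ n.centralBinom.factorization p) *
        ∏ p ∈ Finset.Ioc n (n + 5), p ^ n.centralBinom.factorization p := by
        rw [← Finset.prod_union hdisj]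
        exact hprod
    _ ≤ ((2 * n) ^ Nat.sqrt (2 * n) * 4 ^ (2 * n / 3)) * (2 * n) ^ 5 := Nat.mul_le_mul hrange hIoc
    _ = (2 * n) ^ (Nat.sqrt (2 * n) + 5) * 4 ^ (2 * n / 3) := by
        rw [pow_add]
        ring

end Pool.Agent.AFA
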