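import Pool.Agent.AFA.B1
import Pool.Agent.AFA.B2

set_option autoImplicit false

namespace Pool.Agent.AFA

/-- ROW B3. For every `n ≥ 22` there is a prime `r` with `n / 2 < r ≤ n - 9`.

Proof. For `22 ≤ n ≤ 3000` use the primes `13, 17, 23, 31, 43, 67, 113, 199, 389, 769, 1523`: the
prime `q` serves all `n` with `q + 9 ≤ n ≤ 2 q - 1`, and these intervals cover `[22, 3045]`
(`by_cases`/`interval` splitting: `rcases` on `n ≤ 25`, `n ≤ 33`, `n ≤ 45`, `n ≤ 61`, `n ≤ 85`,
`n ≤ 133`, `n ≤ 225`, `n ≤ 397`, `n ≤ 777`, `n ≤ 1537`, `n ≤ 3045`, each case is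
`⟨q, by norm_num, by omega, by omega⟩`). For `n > 3000` put `k := (n - 9) / 2 ≥ 800`. If there is
no prime `p` with `k + 5 < p ≤ 2 k`, then by `binom_le`, `main_ineq` and
`Nat.four_pow_lt_mul_centralBinom` we get
`4 ^ k < k * centralBinom k ≤ k * ((2 k) ^ (sqrt (2 k) + 5) * 4 ^ (2 k / 3)) ≤ 4 ^ k`, a
contradiction. So there is a prime `r` with `k + 5 < r ≤ 2 k`, and `2 k ≤ n - 9`,
`2 r ≥ 2 k + 12 > n`. -/
theorem exists_prime_mid {n : ℕ} (hn : 22 ≤ n) : ∃ r : ℕ, r.Prime ∧ n < 2 * r ∧ r + 9 ≤ n := by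
  by_cases h0 : n ≤ 3045
  · rcases le_or_gt n 25 with h | h
    · exact ⟨13, by norm_num, by omega, by omega⟩
    rcases le_or_gt n 33 with h | h
    · exact ⟨17, by norm_num, by omega, by omega⟩
    rcases le_or_gt n 45 with h | h
    · exact ⟨23, by norm_num, by omega, by omega⟩
    rcases le_or_gt n 61 with h | h
    · exact ⟨31, by norm_num, by omega, by omega⟩
    rcases le_or_gt n 85 with h | h
    · exact ⟨43, by norm_num, by omega, by omega⟩
    rcases le_or_gt n 133 with h | h
    · exact ⟨67, by norm_num, by omega, by omega⟩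
    rcases le_or_gt n 225 with h | h
    · exact ⟨113, by norm_num, by omega, by omega⟩
    rcases le_or_gt n 397 with h | h
    · exact ⟨199, by norm_num, by omega, by omega⟩
    rcases le_or_gt n 777 with h | h
    · exact ⟨389, by norm_num, by omega, by omega⟩
    rcases le_or_gt n 1537 with h | h
    · exact ⟨769, by norm_num, by omega, by omega⟩
    exact ⟨1523, by norm_num, by omega, by omega⟩
  · obtain ⟨k, hk⟩ : ∃ k, k = (n - 9) / 2 := ⟨_, rfl⟩
    have hk8 : 800 ≤ k := by omega
    by_contra hno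
    push Not at hno
    have hnp : ∀ p : ℕ, p.Prime → k + 5 < p → 2 * k < p := by
      intro p hp h5
      by_contra h6
      have h7 := hno p hp (by omega)
      omega
    have e1 := binom_le hk8 hnp
    have e2 := main_ineq hk8
    have e3 := Nat.four_pow_lt_mul_centralBinom k (by omega)
    have e4 : k * Nat.centralBinom k ≤ k * ((2 * k) ^ (Nat.sqrt (2 * k) + 5) * 4 ^ (2 * k / 3)) :=
      Nat.mul_le_mul_left k e1
    rw [← mul_assoc] at e4
    exact absurd (lt_of_lt_of_le e3 (e4.trans e2)) (lt_irrefl _)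

end Pool.Agent.AFA
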