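import Pool.Agent.AFA.Def

set_option autoImplicit false

namespace Pool.Agent.AFA

open Polynomial

theorem c1_dW {R : Type} [CommRing R] [CharP R 2] (a : R) (T : R) (i : ℕ) :
    derivative (1 + C a * X ^ 4 + C T * X ^ (4 * i) : R[X]) = 0 := by
  have h4 : ((4 : ℕ) : R) = 0 := (CharP.cast_eq_zero_iff R 2 4).2 (by norm_num)
  have h5 : ((4 * i : ℕ) : R) = 0 := (CharP.cast_eq_zero_iff R 2 (4 * i)).2 ⟨2 * i, by ring⟩
  rw [derivative_add, derivative_add, derivative_one, derivative_C_mul, derivative_C_mul,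
    derivative_X_pow, derivative_X_pow, h4, h5, C_0]
  ring

theorem c1_coeff {R : Type} [CommRing R] (S : ℤ[X]) (hS0 : S.coeff 0 = 1) (a : ℤ) (T : R) (n i : ℕ)
    (hn : 0 < n) (hi : 0 < i) : (fam S a T n i).coeff 0 = 1 := by
  rw [coeff_zero_eq_eval_zero]
  unfold fam
  rw [eval_add, eval_mul, eval_add, eval_add, eval_mul, eval_mul, eval_pow, eval_pow, eval_pow, eval_X,
    eval_C, eval_C, eval_one, ← coeff_zero_eq_eval_zero, coeff_map, hS0, zero_pow (by omega),
    zero_pow (by omega), zero_pow (by omega)]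
  simp

theorem c1_cop {R : Type} [CommRing R] (P : R[X]) (h : P.coeff 0 = 1) : IsCoprime P X := by
  refine ⟨1, -divX P, ?_⟩
  have h1 := divX_mul_X_add P
  rw [h, C_1] at h1
  linear_combination -h1

/-- ROW C1. Coprimality of `P = Y^n + S (1 + a Y^4 + T Y^(4i))` and its derivative over a ring of
characteristic 2, `n` odd, `S` a square.

Proof. As `S.map = Q ^ 2`, its derivative is `2 Q Q' = 0`; the derivative of
`1 + a Y^4 + T Y^(4 i)` is `4 (...) = 0`. So `P' = n Y^(n-1) = Y^(n-1)` (`n` is odd and `2 = 0`).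
The constant coefficient of `P` is `S(0) = 1` (`n > 0`, `i > 0`), so `P = Y * P₁ + 1`
(`Polynomial.divX`) is coprime to `Y`, and hence to `Y^(n-1)` (`IsCoprime.pow_right`). -/
theorem coprime_odd {R : Type} [CommRing R] [CharP R 2] (S : ℤ[X]) (Q : R[X])
    (hS : S.map (Int.castRingHom R) = Q ^ 2) (hS0 : S.coeff 0 = 1) (a : ℤ) (T : R) (n i : ℕ)
    (hn : Odd n) (hi : 0 < i) :
    IsCoprime (fam S a T n i) (derivative (fam S a T n i)) := by
  have h1 : derivative (fam S a T n i) = X ^ (n - 1) := by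
    unfold fam
    have h2 : (n : R) = 1 := by
      obtain ⟨k, rfl⟩ := hn
      have h3 : ((2 * k : ℕ) : R) = 0 := (CharP.cast_eq_zero_iff R 2 (2 * k)).2 ⟨k, rfl⟩
      rw [Nat.cast_add, h3, zero_add, Nat.cast_one]
    have h4 : (2 : R[X]) = 0 := by
      have h5 : ((2 : ℕ) : R) = 0 := (CharP.cast_eq_zero_iff R 2 2).2 (dvd_refl 2)
      have h6 : (2 : R[X]) = C ((2 : ℕ) : R) := by
        rw [C_eq_natCast]
        rfl
      rw [h6, h5, C_0]
    have h5 : derivative (S.map (Int.castRingHom R)) = 0 := by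
      rw [hS, pow_two, derivative_mul]
      linear_combination (Q * derivative Q) * h4
    rw [derivative_add, derivative_mul, c1_dW, h5, derivative_X_pow, h2, C_1]
    ring
  rw [h1]
  exact (c1_cop _ (c1_coeff S hS0 a T n i hn.pos hi)).pow_right

end Pool.Agent.AFA
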