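import Pool.Agent.AFA.Def

set_option autoImplicit false

namespace Pool.Agent.AFA

open Polynomial

theorem c2_dW {R : Type} [CommRing R] [CharP R 2] (a : R) (T : R) (i : ℕ) :
    derivative (1 + C a * X ^ 4 + C T * X ^ (4 * i) : R[X]) = 0 := by
  have h4 : ((4 : ℕ) : R) = 0 := (CharP.cast_eq_zero_iff R 2 4).2 (by norm_num)
  have h5 : ((4 * i : ℕ) : R) = 0 := (CharP.cast_eq_zero_iff R 2 (4 * i)).2 ⟨2 * i, by ring⟩
  rw [derivative_add, derivative_add, derivative_one, derivative_C_mul, derivative_C_mul,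
    derivative_X_pow, derivative_X_pow, h4, h5, C_0]
  ring

theorem c2_coeff {R : Type} [CommRing R] (S : ℤ[X]) (hS0 : S.coeff 0 = 1) (a : ℤ) (T : R) (n i : ℕ)
    (hn : 0 < n) (hi : 0 < i) : (fam S a T n i).coeff 0 = 1 := by
  rw [coeff_zero_eq_eval_zero]
  unfold fam
  rw [eval_add, eval_mul, eval_add, eval_add, eval_mul, eval_mul, eval_pow, eval_pow, eval_pow, eval_X,
    eval_C, eval_C, eval_one, ← coeff_zero_eq_eval_zero, coeff_map, hS0, zero_pow (by omega),
    zero_pow (by omega), zero_pow (by omega)]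
  simp

theorem c2_coeffW {R : Type} [CommRing R] (a T : R) (i : ℕ) (hi : 0 < i) :
    (1 + C a * X ^ 4 + C T * X ^ (4 * i) : R[X]).coeff 0 = 1 := by
  rw [coeff_zero_eq_eval_zero, eval_add, eval_add, eval_mul, eval_mul, eval_pow, eval_pow, eval_X,
    eval_C, eval_C, eval_one, zero_pow (by omega), zero_pow (by omega)]
  ring

theorem c2_cop {R : Type} [CommRing R] (P : R[X]) (h : P.coeff 0 = 1) : IsCoprime P X := by
  refine ⟨1, -divX P, ?_⟩
  have h1 := divX_mul_X_add P
  rw [h, C_1] at h1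
  linear_combination -h1

/-- ROW C2. The same for `n` even and `S' = Y^m` modulo 2.

Proof. Put `W = 1 + a Y^4 + T Y^(4 i)`, `W' = 4 (...) = 0`, `(Y^n)' = n Y^(n-1) = 0`, so
`P' = S' W = Y^m W`. `P` has constant coefficient `S(0) = 1` (`n > 0`: as `n` is even and positive),
so it is coprime to `Y` and to `Y^m`. And `P = Y^n + S W` is coprime to `W` because `Y^n` is
coprime to `W` (`W(0) = 1`): `IsCoprime.add_mul_right_left` etc. So `P` is coprime to `Y^m W`
(`IsCoprime.mul_right`). -/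
theorem coprime_even {R : Type} [CommRing R] [CharP R 2] (S : ℤ[X]) (m : ℕ)
    (hS : derivative (S.map (Int.castRingHom R)) = X ^ m) (hS0 : S.coeff 0 = 1) (a : ℤ) (T : R)
    (n i : ℕ) (hn : Even n) (hn0 : 0 < n) (hi : 0 < i) :
    IsCoprime (fam S a T n i) (derivative (fam S a T n i)) := by
  have h2 : (n : R) = 0 := by
    obtain ⟨k, rfl⟩ := hn
    exact (CharP.cast_eq_zero_iff R 2 (k + k)).2 ⟨k, by ring⟩
  have h1 : derivative (fam S a T n i) = X ^ m * (1 + C (a : R) * X ^ 4 + C T * X ^ (4 * i)) := by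
    unfold fam
    rw [derivative_add, derivative_mul, c2_dW, hS, derivative_X_pow, h2, C_0]
    ring
  rw [h1]
  refine IsCoprime.mul_right (c2_cop _ (c2_coeff S hS0 a T n i hn0 hi)).pow_right ?_
  unfold fam
  refine IsCoprime.add_mul_right_left ?_ _
  exact (c2_cop _ (c2_coeffW (a : R) T i hi)).symm.pow_left

end Pool.Agent.AFA
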