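import Pool.Agent.AFA.Def

set_option autoImplicit false

namespace Pool.Agent.AFA

open Polynomial

/-- ROW C3. Degree of `fam`: it is monic of degree `n` when `S` is monic of degree `s`, `i > 0`,
`s + 4 i < n` and (`a = 0` or anything): `1 + a Y^4 + T Y^(4 i)` has degree at most `4 i`. -/
theorem fam_monic {R : Type} [CommRing R] [Nontrivial R] (S : ℤ[X]) (s : ℕ)
    (hs : S.natDegree ≤ s) (a : ℤ) (T : R) (n i : ℕ) (hi : 0 < i) (hn : s + 4 * i < n) :
    (fam S a T n i).Monic ∧ (fam S a T n i).natDegree = n := by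
  have h1 : (S.map (Int.castRingHom R) * (1 + C (a : R) * X ^ 4 + C T * X ^ (4 * i))).natDegree ≤
      s + 4 * i := by
    refine natDegree_mul_le_of_le (natDegree_map_le.trans hs) ?_
    refine natDegree_add_le_of_degree_le (natDegree_add_le_of_degree_le ?_ ?_) ?_
    · rw [natDegree_one]
      exact Nat.zero_le _
    · exact (natDegree_C_mul_X_pow_le _ _).trans (by omega)
    · exact natDegree_C_mul_X_pow_le _ _
  have h2 : (S.map (Int.castRingHom R) * (1 + C (a : R) * X ^ 4 + C T * X ^ (4 * i))).degree < (n : WithBot ℕ) :=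
    lt_of_le_of_lt degree_le_natDegree (by exact_mod_cast lt_of_le_of_lt h1 hn)
  refine ⟨monic_X_pow_add h2, ?_⟩
  unfold fam
  rw [natDegree_add_eq_left_of_natDegree_lt (by rw [natDegree_X_pow]; omega), natDegree_X_pow]

end Pool.Agent.AFA
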