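import Mathlib

/-!
# Abhyankar's affine arithmetical conjecture for alternating and symmetric groups, p = 2

Definitions used by all rows of the AFA library.
-/

set_option autoImplicit false

namespace Pool.Agent.AFA

open Polynomial

/-- Reduction of integer polynomials modulo 2. -/
noncomputable def red : ℤ[X] →+* (ZMod 2)[X] := Polynomial.mapRingHom (Int.castRingHom (ZMod 2))

/-- Reduction of integer polynomials modulo 8. -/
noncomputable def red8 : ℤ[X] →+* (ZMod 8)[X] := Polynomial.mapRingHom (Int.castRingHom (ZMod 8))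

/-- The polynomial `Y^n + S(Y) (1 + a Y^4 + T Y^(4 i))` over a commutative ring `R`, where
`S` has integer coefficients, `a` is an integer and `T` is an element of `R`. -/
noncomputable def fam {R : Type} [CommRing R] (S : ℤ[X]) (a : ℤ) (T : R) (n i : ℕ) : R[X] :=
  X ^ n + S.map (Int.castRingHom R) * (1 + C (a : R) * X ^ 4 + C T * X ^ (4 * i))

theorem map_fam {R R' : Type} [CommRing R] [CommRing R'] (f : R →+* R') (S : ℤ[X]) (a : ℤ) (T : R)
    (n i : ℕ) : (fam S a T n i).map f = fam S a (f T) n i := by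
  have h : f.comp (Int.castRingHom R) = Int.castRingHom R' := RingHom.ext_int _ _
  simp [fam, Polynomial.map_map, h]

/-- The conclusion of the problem for `p = 2`: the group `A` is the Galois group of a Galois
extension of `F_2(x)` which is unramified at every prime of the affine line. -/
def Realizes (A : Type) [Group A] : Prop :=
  ∃ (L : Type) (_ : Field L) (_ : Algebra (RatFunc (ZMod 2)) L)
    (_ : Algebra (Polynomial (ZMod 2)) L)
    (_ : IsScalarTower (Polynomial (ZMod 2)) (RatFunc (ZMod 2)) L)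
    (_ : FiniteDimensional (RatFunc (ZMod 2)) L)
    (_ : IsGalois (RatFunc (ZMod 2)) L),
    Nonempty ((L ≃ₐ[RatFunc (ZMod 2)] L) ≃* A) ∧
    ∀ (q : Ideal (integralClosure (Polynomial (ZMod 2)) L)) (_ : q.IsPrime),
      Algebra.IsUnramifiedAt (Polynomial (ZMod 2)) q

/-- The pairs `(i, j)` with `i < j`. -/
def prs (n : ℕ) : Finset (Fin n × Fin n) := Finset.univ.filter (fun p => p.1 < p.2)

/-- The additive discriminant sum `∑_{i<j} z_i z_j / (z_i + z_j)^2`. -/
noncomputable def bsum {L : Type} [Field L] {n : ℕ} (z : Fin n → L) : L :=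
  ∑ p ∈ prs n, z p.1 * z p.2 / (z p.1 + z p.2) ^ 2

/-- The sum `∑_{i<j} z_i / (z_i + z_j)`. -/
noncomputable def wsum {L : Type} [Field L] {n : ℕ} (z : Fin n → L) : L :=
  ∑ p ∈ prs n, z p.1 / (z p.1 + z p.2)

/-- The discriminant as a polynomial in `n` variables. -/
noncomputable def dM (n : ℕ) : MvPolynomial (Fin n) ℤ :=
  ∏ p ∈ prs n, (MvPolynomial.X p.1 - MvPolynomial.X p.2) ^ 2

/-- The product of the sums of two variables. -/
noncomputable def sM (n : ℕ) : MvPolynomial (Fin n) ℤ :=
  ∏ p ∈ prs n, (MvPolynomial.X p.1 + MvPolynomial.X p.2)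

/-- The numerator of the additive discriminant. -/
noncomputable def bM (n : ℕ) : MvPolynomial (Fin n) ℤ :=
  ∑ p ∈ prs n, MvPolynomial.X p.1 * MvPolynomial.X p.2 *
    ∏ q ∈ (prs n).erase p, (MvPolynomial.X q.1 + MvPolynomial.X q.2) ^ 2

/-- The polynomial `Y^s + e Y^2 + 1`. -/
noncomputable def SE (s : ℕ) (e : ℤ) : ℤ[X] := X ^ s + C e * X ^ 2 + 1

/-- `0` if `3 ∣ k` and `1` otherwise (the trace of the `k`-th power of an element of order 3 of the
field with 4 elements). -/
def tt (k : ℕ) : ℤ := if 3 ∣ k then 0 else 1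

/-- The inverse of the variable of `F_2(x)`. -/
noncomputable def uu : RatFunc (ZMod 2) := (RatFunc.X : RatFunc (ZMod 2))⁻¹

/-- The subring `F_2[1/x]` of `F_2(x)`. -/
noncomputable def Ainf : Subalgebra (ZMod 2) (RatFunc (ZMod 2)) := Algebra.adjoin (ZMod 2) {uu}

/-- The element `1/x` of `F_2[1/x]`. -/
noncomputable def pinf : Ainf := ⟨uu, Algebra.subset_adjoin rfl⟩

/-- The hypotheses on the data: `n = r + s + 4 i` with an odd prime `r > n / 2`, `S` is monic of
degree `s` with constant term `1`, `T` reduces to `x` or `x ^ 2 + x + c`, and the polynomial is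
coprime to its derivative modulo 2. -/
structure Data (S : ℤ[X]) (s : ℕ) (a : ℤ) (T : ℤ[X]) (n i r : ℕ) : Prop where
  monic : S.Monic
  deg : S.natDegree = s
  zero : S.coeff 0 = 1
  ipos : 0 < i
  ha : a = 0 ∨ 2 ≤ i
  hn : n = r + s + 4 * i
  prime : r.Prime
  odd : r ≠ 2
  big : n < 2 * r
  hT : red T = X ∨ ∃ c : ZMod 2, red T = X ^ 2 + X + C c
  cop : IsCoprime (fam S a (red T) n i) (derivative (fam S a (red T) n i))

end Pool.Agent.AFA
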