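import Pool.Agent.AFA.Def

set_option autoImplicit false

namespace Pool.Agent.AFA

open Polynomial

theorem e1_two : ∀ a : ZMod 2, a ^ 2 + a = 0 := by decide

/-- ROW E1. Artin-Schreier: `1` and `x + c` are not of the form `f ^ 2 + f` in `F_2(x)`.

Proof. If `f ^ 2 + f = h` with a polynomial `h`, then `f` is integral over `(ZMod 2)[X]`, so it is
a polynomial `g` (`IsIntegrallyClosed`), `g ^ 2 + g = h`. If `g` is constant, `g ^ 2 + g = 0`
(`ZMod 2`), and if `g.natDegree = d > 0` then `(g ^ 2 + g).natDegree = 2 d` is even and positive. So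
`h = 1` and `h = X + C c` (degree `0` nonzero, degree `1`) are impossible. -/
theorem artinSchreier_ne (h : (ZMod 2)[X]) (hh : h = 1 ∨ ∃ c : ZMod 2, h = X + C c)
    (f : RatFunc (ZMod 2)) : f ^ 2 + f ≠ algebraMap (ZMod 2)[X] (RatFunc (ZMod 2)) h := by
  have : Fact (Nat.Prime 2) := ⟨Nat.prime_two⟩
  intro hf
  have hint : IsIntegral (ZMod 2)[X] f := by
    refine ⟨X ^ 2 + X - C h, ?_, ?_⟩
    · have e1 : (X ^ 2 + X - C h : (ZMod 2)[X][X]) = X ^ 2 + (X - C h) := by ring
      rw [e1]
      refine monic_X_pow_add (n := 2) ?_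
      rw [degree_X_sub_C]
      norm_num
    · rw [eval₂_sub, eval₂_add, eval₂_pow, eval₂_X, eval₂_C, hf, sub_self]
  obtain ⟨g, rfl⟩ := IsIntegrallyClosed.isIntegral_iff.1 hint
  have hg : g ^ 2 + g = h := by
    apply IsFractionRing.injective (ZMod 2)[X] (RatFunc (ZMod 2))
    rw [map_add, map_pow]
    exact hf
  have h0 : h ≠ 0 := by
    rcases hh with rfl | ⟨c, rfl⟩
    · exact one_ne_zero
    · exact X_add_C_ne_zero c
  rcases Nat.eq_zero_or_pos g.natDegree with hd | hd
  · obtain ⟨a, ha⟩ := natDegree_eq_zero.1 hd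
    apply h0
    rw [← hg, ← ha, ← C_pow, ← C_add]
    rw [e1_two, C_0]
  · have h1 : (g ^ 2).natDegree = 2 * g.natDegree := natDegree_pow g 2
    have h3 : (g ^ 2 + g).natDegree = 2 * g.natDegree := by
      rw [natDegree_add_eq_left_of_natDegree_lt (by omega), h1]
    rw [hg] at h3
    rcases hh with rfl | ⟨c, rfl⟩
    · rw [natDegree_one] at h3
      omega
    · rw [natDegree_X_add_C] at h3
      omega

end Pool.Agent.AFA
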