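import Pool.Agent.AFA.Def

set_option autoImplicit false

namespace Pool.Agent.AFA

open Polynomial

theorem f4_root : ∀ a : ZMod 2, a ^ 2 + a + 1 ≠ 0 := by decide

/-- ROW F4. The field with four elements as a quotient of `F_2[x]`.

Proof. `X ^ 2 + X + 1` is irreducible over `ZMod 2` (degree 2 and no root:
`Polynomial.Monic.irreducible_iff_roots_eq_zero_of_degree_le_three` or
`irreducible_of_degree_le_three_of_not_isRoot`, `decide` over `ZMod 2`). Let
`F = AdjoinRoot (X ^ 2 + X + 1)`, `φ = AdjoinRoot.mk _`. It is a `ZMod 2`-vector space of dimension 2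
(`AdjoinRoot.powerBasis`), so it has four elements (`Module.card_eq_pow_finrank`,
`Nat.card`), with `Fintype.ofFinite`. -/
theorem exists_F4 : ∃ (F : Type) (_ : Field F) (_ : Fintype F) (φ : (ZMod 2)[X] →+* F),
    Function.Surjective φ ∧ Fintype.card F = 4 ∧ (2 : F) = 0 ∧ φ X ^ 2 + φ X + 1 = 0 := by
  have : Fact (Nat.Prime 2) := ⟨Nat.prime_two⟩
  set f : (ZMod 2)[X] := X ^ 2 + X + 1 with hf
  have e1 : f = X ^ 2 + (X + 1) := by rw [hf]; ring
  have hdeg1 : (X + 1 : (ZMod 2)[X]).degree < ((2 : ℕ) : WithBot ℕ) := by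
    have h1 : (X + 1 : (ZMod 2)[X]).degree = 1 := by
      have := degree_X_add_C (1 : ZMod 2)
      rwa [C_1] at this
    rw [h1]
    norm_num
  have hm : f.Monic := by
    rw [e1]
    exact monic_X_pow_add hdeg1
  have hd : f.natDegree = 2 := by
    rw [e1, natDegree_add_eq_left_of_degree_lt (by rw [degree_X_pow]; exact hdeg1), natDegree_X_pow]
  have hirr : Irreducible f := by
    rw [hm.irreducible_iff_roots_eq_zero_of_degree_le_three (by omega) (by omega)]
    refine Multiset.eq_zero_of_forall_notMem fun x hx => ?_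
    have h1 := isRoot_of_mem_roots hx
    rw [IsRoot.def, hf, eval_add, eval_add, eval_pow, eval_X, eval_one] at h1
    exact f4_root x h1
  haveI : Fact (Irreducible f) := ⟨hirr⟩
  have hf0 : f ≠ 0 := hm.ne_zero
  haveI : Module.Finite (ZMod 2) (AdjoinRoot f) := (AdjoinRoot.powerBasis hf0).finite
  haveI : Finite (AdjoinRoot f) := Module.finite_of_finite (ZMod 2)
  letI : Fintype (AdjoinRoot f) := Fintype.ofFinite _
  have hcard : Fintype.card (AdjoinRoot f) = 4 := by
    rw [Module.card_eq_pow_finrank (K := ZMod 2), (AdjoinRoot.powerBasis hf0).finrank,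
      AdjoinRoot.powerBasis_dim, hd, ZMod.card]
    norm_num
  refine ⟨AdjoinRoot f, inferInstance, inferInstance, AdjoinRoot.mk f, AdjoinRoot.mk_surjective, hcard, ?_, ?_⟩
  · have h3 : (2 : (ZMod 2)[X]) = 0 := by
      have h4 : (2 : (ZMod 2)[X]) = C (2 : ZMod 2) := by rfl
      rw [h4, show (2 : ZMod 2) = 0 from rfl, C_0]
    have h5 : (2 : AdjoinRoot f) = AdjoinRoot.mk f 2 := by
      rw [map_ofNat]
    rw [h5, h3, map_zero]
  · have h1 : AdjoinRoot.mk f (X ^ 2 + X + 1) = 0 := AdjoinRoot.mk_self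
    rw [map_add, map_add, map_pow, map_one] at h1
    exact h1

end Pool.Agent.AFA
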