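import Pool.Agent.AFA.Def

set_option autoImplicit false

namespace Pool.Agent.AFA

open Polynomial

/-- ROW G1. The Galois group as a group of permutations of the roots.

Proof. For `σ` and `i`, `σ (z i)` is a root of `P` (coefficients in `K`), so
`σ (z i) = z j` for some `j` (product of linear factors evaluated is zero), unique since `z` is
injective; `i ↦ j` is injective (`σ` and `z` are) hence a permutation `ρ σ`. Multiplicativity:
`z (ρ (σ τ) i) = σ (τ (z i)) = σ (z (ρ τ i)) = z (ρ σ (ρ τ i))`. Injectivity: if `ρ σ = 1` then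
`σ` fixes all `z i`, so it is the identity on `IntermediateField.adjoin K (Set.range z) = ⊤`. -/
theorem exists_perm_rep {K L : Type} [Field K] [Field L] [Algebra K L] (P : K[X]) {n : ℕ}
    (z : Fin n → L) (hz : Function.Injective z)
    (hP : P.map (algebraMap K L) = ∏ i, (X - C (z i)))
    (htop : IntermediateField.adjoin K (Set.range z) = ⊤) :
    ∃ ρ : (L ≃ₐ[K] L) →* Equiv.Perm (Fin n), Function.Injective ρ ∧
      ∀ (σ : L ≃ₐ[K] L) (i : Fin n), σ (z i) = z (ρ σ i) := by
  classical
  have hex : ∀ (σ : L ≃ₐ[K] L) (i : Fin n), ∃ j, σ (z i) = z j := by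
    intro σ i
    have h1 : aeval (z i) P = 0 := by
      rw [aeval_def, ← eval_map, hP, eval_prod, Finset.prod_eq_zero (Finset.mem_univ i)]
      simp
    have h2 : aeval (σ (z i)) P = 0 := by
      have h3 := congrArg σ h1
      rw [map_zero] at h3
      rw [← h3]
      exact (aeval_algHom_apply (σ : L →ₐ[K] L) (z i) P)
    rw [aeval_def, ← eval_map, hP, eval_prod, Finset.prod_eq_zero_iff] at h2
    obtain ⟨j, _, hj⟩ := h2
    refine ⟨j, ?_⟩
    rw [eval_sub, eval_X, eval_C, sub_eq_zero] at hj
    exact hj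
  choose f hf using hex
  have hinj : ∀ σ, Function.Injective (f σ) := by
    intro σ i j hij
    apply hz
    apply σ.injective
    rw [hf, hf, hij]
  let ρ : (L ≃ₐ[K] L) →* Equiv.Perm (Fin n) := MonoidHom.mk'
    (fun σ => Equiv.ofBijective (f σ) (Finite.injective_iff_bijective.1 (hinj σ))) (by
      intro σ τ
      ext1 i
      apply hz
      show z (f (σ * τ) i) = z (f σ (f τ i))
      rw [← hf, ← hf, ← hf]
      rfl)
  have hρ : ∀ (σ : L ≃ₐ[K] L) (i : Fin n), σ (z i) = z (ρ σ i) := fun σ i => hf σ i
  refine ⟨ρ, ?_, hρ⟩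
  rw [injective_iff_map_eq_one]
  intro σ hσ
  ext x
  have hx : x ∈ IntermediateField.adjoin K (Set.range z) := by
    rw [htop]
    exact IntermediateField.mem_top
  show σ x = x
  induction hx using IntermediateField.adjoin_induction with
  | mem x hx =>
    obtain ⟨i, rfl⟩ := hx
    rw [hρ, hσ]
    rfl
  | algebraMap x => exact σ.commutes x
  | add x y _ _ hx hy => rw [map_add, hx, hy]
  | inv x _ hx => rw [map_inv₀, hx]
  | mul x y _ _ hx hy => rw [map_mul, hx, hy]

end Pool.Agent.AFA
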