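import Pool.Agent.AFA.Def

set_option autoImplicit false

namespace Pool.Agent.AFA

open Polynomial

/-- ROW G2. If `P` is irreducible and `L/K` is normal, the Galois group is transitive on the roots.

Proof. `z i` and `z j` have the same minimal polynomial over `K` (the normalisation of `P`, up to
a unit; `minpoly.eq_of_irreducible`), so there is a `K`-automorphism of the normal extension `L`
sending `z i` to `z j` (`exists_algHom_of_splits_of_aeval`, `Normal` lemma
`minpoly.exists_algEquiv_of_root'`, `IsConjRoot.exists_algEquiv`). -/
theorem exists_aut_map {K L : Type} [Field K] [Field L] [Algebra K L] [Normal K L]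
    (P : K[X]) (hirr : Irreducible P) {a b : L} (ha : aeval a P = 0) (hb : aeval b P = 0) :
    ∃ σ : L ≃ₐ[K] L, σ a = b := by
  have h1 := minpoly.eq_of_irreducible hirr ha
  have h2 := minpoly.eq_of_irreducible hirr hb
  have h3 : IsConjRoot K b a := by
    rw [IsConjRoot, ← h1, ← h2]
  exact isConjRoot_iff_exists_algEquiv.1 h3

end Pool.Agent.AFA
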