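import Pool.Agent.AFA.Def

set_option autoImplicit false

namespace Pool.Agent.AFA

open Polynomial

/-- ROW G3. A splitting field with enumerated roots.

Proof. `L := P.SplittingField`. `P` is separable, so it has `n` distinct roots in `L`: enumerate
them by `z : Fin n → L` (`P.map = ∏ (X - C (root))` over the multiset of roots, which has no
duplicates and cardinality `n`; `Polynomial.Splits`, `Multiset` to `Fin n` via
`Finset.equivFin`/`List.ofFn`). `L/K` is Galois (`IsGalois.of_separable_splitting_field`) and is
generated by the roots (`IsSplittingField.adjoin_rootSet`). The algebra structure over `A` is the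
composite one. -/
theorem exists_splitting {A K : Type} [CommRing A] [Field K] [Algebra A K] (P : K[X])
    (hP : P.Monic) (hsep : P.Separable) {n : ℕ} (hn : P.natDegree = n) :
    ∃ (L : Type) (_ : Field L) (_ : Algebra K L) (_ : Algebra A L) (_ : IsScalarTower A K L)
      (_ : FiniteDimensional K L) (_ : IsGalois K L) (z : Fin n → L), Function.Injective z ∧
      P.map (algebraMap K L) = ∏ i, (X - C (z i)) ∧
      IntermediateField.adjoin K (Set.range z) = ⊤ := by
  classical
  have hmon : (P.map (algebraMap K P.SplittingField)).Monic := hP.map _
  have hsp := SplittingField.splits P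
  have hnd : (P.map (algebraMap K P.SplittingField)).roots.Nodup := nodup_roots (hsep.map)
  set l := (P.map (algebraMap K P.SplittingField)).roots.toList with hl
  have hlen : l.length = n := by
    rw [hl, Multiset.length_toList, ← hsp.natDegree_eq_card_roots, natDegree_map, hn]
  have hcoe : (l : Multiset P.SplittingField) =
      (P.map (algebraMap K P.SplittingField)).roots := Multiset.coe_toList _
  subst hlen
  let algA : Algebra A P.SplittingField :=
    ((algebraMap K P.SplittingField).comp (algebraMap A K)).toAlgebra
  refine ⟨P.SplittingField, inferInstance, inferInstance, algA,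
    IsScalarTower.of_algebraMap_eq fun x => rfl, inferInstance,
    IsGalois.of_separable_splitting_field hsep, fun i => l[i.1], ?_, ?_, ?_⟩
  · intro i j hij
    have h1 : l.Nodup := by
      rw [← Multiset.coe_nodup, hcoe]
      exact hnd
    exact Fin.ext ((List.Nodup.getElem_inj_iff h1).1 hij)
  · rw [Fin.prod_univ_fun_getElem l (fun a => X - C a)]
    conv_lhs => rw [hsp.eq_prod_roots_of_monic hmon, ← hcoe]
    rw [Multiset.map_coe, Multiset.prod_coe]
  · rw [eq_top_iff]
    have h1 := SplittingField.adjoin_rootSet P
    have h2 : P.rootSet P.SplittingField ⊆ Set.range (fun i : Fin l.length => l[i.1]) := by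
      intro x hx
      rw [rootSet, Finset.mem_coe, Multiset.mem_toFinset, aroots_def, ← hcoe,
        Multiset.mem_coe, List.mem_iff_getElem] at hx
      obtain ⟨i, hi, rfl⟩ := hx
      exact ⟨⟨i, hi⟩, rfl⟩
    have h3 := (Algebra.adjoin_mono h2).trans
      (IntermediateField.algebra_adjoin_le_adjoin K (Set.range (fun i : Fin l.length => l[i.1])))
    rw [h1] at h3
    intro x _
    exact h3 Algebra.mem_top

end Pool.Agent.AFA
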