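import Pool.Agent.AFA.Def

set_option autoImplicit false

namespace Pool.Agent.AFA

open Polynomial

/-- ROW I1. `G(Y) + x H(Y)` is irreducible in `k[x][Y]` when `G`, `H` are coprime and `H ≠ 0`.

Proof. Apply the automorphism `Polynomial.Bivariate.swap` (`MulEquiv.irreducible_iff`,
`Bivariate.swap_map_C`, `Bivariate.swap_X`): the polynomial becomes `C G + X * C H` in `k[Y][x]`,
a polynomial of degree 1 in `x` whose two coefficients are relatively prime, which is irreducible
by `Polynomial.irreducible_of_degree_eq_one_of_isRelPrime_coeff`. -/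
theorem irreducible_linear {k : Type} [Field k] (G H : k[X]) (hH : H ≠ 0) (hcop : IsCoprime G H) :
    Irreducible (G.map (C : k →+* k[X]) + C (X : k[X]) * H.map (C : k →+* k[X]) : k[X][X]) := by
  rw [← MulEquiv.irreducible_iff (Bivariate.swap (R := k))]
  have h1 : Bivariate.swap (R := k) (G.map (C : k →+* k[X]) + C (X : k[X]) * H.map (C : k →+* k[X]))
      = C H * X + C G := by
    rw [map_add, map_mul, Bivariate.swap_map_C, Bivariate.swap_map_C, Bivariate.swap_X]
    ring
  rw [h1]
  exact irreducible_C_mul_X_add_C hH hcop.symm.isRelPrime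

end Pool.Agent.AFA
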