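import Pool.Agent.AFA.Def

set_option autoImplicit false

namespace Pool.Agent.AFA

open Polynomial

/-- ROW I2. `G(Y) + (x ^ 2 + x + c) H(Y)` is irreducible in `k[x][Y]` when `G`, `H` are coprime,
`H ≠ 0`, and `deg G > deg H` with `deg G - deg H` odd.

Proof. After `Bivariate.swap` we must show that
`F = C H * X ^ 2 + C H * X + C (C c * H + G)` is irreducible in `k[Y][x]`. It is primitive
(`G, H` coprime) of degree 2 in `x`. Suppose `F = U * V` with `U, V` of degrees `(0, 2)` in `x`
(or `(2, 0)`): then `U = C u` with `u` dividing `H` and `c H + G`, hence `u` divides `G` and `H`, so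
`u` is a unit. Suppose the degrees are `(1, 1)`: `U = α x + β`, `V = γ x + δ` with
`α γ = H`, `α δ + β γ = H`, `β δ = c H + G` in `k[Y]`. Let `a, b, c', d` be the degrees of
`α, β, γ, δ` (all nonzero), `h = deg H`, `n = deg G = deg (c H + G) > h`. Then `a + c' = h`,
`b + d = n`, so `(a + d) + (b + c') = h + n`. If `a + d ≠ b + c'` then
`deg (α δ + β γ) = max (a + d) (b + c') > h` because the sum is `h + n > 2 h`, contradiction. If
`a + d = b + c'` then `n + h = 2 (a + d)`, and `n - h` is even, contradiction. (The degrees in `x`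
of `U` and `V` add up to 2 because `k[Y][x]` is a domain.) -/
theorem irreducible_quadratic {k : Type} [Field k] (c : k) (G H : k[X]) (hH : H ≠ 0)
    (hcop : IsCoprime G H) (hlt : H.natDegree < G.natDegree)
    (hodd : Odd (G.natDegree - H.natDegree)) :
    Irreducible (G.map (C : k →+* k[X]) + C (X ^ 2 + X + C c : k[X]) * H.map (C : k →+* k[X]) :
      k[X][X]) := by
  have hsw : Bivariate.swap (R := k) (G.map (C : k →+* k[X]) + C (X ^ 2 + X + C c : k[X]) *
      H.map (C : k →+* k[X])) = C H * X ^ 2 + C H * X + C (C c * H + G) := by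
    rw [map_add, map_mul, Bivariate.swap_map_C, Bivariate.swap_C, Bivariate.swap_map_C]
    simp only [Polynomial.map_add, Polynomial.map_pow, map_X, map_C, C_add, C_mul]
    ring
  rw [← MulEquiv.irreducible_iff (Bivariate.swap (R := k)), hsw]
  set F : k[X][X] := C H * X ^ 2 + C H * X + C (C c * H + G) with hF
  have c0 : F.coeff 0 = C c * H + G := by simp [hF]
  have c2 : F.coeff 2 = H := by simp [hF, coeff_X, coeff_C]
  have c1 : F.coeff 1 = H := by simp [hF, coeff_X, coeff_C]
  have hdeg : F.natDegree = 2 := natDegree_quadratic hH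
  have hF0 : F ≠ 0 := by
    intro h
    rw [h, natDegree_zero] at hdeg
    exact absurd hdeg (by norm_num)
  have hunit : ∀ U V : k[X][X], F = U * V → U.natDegree = 0 → IsUnit U := by
    intro U V hUV h0
    obtain ⟨u, hu⟩ : ∃ u, U = C u := ⟨_, eq_C_of_natDegree_eq_zero h0⟩
    have hdv : ∀ j, u ∣ F.coeff j := by
      intro j
      rw [hUV, hu, coeff_C_mul]
      exact dvd_mul_right _ _
    have h1 : u ∣ H := c2 ▸ hdv 2
    have h2 : u ∣ G := by
      have h3 : u ∣ C c * H + G := c0 ▸ hdv 0
      exact (dvd_add_right (h1.mul_left _)).1 h3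
    rw [hu]
    exact isUnit_C.2 (hcop.isUnit_of_dvd' h2 h1)
  refine irreducible_iff.2 ⟨fun h => ?_, fun U V hUV => ?_⟩
  · have := natDegree_eq_zero_of_isUnit h
    omega
  · have hU0 : U ≠ 0 := fun h => hF0 (by rw [hUV, h, zero_mul])
    have hV0 : V ≠ 0 := fun h => hF0 (by rw [hUV, h, mul_zero])
    have hd : U.natDegree + V.natDegree = 2 := by
      rw [← natDegree_mul hU0 hV0, ← hUV, hdeg]
    by_cases hU : U.natDegree = 0
    · exact Or.inl (hunit U V hUV hU)
    by_cases hV : V.natDegree = 0
    · exact Or.inr (hunit V U (by rw [hUV, mul_comm]) hV)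
    exfalso
    have hU1 : U.natDegree = 1 := by omega
    have hV1 : V.natDegree = 1 := by omega
    have e0 : U.coeff 0 * V.coeff 0 = C c * H + G := by
      rw [← mul_coeff_zero, ← hUV, c0]
    have e1 : U.coeff 0 * V.coeff 1 + U.coeff 1 * V.coeff 0 = H := by
      rw [← mul_coeff_one, ← hUV, c1]
    have e2 : U.coeff 1 * V.coeff 1 = H := by
      rw [← coeff_mul_add_eq_of_natDegree_le hU1.le hV1.le, ← hUV, c2]
    have hcG : (C c * H + G).natDegree = G.natDegree :=
      natDegree_add_eq_right_of_natDegree_lt ((natDegree_C_mul_le c H).trans_lt hlt)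
    have hcG0 : C c * H + G ≠ 0 := by
      intro h
      rw [h, natDegree_zero] at hcG
      omega
    have hα : U.coeff 1 ≠ 0 := fun h => hH (by rw [← e2, h, zero_mul])
    have hγ : V.coeff 1 ≠ 0 := fun h => hH (by rw [← e2, h, mul_zero])
    have hβ : U.coeff 0 ≠ 0 := fun h => hcG0 (by rw [← e0, h, zero_mul])
    have hδ : V.coeff 0 ≠ 0 := fun h => hcG0 (by rw [← e0, h, mul_zero])
    have d0 : (U.coeff 0).natDegree + (V.coeff 0).natDegree = G.natDegree := by
      rw [← natDegree_mul hβ hδ, e0, hcG]
    have d2 : (U.coeff 1).natDegree + (V.coeff 1).natDegree = H.natDegree := by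
      rw [← natDegree_mul hα hγ, e2]
    have d3 : (U.coeff 0 * V.coeff 1).natDegree = (U.coeff 0).natDegree + (V.coeff 1).natDegree :=
      natDegree_mul hβ hγ
    have d4 : (U.coeff 1 * V.coeff 0).natDegree = (U.coeff 1).natDegree + (V.coeff 0).natDegree :=
      natDegree_mul hα hδ
    obtain ⟨m, hm⟩ := hodd
    rcases lt_trichotomy (U.coeff 0 * V.coeff 1).natDegree (U.coeff 1 * V.coeff 0).natDegree with h | h | h
    · have h5 := natDegree_add_eq_right_of_natDegree_lt h
      rw [e1] at h5
      omega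
    · omega
    · have h5 := natDegree_add_eq_left_of_natDegree_lt h
      rw [e1] at h5
      omega

end Pool.Agent.AFA
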