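import Pool.Agent.AFA.E2

set_option autoImplicit false

namespace Pool.Agent.AFA

open Polynomial

/-- ROW I3. `G(Y) + (x ^ 2 + x + c) H(Y)` is irreducible in `F_2[x][Y]` when `G`, `H` are coprime,
`H ≠ 0`, and `G / H = g ^ 2 + g + m` with `g ∈ F_2(Y)` and a polynomial `m` of odd degree.

Proof. As in `irreducible_quadratic` (file `I2.lean`), after `Bivariate.swap` we must show that
`F = C H * X ^ 2 + C H * X + C (C c * H + G)` is irreducible in `k[Y][x]` (`k = ZMod 2`). It is
primitive (a common divisor of `H` and `c H + G` divides `G`), so by Gauss' lemma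
(`Polynomial.IsPrimitive.irreducible_iff_irreducible_map_fraction_map`) it is enough to show that
its image over `K = RatFunc (ZMod 2)` is irreducible. The image has degree 2 in `x` (`H ≠ 0`), so
it is enough that it has no root in `K` (`Polynomial.irreducible_iff_roots_eq_zero_of_degree_le_three`
or `Polynomial.Monic.irreducible_of_...`). A root `f` satisfies `H (f ^ 2 + f + c) + G = 0`, so
(characteristic 2) `f ^ 2 + f + c = G / H = g ^ 2 + g + m` and
`(f + g) ^ 2 + (f + g) = m + c`, which contradicts `artinSchreier_odd`, because `m + C c` has the same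
degree as `m` (`m.natDegree` is odd, so positive). -/
theorem irreducible_artinSchreier (c : ZMod 2) (G H : (ZMod 2)[X]) (hH : H ≠ 0)
    (hcop : IsCoprime G H) (g : RatFunc (ZMod 2)) (m : (ZMod 2)[X]) (hm : Odd m.natDegree)
    (hg : algebraMap (ZMod 2)[X] (RatFunc (ZMod 2)) G = algebraMap (ZMod 2)[X] (RatFunc (ZMod 2)) H *
      (g ^ 2 + g + algebraMap (ZMod 2)[X] (RatFunc (ZMod 2)) m)) :
    Irreducible (G.map (C : ZMod 2 →+* (ZMod 2)[X]) + C (X ^ 2 + X + C c : (ZMod 2)[X]) *
      H.map (C : ZMod 2 →+* (ZMod 2)[X]) : (ZMod 2)[X][X]) := by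
  have hsw : Bivariate.swap (R := ZMod 2) (G.map (C : ZMod 2 →+* (ZMod 2)[X]) + C (X ^ 2 + X + C c : (ZMod 2)[X]) *
      H.map (C : ZMod 2 →+* (ZMod 2)[X])) = C H * X ^ 2 + C H * X + C (C c * H + G) := by
    rw [map_add, map_mul, Bivariate.swap_map_C, Bivariate.swap_C, Bivariate.swap_map_C]
    simp only [Polynomial.map_add, Polynomial.map_pow, map_X, map_C, C_add, C_mul]
    ring
  rw [← MulEquiv.irreducible_iff (Bivariate.swap (R := ZMod 2)), hsw]
  set F : (ZMod 2)[X][X] := C H * X ^ 2 + C H * X + C (C c * H + G) with hF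
  have c0 : F.coeff 0 = C c * H + G := by simp [hF]
  have c2 : F.coeff 2 = H := by simp [hF, coeff_X, coeff_C]
  have hdeg : F.natDegree = 2 := natDegree_quadratic hH
  have hF0 : F ≠ 0 := by
    intro h
    rw [h, natDegree_zero] at hdeg
    exact absurd hdeg (by norm_num)
  have hunit : ∀ U V : (ZMod 2)[X][X], F = U * V → U.natDegree = 0 → IsUnit U := by
    intro U V hUV h0
    obtain ⟨u, hu⟩ : ∃ u, U = C u := ⟨_, eq_C_of_natDegree_eq_zero h0⟩
    have hdv : ∀ j, u ∣ F.coeff j := by
      intro j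
      rw [hUV, hu, coeff_C_mul]
      exact dvd_mul_right _ _
    have h1 : u ∣ H := c2 ▸ hdv 2
    have h2 : u ∣ G := by
      have h3 : u ∣ C c * H + G := c0 ▸ hdv 0
      exact (dvd_add_right (h1.mul_left _)).1 h3
    rw [hu]
    exact isUnit_C.2 (hcop.isUnit_of_dvd' h2 h1)
  refine irreducible_iff.2 ⟨fun h => ?_, fun U V hUV => ?_⟩
  · have := natDegree_eq_zero_of_isUnit h
    omega
  · have hU0 : U ≠ 0 := fun h => hF0 (by rw [hUV, h, zero_mul])
    have hV0 : V ≠ 0 := fun h => hF0 (by rw [hUV, h, mul_zero])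
    have hd : U.natDegree + V.natDegree = 2 := by
      rw [← natDegree_mul hU0 hV0, ← hUV, hdeg]
    by_cases hU : U.natDegree = 0
    · exact Or.inl (hunit U V hUV hU)
    by_cases hV : V.natDegree = 0
    · exact Or.inr (hunit V U (by rw [hUV, mul_comm]) hV)
    exfalso
    have hU1 : U.natDegree = 1 := by omega
    have hα : U.coeff 1 ≠ 0 := by
      rw [← hU1]
      exact leadingCoeff_ne_zero.2 hU0
    set a : (ZMod 2)[X] →+* RatFunc (ZMod 2) := algebraMap (ZMod 2)[X] (RatFunc (ZMod 2)) with ha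
    have hainj : Function.Injective a := IsFractionRing.injective (ZMod 2)[X] (RatFunc (ZMod 2))
    have hαa : a (U.coeff 1) ≠ 0 := fun h => hα (hainj (h.trans (map_zero a).symm))
    have hHa : a H ≠ 0 := fun h => hH (hainj (h.trans (map_zero a).symm))
    obtain ⟨f, hf⟩ : ∃ f : RatFunc (ZMod 2), a (U.coeff 1) * f + a (U.coeff 0) = 0 := by
      refine ⟨-a (U.coeff 0) / a (U.coeff 1), ?_⟩
      field_simp
      ring
    have hUf : eval₂ a f U = 0 := by
      rw [eval₂_eq_sum_range, hU1, Finset.sum_range_succ, Finset.sum_range_one, pow_zero, pow_one, mul_one]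
      linear_combination hf
    have hFf : eval₂ a f F = 0 := by rw [hUV, eval₂_mul, hUf, zero_mul]
    rw [hF, eval₂_add, eval₂_add, eval₂_mul, eval₂_mul, eval₂_C, eval₂_pow, eval₂_X, eval₂_C, map_add, map_mul,
      hg] at hFf
    have h2 : (2 : RatFunc (ZMod 2)) = 0 := by
      have h3 : (2 : (ZMod 2)[X]) = 0 := by
        have h4 : (2 : (ZMod 2)[X]) = C (2 : ZMod 2) := by rfl
        rw [h4, show (2 : ZMod 2) = 0 from rfl, C_0]
      have h5 : (2 : RatFunc (ZMod 2)) = a 2 := by
        rw [map_ofNat]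
      rw [h5, h3, map_zero]
    have h6 : f ^ 2 + f + a (C c) + (g ^ 2 + g + a m) = 0 := by
      refine (mul_eq_zero.1 ?_).resolve_left hHa
      linear_combination hFf
    have h7 : Odd (m + C c).natDegree := by
      rw [natDegree_add_C]
      exact hm
    refine artinSchreier_odd (m + C c) h7 (f + g) ?_
    rw [map_add]
    linear_combination h6 + h2 * (f * g - a (C c) - a m)

end Pool.Agent.AFA
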