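import Mathlib

set_option autoImplicit false

namespace Pool.Agent.AFA

open Equiv.Perm MulAction

/-- ROW J1. A transitive permutation group of degree `n < 2 r` which contains an `r`-cycle
(`r` prime) is primitive.

Proof. Use `MulAction.IsPreprimitive.of_card_lt` (file
`Mathlib/GroupTheory/GroupAction/Primitive.lean`: if `f : X →ₑ[φ] Y` is equivariant, `M` acts
preprimitively on `X`, `N` acts transitively on the finite set `Y` and
`Nat.card Y < 2 * (Set.range f).ncard`, then `N` acts preprimitively on `Y`).
Take `X := SubMulAction.ofFixingSubgroup G (g.support : Set α)ᶜ` with the group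
`fixingSubgroup G (g.support : Set α)ᶜ` (exactly as in the proofs of
`Equiv.Perm.subgroup_eq_top_of_isPreprimitive_of_isSwap_mem` and
`alternatingGroup_le_of_isPreprimitive_of_isThreeCycle_mem` in
`Mathlib/GroupTheory/GroupAction/Jordan.lean`): it is transitive on `X` by
`isPretransitive_of_isCycle_mem hgc hg`, hence preprimitive by `IsPreprimitive.of_prime_card`
because `Nat.card X = g.support.card = r` is prime. The inclusion `X → α` is equivariant with
respect to the inclusion of `fixingSubgroup G (g.support : Set α)ᶜ` in `G`
(`SubMulAction.inclusion` or an explicit `MulActionHom`), and its range is `g.support`, which has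
`r` elements; `Nat.card α < 2 r`. -/
theorem isPreprimitive_of_cycle {α : Type} [Fintype α] [DecidableEq α]
    (G : Subgroup (Equiv.Perm α)) (htr : IsPretransitive G α) {r : ℕ} (hr : r.Prime)
    {g : Equiv.Perm α} (hgc : g.IsCycle) (hgr : g.support.card = r) (hg : g ∈ G)
    (h1 : Fintype.card α < 2 * r) : IsPreprimitive G α := by
  have htX := isPretransitive_of_isCycle_mem (G := G) hgc hg
  have hset : ((SubMulAction.ofFixingSubgroup G ((g.support : Set α)ᶜ) :
      SubMulAction (fixingSubgroup G ((g.support : Set α)ᶜ)) α) : Set α) = (g.support : Set α) := by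
    ext x
    rw [SetLike.mem_coe, SubMulAction.mem_ofFixingSubgroup_iff, Set.mem_compl_iff, not_not]
  have hcard : Nat.card (SubMulAction.ofFixingSubgroup G ((g.support : Set α)ᶜ)) = r := by
    have h2 : Nat.card (SubMulAction.ofFixingSubgroup G ((g.support : Set α)ᶜ)) =
        ((SubMulAction.ofFixingSubgroup G ((g.support : Set α)ᶜ) :
          SubMulAction (fixingSubgroup G ((g.support : Set α)ᶜ)) α) : Set α).ncard :=
      Nat.card_coe_set_eq _
    rw [h2, hset, Set.ncard_coe_finset, hgr]
  have hprim : IsPreprimitive (fixingSubgroup G ((g.support : Set α)ᶜ))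
      (SubMulAction.ofFixingSubgroup G ((g.support : Set α)ᶜ)) :=
    IsPreprimitive.of_prime_card (hGX := htX) (by rw [hcard]; exact hr)
  let φ : fixingSubgroup G ((g.support : Set α)ᶜ) → G := fun m => (m : G)
  let f : (SubMulAction.ofFixingSubgroup G ((g.support : Set α)ᶜ)) →ₑ[φ] α :=
    { toFun := fun x => (x : α)
      map_smul' := fun m x => rfl }
  have hrange : Set.range f = (g.support : Set α) := by
    refine Eq.trans ?_ hset
    exact Subtype.range_coe
  refine IsPreprimitive.of_card_lt (f := f) ?_
  rw [hrange, Set.ncard_coe_finset, hgr, Nat.card_eq_fintype_card]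
  exact h1

end Pool.Agent.AFA
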