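import Mathlib

set_option autoImplicit false

namespace Pool.Agent.AFA

open Equiv.Perm MulAction

/-- ROW J2a. Multiple transitivity in a primitive group containing a cycle `g` of prime length
`r`, with `r + 3 ≤ |α|`: every permutation `π` which preserves the set of fixed points of `g` is
induced on this set by an element of `G`.

Proof. This is Jordan's multiple primitivity criterion. Put `s := (g.support : Set α)ᶜ`; then
`s.ncard = |α| - r = m + 1` with `m ≥ 2`. As in the proof of
`alternatingGroup_le_of_isPreprimitive_of_isThreeCycle_mem` in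
`Mathlib/GroupTheory/GroupAction/Jordan.lean` (last theorem of the file), the fixing subgroup of
`s` acts transitively (`isPretransitive_of_isCycle_mem hgc hg`) and hence preprimitively
(`IsPreprimitive.of_prime_card`) on `SubMulAction.ofFixingSubgroup G s`, so
`hG.isMultiplyPreprimitive (s := s) (n := m)` gives `IsMultiplyPreprimitive G α (m + 2)`, hence
`IsMultiplyPretransitive G α (m + 2)` and also `IsMultiplyPretransitive G α (m + 1)`
(`isMultiplyPretransitive_of_le'`). Enumerate `s` by an embedding `x : Fin (m + 1) ↪ α` with range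
`s`; the embedding `π ∘ x` is another one, and multiple transitivity gives `h ∈ G` with
`h (x k) = π (x k)` for all `k`, that is `h y = π y` for every `y ∉ g.support`. -/
theorem exists_lift {α : Type} [Fintype α] [DecidableEq α]
    (G : Subgroup (Equiv.Perm α)) (hG : IsPreprimitive G α) {r : ℕ} (hr : r.Prime)
    {g : Equiv.Perm α} (hgc : g.IsCycle) (hgr : g.support.card = r) (hg : g ∈ G)
    (h3 : r + 3 ≤ Fintype.card α) (π : Equiv.Perm α) :
    ∃ h ∈ G, ∀ y, y ∉ g.support → h y = π y := by
  classical
  have hr2 : 2 ≤ r := hr.two_le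
  have hsum : (((g.support : Finset α) : Set α)ᶜ).ncard + r = Fintype.card α := by
    have h1 := Set.ncard_add_ncard_compl ((g.support : Finset α) : Set α)
    rw [Set.ncard_coe_finset, hgr, Nat.card_eq_fintype_card] at h1
    omega
  obtain ⟨m, hm⟩ : ∃ m, (((g.support : Finset α) : Set α)ᶜ).ncard = m + 1 :=
    ⟨(((g.support : Finset α) : Set α)ᶜ).ncard - 1, by omega⟩
  have hcard : Nat.card α = m + 1 + r := by
    rw [Nat.card_eq_fintype_card]
    omega
  have hmp : IsMultiplyPreprimitive G α (m + 2) := by
    apply hG.isMultiplyPreprimitive (s := (((g.support : Finset α) : Set α)ᶜ)) hm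
    · omega
    have := isPretransitive_of_isCycle_mem hgc hg
    apply IsPreprimitive.of_prime_card
    convert! hr
    rw [Nat.card_eq_fintype_card, Fintype.card_subtype, ← hgr]
    apply congr_arg
    ext x
    simp [SubMulAction.mem_ofFixingSubgroup_iff]
  have hmt : IsMultiplyPretransitive G α (m + 2) :=
    IsMultiplyPreprimitive.isMultiplyPretransitive ..
  have hmt' : IsMultiplyPretransitive G α (m + 1) :=
    isMultiplyPretransitive_of_le (n := m + 2) (by omega) (by omega)
  have hfin : Nat.card ↥(((g.support : Finset α) : Set α)ᶜ) = m + 1 := hm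
  let E := (Finite.equivFinOfCardEq hfin).symm
  let x : Fin (m + 1) ↪ α := E.toEmbedding.trans (Function.Embedding.subtype _)
  obtain ⟨h, hh⟩ := (isMultiplyPretransitive_iff (G := G) (α := α)).1 hmt' x
    (x.trans π.toEmbedding)
  refine ⟨h.1, h.2, ?_⟩
  intro y hy
  have hy' : y ∈ (((g.support : Finset α) : Set α)ᶜ) := fun hc => hy (Finset.mem_coe.1 hc)
  have h1 := DFunLike.congr_fun hh (E.symm ⟨y, hy'⟩)
  have h2 : x (E.symm ⟨y, hy'⟩) = y := by
    show (E (E.symm ⟨y, hy'⟩)).1 = y
    rw [Equiv.apply_symm_apply]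
  have h3 : (h • x) (E.symm ⟨y, hy'⟩) = h.1 (x (E.symm ⟨y, hy'⟩)) := rfl
  have h4 : (x.trans π.toEmbedding) (E.symm ⟨y, hy'⟩) = π (x (E.symm ⟨y, hy'⟩)) := rfl
  rw [h3, h4, h2] at h1
  exact h1

end Pool.Agent.AFA
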