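import Mathlib

set_option autoImplicit false

namespace Pool.Agent.AFA

open Equiv.Perm MulAction

theorem j2b_inv_mem {α : Type} [DecidableEq α] (s : Finset α) (h : Equiv.Perm α)
    (hs : ∀ x ∈ s, h x ∈ s) {y : α} (hy : y ∈ s) : h⁻¹ y ∈ s := by
  have h1 : s.image h = s := by
    apply Finset.eq_of_subset_of_card_le
    · intro z hz
      obtain ⟨x, hx, rfl⟩ := Finset.mem_image.1 hz
      exact hs x hx
    · rw [Finset.card_image_of_injective s h.injective]
  rw [← h1] at hy
  obtain ⟨x, hx, rfl⟩ := Finset.mem_image.1 hy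
  show h.symm (h x) ∈ s
  rw [Equiv.symm_apply_apply]
  exact hx

/-- the permutations which fix the complement of `s` -/
def j2bFix {α : Type} (s : Finset α) : Subgroup (Equiv.Perm α) where
  carrier := {f | ∀ y, y ∉ s → f y = y}
  one_mem' := fun _ _ => rfl
  mul_mem' := by
    intro a b ha hb y hy
    rw [Equiv.Perm.mul_apply, hb y hy, ha y hy]
  inv_mem' := by
    intro a ha y hy
    rw [Equiv.Perm.inv_eq_iff_eq, ha y hy]

theorem j2b_card {α : Type} [Fintype α] [DecidableEq α] (s : Finset α) :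
    Nat.card (j2bFix s) = (s.card).factorial := by
  have h1 : Nat.card (j2bFix s) = Nat.card {f : Equiv.Perm α // ∀ a, ¬ a ∈ s → f a = a} := rfl
  rw [h1, ← Nat.card_congr (Equiv.Perm.subtypeEquivSubtypePerm (fun a => a ∈ s)),
    Nat.card_eq_fintype_card, Fintype.card_perm, Fintype.card_coe]

theorem j2b_not_sq_dvd {r : ℕ} (hr : r.Prime) : ¬ r ^ 2 ∣ r.factorial := by
  intro h
  have hr1 : r = (r - 1) + 1 := by have := hr.pos; omega
  have h1 : r.factorial = r * (r - 1).factorial := by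
    conv_lhs => rw [hr1]
    rw [Nat.factorial_succ, ← hr1]
  rw [h1, sq, Nat.mul_dvd_mul_iff_left hr.pos, hr.dvd_factorial] at h
  have := hr.pos
  omega

/-- ROW J2b. Frattini argument: let `g ∈ G` have support of prime cardinality `r` and order `r`,
and let `h₀ ∈ G` map the set of fixed points of `g` into itself. Then `h₀` can be changed into
`h ∈ G` with the same values on the fixed points of `g` and which normalises `⟨g⟩`.

Proof. Let `F` be the subgroup of all `f ∈ G` with `f y = y` for all `y ∉ g.support`. The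
restriction `F → Perm g.support` is injective (e.g. via
`Equiv.Perm.subtypePerm`/`Equiv.Perm.subtypeEquivSubtypePerm`, `F` is in bijection with a
subgroup of `Perm {y // y ∈ g.support}`), so `Nat.card F ∣ r !`, and `r ^ 2 ∤ r !`; so every
subgroup of `F` of order `r` is a Sylow `r`-subgroup of `F`. Both `zpowers g` and
`zpowers (h₀ * g * h₀⁻¹)` are contained in `F` and have order `r`: for the second one,
`h₀` is injective and maps the finite set of fixed points of `g` to itself, so it is a bijection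
of this set and `h₀⁻¹` also preserves it; so `h₀ * g * h₀⁻¹` fixes every fixed point of `g`.
By Sylow (`Sylow.exists_smul_eq`/`MulAction.exists_smul_eq` in the group `F`) there is `u ∈ F` with
`u (zpowers (h₀ * g * h₀⁻¹)) u⁻¹ = zpowers g`. Take `h := u * h₀`. -/
theorem exists_normalizing {α : Type} [Fintype α] [DecidableEq α]
    (G : Subgroup (Equiv.Perm α)) {r : ℕ} (hr : r.Prime)
    {g : Equiv.Perm α} (hgo : orderOf g = r) (hgr : g.support.card = r) (hg : g ∈ G)
    {h₀ : Equiv.Perm α} (hh₀ : h₀ ∈ G) (hpres : ∀ y, y ∉ g.support → h₀ y ∉ g.support) :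
    ∃ h ∈ G, (∀ y, y ∉ g.support → h y = h₀ y) ∧ h * g * h⁻¹ ∈ Subgroup.zpowers g := by
  have : Fact r.Prime := ⟨hr⟩
  let F : Subgroup (Equiv.Perm α) := G ⊓ j2bFix g.support
  have hinv : ∀ y, y ∉ g.support → h₀⁻¹ y ∉ g.support := by
    intro y hy
    have h1 := j2b_inv_mem (g.supportᶜ) h₀ (fun x hx => Finset.mem_compl.2 (hpres x (Finset.mem_compl.1 hx)))
      (Finset.mem_compl.2 hy)
    exact Finset.mem_compl.1 h1
  have hgF : g ∈ F := ⟨hg, fun y hy => Equiv.Perm.notMem_support.1 hy⟩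
  have hcF : h₀ * g * h₀⁻¹ ∈ F := by
    have hcG : h₀ * g * h₀⁻¹ ∈ G := G.mul_mem (G.mul_mem hh₀ hg) (G.inv_mem hh₀)
    refine ⟨hcG, fun y hy => ?_⟩
    rw [Equiv.Perm.mul_apply, Equiv.Perm.mul_apply, Equiv.Perm.notMem_support.1 (hinv y hy)]
    exact Equiv.apply_symm_apply h₀ y
  have hco : orderOf (h₀ * g * h₀⁻¹) = r := by
    rw [← hgo, ← MulEquiv.orderOf_eq (MulAut.conj h₀) g, MulAut.conj_apply]
  have hg' : Nat.card (Subgroup.zpowers (⟨g, hgF⟩ : F)) = r := by
    rw [Nat.card_zpowers, Subgroup.orderOf_mk, hgo]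
  have hc' : Nat.card (Subgroup.zpowers (⟨h₀ * g * h₀⁻¹, hcF⟩ : F)) = r := by
    rw [Nat.card_zpowers, Subgroup.orderOf_mk, hco]
  have hFne : Nat.card F ≠ 0 := Nat.card_pos.ne'
  have hfac : (Nat.card F).factorization r = 1 := by
    have h1 : r ∣ Nat.card F := by
      rw [← hg']
      exact Subgroup.card_subgroup_dvd_card _
    have h2 : ¬ r ^ 2 ∣ Nat.card F := by
      intro h3
      apply j2b_not_sq_dvd hr
      have h4 : Nat.card F ∣ Nat.card (j2bFix g.support) := Subgroup.card_dvd_of_le inf_le_right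
      rw [j2b_card, hgr] at h4
      exact h3.trans h4
    have h3 : 1 ≤ (Nat.card F).factorization r :=
      (hr.dvd_iff_one_le_factorization hFne).1 h1
    have h4 : ¬ 2 ≤ (Nat.card F).factorization r := fun h5 =>
      h2 ((hr.pow_dvd_iff_le_factorization hFne).2 h5)
    omega
  let P : Sylow r F := Sylow.ofCard (Subgroup.zpowers (⟨g, hgF⟩ : F)) (by rw [hfac, pow_one]; exact hg')
  let Q : Sylow r F := Sylow.ofCard (Subgroup.zpowers (⟨h₀ * g * h₀⁻¹, hcF⟩ : F))
    (by rw [hfac, pow_one]; exact hc')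
  obtain ⟨u, hu⟩ := MulAction.exists_smul_eq F Q P
  have h1 : MulAut.conj u • (⟨h₀ * g * h₀⁻¹, hcF⟩ : F) ∈ ((u • Q : Sylow r F) : Subgroup F) := by
    rw [Sylow.coe_subgroup_smul]
    exact Subgroup.smul_mem_pointwise_smul _ _ _ (Subgroup.mem_zpowers _)
  rw [hu] at h1
  have h2 : MulAut.conj u • (⟨h₀ * g * h₀⁻¹, hcF⟩ : F) ∈ Subgroup.zpowers (⟨g, hgF⟩ : F) := h1
  obtain ⟨n, hn⟩ := Subgroup.mem_zpowers_iff.1 h2
  have h3 : g ^ n = u.1 * (h₀ * g * h₀⁻¹) * u.1⁻¹ := congrArg Subtype.val hn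
  refine ⟨u.1 * h₀, G.mul_mem u.2.1 hh₀, fun y hy => ?_, ?_⟩
  · rw [Equiv.Perm.mul_apply]
    exact u.2.2 _ (hpres y hy)
  · refine Subgroup.mem_zpowers_iff.2 ⟨n, ?_⟩
    rw [h3, mul_inv_rev]
    group

end Pool.Agent.AFA
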