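import Mathlib

set_option autoImplicit false

namespace Pool.Agent.AFA

open Equiv.Perm MulAction

theorem j2c_swapfix {α : Type} [Fintype α] [DecidableEq α] (g : Equiv.Perm α) {x y : α}
    (hx : x ∉ g.support) (hy : y ∉ g.support) {w : α} (hw : w ∉ g.support) :
    Equiv.swap x y w ∉ g.support := by
  rw [Equiv.swap_apply_def]
  split_ifs
  · exact hy
  · exact hx
  · exact hw

theorem j2c_inv {α : Type} [Fintype α] [DecidableEq α] (g a : Equiv.Perm α) {x y : α}
    (hx : x ∉ g.support) (hy : y ∉ g.support)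
    (ha' : ∀ w, w ∉ g.support → a w = Equiv.swap x y w) {w : α} (hw : w ∉ g.support) :
    a⁻¹ w = Equiv.swap x y w := by
  have h1 := ha' _ (j2c_swapfix g hx hy hw)
  rw [Equiv.swap_apply_self] at h1
  rw [Equiv.Perm.inv_eq_iff_eq, h1]

/-- ROW J2c. Commutator argument. Let `g ∈ G` be a cycle, let `x, y, z` be three distinct points
fixed by `g`, and let `a, b ∈ G` normalise `⟨g⟩`, where on the fixed points of `g` the permutation
`a` is the transposition `(x y)` and `b` is the transposition `(y z)`. Then `G` contains a 3-cycle.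

Proof. `a g a⁻¹ = g ^ i` and `b g b⁻¹ = g ^ j` for integers `i, j` (so also
`a⁻¹ g a`, `b⁻¹ g b` are powers of `g`, because conjugation by `a` is injective on the finite
group `zpowers g`); hence `a` and `b` commute up to the centraliser: conjugation by
`c := a * b * a⁻¹ * b⁻¹` is the commutator of two endomorphisms `t ↦ t ^ i`, `t ↦ t ^ j` of the
cyclic group `zpowers g`, which commute, so `c * g * c⁻¹ = g`, i.e. `c` commutes with `g`.
Since `g` is a cycle and `c` commutes with it, there is an integer `k` such that `c` agrees with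
`g ^ k` on the support of `g` (Mathlib: `Equiv.Perm.IsCycle.commute_iff'`,
`Equiv.Perm.IsCycle.commute_iff`, or directly: pick `p` in the support, `c p` is in the support,
`c p = (g ^ k) p`, and then `c (g ^ m p) = g ^ m (c p) = g ^ k (g ^ m p)`). Put
`t := c * (g ^ k)⁻¹ ∈ G`. It is the identity on the support of `g` (`(g ^ k)⁻¹` preserves the
support). On a fixed point `w` of `g` it equals `c w`, and `c` is computed from the two
transpositions: `a b a⁻¹ b⁻¹` on the fixed points is `(x y)(y z)(x y)(y z)`, which is a 3-cycle on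
`{x, y, z}` and fixes the other fixed points. So `t` is a 3-cycle (e.g. show
`t = Equiv.swap x y * Equiv.swap y z * Equiv.swap x y * Equiv.swap y z` by `Equiv.ext`, and use
`Equiv.Perm.isThreeCycle_swap_mul_swap_same` after simplification, or
`Equiv.Perm.isThreeCycle_isThreeCycle...`). -/
theorem exists_three_cycle {α : Type} [Fintype α] [DecidableEq α]
    (G : Subgroup (Equiv.Perm α)) {g : Equiv.Perm α} (hgc : g.IsCycle) (hg : g ∈ G)
    {x y z : α} (hxy : x ≠ y) (hyz : y ≠ z) (hxz : x ≠ z)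
    (hx : x ∉ g.support) (hy : y ∉ g.support) (hz : z ∉ g.support)
    {a b : Equiv.Perm α} (ha : a ∈ G) (hb : b ∈ G)
    (ha' : ∀ w, w ∉ g.support → a w = Equiv.swap x y w)
    (hb' : ∀ w, w ∉ g.support → b w = Equiv.swap y z w)
    (han : a * g * a⁻¹ ∈ Subgroup.zpowers g) (hbn : b * g * b⁻¹ ∈ Subgroup.zpowers g) :
    ∃ t ∈ G, t.IsThreeCycle := by
  classical
  obtain ⟨i, hi⟩ := Subgroup.mem_zpowers_iff.mp han
  obtain ⟨j, hj⟩ := Subgroup.mem_zpowers_iff.mp hbn
  have e1 : (a * b) * g * (a * b)⁻¹ = g ^ (i * j) := by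
    have h1 : (a * b) * g * (a * b)⁻¹ = a * (b * g * b⁻¹) * a⁻¹ := by group
    rw [h1, ← hj, ← conj_zpow, ← hi, zpow_mul]
  have e2 : (b * a) * g * (b * a)⁻¹ = g ^ (i * j) := by
    have h1 : (b * a) * g * (b * a)⁻¹ = b * (a * g * a⁻¹) * b⁻¹ := by group
    rw [h1, ← hi, ← conj_zpow, ← hj, ← zpow_mul, mul_comm j i]
  set c : Equiv.Perm α := (b * a)⁻¹ * (a * b) with hc
  have hcg : c * g = g * c := by
    have h1 : (a * b) * g = g ^ (i * j) * (a * b) := by
      rw [← e1]; group
    have h3 : (b * a)⁻¹ * g ^ (i * j) = g * (b * a)⁻¹ := by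
      rw [← e2]; group
    rw [hc, mul_assoc, h1, ← mul_assoc, h3, mul_assoc]
  have hcg' : ∀ w, c (g w) = g (c w) := fun w => by
    have := congrArg (fun f : Equiv.Perm α => f w) hcg
    simpa [Equiv.Perm.mul_apply] using this
  have hcG : c ∈ G := G.mul_mem (G.inv_mem (G.mul_mem hb ha)) (G.mul_mem ha hb)
  have hcz : ∀ (m : ℤ) w, c ((g ^ m) w) = (g ^ m) (c w) := fun m w => by
    have h1 : Commute c (g ^ m) := (show Commute c g from hcg).zpow_right m
    have := congrArg (fun f : Equiv.Perm α => f w) h1.eq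
    simpa only [Equiv.Perm.mul_apply] using this
  have hgc' := hgc
  obtain ⟨p, hp, -⟩ := hgc'
  have hcp : g (c p) ≠ c p := by
    rw [← hcg']
    exact fun h => hp (c.injective h)
  obtain ⟨k, hk⟩ := hgc.exists_zpow_eq hp hcp
  have hck : ∀ w, w ∈ g.support → c w = (g ^ k) w := by
    intro w hw
    obtain ⟨m, hm⟩ := hgc.exists_zpow_eq hp (Equiv.Perm.mem_support.mp hw)
    rw [← hm, hcz, ← hk, ← Equiv.Perm.mul_apply, ← Equiv.Perm.mul_apply, ← zpow_add, ← zpow_add,
      add_comm]
  have hcw : ∀ w, w ∉ g.support →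
      c w = Equiv.swap x y (Equiv.swap y z (Equiv.swap x y (Equiv.swap y z w))) := by
    intro w hw
    have s1 := j2c_swapfix g hy hz hw
    have s2 := j2c_swapfix g hx hy s1
    have s3 := j2c_swapfix g hy hz s2
    have h1 : c w = a⁻¹ (b⁻¹ (a (b w))) := by
      rw [hc, mul_inv_rev]
      simp only [Equiv.Perm.mul_apply]
    rw [h1, hb' w hw, ha' _ s1, j2c_inv g b hy hz hb' s2, j2c_inv g a hx hy ha' s3]
  have hgk : ∀ w, w ∉ g.support → (g ^ k)⁻¹ w = w := by
    intro w hw
    have h1 : g w = w := Equiv.Perm.notMem_support.mp hw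
    rw [Equiv.Perm.inv_eq_iff_eq]
    exact (Equiv.Perm.zpow_apply_eq_self_of_apply_eq_self h1 k).symm
  have hgs : ∀ w, w ∈ g.support → (g ^ k)⁻¹ w ∈ g.support := by
    intro w hw
    rw [← zpow_neg]
    exact Equiv.Perm.zpow_apply_mem_support.mpr hw
  have ht : c * (g ^ k)⁻¹ = (Equiv.swap y x * Equiv.swap y z) * (Equiv.swap y x * Equiv.swap y z) := by
    apply Equiv.ext
    intro w
    simp only [Equiv.Perm.mul_apply]
    by_cases hw : w ∈ g.support
    · rw [hck _ (hgs w hw), ← Equiv.Perm.mul_apply, mul_inv_cancel, Equiv.Perm.one_apply]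
      have n1 : w ≠ x := fun h => hx (h ▸ hw)
      have n2 : w ≠ y := fun h => hy (h ▸ hw)
      have n3 : w ≠ z := fun h => hz (h ▸ hw)
      rw [Equiv.swap_apply_of_ne_of_ne n2 n3, Equiv.swap_apply_of_ne_of_ne n2 n1,
        Equiv.swap_apply_of_ne_of_ne n2 n3, Equiv.swap_apply_of_ne_of_ne n2 n1]
    · rw [hgk w hw, hcw w hw, Equiv.swap_comm x y]
  refine ⟨c * (g ^ k)⁻¹, G.mul_mem hcG (G.inv_mem (G.zpow_mem hg k)), ?_⟩
  rw [ht]
  exact (Equiv.Perm.isThreeCycle_swap_mul_swap_same hxy.symm hyz hxz).isThreeCycle_sq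

end Pool.Agent.AFA
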