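import Pool.Agent.AFA.J1
import Pool.Agent.AFA.J2a
import Pool.Agent.AFA.J2b
import Pool.Agent.AFA.J2c

set_option autoImplicit false

namespace Pool.Agent.AFA

open Equiv.Perm MulAction

/-- ROW J3. Jordan's theorem: a transitive group `G` of degree `n`, whose order is divisible by a
prime `r` with `n / 2 < r ≤ n - 3`, contains the alternating group.

Proof. By Cauchy (`exists_prime_orderOf_dvd_card'`) there is an element of order `r` in `G`, let
`g : Perm (Fin n)` be this element. As `n < 2 r`, `g` is a cycle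
(`Equiv.Perm.isCycle_of_prime_order'`: `(orderOf g).Prime` and
`Fintype.card α < 2 * orderOf g`), and `g.support.card = orderOf g = r` (`IsCycle.orderOf`).
Transitivity gives `IsPretransitive G (Fin n)`, so `G` is preprimitive by
`isPreprimitive_of_cycle`. The set of fixed points of `g` has `n - r ≥ 3` elements: choose three
distinct ones `x, y, z` (`Finset.two_lt_card`). By `exists_lift` (with `π := swap x y`, which
preserves the fixed points of `g`) and `exists_normalizing` we get `a ∈ G`, normalising `⟨g⟩` and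
equal to `swap x y` on the fixed points; in the same way `b` for `swap y z`. By
`exists_three_cycle` the group contains a 3-cycle, and
`alternatingGroup_le_of_isPreprimitive_of_isThreeCycle_mem` finishes. -/
theorem alternating_le {n : ℕ} (G : Subgroup (Equiv.Perm (Fin n)))
    (htr : ∀ i j : Fin n, ∃ g ∈ G, g i = j) {r : ℕ} (hr : r.Prime) (hdvd : r ∣ Nat.card G)
    (h1 : n < 2 * r) (h2 : r + 3 ≤ n) : alternatingGroup (Fin n) ≤ G := by
  have : Fact r.Prime := ⟨hr⟩
  obtain ⟨g0, hg0⟩ := exists_prime_orderOf_dvd_card' (G := G) r hdvd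
  obtain ⟨g, hgG⟩ := g0
  have hgo : orderOf g = r := by
    rw [← hg0, Subgroup.orderOf_mk]
  have hgc : g.IsCycle := isCycle_of_prime_order' (by rw [hgo]; exact hr)
    (by rw [hgo, Fintype.card_fin]; exact h1)
  have hgs : g.support.card = r := by rw [← hgc.orderOf, hgo]
  have htr' : IsPretransitive G (Fin n) := ⟨fun i j => by
    obtain ⟨h, hh, e⟩ := htr i j
    exact ⟨⟨h, hh⟩, e⟩⟩
  have hprim := isPreprimitive_of_cycle G htr' hr hgc hgs hgG (by rw [Fintype.card_fin]; exact h1)
  have hlift := exists_lift G hprim hr hgc hgs hgG (by rw [Fintype.card_fin]; exact h2)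
  have hcard : 2 < (g.supportᶜ).card := by
    rw [Finset.card_compl, Fintype.card_fin, hgs]
    omega
  obtain ⟨x, y, z, hx, hy, hz, hxy, hxz, hyz⟩ := Finset.two_lt_card_iff.1 hcard
  rw [Finset.mem_compl] at hx hy hz
  have key : ∀ p q : Fin n, p ∉ g.support → q ∉ g.support → ∃ a ∈ G,
      (∀ w, w ∉ g.support → a w = Equiv.swap p q w) ∧ a * g * a⁻¹ ∈ Subgroup.zpowers g := by
    intro p q hp hq
    obtain ⟨h0, hh0, hh0'⟩ := hlift (Equiv.swap p q)
    obtain ⟨h, hh, e1, e2⟩ := exists_normalizing G hr hgo hgs hgG hh0 (by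
      intro w hw
      rw [hh0' w hw]
      by_cases hwp : w = p
      · rw [hwp, Equiv.swap_apply_left]
        exact hq
      · by_cases hwq : w = q
        · rw [hwq, Equiv.swap_apply_right]
          exact hp
        · rw [Equiv.swap_apply_of_ne_of_ne hwp hwq]
          exact hw)
    exact ⟨h, hh, fun w hw => (e1 w hw).trans (hh0' w hw), e2⟩
  obtain ⟨a, ha, ha', han⟩ := key x y hx hy
  obtain ⟨b, hb, hb', hbn⟩ := key y z hy hz
  obtain ⟨t, ht, htc⟩ := exists_three_cycle G hgc hgG hxy hyz hxz hx hy hz ha hb ha' hb' han hbn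
  exact alternatingGroup_le_of_isPreprimitive_of_isThreeCycle_mem hprim htc ht

end Pool.Agent.AFA
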