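import Pool.Agent.AFA.Def

set_option autoImplicit false

namespace Pool.Agent.AFA

open Polynomial

/-- ROW M1a. The polynomial as `G + T H` with constant `G`, `H`.

Proof. Unfold `fam`, distribute: `Y^n + S (1 + a Y^4) + T (S Y^(4i))`. -/
theorem fam_eq {k R : Type} [CommRing k] [CommRing R] (f : k →+* R) (S : ℤ[X]) (a : ℤ) (T : R)
    (n i : ℕ) :
    fam S a T n i = (X ^ n + S.map (Int.castRingHom k) * (1 + C (a : k) * X ^ 4)).map f +
      C T * (S.map (Int.castRingHom k) * X ^ (4 * i)).map f := by
  have h : f.comp (Int.castRingHom k) = Int.castRingHom R := RingHom.ext_int _ _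
  simp only [fam, Polynomial.map_add, Polynomial.map_mul, Polynomial.map_pow, Polynomial.map_X,
    Polynomial.map_map, h, Polynomial.map_one, map_intCast, Polynomial.map_intCast]
  ring

end Pool.Agent.AFA
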