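import Pool.Agent.AFA.Def

set_option autoImplicit false

namespace Pool.Agent.AFA

open Polynomial

/-- ROW M1b. Degrees and coprimality of `G = Y^n + S (1 + a Y^4)` and `H = S Y^(4i)` over `F_2`
(over any nontrivial commutative ring `k` for the degrees).

Proof. `S (1 + a Y^4)` has degree `≤ s + 4 ≤ s + 4 i < n` if `a ≠ 0` (`i ≥ 2`), and degree `s < n`
if `a = 0`; so `G` is monic of degree `n`. `H` is monic of degree `s + 4 i`. -/
theorem GH_deg {k : Type} [CommRing k] [Nontrivial k] {S : ℤ[X]} {s : ℕ} {a : ℤ} {T : ℤ[X]}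
    {n i r : ℕ} (D : Data S s a T n i r) :
    (X ^ n + S.map (Int.castRingHom k) * (1 + C (a : k) * X ^ 4) : k[X]).Monic ∧
    (X ^ n + S.map (Int.castRingHom k) * (1 + C (a : k) * X ^ 4) : k[X]).natDegree = n ∧
    (S.map (Int.castRingHom k) * X ^ (4 * i) : k[X]).Monic ∧
    (S.map (Int.castRingHom k) * X ^ (4 * i) : k[X]).natDegree = s + 4 * i := by
  have hS : (S.map (Int.castRingHom k)).Monic := D.monic.map _
  have hSd : (S.map (Int.castRingHom k)).natDegree = s := by rw [D.monic.natDegree_map, D.deg]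
  have hr := D.prime.pos
  have hn := D.hn
  have hlt : (S.map (Int.castRingHom k) * (1 + C (a : k) * X ^ 4)).natDegree < n := by
    refine lt_of_le_of_lt Polynomial.natDegree_mul_le ?_
    rw [hSd]
    rcases D.ha with ha | hi
    · subst ha
      simp
      have := D.ipos
      omega
    · have h1 : (1 + C (a : k) * X ^ 4 : k[X]).natDegree ≤ 4 := by
        refine (Polynomial.natDegree_add_le _ _).trans ?_
        have := Polynomial.natDegree_C_mul_X_pow_le (a : k) 4
        simp only [natDegree_one]
        omega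
      omega
  have hdl : (S.map (Int.castRingHom k) * (1 + C (a : k) * X ^ 4)).degree < ((n : ℕ) : WithBot ℕ) :=
    lt_of_le_of_lt Polynomial.degree_le_natDegree (by exact_mod_cast hlt)
  refine ⟨monic_X_pow_add hdl, ?_, hS.mul (monic_X_pow _), ?_⟩
  · rw [Polynomial.natDegree_add_eq_left_of_natDegree_lt, natDegree_X_pow]
    rw [natDegree_X_pow]
    exact hlt
  · rw [hS.natDegree_mul (monic_X_pow _), natDegree_X_pow, hSd]

end Pool.Agent.AFA
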