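import Pool.Agent.AFA.Def

set_option autoImplicit false

namespace Pool.Agent.AFA

open Polynomial

/-- a polynomial with nonzero constant term is coprime to the powers of `X` -/
theorem m1c_X {p : (ZMod 2)[X]} (h : p.coeff 0 ≠ 0) (k : ℕ) : IsCoprime p (X ^ k) := by
  refine IsCoprime.pow_right ?_
  have h2 : IsCoprime (X : (ZMod 2)[X]) p := by
    rw [Polynomial.irreducible_X.coprime_iff_not_dvd, Polynomial.X_dvd_iff]
    exact h
  exact h2.symm

/-- ROW M1c. Proof. `S(0) = 1`, so `S` is coprime to `Y` and to `Y^n`, hence to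
`G = Y^n + S (...)`; and `G(0) = 1` (`n > 0`), so `G` is coprime to `Y` and to `Y^(4i)`. -/
theorem GH_coprime {S : ℤ[X]} {s : ℕ} {a : ℤ} {T : ℤ[X]} {n i r : ℕ} (D : Data S s a T n i r) :
    IsCoprime (X ^ n + S.map (Int.castRingHom (ZMod 2)) * (1 + C (a : ZMod 2) * X ^ 4) :
      (ZMod 2)[X]) (S.map (Int.castRingHom (ZMod 2)) * X ^ (4 * i)) := by
  set S' : (ZMod 2)[X] := S.map (Int.castRingHom (ZMod 2)) with hS'
  have hS0 : S'.coeff 0 = 1 := by
    rw [hS', coeff_map, D.zero, map_one]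
  have hn : n ≠ 0 := by
    have := D.ipos
    have := D.hn
    omega
  have h1 : IsCoprime (X ^ n + S' * (1 + C (a : ZMod 2) * X ^ 4)) S' := by
    have h2 : IsCoprime (X ^ n : (ZMod 2)[X]) S' := (m1c_X (by rw [hS0]; exact one_ne_zero) n).symm
    exact h2.add_mul_left_left _
  have h3 : (X ^ n + S' * (1 + C (a : ZMod 2) * X ^ 4)).coeff 0 ≠ 0 := by
    rw [coeff_add, mul_coeff_zero, hS0, coeff_X_pow, if_neg hn.symm]
    simp
  exact IsCoprime.mul_right h1 (m1c_X h3 _)

end Pool.Agent.AFA
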