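import Pool.Agent.AFA.Def
import Pool.Agent.AFA.M1a
import Pool.Agent.AFA.M1b
import Pool.Agent.AFA.M1c
import Pool.Agent.AFA.I1
import Pool.Agent.AFA.I2

set_option autoImplicit false

namespace Pool.Agent.AFA

open Polynomial

/-- ROW M1d. The polynomial is irreducible over `F_2(x)`.

Proof. By `fam_eq` with `f = C : ZMod 2 → (ZMod 2)[X]` and `irreducible_linear` or
`irreducible_quadratic` (with `GH_deg`, `GH_coprime`, `n - (s + 4 i) = r` is odd), the polynomial
`fam S a (red T) n i` is irreducible in `(ZMod 2)[X][X]`; it is monic, so by Gauss' lemma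
(`Polynomial.Monic.irreducible_iff_irreducible_map_fraction_map`) it is irreducible over
`RatFunc (ZMod 2)`; the map of `fam` is `fam` by `map_fam`. -/
theorem irreducible_fam {S : ℤ[X]} {s : ℕ} {a : ℤ} {T : ℤ[X]} {n i r : ℕ}
    (D : Data S s a T n i r) :
    Irreducible ((fam S a (red T) n i).map (algebraMap (ZMod 2)[X] (RatFunc (ZMod 2)))) := by
  have hfam := fam_eq (C : ZMod 2 →+* (ZMod 2)[X]) S a (red T) n i
  obtain ⟨hGm, hGd, hHm, hHd⟩ := GH_deg (k := ZMod 2) D
  have hcop := GH_coprime D
  set G : (ZMod 2)[X] := X ^ n + S.map (Int.castRingHom (ZMod 2)) * (1 + C (a : ZMod 2) * X ^ 4) with hG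
  set H : (ZMod 2)[X] := S.map (Int.castRingHom (ZMod 2)) * X ^ (4 * i) with hH
  have hlt : s + 4 * i < n := by
    have h1 := D.hn
    have h2 := D.prime.pos
    omega
  have hn : n - (s + 4 * i) = r := by
    have h1 := D.hn
    omega
  have hodd : Odd r := D.prime.odd_of_ne_two D.odd
  have hmon : (fam S a (red T) n i).Monic := by
    rw [hfam]
    refine (hGm.map _).add_of_left ?_
    have h1 : (G.map (C : ZMod 2 →+* (ZMod 2)[X])).natDegree = n := by
      rw [hGm.natDegree_map, hGd]
    have h2 : (C (red T) * H.map (C : ZMod 2 →+* (ZMod 2)[X])).natDegree ≤ s + 4 * i := by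
      refine (natDegree_C_mul_le _ _).trans ?_
      rw [hHm.natDegree_map, hHd]
    exact degree_lt_degree (by omega)
  have hirr : Irreducible (fam S a (red T) n i) := by
    rw [hfam]
    rcases D.hT with hT | ⟨c, hT⟩
    · rw [hT]
      exact irreducible_linear G H hHm.ne_zero hcop
    · rw [hT]
      refine irreducible_quadratic c G H hHm.ne_zero hcop (by omega) ?_
      rw [hGd, hHd, hn]
      exact hodd
  exact (Polynomial.Monic.irreducible_iff_irreducible_map_fraction_map hmon).1 hirr

end Pool.Agent.AFA
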