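import Pool.Agent.AFA.Def

set_option autoImplicit false

namespace Pool.Agent.AFA

open Polynomial WithZero

theorem v1a_mul {L : Type} [Field L] (v : Valuation L ℤᵐ⁰) {F F' : L[X]}
    (h : ∀ j, v (F.coeff j) ≤ 1) (h' : ∀ j, v (F'.coeff j) ≤ 1) (j : ℕ) :
    v ((F * F').coeff j) ≤ 1 := by
  rw [coeff_mul]
  refine v.map_sum_le fun i _ => ?_
  rw [map_mul]
  exact mul_le_one' (h _) (h' _)

theorem v1a_prod {L : Type} [Field L] (v : Valuation L ℤᵐ⁰) {n : ℕ} (z : Fin n → L)
    (hz : ∀ i, v (z i) ≤ 1) (s : Finset (Fin n)) : ∀ j, v ((∏ i ∈ s, (X - C (z i))).coeff j) ≤ 1 := by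
  classical
  induction s using Finset.induction_on with
  | empty =>
    intro j
    rw [Finset.prod_empty, coeff_one]
    by_cases hj : j = 0
    · rw [if_pos hj, map_one]
    · rw [if_neg hj, map_zero]
      exact zero_le_one
  | insert a s ha ih =>
    intro j
    rw [Finset.prod_insert ha]
    refine v1a_mul v ?_ ih j
    intro k
    rw [coeff_sub]
    refine (v.map_sub _ _).trans (max_le ?_ ?_)
    · rw [coeff_X]
      by_cases hk : 1 = k
      · rw [if_pos hk, map_one]
      · rw [if_neg hk, map_zero]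
        exact zero_le_one
    · rw [coeff_C]
      by_cases hk : k = 0
      · rw [if_pos hk]
        exact hz a
      · rw [if_neg hk, map_zero]
        exact zero_le_one

theorem v1a_eval {L : Type} [Field L] (v : Valuation L ℤᵐ⁰) {F : L[X]} {m : ℕ} (hF : F.Monic)
    (hm : F.natDegree = m) (hi : ∀ j, v (F.coeff j) ≤ 1) {y : L} (hy : 1 < v y) :
    v (F.eval y) = v y ^ m := by
  rw [eval_eq_sum_range, hm, Finset.sum_range_succ]
  have h1 : F.coeff m = 1 := by
    rw [← hm]
    exact hF.coeff_natDegree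
  rw [h1, one_mul]
  have hy0 : v y ≠ 0 := (zero_lt_one.trans hy).ne'
  have h2 : v (∑ i ∈ Finset.range m, F.coeff i * y ^ i) < v (y ^ m) := by
    rw [map_pow]
    refine v.map_sum_lt (pow_ne_zero m hy0) fun i hi' => ?_
    rw [map_mul, map_pow]
    calc v (F.coeff i) * v y ^ i ≤ 1 * v y ^ i := mul_le_mul_left (hi i) _
      _ = v y ^ i := one_mul _
      _ < v y ^ m := pow_lt_pow_right₀ hy (Finset.mem_range.1 hi')
  rw [v.map_add_eq_of_lt_right h2, map_pow]

/-- ROW V1a. A purely valuation theoretic statement. Let `v` be a valuation on a field `L` with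
values in `ℤᵐ⁰`, let `G`, `H` be monic polynomials over `L` with `v`-integral coefficients, of
degrees `h + r` and `h`, and let `t ∈ L` with `v t > 1`. If `G + t H` is a product of linear
factors `X - z i`, then some `z i` satisfies `v (z i) ^ r = v t`.

Proof. (1) Some `z i` has `v (z i) > 1`. Otherwise all coefficients of `∏ (X - C (z i))` have
value `≤ 1` (they lie in the subring `v.integer`: the product is the image of a polynomial over
the subring `v.integer` or `v.valuationSubring`), but the coefficient at `h` is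
`G.coeff h + t` (`H` monic of degree `h`), with `v (G.coeff h) ≤ 1 < v t`, so it has value
`v t > 1` (`Valuation.map_add_eq_of_lt_left`/`right`).
(2) For `y = z i` with `v y > 1`: for a monic polynomial `F` of degree `m` with coefficients of
value `≤ 1` one has `v (F.eval y) = v y ^ m`: indeed `F.eval y = y ^ m + ∑_{j < m} F_j y ^ j` and
every term of the sum has value `≤ v y ^ (m - 1) < v y ^ m` (for `m = 0` the claim is `v 1 = 1`).
Apply it to `G` and `H`: as `G.eval y = - t * H.eval y`, we get
`v y ^ (h + r) = v t * v y ^ h`, and `v y ≠ 0`, so `v y ^ r = v t`. -/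
theorem exists_root_pow_eq {L : Type} [Field L] (v : Valuation L ℤᵐ⁰) {n h r : ℕ}
    (G H : L[X]) (hG : G.Monic) (hGn : G.natDegree = h + r) (hH : H.Monic)
    (hHn : H.natDegree = h) (hr : 0 < r) (hGi : ∀ j, v (G.coeff j) ≤ 1)
    (hHi : ∀ j, v (H.coeff j) ≤ 1) (t : L) (ht : 1 < v t) (z : Fin n → L)
    (hz : G + C t * H = ∏ i, (X - C (z i))) : ∃ i, v (z i) ^ r = v t := by
  classical
  have h1 : ∃ i, 1 < v (z i) := by
    by_contra hcon
    push Not at hcon
    have h2 := v1a_prod v z hcon Finset.univ h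
    rw [← hz, coeff_add, coeff_C_mul] at h2
    have h3 : H.coeff h = 1 := by
      rw [← hHn]
      exact hH.coeff_natDegree
    rw [h3, mul_one] at h2
    have h4 : v (G.coeff h) < v t := (hGi h).trans_lt ht
    rw [v.map_add_eq_of_lt_right h4] at h2
    exact absurd ht (not_lt.2 h2)
  obtain ⟨i, hi⟩ := h1
  refine ⟨i, ?_⟩
  have h2 : (G + C t * H).eval (z i) = 0 := by
    rw [hz, eval_prod]
    refine Finset.prod_eq_zero (Finset.mem_univ i) ?_
    rw [eval_sub, eval_X, eval_C, sub_self]
  rw [eval_add, eval_mul, eval_C] at h2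
  have h3 : G.eval (z i) = -(t * H.eval (z i)) := eq_neg_of_add_eq_zero_left h2
  have h4 : v (G.eval (z i)) = v t * v (H.eval (z i)) := by
    rw [h3, Valuation.map_neg, map_mul]
  rw [v1a_eval v hG hGn hGi hi, v1a_eval v hH hHn hHi hi, pow_add, mul_comm (v t)] at h4
  have hy0 : v (z i) ≠ 0 := (zero_lt_one.trans hi).ne'
  exact mul_left_cancel₀ (pow_ne_zero h hy0) h4

end Pool.Agent.AFA
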