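import Pool.Agent.AFA.Def
import Pool.Agent.AFA.V1a

set_option autoImplicit false

namespace Pool.Agent.AFA

open Polynomial WithZero

/-- ROW V1b. Divisibility of the order of the Galois group by the tame ramification index.

Let `A` be a principal ideal domain with fraction field `K`, `π` a prime element of `A`, `L/K` a
finite Galois extension, `t ∈ K` with `t π ^ d = w ∈ A`, `π ∤ w`. Let `G`, `H` be monic polynomials
over `A` of degrees `h + r` and `h`, `r` a prime which does not divide `d`. If `G + t H` is a
product of linear factors over `L`, then `r` divides `[L : K]`.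

Proof. Note `d ≠ 0`. Let `B := integralClosure A L`, a Dedekind domain, finite over `A`
(`IsIntegralClosure.isDedekindDomain`, `IsIntegralClosure.finite`; `L/K` is separable). Let `v` be
the `HeightOneSpectrum A` given by the prime ideal `(π)`, choose a prime ideal `Q` of `B` lying
over `(π)` (`Ideal.exists_ideal_over_prime_of_isIntegral...` or
`Ideal.primesOver` nonempty), `w'` the corresponding `HeightOneSpectrum B` and
`val := w'.valuation L`. By `IsDedekindDomain.HeightOneSpectrum.valuation_liesOver`
(`Mathlib/NumberTheory/RamificationInertia/Valuation.lean`), for `x ∈ K`,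
`val (algebraMap K L x) = (v.valuation K x) ^ e` with `e = v.asIdeal.ramificationIdx' w'.asIdeal`,
`e ≠ 0`. Here `v.valuation K π = exp (-1)` (`π` generates the ideal), `v.valuation K w = 1`
(`π ∤ w`). So `val t = exp (d * e) > 1`. The coefficients of `G`, `H` in `L` come from `A`, so
they have `val ≤ 1`. Apply `exists_root_pow_eq`: there is `y ∈ L` with `val y ^ r = exp (d * e)`;
with `val y = exp k` this means `r * k = d * e` in `ℤ`, so `r ∣ e` (`r` prime, `r ∤ d`). Finally
`e` divides `Nat.card (L ≃ₐ[K] L)`: `Ideal.ncard_primesOver_mul_ramificationIdxIn_mul_inertiaDegIn`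
and `Ideal.ramificationIdxIn_eq_ramificationIdx`
(`Mathlib/NumberTheory/RamificationInertia/Galois.lean`), with the group `L ≃ₐ[K] L` acting on `B`
(instance `IsGaloisGroup (L ≃ₐ[K] L) A B`, e.g. `IsGaloisGroup.of_isFractionRing`/
`IsGaloisGroup.iff_isFractionRing`; `IsIntegralClosure.MulSemiringAction`), and the comparison
`ramificationIdx' = ramificationIdx`. Alternatively use
`Ideal.sum_ramification_inertia` together with the transitivity of the action. -/
theorem dvd_card_of_pole {A K L : Type} [CommRing A] [IsDomain A] [IsPrincipalIdealRing A]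
    [Field K] [Algebra A K] [IsFractionRing A K] [Field L] [Algebra K L]
    [FiniteDimensional K L] [IsGalois K L] (π : A) (hπ : Prime π) {r d h n : ℕ} (hr : r.Prime)
    (hd : ¬ r ∣ d) (G H : A[X]) (hG : G.Monic) (hGn : G.natDegree = h + r)
    (hH : H.Monic) (hHn : H.natDegree = h) (t : K) (w : A) (hw : ¬ π ∣ w)
    (ht : t * algebraMap A K π ^ d = algebraMap A K w) (z : Fin n → L)
    (hz : (G.map (algebraMap A K) + C t * H.map (algebraMap A K)).map (algebraMap K L) =
      ∏ i, (X - C (z i))) : r ∣ Nat.card (L ≃ₐ[K] L) := by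
  let : Algebra A L := ((algebraMap K L).comp (algebraMap A K)).toAlgebra
  have : IsScalarTower A K L := IsScalarTower.of_algebraMap_eq (fun _ => rfl)
  let B := integralClosure A L
  have : IsFractionRing B L := integralClosure.isFractionRing_of_finite_extension K L
  have : Module.Finite A B := IsIntegralClosure.finite A K L B
  have : IsDedekindDomain B := integralClosure.isDedekindDomain A K L
  have hinj : Function.Injective (algebraMap A L) :=
    (algebraMap K L).injective.comp (IsFractionRing.injective A K)
  have hinjB : Function.Injective (algebraMap A B) := by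
    intro x y hxy
    apply hinj
    rw [IsScalarTower.algebraMap_apply A B L, hxy, ← IsScalarTower.algebraMap_apply A B L]
  have : FaithfulSMul A B := (faithfulSMul_iff_algebraMap_injective A B).2 hinjB
  have : Module.IsTorsionFree A B := inferInstance
  have : Module.Flat A B := inferInstance
  have hπ0 : π ≠ 0 := hπ.ne_zero
  let v : IsDedekindDomain.HeightOneSpectrum A :=
    ⟨Ideal.span {π}, (Ideal.span_singleton_prime hπ0).2 hπ, by simpa using hπ0⟩
  have : v.asIdeal.IsPrime := v.isPrime
  obtain ⟨⟨Q, hQp, hQo⟩⟩ := Ideal.nonempty_primesOver (S := B) v.asIdeal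
  let w' : IsDedekindDomain.HeightOneSpectrum B := ⟨Q, hQp, Ideal.ne_bot_of_liesOver_of_ne_bot v.ne_bot Q⟩
  have hlo : w'.asIdeal.LiesOver v.asIdeal := hQo
  have he0 : v.asIdeal.ramificationIdx' w'.asIdeal ≠ 0 :=
    Ideal.IsDedekindDomain.ramificationIdx'_ne_zero_of_liesOver w'.asIdeal v.ne_bot
  have hval := fun x : K => IsDedekindDomain.HeightOneSpectrum.valuation_liesOver L v w' x
  set e := v.asIdeal.ramificationIdx' w'.asIdeal with he
  have hvπ : v.valuation K (algebraMap A K π) = exp (-1 : ℤ) := by
    rw [IsDedekindDomain.HeightOneSpectrum.valuation_of_algebraMap]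
    exact v.intValuation_singleton hπ0 rfl
  have hvw : v.valuation K (algebraMap A K w) = 1 := by
    rw [IsDedekindDomain.HeightOneSpectrum.valuation_eq_one_iff_notMem]
    intro h
    exact hw (Ideal.mem_span_singleton.1 h)
  have hvt : v.valuation K t = exp (d : ℤ) := by
    have h1 := congrArg (v.valuation K) ht
    rw [map_mul, map_pow, hvπ, hvw] at h1
    have h2 : exp (-1 : ℤ) ^ d = (exp (d : ℤ))⁻¹ := by
      rw [← exp_nsmul, ← exp_neg]
      simp
    rw [h2] at h1
    exact (mul_inv_eq_one₀ (by simp)).1 h1
  have hwt : w'.valuation L (algebraMap K L t) = exp ((d * e : ℕ) : ℤ) := by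
    rw [← hval, hvt, ← exp_nsmul]
    congr 1
    simp
    ring
  have hd0 : d ≠ 0 := fun h => hd (h ▸ dvd_zero r)
  have hcoef : ∀ a : A, w'.valuation L (algebraMap A L a) ≤ 1 := by
    intro a
    rw [IsScalarTower.algebraMap_apply A B L]
    exact w'.valuation_le_one _
  obtain ⟨i, hi⟩ := exists_root_pow_eq (w'.valuation L) (G.map (algebraMap A L)) (H.map (algebraMap A L))
    (hG.map _) (by rw [hG.natDegree_map, hGn]) (hH.map _) (by rw [hH.natDegree_map, hHn]) hr.pos
    (fun j => by rw [coeff_map]; exact hcoef _) (fun j => by rw [coeff_map]; exact hcoef _)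
    (algebraMap K L t) (by
      rw [hwt, ← exp_zero, exp_lt_exp]
      exact_mod_cast Nat.pos_of_ne_zero (mul_ne_zero hd0 he0)) z (by
      rw [← hz, Polynomial.map_add, Polynomial.map_mul, Polynomial.map_C, Polynomial.map_map, Polynomial.map_map]
      rfl)
  have hre : r ∣ e := by
    rw [hwt] at hi
    have hne : w'.valuation L (z i) ≠ 0 := by
      intro h0
      rw [h0, zero_pow hr.ne_zero] at hi
      exact exp_ne_zero hi.symm
    rw [← exp_log hne, ← exp_nsmul, exp_inj] at hi
    have h1 : (r : ℤ) ∣ ((d * e : ℕ) : ℤ) := ⟨log (w'.valuation L (z i)), by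
      rw [← hi]
      simp⟩
    have h2 : r ∣ d * e := by exact_mod_cast h1
    exact (hr.dvd_mul.1 h2).resolve_left hd
  refine hre.trans ?_
  let : MulSemiringAction (L ≃ₐ[K] L) B := IsIntegralClosure.MulSemiringAction A K L B
  have : IsGaloisGroup (L ≃ₐ[K] L) A B := IsGaloisGroup.of_isFractionRing _ _ _ K L
  have h1 := Ideal.ncard_primesOver_mul_ramificationIdxIn_mul_inertiaDegIn v.asIdeal B (L ≃ₐ[K] L)
  have h2 := Ideal.ramificationIdxIn_eq_ramificationIdx v.asIdeal w'.asIdeal (L ≃ₐ[K] L)
  have h3 : e = w'.asIdeal.ramificationIdx A := Ideal.ramificationIdx'_eq_ramificationIdx _ _ v.ne_bot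
  rw [h3, ← h2, ← h1]
  exact Dvd.dvd.mul_left (dvd_mul_right _ _) _

end Pool.Agent.AFA
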