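import Pool.Agent.AFA.Def

set_option autoImplicit false

namespace Pool.Agent.AFA

open Polynomial

/-- ROW V2a. `F_2[1/x]` is a principal ideal domain.

Proof. The map `aeval pinf : (ZMod 2)[X] → Ainf` is surjective
(`Algebra.adjoin_singleton_eq_range_aeval`) and `(ZMod 2)[X]` is a principal ideal ring:
`IsPrincipalIdealRing.of_surjective`. -/
instance isPrincipalIdealRing_Ainf : IsPrincipalIdealRing Ainf := by
  have hsurj : Function.Surjective (aeval pinf : (ZMod 2)[X] →ₐ[ZMod 2] Ainf) := by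
    rintro ⟨y, hy⟩
    have hy' : y ∈ (aeval uu : (ZMod 2)[X] →ₐ[ZMod 2] RatFunc (ZMod 2)).range := by
      rw [← Algebra.adjoin_singleton_eq_range_aeval]
      exact hy
    obtain ⟨p, hp⟩ := hy'
    refine ⟨p, ?_⟩
    apply Subtype.ext
    have h1 : (Ainf.val.comp (aeval pinf) : (ZMod 2)[X] →ₐ[ZMod 2] RatFunc (ZMod 2)) = aeval uu := by
      apply Polynomial.algHom_ext
      rw [AlgHom.comp_apply, aeval_X, aeval_X]
      rfl
    have h2 := DFunLike.congr_fun h1 p
    rw [AlgHom.comp_apply] at h2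
    exact h2.trans hp
  exact IsPrincipalIdealRing.of_surjective (aeval pinf : (ZMod 2)[X] →ₐ[ZMod 2] Ainf) hsurj

end Pool.Agent.AFA
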