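import Pool.Agent.AFA.Def

set_option autoImplicit false

namespace Pool.Agent.AFA

open Polynomial

theorem v2b_uu_inv : (uu : RatFunc (ZMod 2))⁻¹ = RatFunc.X := by
  rw [uu, inv_inv]

/-- every polynomial in `x` is a power of `x` times a polynomial in `1/x` -/
theorem v2b_reflect (f : (ZMod 2)[X]) (N : ℕ) (hN : f.natDegree ≤ N) :
    algebraMap (ZMod 2)[X] (RatFunc (ZMod 2)) f =
      RatFunc.X ^ N * aeval uu (f.reflect N) := by
  have hX : (RatFunc.X : RatFunc (ZMod 2)) ≠ 0 := RatFunc.X_ne_zero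
  have hu : (uu : RatFunc (ZMod 2)) ≠ 0 := inv_ne_zero hX
  let := invertibleOfNonzero hX
  have h1 := eval₂_reflect_mul_pow (algebraMap (ZMod 2) (RatFunc (ZMod 2))) RatFunc.X N f hN
  rw [← RatFunc.aeval_X_left_eq_algebraMap f, aeval_def, ← h1, invOf_eq_inv, mul_comm]
  rfl

/-- ROW V2b. The field of fractions of `F_2[1/x]` is `F_2(x)`.

Proof. `IsFractionRing Ainf K` by `IsLocalization` constructor (or
`IsFractionRing.of_field` with `∀ z, ∃ x y, z = algebraMap x / algebraMap y`): write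
`z = f(x) / g(x)` with polynomials `f, g` (`RatFunc.num_div_denom`), `g ≠ 0`. With
`N := max f.natDegree g.natDegree`, `f(x) = x ^ N * f*(1/x)` where
`f* = ∑_j f_j u ^ (N - j)` is a polynomial in `u = 1/x` (`Polynomial.reflect N f`,
`eval₂_reflect_mul_pow`). So `z = f*(u) / g*(u)`. -/
instance isFractionRing_Ainf : IsFractionRing Ainf (RatFunc (ZMod 2)) := by
  have hfaith : FaithfulSMul Ainf (RatFunc (ZMod 2)) :=
    (faithfulSMul_iff_algebraMap_injective _ _).2 Subtype.val_injective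
  refine IsFractionRing.of_field Ainf (RatFunc (ZMod 2)) fun z => ?_
  have hmem : ∀ p : (ZMod 2)[X], aeval uu p ∈ Ainf := by
    intro p
    have h1 : aeval uu p ∈ (aeval (R := ZMod 2) uu).range := ⟨p, rfl⟩
    rw [← Algebra.adjoin_singleton_eq_range_aeval] at h1
    exact h1
  have hX : (RatFunc.X : RatFunc (ZMod 2)) ≠ 0 := RatFunc.X_ne_zero
  set N := max z.num.natDegree z.denom.natDegree with hN
  have h1 := v2b_reflect z.num N (le_max_left _ _)
  have h2 := v2b_reflect z.denom N (le_max_right _ _)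
  refine ⟨⟨_, hmem (z.num.reflect N)⟩, ⟨_, hmem (z.denom.reflect N)⟩, ?_⟩
  have h3 := RatFunc.num_div_denom z
  rw [h1, h2, mul_div_mul_left _ _ (pow_ne_zero N hX)] at h3
  exact h3.symm

end Pool.Agent.AFA
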