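import Pool.Agent.AFA.Def

set_option autoImplicit false

namespace Pool.Agent.AFA

open Polynomial

/-- ROW V2c. `1/x` is a prime element of `F_2[1/x]`.

Proof. `aeval pinf : (ZMod 2)[X] → Ainf` is an isomorphism: it is surjective, and injective since
`1/x` is transcendental over `ZMod 2` (if `∑ c_j x^(-j) = 0` multiply by a power of `x`, or
`transcendental` lemmas for `RatFunc.X` and inverses). It maps the prime `X` to `pinf`
(`Polynomial.prime_X`, `MulEquiv.prime_iff`). -/
theorem prime_pinf : Prime pinf := by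
  have htr : Transcendental (ZMod 2) (uu : RatFunc (ZMod 2)) := by
    intro h
    exact RatFunc.transcendental_X (IsAlgebraic.inv_iff.1 h)
  have hval : ∀ p : (ZMod 2)[X], ((aeval pinf p : Ainf) : RatFunc (ZMod 2)) = aeval uu p := by
    intro p
    have h1 := Polynomial.aeval_algebraMap_apply (RatFunc (ZMod 2)) pinf p
    exact h1.symm
  have hinj : Function.Injective (aeval pinf : (ZMod 2)[X] →ₐ[ZMod 2] Ainf) := by
    intro p q hpq
    apply transcendental_iff_injective.1 htr
    rw [← hval, ← hval, hpq]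
  have hsurj : Function.Surjective (aeval pinf : (ZMod 2)[X] →ₐ[ZMod 2] Ainf) := by
    rintro ⟨y, hy⟩
    have h1 : y ∈ (aeval (R := ZMod 2) uu).range := by
      rw [← Algebra.adjoin_singleton_eq_range_aeval]
      exact hy
    obtain ⟨p, hp⟩ := h1
    refine ⟨p, Subtype.ext ?_⟩
    rw [hval]
    exact hp
  let E : (ZMod 2)[X] ≃ₐ[ZMod 2] Ainf := AlgEquiv.ofBijective _ ⟨hinj, hsurj⟩
  have h1 : E X = pinf := by
    show aeval pinf X = pinf
    rw [aeval_X]
  rw [← h1, MulEquiv.prime_iff E]
  exact prime_X

end Pool.Agent.AFA
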