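import Pool.Agent.AFA.Def
import Pool.Agent.AFA.V2c

set_option autoImplicit false

namespace Pool.Agent.AFA

open Polynomial

/-- ROW V2d. The pole at infinity of `t = x` and of `t = x^2 + x + c`: in both cases `t u ^ d`
is an element of `F_2[u]`, `u = 1/x`, not divisible by `u`.

Proof. For `t = x`: `d = 1`, `w = 1`, `1` is not divisible by the prime `pinf`.
For `t = x ^ 2 + x + c`: `d = 2`, `w = 1 + u + c u ^ 2`; if `pinf ∣ w` then `pinf ∣ 1`, which is
impossible for a prime. -/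
theorem exists_pole (t : (ZMod 2)[X]) (ht : t = X ∨ ∃ c : ZMod 2, t = X ^ 2 + X + C c) :
    ∃ (d : ℕ) (w : Ainf), (d = 1 ∨ d = 2) ∧ ¬ pinf ∣ w ∧
      algebraMap (ZMod 2)[X] (RatFunc (ZMod 2)) t * algebraMap Ainf (RatFunc (ZMod 2)) pinf ^ d =
        algebraMap Ainf (RatFunc (ZMod 2)) w := by
  have hX : (RatFunc.X : RatFunc (ZMod 2)) ≠ 0 := RatFunc.X_ne_zero
  have hp : algebraMap Ainf (RatFunc (ZMod 2)) pinf = (RatFunc.X : RatFunc (ZMod 2))⁻¹ := rfl
  have hnd : ∀ y : Ainf, ¬ pinf ∣ 1 + pinf * y := by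
    intro y h
    have h1 : pinf ∣ 1 := (dvd_add_left (dvd_mul_right pinf y)).1 h
    exact prime_pinf.not_isUnit (isUnit_of_dvd_one h1)
  rcases ht with rfl | ⟨c, rfl⟩
  · refine ⟨1, 1, Or.inl rfl, ?_, ?_⟩
    · have h := hnd 0
      rwa [mul_zero, add_zero] at h
    · rw [pow_one, hp, map_one, RatFunc.algebraMap_X, mul_inv_cancel₀ hX]
  · refine ⟨2, 1 + pinf * (1 + algebraMap (ZMod 2) Ainf c * pinf), Or.inr rfl, hnd _, ?_⟩
    have hc : algebraMap Ainf (RatFunc (ZMod 2)) (algebraMap (ZMod 2) Ainf c) =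
        algebraMap (ZMod 2)[X] (RatFunc (ZMod 2)) (C c) := by
      rw [RatFunc.algebraMap_C, ← IsScalarTower.algebraMap_apply]
      rfl
    rw [map_add, map_add, map_pow, RatFunc.algebraMap_X, map_add, map_mul, map_add, map_mul, map_one, hp, hc]
    field_simp
    ring

end Pool.Agent.AFA
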