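import Pool.Agent.AFA.Def
import Pool.Agent.AFA.M1a
import Pool.Agent.AFA.M1b
import Pool.Agent.AFA.V1b
import Pool.Agent.AFA.V2a
import Pool.Agent.AFA.V2b
import Pool.Agent.AFA.V2c
import Pool.Agent.AFA.V2d

set_option autoImplicit false

namespace Pool.Agent.AFA

open Polynomial

/-- ROW M1e. The prime `r` divides the order of the Galois group.

Proof. `dvd_card_of_pole` with `A := Ainf`, `K := RatFunc (ZMod 2)`, `π := pinf` (`prime_pinf`),
`t := algebraMap _ _ (red T)`, `d`, `w` from `exists_pole` (`d ∈ {1, 2}` is not divisible by the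
odd prime `r`), `G`, `H` the polynomials of `GH_deg` for `k = Ainf`, `h = s + 4 i`. The polynomial
is `G.map + C t * H.map` by `fam_eq` with `f = algebraMap Ainf K` and `map_fam`. -/
theorem dvd_card_fam {S : ℤ[X]} {s : ℕ} {a : ℤ} {T : ℤ[X]} {n i r : ℕ}
    (D : Data S s a T n i r) {L : Type} [Field L] [Algebra (RatFunc (ZMod 2)) L]
    [FiniteDimensional (RatFunc (ZMod 2)) L] [IsGalois (RatFunc (ZMod 2)) L] (z : Fin n → L)
    (hz : ((fam S a (red T) n i).map (algebraMap (ZMod 2)[X] (RatFunc (ZMod 2)))).map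
      (algebraMap (RatFunc (ZMod 2)) L) = ∏ j, (X - C (z j))) :
    r ∣ Nat.card (L ≃ₐ[RatFunc (ZMod 2)] L) := by
  obtain ⟨d, w, hd, hw, ht⟩ := exists_pole (red T) D.hT
  obtain ⟨hG, hGn, hH, hHn⟩ := GH_deg (k := Ainf) D
  have hr2 : ¬ r ∣ d := by
    intro h
    have h1 := D.odd
    have h2 := D.prime.two_le
    rcases hd with rfl | rfl
    · exact absurd (Nat.le_of_dvd one_pos h) (by omega)
    · exact absurd (Nat.le_of_dvd two_pos h) (by omega)
  refine dvd_card_of_pole (A := Ainf) (K := RatFunc (ZMod 2)) pinf prime_pinf (h := s + 4 * i) D.prime hr2 _ _ hG ?_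
    hH hHn _ w hw ht z ?_
  · rw [hGn]
    have := D.hn
    omega
  · rw [← fam_eq (algebraMap Ainf (RatFunc (ZMod 2))), ← hz, map_fam, map_fam, map_fam]

end Pool.Agent.AFA
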