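import Pool.Agent.AFA.Def

set_option autoImplicit false

namespace Pool.Agent.AFA

open Polynomial
open scoped KaehlerDifferential

/-- ROW U1a. An algebra generated by roots of a monic polynomial `P` with `P` coprime to `P'` is
formally unramified.

Proof. Use `Algebra.FormallyUnramified.iff_subsingleton_kaehlerDifferential` (or the constructor
of `FormallyUnramified` from `Subsingleton (Ω[B⁄A])`). Let `D = KaehlerDifferential.D A B`. For a
root `y ∈ s` of `P` we have `0 = D (aeval y P) = aeval y P' • D y`
(`Derivation.leibniz`/`Polynomial` lemma `Derivation.map_aeval`, `D (algebraMap ..) = 0`), and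
`aeval y P'` is a unit: if `u P + v P' = 1` then `aeval y v * aeval y P' = 1`. So `D y = 0`. The
elements `b` with `D b = 0` form a subalgebra (Leibniz) which contains `s`, hence it is everything
by `hs` (`Algebra.adjoin_induction`), so `D = 0` and
`KaehlerDifferential.span_range_derivation` gives that `Ω[B⁄A]` is zero. -/
theorem formallyUnramified_of_adjoin {A B : Type} [CommRing A] [CommRing B] [Algebra A B]
    (P : A[X]) (hcop : IsCoprime P (derivative P)) (s : Set B)
    (hs : Algebra.adjoin A s = ⊤) (hroot : ∀ y ∈ s, aeval y P = 0) :
    Algebra.FormallyUnramified A B := by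
  have hD : ∀ y ∈ s, KaehlerDifferential.D A B y = 0 := by
    intro y hy
    obtain ⟨u, v, huv⟩ := hcop
    have h1 : KaehlerDifferential.D A B (aeval y P) = aeval y (derivative P) • KaehlerDifferential.D A B y :=
      Derivation.map_aeval _ P y
    rw [hroot y hy, map_zero] at h1
    have h2 : aeval y v * aeval y (derivative P) = 1 := by
      have h3 := congrArg (aeval y) huv
      rw [map_add, map_mul, map_mul, map_one, hroot y hy, mul_zero, zero_add] at h3
      exact h3
    calc KaehlerDifferential.D A B y = (1 : B) • KaehlerDifferential.D A B y := (one_smul _ _).symm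
      _ = (aeval y v * aeval y (derivative P)) • KaehlerDifferential.D A B y := by rw [h2]
      _ = 0 := by rw [mul_smul, ← h1, smul_zero]
  have hD2 : ∀ b : B, KaehlerDifferential.D A B b = 0 := by
    intro b
    have hb : b ∈ Algebra.adjoin A s := by rw [hs]; trivial
    induction hb using Algebra.adjoin_induction with
    | mem x hx => exact hD x hx
    | algebraMap r => exact Derivation.map_algebraMap _ r
    | add x y _ _ hx hy => rw [map_add, hx, hy, add_zero]
    | mul x y _ _ hx hy => rw [Derivation.leibniz, hx, hy, smul_zero, smul_zero, add_zero]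
  refine ⟨?_⟩
  have h4 := KaehlerDifferential.span_range_derivation A B
  have h5 : Set.range (KaehlerDifferential.D A B) ⊆ {0} := by
    rintro _ ⟨b, rfl⟩
    exact hD2 b
  have h6 : (⊤ : Submodule B (Ω[B⁄A])) = ⊥ := by
    rw [← h4]
    refine le_antisymm ?_ bot_le
    refine le_trans (Submodule.span_mono h5) ?_
    simp
  exact (Submodule.subsingleton_iff B).1 (subsingleton_of_bot_eq_top h6.symm)

end Pool.Agent.AFA
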