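import Pool.Agent.AFA.Def
import Pool.Agent.AFA.U1a

set_option autoImplicit false

namespace Pool.Agent.AFA

open Polynomial

theorem u1b_frac {A K L : Type} [CommRing A] [IsDomain A]
    [Field K] [Algebra A K] [IsFractionRing A K] [Field L] [Algebra K L] [Algebra A L]
    [IsScalarTower A K L] (s : Set L) (hs : IntermediateField.adjoin K s = ⊤) (z : L) :
    ∃ x y : L, x ∈ Algebra.adjoin A s ∧ y ∈ Algebra.adjoin A s ∧ y ≠ 0 ∧ z = x / y := by
  have hz : z ∈ IntermediateField.adjoin K s := by
    rw [hs]
    exact IntermediateField.mem_top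
  induction hz using IntermediateField.adjoin_induction with
  | mem y hy => exact ⟨y, 1, Algebra.subset_adjoin hy, one_mem _, one_ne_zero, (div_one y).symm⟩
  | algebraMap k =>
    obtain ⟨a, b, hb, hk⟩ := IsFractionRing.div_surjective (A := A) k
    have hb0 : b ≠ 0 := nonZeroDivisors.ne_zero hb
    have hinj : Function.Injective (algebraMap A L) := by
      rw [IsScalarTower.algebraMap_eq A K L]
      exact (algebraMap K L).injective.comp (IsFractionRing.injective A K)
    refine ⟨algebraMap A L a, algebraMap A L b, Subalgebra.algebraMap_mem _ a,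
      Subalgebra.algebraMap_mem _ b, ?_, ?_⟩
    · intro h
      exact hb0 (hinj (by rw [h, map_zero]))
    · rw [← hk, map_div₀, ← IsScalarTower.algebraMap_apply, ← IsScalarTower.algebraMap_apply]
  | add u v _ _ hu hv =>
    obtain ⟨x, y, hx, hy, hy0, hxy⟩ := hu
    obtain ⟨x', y', hx', hy', hy0', hxy'⟩ := hv
    refine ⟨x * y' + y * x', y * y', add_mem (mul_mem hx hy') (mul_mem hy hx'), mul_mem hy hy',
      mul_ne_zero hy0 hy0', ?_⟩
    rw [hxy, hxy', div_add_div _ _ hy0 hy0']
  | inv u _ hu =>
    obtain ⟨x, y, hx, hy, hy0, hxy⟩ := hu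
    by_cases hx0 : x = 0
    · refine ⟨0, 1, zero_mem _, one_mem _, one_ne_zero, ?_⟩
      rw [hxy, hx0, zero_div, inv_zero, zero_div]
    · refine ⟨y, x, hy, hx, hx0, ?_⟩
      rw [hxy, inv_div]
  | mul u v _ _ hu hv =>
    obtain ⟨x, y, hx, hy, hy0, hxy⟩ := hu
    obtain ⟨x', y', hx', hy', hy0', hxy'⟩ := hv
    refine ⟨x * x', y * y', mul_mem hx hx', mul_mem hy hy', mul_ne_zero hy0 hy0', ?_⟩
    rw [hxy, hxy', div_mul_div_comm]

/-- ROW U1b. Let `A` be a Dedekind domain with field of fractions `K`, `L` a finite extension of
`K` generated (as a field extension) by a finite set `s` of roots of a monic polynomial `P` over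
`A` which is coprime to its derivative. Then the integral closure of `A` in `L` is `A[s]`.

Proof. `B := Algebra.adjoin A s` is a finite `A`-module (the generators are integral:
`Algebra.finite_adjoin_of_finite_of_isIntegral` or `IsIntegral.fg...`, `FG` of
`Subalgebra.toSubmodule`, `fg_adjoin_of_finite`), it is a domain, and it is formally unramified by
`formallyUnramified_of_adjoin` (applied to the ring `B` and the set
`{b : B | (b : L) ∈ s}`; `Algebra.adjoin A` of this set is `⊤`: `Algebra.adjoin_restrictScalars`,
`Algebra.adjoin_adjoin_coe_preimage`, `aeval` commutes with the inclusion). So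
`isDedekindDomain.of_formallyUnramified A B` (file `Mathlib/RingTheory/Unramified/Dedekind.lean`)
shows that `B` is a Dedekind domain, in particular integrally closed. Its field of fractions is
`L`: `IsFractionRing B L`, because the fraction field of `B` inside `L` contains `K` and `s`; for
instance: every element of `L = K(s) = K[s]` (`IntermediateField.adjoin_toSubalgebra_of_isAlgebraic`
or the finite extension version) is of the form `b / a` with `b ∈ B`, `a ∈ A \ {0}` (closure
properties of `Algebra.adjoin_induction`). If `x ∈ L` is integral over `A` it is integral over `B`,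
so it lies in `B` (`IsIntegrallyClosed.algebraMap_eq_of_integral` / `isIntegrallyClosed_iff`).
The converse inclusion `B ≤ integralClosure A L` is `Algebra.adjoin_le` with `P` monic. -/
theorem integralClosure_eq_adjoin {A K L : Type} [CommRing A] [IsDedekindDomain A]
    [Field K] [Algebra A K] [IsFractionRing A K] [Field L] [Algebra K L] [Algebra A L]
    [IsScalarTower A K L] [FiniteDimensional K L] (P : A[X]) (hP : P.Monic)
    (hcop : IsCoprime P (derivative P)) (s : Set L) (hfin : s.Finite)
    (hs : IntermediateField.adjoin K s = ⊤) (hroot : ∀ y ∈ s, aeval y P = 0) :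
    integralClosure A L = Algebra.adjoin A s := by
  have hint : ∀ y ∈ s, IsIntegral A y := fun y hy => ⟨P, hP, by
    have h := hroot y hy
    rwa [aeval_def] at h⟩
  apply le_antisymm
  · have hmf : Module.Finite A (Algebra.adjoin A s) :=
      Module.Finite.iff_fg.2 (fg_adjoin_of_finite hfin hint)
    have hunr : Algebra.FormallyUnramified A (Algebra.adjoin A s) := by
      refine formallyUnramified_of_adjoin P hcop _ (Algebra.adjoin_adjoin_coe_preimage (s := s)) ?_
      intro y hy
      have h1 : aeval ((Algebra.adjoin A s).val y) P = (Algebra.adjoin A s).val (aeval y P) :=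
        aeval_algHom_apply (Algebra.adjoin A s).val y P
      have h2 : aeval ((Algebra.adjoin A s).val y) P = 0 := hroot _ hy
      rw [h2] at h1
      exact Subtype.ext h1.symm
    have hDed : IsDedekindDomain (Algebra.adjoin A s) :=
      isDedekindDomain.of_formallyUnramified A (Algebra.adjoin A s)
    have hfrac : IsFractionRing (Algebra.adjoin A s) L := by
      apply IsFractionRing.of_field
      intro z
      obtain ⟨x, y, hx, hy, -, hz⟩ := u1b_frac (A := A) (K := K) s hs z
      exact ⟨⟨x, hx⟩, ⟨y, hy⟩, hz⟩
    intro x hx
    have h1 : IsIntegral A x := hx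
    have h2 : IsIntegral (Algebra.adjoin A s) x := h1.tower_top
    obtain ⟨y, hy⟩ := (isIntegrallyClosed_iff L).1 (inferInstance : IsIntegrallyClosed (Algebra.adjoin A s)) h2
    rw [← hy]
    exact y.2
  · exact Algebra.adjoin_le fun y hy => hint y hy

end Pool.Agent.AFA
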