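import Pool.Agent.AFA.Def
import Pool.Agent.AFA.U1b

set_option autoImplicit false

namespace Pool.Agent.AFA

open Polynomial

/-- ROW U1c. Unramifiedness of the splitting field at all primes.

Proof. Let `B := integralClosure A L`. By `integralClosure_eq_adjoin` every element of `B` is in
`Algebra.adjoin A s`, so for the set `s' := {b : B | (b : L) ∈ s}` we have
`Algebra.adjoin A s' = ⊤` (the elements of `s` are integral), and
`formallyUnramified_of_adjoin P hcop s'` gives `Algebra.FormallyUnramified A B`. The localization
`Localization.AtPrime q` is formally unramified over `B`
(`Algebra.FormallyUnramified.of_isLocalization q.primeCompl`), so it is formally unramified over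
`A` by `Algebra.FormallyUnramified.comp`; this is the definition of `Algebra.IsUnramifiedAt`. -/
theorem isUnramifiedAt_of_coprime {A K L : Type} [CommRing A] [IsDedekindDomain A]
    [Field K] [Algebra A K] [IsFractionRing A K] [Field L] [Algebra K L] [Algebra A L]
    [IsScalarTower A K L] [FiniteDimensional K L] (P : A[X]) (hP : P.Monic)
    (hcop : IsCoprime P (derivative P)) (s : Set L) (hfin : s.Finite)
    (hs : IntermediateField.adjoin K s = ⊤) (hroot : ∀ y ∈ s, aeval y P = 0)
    (q : Ideal (integralClosure A L)) (hq : q.IsPrime) : Algebra.IsUnramifiedAt A q := by
  have hB := integralClosure_eq_adjoin P hP hcop s hfin hs hroot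
  have hfu : Algebra.FormallyUnramified A (integralClosure A L) := by
    refine formallyUnramified_of_adjoin P hcop {b : integralClosure A L | (b : L) ∈ s} ?_ ?_
    · have hsub : ∀ y ∈ s, y ∈ integralClosure A L := fun y hy =>
        ⟨P, hP, by simpa [aeval_def] using hroot y hy⟩
      have hmap : (Algebra.adjoin A {b : integralClosure A L | (b : L) ∈ s}).map
          (integralClosure A L).val = integralClosure A L := by
        rw [AlgHom.map_adjoin]
        conv_rhs => rw [hB]
        congr 1
        ext y
        constructor
        · rintro ⟨b, hb, rfl⟩
          exact hb
        · intro hy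
          exact ⟨⟨y, hsub y hy⟩, hy, rfl⟩
      rw [eq_top_iff]
      intro b _
      have hb : (b : L) ∈ (Algebra.adjoin A {b : integralClosure A L | (b : L) ∈ s}).map
          (integralClosure A L).val := by
        rw [hmap]
        exact b.2
      obtain ⟨c, hc, hcb⟩ := hb
      have : c = b := Subtype.ext hcb
      rw [← this]
      exact hc
    · intro y hy
      apply Subtype.ext
      have h1 := hroot (y : L) hy
      have h2 : ((aeval y P : integralClosure A L) : L) = aeval (y : L) P := by
        have := Polynomial.aeval_algHom_apply (integralClosure A L).val y P
        exact this.symm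
      rw [h2, h1]
      rfl
  have h2 : Algebra.FormallyUnramified (integralClosure A L) (Localization.AtPrime q) :=
    Algebra.FormallyUnramified.of_isLocalization q.primeCompl
  exact Algebra.FormallyUnramified.comp A (integralClosure A L) (Localization.AtPrime q)

end Pool.Agent.AFA
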