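import Pool.Agent.AFA.Def
import Pool.Agent.AFA.C3
import Pool.Agent.AFA.G1
import Pool.Agent.AFA.G2
import Pool.Agent.AFA.G3
import Pool.Agent.AFA.U1c
import Pool.Agent.AFA.J3
import Pool.Agent.AFA.M1d
import Pool.Agent.AFA.M1e

set_option autoImplicit false

namespace Pool.Agent.AFA

open Polynomial

/-- ROW M2a. The Galois group with its representation `ρ` on the roots, its image contains the
alternating group.

Proof. Let `K = RatFunc (ZMod 2)`, `A = (ZMod 2)[X]`, `P₀ = fam S a (red T) n i` over `A`,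
`P = P₀.map (algebraMap A K)`, monic of degree `n` (`fam_monic`, `D.hn`, `r > 0`). `P` is
separable: `IsCoprime P₀ P₀'` is mapped to `IsCoprime P P'` (`IsCoprime.map`, `derivative_map`).
Take `L`, `z` from `exists_splitting`, `ρ` from `exists_perm_rep`. Unramifiedness:
`isUnramifiedAt_of_coprime P₀` with `s = Set.range z`. The image of `ρ` is transitive: by
`exists_aut_map` (`P` irreducible by `irreducible_fam`) for `i, j` there is `σ` with
`σ (z i) = z j`, so `ρ σ i = j`. Its order is that of the Galois group, divisible by `r`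
(`dvd_card_fam`); `n < 2 r`, `r + 3 ≤ n` (`n = r + s + 4 i`, `i > 0`). So `alternating_le` applies
to `ρ.range`. -/
theorem exists_model {S : ℤ[X]} {s : ℕ} {a : ℤ} {T : ℤ[X]} {n i r : ℕ} (D : Data S s a T n i r) :
    ∃ (L : Type) (_ : Field L) (_ : Algebra (RatFunc (ZMod 2)) L)
      (_ : Algebra (Polynomial (ZMod 2)) L)
      (_ : IsScalarTower (Polynomial (ZMod 2)) (RatFunc (ZMod 2)) L)
      (_ : FiniteDimensional (RatFunc (ZMod 2)) L) (_ : IsGalois (RatFunc (ZMod 2)) L)
      (z : Fin n → L) (ρ : (L ≃ₐ[RatFunc (ZMod 2)] L) →* Equiv.Perm (Fin n)),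
      Function.Injective z ∧ Function.Injective ρ ∧
      (∀ (σ : L ≃ₐ[RatFunc (ZMod 2)] L) (j : Fin n), σ (z j) = z (ρ σ j)) ∧
      ((fam S a (red T) n i).map (algebraMap (ZMod 2)[X] (RatFunc (ZMod 2)))).map
        (algebraMap (RatFunc (ZMod 2)) L) = ∏ j, (X - C (z j)) ∧
      alternatingGroup (Fin n) ≤ ρ.range ∧
      ∀ (q : Ideal (integralClosure (Polynomial (ZMod 2)) L)) (_ : q.IsPrime),
        Algebra.IsUnramifiedAt (Polynomial (ZMod 2)) q := by
  have hr0 : 0 < r := D.prime.pos
  have hlt : s + 4 * i < n := by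
    have := D.hn
    omega
  obtain ⟨hm, hdeg⟩ := fam_monic S s D.deg.le a (red T) n i D.ipos hlt
  have hPm : ((fam S a (red T) n i).map (algebraMap (ZMod 2)[X] (RatFunc (ZMod 2)))).Monic := hm.map _
  have hPd : ((fam S a (red T) n i).map
      (algebraMap (ZMod 2)[X] (RatFunc (ZMod 2)))).natDegree = n := by
    rw [hm.natDegree_map, hdeg]
  have hsep : ((fam S a (red T) n i).map
      (algebraMap (ZMod 2)[X] (RatFunc (ZMod 2)))).Separable := by
    unfold Polynomial.Separable
    rw [derivative_map]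
    exact D.cop.map (Polynomial.mapRingHom (algebraMap (ZMod 2)[X] (RatFunc (ZMod 2))))
  obtain ⟨L, i1, i2, i3, i4, i5, i6, z, hzinj, hzP, htop⟩ :=
    exists_splitting (A := (ZMod 2)[X]) _ hPm hsep hPd
  obtain ⟨ρ, hρ, hρz⟩ := exists_perm_rep _ z hzinj hzP htop
  have hroot : ∀ x, aeval (z x) ((fam S a (red T) n i).map
      (algebraMap (ZMod 2)[X] (RatFunc (ZMod 2)))) = 0 := by
    intro x
    rw [← Polynomial.eval_map_algebraMap, hzP, Polynomial.eval_prod]
    refine Finset.prod_eq_zero (Finset.mem_univ x) ?_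
    rw [eval_sub, eval_X, eval_C, sub_self]
  refine ⟨L, i1, i2, i3, i4, i5, i6, z, ρ, hzinj, hρ, hρz, hzP, ?_, ?_⟩
  · refine alternating_le ρ.range ?_ D.prime ?_ D.big ?_
    · intro x y
      obtain ⟨σ, hσ⟩ := exists_aut_map _ (irreducible_fam D) (hroot x) (hroot y)
      refine ⟨ρ σ, ⟨σ, rfl⟩, hzinj ?_⟩
      rw [← hρz, hσ]
    · have h1 := dvd_card_fam D z hzP
      rwa [Nat.card_congr (MonoidHom.ofInjective hρ).toEquiv] at h1
    · have := D.hn
      have := D.ipos
      omega
  · intro q hq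
    refine isUnramifiedAt_of_coprime (K := RatFunc (ZMod 2)) (fam S a (red T) n i) hm D.cop
      (Set.range z) (Set.finite_range z) htop ?_ q hq
    rintro y ⟨x, rfl⟩
    have h1 := hroot x
    rwa [Polynomial.aeval_map_algebraMap] at h1

end Pool.Agent.AFA
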