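import Pool.Agent.AFA.Def

set_option autoImplicit false

namespace Pool.Agent.AFA

open Polynomial

theorem s1a_prod {M : Type} [CommMonoid M] {n : ℕ} (F : Fin n → Fin n → M) :
    ∏ i, ∏ j ∈ Finset.Ioi i, F i j = ∏ p ∈ prs n, F p.1 p.2 := by
  rw [prs, Finset.prod_filter, ← Finset.univ_product_univ, Finset.prod_product]
  refine Finset.prod_congr rfl fun i _ => ?_
  rw [← Finset.prod_filter]
  refine Finset.prod_congr ?_ fun _ _ => rfl
  ext j
  simp

theorem s1a_reindex {L : Type} [AddCommMonoid L] {n : ℕ} (g : Fin n → Fin n → L)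
    (π : Equiv.Perm (Fin n)) :
    ∑ p ∈ prs n, g (min (π p.1) (π p.2)) (max (π p.1) (π p.2)) = ∑ p ∈ prs n, g p.1 p.2 := by
  have e1 : ∀ i, π⁻¹ (π i) = i := fun i => π.symm_apply_apply i
  have e2 : ∀ i, π (π⁻¹ i) = i := fun i => π.apply_symm_apply i
  refine Finset.sum_nbij' (fun p => (min (π p.1) (π p.2), max (π p.1) (π p.2)))
    (fun q => (min (π⁻¹ q.1) (π⁻¹ q.2), max (π⁻¹ q.1) (π⁻¹ q.2))) ?_ ?_ ?_ ?_ ?_
  · intro p hp
    rw [prs, Finset.mem_filter] at hp ⊢
    refine ⟨Finset.mem_univ _, ?_⟩
    show min (π p.1) (π p.2) < max (π p.1) (π p.2)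
    rw [min_lt_max]
    exact fun h => hp.2.ne (π.injective h)
  · intro p hp
    rw [prs, Finset.mem_filter] at hp ⊢
    refine ⟨Finset.mem_univ _, ?_⟩
    show min (π⁻¹ p.1) (π⁻¹ p.2) < max (π⁻¹ p.1) (π⁻¹ p.2)
    rw [min_lt_max]
    exact fun h => hp.2.ne (π⁻¹.injective h)
  · intro p hp
    rw [prs, Finset.mem_filter] at hp
    rcases le_total (π p.1) (π p.2) with h | h
    · simp only [min_eq_left h, max_eq_right h, e1, min_eq_left hp.2.le,
        max_eq_right hp.2.le]
    · simp only [min_eq_right h, max_eq_left h, e1, min_eq_right hp.2.le,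
        max_eq_left hp.2.le]
  · intro p hp
    rw [prs, Finset.mem_filter] at hp
    rcases le_total (π⁻¹ p.1) (π⁻¹ p.2) with h | h
    · simp only [min_eq_left h, max_eq_right h, e2, min_eq_left hp.2.le,
        max_eq_right hp.2.le]
    · simp only [min_eq_right h, max_eq_left h, e2, min_eq_right hp.2.le,
        max_eq_left hp.2.le]
  · intro p _
    rfl

/-- ROW S1a. The behaviour of `wsum` under a permutation of the roots: it changes by `1` exactly
for odd permutations (characteristic 2).

Proof. Put `f a b := z a / (z a + z b)`; for `a ≠ b`, `z a + z b ≠ 0` (`z` injective,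
characteristic 2, so `z a + z b = z a - z b`) and `f a b + f b a = 1`. For a pair `i < j`:
`f (π i) (π j) = f (min) (max) + [π j < π i]`, where `min, max` are the minimum and maximum of
`π i, π j` and `[..]` is `1` if `π j < π i` and `0` otherwise. The map
`(i, j) ↦ (min (π i) (π j), max (π i) (π j))` is a bijection of `prs n`, so
`wsum (z ∘ π) = wsum z + inv(π)` with `inv(π)` the number of pairs `i < j` with `π j < π i`.
Finally `sign π = (-1) ^ inv(π)` (`Equiv.Perm.sign_eq_prod_prod_Ioi` or
`Equiv.Perm.sign_of_...`), and in characteristic 2 the number `inv(π)` is `0` or `1` according to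
its parity. (Alternative proof by induction: the formula `wsum (z ∘ π) - wsum z ∈ {0, 1}` defines a
homomorphism `Perm (Fin n) → ZMod 2`... and is `1` on transpositions; the direct proof is
simpler.) -/
theorem wsum_perm {L : Type} [Field L] [CharP L 2] {n : ℕ} (z : Fin n → L)
    (hz : Function.Injective z) (π : Equiv.Perm (Fin n)) :
    wsum (fun i => z (π i)) = wsum z + (if Equiv.Perm.sign π = 1 then 0 else 1) := by
  classical
  have hne : ∀ a b, a ≠ b → z a + z b ≠ 0 := by
    intro a b hab h
    apply hab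
    apply hz
    rw [CharTwo.add_eq_zero] at h
    exact h
  have hsym : ∀ a b, a ≠ b → z a / (z a + z b) = z b / (z b + z a) + 1 := by
    intro a b hab
    have h1 := hne a b hab
    have h2 : z b + z a ≠ 0 := by rwa [add_comm]
    have h3 : z b / (z b + z a) + 1 = (z b + (z b + z a)) / (z b + z a) := by
      rw [add_div, div_self h2]
    rw [h3, ← add_assoc, CharTwo.add_self_eq_zero, zero_add, add_comm (z b)]
  have hterm : ∀ p ∈ prs n, z (π p.1) / (z (π p.1) + z (π p.2)) =
      z (min (π p.1) (π p.2)) / (z (min (π p.1) (π p.2)) + z (max (π p.1) (π p.2))) +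
        (if π p.1 < π p.2 then 0 else 1) := by
    intro p hp
    rw [prs, Finset.mem_filter] at hp
    have hpi : π p.1 ≠ π p.2 := fun h => hp.2.ne (π.injective h)
    by_cases hlt : π p.1 < π p.2
    · rw [if_pos hlt, min_eq_left hlt.le, max_eq_right hlt.le, add_zero]
    · rw [if_neg hlt, min_eq_right (not_lt.1 hlt), max_eq_left (not_lt.1 hlt)]
      exact hsym _ _ hpi
  rw [wsum, Finset.sum_congr rfl hterm, Finset.sum_add_distrib,
    s1a_reindex (fun a b => z a / (z a + z b)) π]
  congr 1
  have hsign : Equiv.Perm.sign π = ∏ p ∈ prs n, (if π p.1 < π p.2 then 1 else -1 : ℤˣ) := by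
    rw [Equiv.Perm.sign_eq_prod_prod_Ioi, s1a_prod (fun i j => (if π i < π j then 1 else -1 : ℤˣ))]
  rw [hsign]
  generalize prs n = S
  induction S using Finset.induction_on with
  | empty => simp
  | insert p S hp ih =>
    rw [Finset.sum_insert hp, Finset.prod_insert hp, ih]
    by_cases h1 : π p.1 < π p.2
    · rw [if_pos h1, if_pos h1, zero_add, one_mul]
    · rw [if_neg h1, if_neg h1]
      rcases Int.units_eq_one_or (∏ p ∈ S, (if π p.1 < π p.2 then 1 else -1 : ℤˣ)) with h2 | h2
      · rw [h2, if_pos rfl, mul_one, if_neg (by decide), add_zero]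
      · rw [h2, if_neg (by decide), if_pos (by decide), CharTwo.add_self_eq_zero]

end Pool.Agent.AFA
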