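import Pool.Agent.AFA.Def

set_option autoImplicit false

namespace Pool.Agent.AFA

open Polynomial

/-- ROW S1b. `w ^ 2 + w = β`.

Proof. In characteristic 2 squaring is additive (`CharTwo.add_sq`, `sum_pow_char`/
`CharTwo.sum_sq`), and for `a = z i / (z i + z j)` we have
`a ^ 2 + a = a (a + 1) = z i z j / (z i + z j) ^ 2` because `a + 1 = z j / (z i + z j)`. -/
theorem wsum_sq_add {L : Type} [Field L] [CharP L 2] {n : ℕ} (z : Fin n → L)
    (hz : Function.Injective z) : wsum z ^ 2 + wsum z = bsum z := by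
  unfold wsum bsum
  rw [CharTwo.sum_sq, ← Finset.sum_add_distrib]
  refine Finset.sum_congr rfl fun p hp => ?_
  have h1 : p.1 < p.2 := (Finset.mem_filter.1 hp).2
  have h2 : z p.1 ≠ z p.2 := fun h => h1.ne (hz h)
  have h3 : z p.1 + z p.2 ≠ 0 := by
    intro h
    apply h2
    have h4 := eq_neg_of_add_eq_zero_left h
    rwa [CharTwo.neg_eq] at h4
  have h5 : (2 : L) = 0 := CharTwo.two_eq_zero
  field_simp
  linear_combination (z p.1 ^ 2) * h5

end Pool.Agent.AFA
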