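import Pool.Agent.AFA.Def

set_option autoImplicit false

namespace Pool.Agent.AFA

open Polynomial

/-- ROW S2a. Symmetric polynomials of the roots of a monic polynomial are given by one element of
the coefficient ring, compatible with all ring homomorphisms.

Proof. By the fundamental theorem of symmetric polynomials
(`MvPolynomial.esymmAlgHom_surjective` or `MvPolynomial.esymmAlgEquiv`, for `σ = Fin n`) there is
`D : MvPolynomial (Fin n) ℤ` with `f = aeval (fun k => esymm (Fin n) ℤ (k + 1)) D`. Take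
`t := aeval (fun k : Fin n => (-1) ^ (k + 1) * P.coeff (n - (k + 1))) D`. For `φ : R →+* S` and
roots `y`, Vieta's formula (`Multiset.prod_X_sub_X_eq_sum_esymm`,
`Polynomial`/`Multiset.prod_X_sub_C_coeff`, or
`Finset.prod_X_add_C_coeff` with `-y`) gives
`aeval y (esymm (Fin n) ℤ (k + 1)) = (-1) ^ (k + 1) * φ (P.coeff (n - (k + 1)))`, so
`aeval y f = φ t` (`MvPolynomial.aeval` of a composition; `aeval_esymm...`; both sides are
`ℤ`-algebra homomorphisms evaluated at `D`). -/
theorem sym_descent {n : ℕ} (f : MvPolynomial (Fin n) ℤ) (hf : f.IsSymmetric)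
    {R : Type} [CommRing R] (P : R[X]) (hP : P.Monic) (hn : P.natDegree = n) :
    ∃ t : R, ∀ (S : Type) [CommRing S] (φ : R →+* S) (y : Fin n → S),
      P.map φ = ∏ i, (X - C (y i)) → MvPolynomial.aeval y f = φ t := by
  obtain ⟨D, hD⟩ := MvPolynomial.esymmAlgHom_surjective (σ := Fin n) (n := n) ℤ (by simp) ⟨f, hf⟩
  have hD' : MvPolynomial.aeval (fun i : Fin n => MvPolynomial.esymm (Fin n) ℤ (i + 1)) D = f := by
    rw [← MvPolynomial.esymmAlgHom_apply, hD]
  refine ⟨MvPolynomial.aeval (fun k : Fin n => (-1) ^ ((k : ℕ) + 1) * P.coeff (n - (k + 1))) D,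
    ?_⟩
  intro S _ φ y hy
  have hV : ∀ k : Fin n, MvPolynomial.aeval y (MvPolynomial.esymm (Fin n) ℤ (k + 1)) =
      φ ((-1) ^ ((k : ℕ) + 1) * P.coeff (n - (k + 1))) := by
    intro k
    have hk := k.2
    have h1 := Multiset.prod_X_sub_C_coeff (Finset.univ.val.map y) (k := n - (k + 1)) (by simp)
    have hc : Multiset.card (Finset.univ.val.map y) = n := by simp
    rw [hc, show n - (n - ((k : ℕ) + 1)) = (k : ℕ) + 1 by omega, Multiset.map_map] at h1
    have h2 : (Multiset.map ((fun t => X - C t) ∘ y) Finset.univ.val).prod =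
        ∏ i, (X - C (y i)) := rfl
    rw [h2, ← hy, coeff_map] at h1
    rw [MvPolynomial.aeval_esymm_eq_multiset_esymm, map_mul, h1, map_pow, map_neg, map_one,
      ← mul_assoc, ← pow_add, ← two_mul, pow_mul, neg_one_sq, one_pow, one_mul]
  have h3 := MvPolynomial.comp_aeval_apply
    (f := fun k : Fin n => (-1) ^ ((k : ℕ) + 1) * P.coeff (n - (k + 1))) φ.toIntAlgHom D
  have h4 := MvPolynomial.comp_aeval_apply
    (f := fun i : Fin n => MvPolynomial.esymm (Fin n) ℤ (i + 1)) (MvPolynomial.aeval y) D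
  rw [hD'] at h4
  rw [h4]
  refine Eq.trans ?_ h3.symm
  congr 2
  funext k
  exact hV k

end Pool.Agent.AFA
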