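import Pool.Agent.AFA.Def

set_option autoImplicit false

namespace Pool.Agent.AFA

open Polynomial

/-- the sorted image of a pair -/
def s2b_srt {n : ℕ} (e : Equiv.Perm (Fin n)) (p : Fin n × Fin n) : Fin n × Fin n :=
  if e p.1 < e p.2 then (e p.1, e p.2) else (e p.2, e p.1)

theorem s2b_mem {n : ℕ} (e : Equiv.Perm (Fin n)) {p : Fin n × Fin n} (hp : p ∈ prs n) :
    s2b_srt e p ∈ prs n := by
  unfold prs at hp ⊢
  rw [Finset.mem_filter] at hp ⊢
  refine ⟨Finset.mem_univ _, ?_⟩
  have h1 : e p.1 ≠ e p.2 := fun h => (ne_of_lt hp.2) (e.injective h)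
  unfold s2b_srt
  split_ifs with h
  · exact h
  · exact lt_of_le_of_ne (not_lt.1 h) h1.symm

theorem s2b_inv {n : ℕ} (e : Equiv.Perm (Fin n)) {p : Fin n × Fin n} (hp : p ∈ prs n) :
    s2b_srt e.symm (s2b_srt e p) = p := by
  unfold prs at hp
  rw [Finset.mem_filter] at hp
  unfold s2b_srt
  by_cases h : e p.1 < e p.2
  · rw [if_pos h]
    simp only [Equiv.symm_apply_apply]
    rw [if_pos hp.2]
  · rw [if_neg h]
    simp only [Equiv.symm_apply_apply]
    rw [if_neg (not_lt.2 hp.2.le)]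

theorem s2b_inv' {n : ℕ} (e : Equiv.Perm (Fin n)) {p : Fin n × Fin n} (hp : p ∈ prs n) :
    s2b_srt e (s2b_srt e.symm p) = p := s2b_inv e.symm hp

theorem s2b_val {n : ℕ} {M : Type*} (F : Fin n × Fin n → M) (hF : ∀ i j, F (i, j) = F (j, i))
    (e : Equiv.Perm (Fin n)) (p : Fin n × Fin n) : F (e p.1, e p.2) = F (s2b_srt e p) := by
  unfold s2b_srt
  split_ifs with h
  · rfl
  · exact hF _ _

theorem s2b_prod {n : ℕ} {M : Type*} [CommMonoid M] (F : Fin n × Fin n → M)
    (hF : ∀ i j, F (i, j) = F (j, i)) (e : Equiv.Perm (Fin n)) (S S' : Finset (Fin n × Fin n))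
    (hS : S ⊆ prs n) (hS' : S' ⊆ prs n) (h : ∀ p ∈ S, s2b_srt e p ∈ S')
    (h' : ∀ p ∈ S', s2b_srt e.symm p ∈ S) : ∏ p ∈ S, F (e p.1, e p.2) = ∏ p ∈ S', F p :=
  Finset.prod_bij' (fun p _ => s2b_srt e p) (fun p _ => s2b_srt e.symm p) h h'
    (fun _ hp => s2b_inv e (hS hp)) (fun _ hp => s2b_inv' e (hS' hp)) (fun p _ => s2b_val F hF e p)

/-- ROW S2b. The three polynomials are symmetric.

Proof. A permutation `π` of the variables permutes the pairs `{i, j}`; the factor of a pair
depends only on the unordered pair. So reindex the products and the sum by the bijection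
`(i, j) ↦ (min (π i) (π j), max (π i) (π j))` of `prs n` (`Finset.prod_bij`/`Finset.prod_equiv`;
for `bM` the bijection maps `(prs n).erase p` onto `(prs n).erase p'`). -/
theorem dM_symm (n : ℕ) : (dM n).IsSymmetric := by
  intro e
  unfold dM
  rw [map_prod]
  have h := s2b_prod (fun p : Fin n × Fin n =>
    ((MvPolynomial.X p.1 - MvPolynomial.X p.2) ^ 2 : MvPolynomial (Fin n) ℤ))
    (fun i j => by ring) e (prs n) (prs n) (Finset.Subset.refl _) (Finset.Subset.refl _)
    (fun p hp => s2b_mem e hp) (fun p hp => s2b_mem e.symm hp)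
  rw [← h]
  refine Finset.prod_congr rfl fun p _ => ?_
  rw [map_pow, map_sub, MvPolynomial.rename_X, MvPolynomial.rename_X]

theorem sM_symm (n : ℕ) : (sM n).IsSymmetric := by
  intro e
  unfold sM
  rw [map_prod]
  have h := s2b_prod (fun p : Fin n × Fin n =>
    ((MvPolynomial.X p.1 + MvPolynomial.X p.2) : MvPolynomial (Fin n) ℤ))
    (fun i j => by ring) e (prs n) (prs n) (Finset.Subset.refl _) (Finset.Subset.refl _)
    (fun p hp => s2b_mem e hp) (fun p hp => s2b_mem e.symm hp)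
  rw [← h]
  refine Finset.prod_congr rfl fun p _ => ?_
  rw [map_add, MvPolynomial.rename_X, MvPolynomial.rename_X]

theorem bM_symm (n : ℕ) : (bM n).IsSymmetric := by
  intro e
  unfold bM
  rw [map_sum]
  refine Finset.sum_bij' (fun p _ => s2b_srt e p) (fun p _ => s2b_srt e.symm p)
    (fun p hp => s2b_mem e hp) (fun p hp => s2b_mem e.symm hp)
    (fun p hp => s2b_inv e hp) (fun p hp => s2b_inv' e hp) ?_
  intro p hp
  have h1 := s2b_prod (fun p : Fin n × Fin n =>
    ((MvPolynomial.X p.1 + MvPolynomial.X p.2) ^ 2 : MvPolynomial (Fin n) ℤ))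
    (fun i j => by ring) e ((prs n).erase p) ((prs n).erase (s2b_srt e p))
    (Finset.erase_subset _ _) (Finset.erase_subset _ _)
    (by
      intro q hq
      rw [Finset.mem_erase] at hq ⊢
      refine ⟨fun h => hq.1 ?_, s2b_mem e hq.2⟩
      rw [← s2b_inv e hq.2, h, s2b_inv e hp])
    (by
      intro q hq
      rw [Finset.mem_erase] at hq ⊢
      refine ⟨fun h => hq.1 ?_, s2b_mem e.symm hq.2⟩
      rw [← s2b_inv' e hq.2, h])
  have h2 := s2b_val (fun p : Fin n × Fin n =>
    ((MvPolynomial.X p.1 * MvPolynomial.X p.2) : MvPolynomial (Fin n) ℤ)) (fun i j => by ring) e p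
  simp only at h1 h2
  rw [map_mul, map_mul, MvPolynomial.rename_X, MvPolynomial.rename_X, map_prod, h2, ← h1]
  congr 1
  refine Finset.prod_congr rfl fun q _ => ?_
  rw [map_pow, map_add, MvPolynomial.rename_X, MvPolynomial.rename_X]

end Pool.Agent.AFA
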