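import Pool.Agent.AFA.Def
import Pool.Agent.AFA.S2b

set_option autoImplicit false

namespace Pool.Agent.AFA

open Polynomial

theorem s2c_prod {R κ : Type} [CommRing R] [DecidableEq κ] (u v : κ → R) (K : Finset κ) :
    ∃ c : R, ∏ k ∈ K, (u k - 4 * v k) =
      ∏ k ∈ K, u k - 4 * ∑ k ∈ K, v k * ∏ l ∈ K.erase k, u l + 8 * c := by
  induction K using Finset.induction_on with
  | empty => exact ⟨0, by simp⟩
  | insert a s ha ih =>
    obtain ⟨c, hc⟩ := ih
    refine ⟨2 * (v a * ∑ k ∈ s, v k * ∏ l ∈ s.erase k, u l) + c * (u a - 4 * v a), ?_⟩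
    have h1 : ∑ k ∈ insert a s, v k * ∏ l ∈ (insert a s).erase k, u l =
        v a * ∏ k ∈ s, u k + u a * ∑ k ∈ s, v k * ∏ l ∈ s.erase k, u l := by
      rw [Finset.sum_insert ha, Finset.erase_insert ha, Finset.mul_sum]
      congr 1
      refine Finset.sum_congr rfl fun k hk => ?_
      have hak : a ≠ k := fun h => ha (h ▸ hk)
      have hae : a ∉ s.erase k := fun h => ha (Finset.mem_of_mem_erase h)
      rw [Finset.erase_insert_of_ne hak, Finset.prod_insert hae]
      ring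
    rw [Finset.prod_insert ha, Finset.prod_insert ha, h1, hc]
    ring

/-- ROW S2c. The universal congruence `d = s ^ 2 - 4 b + 8 c` with a symmetric polynomial `c`.

Proof. For elements `u k`, `v k` of a commutative ring,
`∏ k ∈ K, (u k - 4 v k) = ∏ u k - 4 ∑ k ∈ K, v k ∏ l ∈ K.erase k, u l + 8 c` for some `c`
(induction on the finite set `K`). Apply it with `u p = (X p.1 + X p.2) ^ 2`,
`v p = X p.1 * X p.2`, so that `u p - 4 v p = (X p.1 - X p.2) ^ 2`. Finally `c` is symmetric: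
`8 c = d - s ^ 2 + 4 b` is symmetric and `8` is a nonzero divisor in `MvPolynomial (Fin n) ℤ`. -/
theorem dM_eq (n : ℕ) : ∃ c : MvPolynomial (Fin n) ℤ, c.IsSymmetric ∧
    dM n = sM n ^ 2 - 4 * bM n + 8 * c := by
  obtain ⟨c, hc⟩ := s2c_prod
    (fun p : Fin n × Fin n => ((MvPolynomial.X p.1 + MvPolynomial.X p.2) ^ 2 : MvPolynomial (Fin n) ℤ))
    (fun p => MvPolynomial.X p.1 * MvPolynomial.X p.2) (prs n)
  have h1 : dM n = sM n ^ 2 - 4 * bM n + 8 * c := by
    have h2 : dM n = ∏ p ∈ prs n, ((MvPolynomial.X p.1 + MvPolynomial.X p.2) ^ 2 -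
        4 * (MvPolynomial.X p.1 * MvPolynomial.X p.2) : MvPolynomial (Fin n) ℤ) := by
      unfold dM
      exact Finset.prod_congr rfl fun p _ => by ring
    rw [h2, hc]
    unfold sM bM
    rw [Finset.prod_pow]
  refine ⟨c, ?_, h1⟩
  intro e
  have h8 : (8 : MvPolynomial (Fin n) ℤ) ≠ 0 := by norm_num
  apply mul_left_cancel₀ h8
  have h3 : 8 * c = dM n - sM n ^ 2 + 4 * bM n := by
    rw [h1]
    ring
  have h4 := congrArg (MvPolynomial.rename e) h3
  rw [map_mul, map_add, map_sub, map_pow, map_mul, dM_symm n e, sM_symm n e, bM_symm n e] at h4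
  have h5 : MvPolynomial.rename e (8 : MvPolynomial (Fin n) ℤ) = 8 := map_ofNat _ 8
  have h6 : MvPolynomial.rename e (4 : MvPolynomial (Fin n) ℤ) = 4 := map_ofNat _ 4
  rw [h5, h6] at h4
  rw [h4, h3]

end Pool.Agent.AFA
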