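import Pool.Agent.AFA.Def

set_option autoImplicit false

namespace Pool.Agent.AFA

open Polynomial

/-- ROW S3a. The resultant of a polynomial with given roots and its derivative is the discriminant
up to sign.

Proof. Let `P := ∏ i, (X - C (y i))`, monic, split, of degree `n`. By
`Polynomial.resultant_eq_prod_eval` (`Mathlib/RingTheory/Polynomial/Resultant/Basic.lean`),
`resultant P P' n (n - 1) = ∏ i, P'.eval (y i)` (the multiset of roots of `P` is the image of
`Finset.univ` under `y`), and `P'.eval (y i) = ∏ j ∈ univ.erase i, (y i - y j)`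
(`Polynomial.derivative_prod` / `eval_derivative...`). The product over all ordered pairs `i ≠ j`
of `(y i - y j)` is grouped as the product over `i < j` of `(y i - y j) (y j - y i) =
- (y i - y j) ^ 2`, and the number of pairs `i < j` is `(prs n).card`. (For `n = 0` both sides
are `1`.) -/
theorem resultant_eq_dM {Ω : Type} [Field Ω] {n : ℕ} (y : Fin n → Ω) :
    resultant (∏ i, (X - C (y i))) (derivative (∏ i, (X - C (y i)))) n (n - 1) =
      (-1) ^ (prs n).card * MvPolynomial.aeval y (dM n) := by
  classical
  have hmon : ∀ i ∈ (Finset.univ : Finset (Fin n)), (X - C (y i)).Monic :=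
    fun i _ => monic_X_sub_C (y i)
  have hPmon : (∏ i, (X - C (y i))).Monic := monic_prod_of_monic _ _ hmon
  have hdeg : (∏ i, (X - C (y i))).natDegree = n := by
    rw [natDegree_prod_of_monic _ _ hmon]
    simp
  have hsplit : (∏ i, (X - C (y i))).Splits :=
    Splits.prod (fun i _ => Splits.X_sub_C (y i))
  have hroots : (∏ i, (X - C (y i))).roots = Finset.univ.val.map y := by
    have h1 : (∏ i, (X - C (y i))) =
        ((Finset.univ.val.map y).map (fun a => X - C a)).prod := by
      rw [Multiset.map_map]
      rfl
    rw [h1, roots_multiset_prod_X_sub_C]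
  have hdd : (derivative (∏ i, (X - C (y i)))).natDegree ≤ n - 1 := by
    refine (natDegree_derivative_le _).trans ?_
    rw [hdeg]
  have hres := resultant_eq_prod_eval (∏ i, (X - C (y i))) (derivative (∏ i, (X - C (y i))))
    (n - 1) hdd hsplit
  rw [hdeg, hPmon.leadingCoeff, one_pow, one_mul, hroots, Multiset.map_map] at hres
  rw [hres]
  have heval : ∀ i, (derivative (∏ i, (X - C (y i)))).eval (y i) =
      ∏ j ∈ Finset.univ.erase i, (y i - y j) := by
    intro i
    rw [derivative_prod_finset, eval_finsetSum, Finset.sum_eq_single i]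
    · rw [eval_mul, eval_prod]
      simp
    · intro j _ hji
      rw [eval_mul, eval_prod, Finset.prod_eq_zero (i := i)
        (Finset.mem_erase.2 ⟨hji.symm, Finset.mem_univ i⟩)]
      · rw [zero_mul]
      · simp
    · intro h
      exact absurd (Finset.mem_univ i) h
  have h2 : (Multiset.map ((fun p => eval p (derivative (∏ i, (X - C (y i))))) ∘ y)
      Finset.univ.val).prod = ∏ i, ∏ j ∈ Finset.univ.erase i, (y i - y j) := by
    rw [← Finset.prod_map_val]
    congr 1
    apply Multiset.map_congr rfl
    intro i _
    exact heval i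
  have h3 : ∏ i, ∏ j ∈ Finset.univ.erase i, (y i - y j) =
      ∏ p ∈ prs n, ((y p.1 - y p.2) * (y p.2 - y p.1)) := by
    have e1 : ∏ i, ∏ j ∈ Finset.univ.erase i, (y i - y j) =
        ∏ p ∈ (Finset.univ : Finset (Fin n × Fin n)).filter (fun p => p.1 ≠ p.2),
          (y p.1 - y p.2) := by
      rw [Finset.prod_filter, ← Finset.univ_product_univ, Finset.prod_product]
      apply Finset.prod_congr rfl
      intro i _
      rw [← Finset.prod_filter]
      apply Finset.prod_congr _ (fun _ _ => rfl)
      ext j
      simp [ne_comm]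
    have e2 : (Finset.univ : Finset (Fin n × Fin n)).filter (fun p => p.1 ≠ p.2) =
        prs n ∪ (prs n).image Prod.swap := by
      ext ⟨a, b⟩
      simp only [prs, Finset.mem_filter, Finset.mem_univ, true_and, Finset.mem_union,
        Finset.mem_image, Prod.exists, Prod.swap_prod_mk, Prod.mk.injEq]
      constructor
      · intro h
        rcases lt_or_gt_of_ne h with h | h
        · exact Or.inl h
        · exact Or.inr ⟨b, a, h, rfl, rfl⟩
      · rintro (h | ⟨c, d, h, rfl, rfl⟩)
        · exact h.ne
        · exact h.ne'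
    have e3 : Disjoint (prs n) ((prs n).image Prod.swap) := by
      rw [Finset.disjoint_left]
      rintro ⟨a, b⟩ h1 h2
      simp only [prs, Finset.mem_filter, Finset.mem_univ, true_and, Finset.mem_image,
        Prod.exists, Prod.swap_prod_mk, Prod.mk.injEq] at h1 h2
      obtain ⟨c, d, h, rfl, rfl⟩ := h2
      exact lt_asymm h h1
    rw [e1, e2, Finset.prod_union e3, Finset.prod_image (fun a _ b _ h => Prod.swap_injective h),
      ← Finset.prod_mul_distrib]
    apply Finset.prod_congr rfl
    rintro ⟨a, b⟩ _
    rfl
  have h4 : ∏ p ∈ prs n, ((y p.1 - y p.2) * (y p.2 - y p.1)) =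
      (-1) ^ (prs n).card * ∏ p ∈ prs n, (y p.1 - y p.2) ^ 2 := by
    rw [← Finset.prod_const, ← Finset.prod_mul_distrib]
    apply Finset.prod_congr rfl
    intro p _
    ring
  have h5 : MvPolynomial.aeval y (dM n) = ∏ p ∈ prs n, (y p.1 - y p.2) ^ 2 := by
    unfold dM
    rw [map_prod]
    apply Finset.prod_congr rfl
    intro p _
    simp
  rw [h5, ← h4, ← h3, ← h2]

end Pool.Agent.AFA
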