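import Pool.Agent.AFA.Def
import Pool.Agent.AFA.S2a
import Pool.Agent.AFA.S2b
import Pool.Agent.AFA.S2c
import Pool.Agent.AFA.S3a

set_option autoImplicit false

namespace Pool.Agent.AFA

open Polynomial

theorem s3b_roots {Ω : Type} [Field Ω] [IsAlgClosed Ω] {n : ℕ} (f : Polynomial Ω) (hf : f.Monic)
    (hn : f.natDegree = n) : ∃ y : Fin n → Ω, f = ∏ i, (X - C (y i)) := by
  have hs : f.Splits := IsAlgClosed.splits f
  have h1 := hs.eq_prod_roots_of_monic hf
  have h2 := hs.natDegree_eq_card_roots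
  obtain ⟨l, hl⟩ := Quotient.exists_rep f.roots
  have hl' : f.roots = (l : Multiset Ω) := hl.symm
  rw [hl', Multiset.coe_card, hn] at h2
  subst h2
  refine ⟨fun i => l.get i, ?_⟩
  rw [h1, hl', Multiset.map_coe, Multiset.prod_coe]
  have h3 := Fin.prod_univ_fun_getElem l (fun a => X - C a)
  exact h3.symm

theorem s3b_red_dvd (f : ℤ[X]) (h : red f = 0) : ∃ v : ℤ[X], f = 2 * v := by
  have h1 : (C (2 : ℤ)) ∣ f := by
    rw [C_dvd_iff_dvd_coeff]
    intro i
    have h2 : (red f).coeff i = 0 := by rw [h, coeff_zero]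
    have h3 : (red f).coeff i = ((f.coeff i : ℤ) : ZMod 2) := by
      unfold red
      rw [Polynomial.coe_mapRingHom, Polynomial.coeff_map]
      rfl
    rw [h3, ZMod.intCast_zmod_eq_zero_iff_dvd] at h2
    exact_mod_cast h2
  obtain ⟨v, hv⟩ := h1
  refine ⟨v, ?_⟩
  rw [hv]
  rfl

theorem s3b_two : (2 : (ZMod 2)[X]) = 0 := by
  have h : ((2 : ZMod 2)) = 0 := by decide
  have h2 : C (2 : ZMod 2) = (2 : (ZMod 2)[X]) := rfl
  rw [← h2, h, C_0]

theorem s3b_disc {n : ℕ} (P : ℤ[X][X]) (hP : P.Monic) (hn : P.natDegree = n) (d s b c : ℤ[X])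
    (hd : ∀ (S : Type) [CommRing S] (φ : ℤ[X] →+* S) (y : Fin n → S),
      P.map φ = ∏ i, (X - C (y i)) → MvPolynomial.aeval y (dM n) = φ d)
    (hs : ∀ (S : Type) [CommRing S] (φ : ℤ[X] →+* S) (y : Fin n → S),
      P.map φ = ∏ i, (X - C (y i)) → MvPolynomial.aeval y (sM n) = φ s)
    (hb : ∀ (S : Type) [CommRing S] (φ : ℤ[X] →+* S) (y : Fin n → S),
      P.map φ = ∏ i, (X - C (y i)) → MvPolynomial.aeval y (bM n) = φ b)
    (cM : MvPolynomial (Fin n) ℤ) (hdeq : dM n = sM n ^ 2 - 4 * bM n + 8 * cM)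
    (hc : ∀ (S : Type) [CommRing S] (φ : ℤ[X] →+* S) (y : Fin n → S),
      P.map φ = ∏ i, (X - C (y i)) → MvPolynomial.aeval y cM = φ c) :
    d = s ^ 2 - 4 * b + 8 * c ∧
      resultant P (derivative P) n (n - 1) = (-1) ^ (prs n).card * d := by
  let φ : ℤ[X] →+* AlgebraicClosure (FractionRing ℤ[X]) :=
    (algebraMap (FractionRing ℤ[X]) (AlgebraicClosure (FractionRing ℤ[X]))).comp
      (algebraMap ℤ[X] (FractionRing ℤ[X]))
  have hφ : Function.Injective φ :=
    (algebraMap (FractionRing ℤ[X]) (AlgebraicClosure (FractionRing ℤ[X]))).injective.comp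
      (IsFractionRing.injective ℤ[X] (FractionRing ℤ[X]))
  obtain ⟨y, hy⟩ := s3b_roots (P.map φ) (hP.map φ) (by rw [hP.natDegree_map, hn])
  have h1 := hd _ φ y hy
  have h2 := hs _ φ y hy
  have h3 := hb _ φ y hy
  have h4 := hc _ φ y hy
  constructor
  · apply hφ
    rw [← h1, hdeq]
    simp only [map_add, map_sub, map_mul, map_pow, map_ofNat, h2, h3, h4]
  · apply hφ
    have h5 := resultant_eq_dM y
    rw [← hy, h1, Polynomial.derivative_map, resultant_map_map] at h5
    rw [h5, map_mul, map_pow, map_neg, map_one]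

theorem s3b_bsum {L : Type} [Field L] {n : ℕ} (z : Fin n → L)
    (h : MvPolynomial.aeval z (sM n) = 1) : bsum z = MvPolynomial.aeval z (bM n) := by
  classical
  have h1 : ∏ p ∈ prs n, (z p.1 + z p.2) = 1 := by
    rw [← h]
    simp [sM, map_prod]
  have h2 : ∏ p ∈ prs n, (z p.1 + z p.2) ^ 2 = 1 := by
    rw [Finset.prod_pow, h1, one_pow]
  have h3 : MvPolynomial.aeval z (bM n) = ∑ p ∈ prs n, z p.1 * z p.2 *
      ∏ q ∈ (prs n).erase p, (z q.1 + z q.2) ^ 2 := by
    simp [bM, map_sum, map_prod]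
  rw [h3]
  unfold bsum
  apply Finset.sum_congr rfl
  intro p hp
  have h4 := Finset.mul_prod_erase (prs n) (fun p => (z p.1 + z p.2) ^ 2) hp
  rw [h2] at h4
  have h5 : (z p.1 + z p.2) ^ 2 ≠ 0 := by
    intro h6
    simp only [h6, zero_mul] at h4
    exact zero_ne_one h4
  rw [div_eq_iff h5]
  rw [mul_assoc, mul_comm (∏ q ∈ (prs n).erase p, (z q.1 + z q.2) ^ 2), h4, mul_one]

/-- ROW S3b. Berlekamp's theorem in the form we need: if the discriminant of an integral lift is
`± (1 + 4 h)` modulo 8, then the additive discriminant of the reduction is `h` up to `v + v ^ 2`.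

Proof. Apply `sym_descent` to `dM n`, `sM n`, `bM n` and to the polynomial `c` of `dM_eq`, with
the ring `R = ℤ[X]` and the polynomial `P`: elements `d, s, b, c` of `ℤ[X]`. Let `Ω` be an
algebraic closure of the field of fractions of `ℤ[X]`, `φ : ℤ[X] → Ω` (injective), `P.map φ`
splits: `P.map φ = ∏ (X - C (y i))`. So `φ d = φ (s ^ 2 - 4 b + 8 c)` (evaluate `dM_eq` at `y`),
hence `d = s ^ 2 - 4 b + 8 c` in `ℤ[X]`. By `resultant_eq_dM` and `resultant_map_map`,
`resultant P P' n (n - 1) = (-1) ^ (prs n).card * d`. So by `hD` there are `ε' = ± 1` and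
`w ∈ ℤ[X]` with `s ^ 2 - 4 b + 8 c = ε' (1 + 4 h) + 8 w`.
Modulo 2: `red s ^ 2 = 1` in `(ZMod 2)[X]`, so `(red s + 1) ^ 2 = 0` and `red s = 1` (domain of
characteristic 2); so `s = 1 + 2 v` with `v ∈ ℤ[X]`, `s ^ 2 = 1 + 4 (v + v ^ 2)`. Modulo 4 we get
`1 ≡ ε'`, so `ε' = 1` (`4 ∤ 2` in `ℤ[X]`). So `4 (v + v ^ 2 - b - h) ≡ 0` modulo `8`, i.e.
`v + v ^ 2 - b - h` is divisible by `2`: `red b = red h + red v + red v ^ 2`. Take
`v' := red v`.
Now let `φ : (ZMod 2)[X] →+* L` and `z` with `(P.map red).map φ = ∏ (X - C (z i))`. By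
`sym_descent` with the homomorphism `φ.comp red`: `aeval z (sM n) = φ (red s) = 1` and
`aeval z (bM n) = φ (red b)`. And `aeval z (bM n) = bsum z * (aeval z (sM n)) ^ 2`: each term
`z i z j / (z i + z j) ^ 2` times `∏ (z k + z l) ^ 2` is `z i z j` times the product over the other
pairs (`z i + z j ≠ 0`, because `z` is injective and the characteristic is 2). So
`bsum z = φ (red b)`. -/
theorem berlekamp {n : ℕ} (P : ℤ[X][X]) (hP : P.Monic) (hn : P.natDegree = n) (h : ℤ[X]) (ε : ℤ)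
    (hε : ε = 1 ∨ ε = -1)
    (hD : (8 : ℤ[X]) ∣ resultant P (derivative P) n (n - 1) - C ε * (1 + 4 * h)) :
    ∃ v : (ZMod 2)[X], ∀ (L : Type) [Field L] [CharP L 2] (φ : (ZMod 2)[X] →+* L) (z : Fin n → L),
      Function.Injective z → (P.map red).map φ = ∏ i, (X - C (z i)) →
      bsum z = φ (red h) + φ v + φ v ^ 2 := by
  obtain ⟨cM, hcs, hdeq⟩ := dM_eq n
  obtain ⟨d, hd⟩ := sym_descent (dM n) (dM_symm n) P hP hn
  obtain ⟨s, hs⟩ := sym_descent (sM n) (sM_symm n) P hP hn
  obtain ⟨b, hb⟩ := sym_descent (bM n) (bM_symm n) P hP hn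
  obtain ⟨c, hc⟩ := sym_descent cM hcs P hP hn
  obtain ⟨hdd, hres⟩ := s3b_disc P hP hn d s b c hd hs hb cM hdeq hc
  rw [hres] at hD
  obtain ⟨w, hw⟩ := hD
  -- the sign
  obtain ⟨η, hη, w', hw'⟩ : ∃ η : ℤ, (η = 1 ∨ η = -1) ∧ ∃ w' : ℤ[X],
      s ^ 2 - 4 * b + 8 * c = C η * (1 + 4 * h) + 8 * w' := by
    rcases neg_one_pow_eq_or ℤ[X] (prs n).card with hk | hk
    · rw [hk, hdd] at hw
      exact ⟨ε, hε, w, by linear_combination hw⟩
    · rw [hk, hdd] at hw
      refine ⟨-ε, by omega, -w, ?_⟩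
      rw [C_neg]
      linear_combination -hw
  have hr2 := s3b_two
  have hrη : red (C η) = 1 := by
    rcases hη with rfl | rfl
    · rw [C_1, map_one]
    · rw [C_neg, C_1, map_neg, map_one]
      linear_combination -hr2
  have hrs : red s = 1 := by
    have h1 := congrArg red hw'
    simp only [map_add, map_sub, map_mul, map_pow, map_ofNat, map_one, hrη] at h1
    have h2 : (red s - 1) ^ 2 = 0 := by
      linear_combination h1 + (2 * red b - 4 * red c + 2 * red h + 4 * red w' - red s + 1) * hr2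
    exact sub_eq_zero.1 (pow_eq_zero_iff (two_ne_zero) |>.1 h2)
  obtain ⟨v, hv⟩ := s3b_red_dvd (s - 1) (by rw [map_sub, map_one, hrs, sub_self])
  have hs' : s = 1 + 2 * v := by linear_combination hv
  have h4 : (4 : ℤ[X]) ≠ 0 := by norm_num
  have hη1 : η = 1 := by
    rcases hη with h1 | rfl
    · exact h1
    · exfalso
      rw [hs', C_neg, C_1] at hw'
      have h5 : (2 : ℤ[X]) = 4 * (b - v - v ^ 2 - 2 * c - h + 2 * w') := by
        linear_combination hw'
      have h6 := congrArg (fun p : ℤ[X] => p.eval 0) h5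
      simp only [eval_mul, eval_ofNat] at h6
      omega
  subst hη1
  have hmain : red b = red h + red v + red v ^ 2 := by
    have h5 : (4 : ℤ[X]) * (v + v ^ 2 - b - h) = 4 * (2 * (w' - c)) := by
      rw [hs', C_1] at hw'
      linear_combination hw'
    have h6 := mul_left_cancel₀ h4 h5
    have h7 := congrArg red h6
    simp only [map_add, map_sub, map_mul, map_pow, map_ofNat] at h7
    linear_combination -h7 + (red c - red w' - red h) * hr2
  refine ⟨red v, ?_⟩
  intro L _ _ φ z _ hz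
  have hz' : P.map (φ.comp red) = ∏ i, (X - C (z i)) := by rw [← Polynomial.map_map]; exact hz
  have h1 := hs L (φ.comp red) z hz'
  have h2 := hb L (φ.comp red) z hz'
  rw [RingHom.comp_apply, hrs, map_one] at h1
  rw [s3b_bsum z h1, h2, RingHom.comp_apply, hmain, map_add, map_add, map_pow]

end Pool.Agent.AFA
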