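import Pool.Agent.AFA.Def
import Pool.Agent.AFA.C3
import Pool.Agent.AFA.M2a
import Pool.Agent.AFA.S1a
import Pool.Agent.AFA.S1b
import Pool.Agent.AFA.S3b

set_option autoImplicit false

namespace Pool.Agent.AFA

open Polynomial

/-- ROW M2b. The main theorem for given data: the sign character is given by the class of `h`.

Proof. Take the model of `exists_model`. `L` has characteristic 2. Put
`P = fam S a T n i ∈ ℤ[X][X]`, monic of degree `n` (`fam_monic`), `P.map red` is
`fam S a (red T) n i` (`map_fam`). By `berlekamp` there is `v ∈ (ZMod 2)[X]` with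
`bsum z = ι h' + ι v + ι v ^ 2`, `h' = red h`, `ι = (algebraMap K L).comp (algebraMap A K)`
(as a ring homomorphism `(ZMod 2)[X] →+* L`). Put `w = wsum z`, so `w ^ 2 + w = bsum z`
(`wsum_sq_add`), i.e. `(w + ι v) ^ 2 + (w + ι v) = ι h'`. For `σ` in the Galois group:
`σ w = wsum (z ∘ ρ σ)` (`map_sum`, `map_div₀`), so by `wsum_perm`
`σ w = w + [sign (ρ σ) ≠ 1]`; `σ` fixes `ι v`.
(1) If `h' = g ^ 2 + g`, then `(w + ι v + ι g) ^ 2 + (w + ι v + ι g) = 0`, so
`w + ι v + ι g ∈ {0, 1}`, `w` is in the image of `K`, hence fixed by all `σ`, so all `ρ σ` are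
even: `ρ.range ≤ alternatingGroup`, with `exists_model` `ρ.range = alternatingGroup`, and
`MonoidHom.ofInjective` gives the isomorphism of the Galois group with `alternatingGroup (Fin n)`.
(2) If `f ^ 2 + f ≠ h'` for all `f ∈ K`, then some `σ` moves `w` (otherwise `w` is in the fixed
field, `w = algebraMap K L w₀`, `IsGalois.mem_bot_iff_fixed`/`InfiniteGalois`, and
`f = w₀ + v` satisfies `f ^ 2 + f = h'`), for this `σ` the permutation `ρ σ` is odd, so `ρ.range`
contains the alternating group strictly, hence `ρ.range = ⊤` (index 2: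
`alternatingGroup` is a maximal subgroup; e.g. for any `π` either `π` or `π (ρ σ)⁻¹` is even), and
the Galois group is isomorphic to `Equiv.Perm (Fin n)`. -/
theorem realizes_of_data {S : ℤ[X]} {s : ℕ} {a : ℤ} {T : ℤ[X]} {n i r : ℕ}
    (D : Data S s a T n i r) (h : ℤ[X]) (ε : ℤ) (hε : ε = 1 ∨ ε = -1)
    (hD : (8 : ℤ[X]) ∣ resultant (fam S a T n i) (derivative (fam S a T n i)) n (n - 1) -
      C ε * (1 + 4 * h)) :
    ((∃ g : (ZMod 2)[X], red h = g ^ 2 + g) → Realizes (alternatingGroup (Fin n))) ∧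
    ((∀ f : RatFunc (ZMod 2), f ^ 2 + f ≠ algebraMap (ZMod 2)[X] (RatFunc (ZMod 2)) (red h)) →
      Realizes (Equiv.Perm (Fin n))) := by
  obtain ⟨L, iF, iA, iA2, iT, iFD, iG, z, ρ, hz, hρ, hσ, hP, halt, hunr⟩ := exists_model D
  have hrpos : 0 < r := D.prime.pos
  have hn := D.hn
  obtain ⟨hmon, hdeg⟩ := fam_monic S s D.deg.le a T n i D.ipos (by omega)
  obtain ⟨v, hv⟩ := berlekamp (fam S a T n i) hmon hdeg h ε hε hD
  set ι : (ZMod 2)[X] →+* L := (algebraMap (RatFunc (ZMod 2)) L).comp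
    (algebraMap (ZMod 2)[X] (RatFunc (ZMod 2))) with hι
  have hfact : Fact (Nat.Prime 2) := ⟨Nat.prime_two⟩
  have hchar : CharP L 2 :=
    charP_of_injective_ringHom (f := ι.comp (C : ZMod 2 →+* (ZMod 2)[X])) (RingHom.injective _) 2
  have h20 : (2 : L) = 0 := CharTwo.two_eq_zero
  have hb := hv L ι z hz (by rw [map_fam, hι, ← Polynomial.map_map]; exact hP)
  have hw := wsum_sq_add z hz
  rw [hb] at hw
  have hσw : ∀ σ : L ≃ₐ[RatFunc (ZMod 2)] L,
      σ (wsum z) = wsum z + (if Equiv.Perm.sign (ρ σ) = 1 then 0 else 1) := by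
    intro σ
    rw [← wsum_perm z hz (ρ σ)]
    unfold wsum
    rw [map_sum]
    apply Finset.sum_congr rfl
    intro p _
    rw [map_div₀, map_add, hσ, hσ]
  constructor
  · rintro ⟨g, hg⟩
    have hu : (wsum z + ι v + ι g) * (wsum z + ι v + ι g + 1) = 0 := by
      rw [hg, map_add, map_pow] at hw
      linear_combination hw + (wsum z * ι v + wsum z * ι g + ι v * ι g + ι v + ι g + ι v ^ 2 +
        ι g ^ 2) * h20
    have hk : ∃ k : RatFunc (ZMod 2), wsum z = algebraMap (RatFunc (ZMod 2)) L k := by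
      rcases mul_eq_zero.1 hu with h1 | h1
      · refine ⟨-(algebraMap (ZMod 2)[X] (RatFunc (ZMod 2)) v +
          algebraMap (ZMod 2)[X] (RatFunc (ZMod 2)) g), ?_⟩
        rw [map_neg, map_add]
        have h2 : ι v = algebraMap (RatFunc (ZMod 2)) L
          (algebraMap (ZMod 2)[X] (RatFunc (ZMod 2)) v) := rfl
        have h3 : ι g = algebraMap (RatFunc (ZMod 2)) L
          (algebraMap (ZMod 2)[X] (RatFunc (ZMod 2)) g) := rfl
        rw [← h2, ← h3]
        linear_combination h1
      · refine ⟨-(algebraMap (ZMod 2)[X] (RatFunc (ZMod 2)) v +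
          algebraMap (ZMod 2)[X] (RatFunc (ZMod 2)) g + 1), ?_⟩
        rw [map_neg, map_add, map_add, map_one]
        have h2 : ι v = algebraMap (RatFunc (ZMod 2)) L
          (algebraMap (ZMod 2)[X] (RatFunc (ZMod 2)) v) := rfl
        have h3 : ι g = algebraMap (RatFunc (ZMod 2)) L
          (algebraMap (ZMod 2)[X] (RatFunc (ZMod 2)) g) := rfl
        rw [← h2, ← h3]
        linear_combination h1
    obtain ⟨k, hk⟩ := hk
    have heven : ∀ σ : L ≃ₐ[RatFunc (ZMod 2)] L, Equiv.Perm.sign (ρ σ) = 1 := by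
      intro σ
      by_contra hne
      have h1 := hσw σ
      rw [if_neg hne, hk, AlgEquiv.commutes] at h1
      exact one_ne_zero (left_eq_add.1 h1)
    have hrange : ρ.range = alternatingGroup (Fin n) := by
      apply le_antisymm _ halt
      rintro _ ⟨σ, rfl⟩
      exact Equiv.Perm.mem_alternatingGroup.2 (heven σ)
    exact ⟨L, iF, iA, iA2, iT, iFD, iG,
      ⟨(MonoidHom.ofInjective hρ).trans (MulEquiv.subgroupCongr hrange)⟩, hunr⟩
  · intro hf
    have hex : ∃ σ : L ≃ₐ[RatFunc (ZMod 2)] L, Equiv.Perm.sign (ρ σ) ≠ 1 := by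
      by_contra hcon
      push Not at hcon
      have h1 : wsum z ∈ (⊥ : IntermediateField (RatFunc (ZMod 2)) L) := by
        rw [IsGalois.mem_bot_iff_fixed]
        intro σ
        rw [hσw σ, if_pos (hcon σ), add_zero]
      rw [IntermediateField.mem_bot] at h1
      obtain ⟨w0, hw0⟩ := h1
      apply hf (w0 + algebraMap (ZMod 2)[X] (RatFunc (ZMod 2)) v)
      apply (algebraMap (RatFunc (ZMod 2)) L).injective
      rw [map_add, map_pow, map_add, hw0]
      have h2 : ι v = algebraMap (RatFunc (ZMod 2)) L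
        (algebraMap (ZMod 2)[X] (RatFunc (ZMod 2)) v) := rfl
      have h3 : ι (red h) = algebraMap (RatFunc (ZMod 2)) L
        (algebraMap (ZMod 2)[X] (RatFunc (ZMod 2)) (red h)) := rfl
      rw [← h2, ← h3]
      linear_combination hw + (wsum z * ι v + ι v + ι v ^ 2) * h20
    obtain ⟨σ, hσ1⟩ := hex
    have hsurj : Function.Surjective ρ := by
      intro π
      by_cases hπ : Equiv.Perm.sign π = 1
      · exact halt (Equiv.Perm.mem_alternatingGroup.2 hπ)
      · have h1 : Equiv.Perm.sign (ρ σ) = -1 := (Int.units_eq_one_or _).resolve_left hσ1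
        have h2 : Equiv.Perm.sign π = -1 := (Int.units_eq_one_or _).resolve_left hπ
        have h3 : π * (ρ σ)⁻¹ ∈ alternatingGroup (Fin n) := by
          rw [Equiv.Perm.mem_alternatingGroup, map_mul, map_inv, h1, h2]
          rfl
        obtain ⟨τ, hτ⟩ := halt h3
        refine ⟨τ * σ, ?_⟩
        rw [map_mul, hτ]
        group
    exact ⟨L, iF, iA, iA2, iT, iFD, iG, ⟨MulEquiv.ofBijective ρ ⟨hρ, hsurj⟩⟩, hunr⟩

end Pool.Agent.AFA
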