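import Pool.Agent.AFA.Def

set_option autoImplicit false

namespace Pool.Agent.AFA

open Polynomial

/-- ROW S10a. Divisibility by 8 in `ℤ[X]` and reduction modulo 8.

Proof. Coefficientwise (`Polynomial.ext_iff`, `ZMod.intCast_zmod_eq_zero_iff_dvd`,
`Polynomial.C_dvd_iff_dvd_coeff`, `(8 : ℤ[X]) = C 8`). -/
theorem eight_dvd_iff (f : ℤ[X]) : (8 : ℤ[X]) ∣ f ↔ red8 f = 0 := by
  have h8 : (8 : ℤ[X]) = C 8 := by simp
  rw [h8, C_dvd_iff_dvd_coeff]
  constructor
  · intro h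
    ext i
    show ((f.map (Int.castRingHom (ZMod 8))).coeff i) = (0 : (ZMod 8)[X]).coeff i
    rw [coeff_map, coeff_zero, eq_intCast]
    exact (ZMod.intCast_zmod_eq_zero_iff_dvd _ 8).2 (h i)
  · intro h i
    have h1 : (f.map (Int.castRingHom (ZMod 8))).coeff i = (0 : (ZMod 8)[X]).coeff i :=
      congrArg (fun q : (ZMod 8)[X] => q.coeff i) h
    rw [coeff_map, coeff_zero, eq_intCast] at h1
    exact (ZMod.intCast_zmod_eq_zero_iff_dvd _ 8).1 h1

end Pool.Agent.AFA
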