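import Pool.Agent.AFA.Def

set_option autoImplicit false

namespace Pool.Agent.AFA

open Polynomial

/-- ROW S5a. The first order term of `Res(P, P' + t E)` vanishes, in terms of roots.

Proof. If `y` is not injective, say `y a = y b` with `a ≠ b`, then `P'(y a) = P'(y b) = 0`, and
every product `∏_{k ≠ i}` contains one of these two factors. If `y` is injective, divide by
`∏ P'(y k) ≠ 0`: one has to show `∑ i, E(y i) / ∏_{j ≠ i} (y i - y j) = 0` for `deg E ≤ n - 2`;
this is the vanishing of the coefficient of degree `n - 1` in the Lagrange interpolation of `E`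
at the `n` nodes (`Lagrange.sum_nodalWeight_mul...`,
`Lagrange.eq_interpolate_of_eval_eq`/`Lagrange.interpolate_apply`, the coefficient of
`X ^ (n - 1)` of `Lagrange.basis` is `∏_{j ≠ i} (y i - y j)⁻¹`; possibly Mathlib has
`Lagrange.coeff_eq_sum` or `Lagrange.leadingCoeff...`; another proof: partial fractions). -/
theorem sum_eval_mul_prod_eq_zero {F : Type} [Field F] {n : ℕ} (y : Fin n → F) (E : F[X])
    (hE : E.natDegree + 2 ≤ n) :
    ∑ i, E.eval (y i) * ∏ k ∈ Finset.univ.erase i, (∏ j ∈ Finset.univ.erase k, (y k - y j)) = 0 := by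
  classical
  by_cases hinj : Function.Injective y
  · have hne : ∀ k, (∏ j ∈ Finset.univ.erase k, (y k - y j)) ≠ 0 := by
      intro k
      rw [Finset.prod_ne_zero_iff]
      intro j hj
      rw [sub_ne_zero]
      intro h
      exact (Finset.mem_erase.1 hj).1 (hinj h).symm
    have hdeg : E.degree < ((Finset.univ : Finset (Fin n)).card : WithBot ℕ) := by
      rw [Finset.card_univ, Fintype.card_fin]
      refine lt_of_le_of_lt degree_le_natDegree ?_
      exact_mod_cast (by omega : E.natDegree < n)
    have h1 := Lagrange.coeff_eq_sum (s := (Finset.univ : Finset (Fin n))) (v := y)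
      (hinj.injOn) hdeg
    rw [Finset.card_univ, Fintype.card_fin, coeff_eq_zero_of_natDegree_lt (by omega)] at h1
    have h2 : ∑ i, E.eval (y i) * ∏ k ∈ Finset.univ.erase i,
        (∏ j ∈ Finset.univ.erase k, (y k - y j)) =
        (∑ i, E.eval (y i) / ∏ j ∈ Finset.univ.erase i, (y i - y j)) *
          ∏ k, ∏ j ∈ Finset.univ.erase k, (y k - y j) := by
      rw [Finset.sum_mul]
      refine Finset.sum_congr rfl fun i _ => ?_
      rw [← Finset.mul_prod_erase Finset.univ _ (Finset.mem_univ i)]
      rw [← mul_assoc, div_mul_cancel₀ _ (hne i)]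
    rw [h2, ← h1, zero_mul]
  · have h1 : ∃ a b, y a = y b ∧ a ≠ b := by
      by_contra hcon
      push Not at hcon
      exact hinj fun a b h => hcon a b h
    obtain ⟨a, b, hab, hne⟩ := h1
    refine Finset.sum_eq_zero fun i _ => ?_
    have h2 : ∏ k ∈ Finset.univ.erase i, (∏ j ∈ Finset.univ.erase k, (y k - y j)) = 0 := by
      by_cases hi : i = a
      · refine Finset.prod_eq_zero (i := b)
          (Finset.mem_erase.2 ⟨fun h => hne (hi.symm.trans h.symm), Finset.mem_univ b⟩) ?_
        refine Finset.prod_eq_zero (i := a) (Finset.mem_erase.2 ⟨hne, Finset.mem_univ a⟩) ?_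
        rw [hab, sub_self]
      · refine Finset.prod_eq_zero (i := a)
          (Finset.mem_erase.2 ⟨fun h => hi h.symm, Finset.mem_univ a⟩) ?_
        refine Finset.prod_eq_zero (i := b) (Finset.mem_erase.2 ⟨hne.symm, Finset.mem_univ b⟩) ?_
        rw [hab, sub_self]
    rw [h2, mul_zero]

end Pool.Agent.AFA
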