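import Pool.Agent.AFA.Def
import Pool.Agent.AFA.S5a

set_option autoImplicit false

namespace Pool.Agent.AFA

open Polynomial

theorem s5b_res {A : Type} [CommRing A] [Nontrivial A] {n m : ℕ} (y : Fin n → A) (g : A[X]) (hg : g.natDegree ≤ m) :
    resultant (∏ i, (X - C (y i))) g n m = ∏ i, g.eval (y i) := by
  have h1 := resultant_prod_left (Finset.univ : Finset (Fin n)) (fun i => X - C (y i)) g m (by
    rw [Finset.prod_eq_one fun i _ => leadingCoeff_X_sub_C (y i)]
    exact one_ne_zero) hg
  have h2 : (∏ i : Fin n, (X - C (y i))).natDegree = n := by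
    rw [natDegree_prod_of_monic _ _ fun i _ => monic_X_sub_C (y i)]
    simp
  rw [h2] at h1
  rw [h1]
  refine Finset.prod_congr rfl fun i _ => ?_
  rw [natDegree_X_sub_C, resultant_X_sub_C_left _ _ _ hg]

theorem s5b_coeff {A : Type} [CommRing A] {n : ℕ} (a b : Fin n → A) :
    (∏ i, (C (a i) + X * C (b i))).coeff 1 = ∑ i, b i * ∏ k ∈ Finset.univ.erase i, a k := by
  have h1 := coeff_derivative (∏ i, (C (a i) + X * C (b i))) 0
  rw [zero_add, Nat.cast_zero, zero_add, mul_one] at h1
  rw [← h1, coeff_zero_eq_eval_zero, derivative_prod_finset, eval_finsetSum]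
  refine Finset.sum_congr rfl fun i _ => ?_
  rw [eval_mul, eval_prod, derivative_add, derivative_C, zero_add, derivative_mul, derivative_C, mul_zero, add_zero,
    derivative_X, one_mul, eval_C, mul_comm]
  congr 1
  refine Finset.prod_congr rfl fun k _ => ?_
  rw [eval_add, eval_C, eval_mul, eval_X, zero_mul, add_zero]

theorem s5b_der {A : Type} [CommRing A] {n : ℕ} (y : Fin n → A) (k : Fin n) :
    (derivative (∏ i, (X - C (y i)))).eval (y k) = ∏ j ∈ Finset.univ.erase k, (y k - y j) := by
  rw [derivative_prod_finset, eval_finsetSum, Finset.sum_eq_single k]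
  · rw [eval_mul, eval_prod, derivative_sub, derivative_X, derivative_C, sub_zero, eval_one, mul_one]
    refine Finset.prod_congr rfl fun j _ => ?_
    rw [eval_sub, eval_X, eval_C]
  · intro i _ hik
    rw [eval_mul, eval_prod, Finset.prod_eq_zero (Finset.mem_erase.2 ⟨hik.symm, Finset.mem_univ k⟩), zero_mul]
    rw [eval_sub, eval_X, eval_C, sub_self]
  · intro h
    exact absurd (Finset.mem_univ k) h

theorem s5b_roots {K : Type} [Field K] [IsAlgClosed K] (p : K[X]) (hp : p.Monic) {n : ℕ} (hn : p.natDegree = n) :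
    ∃ y : Fin n → K, p = ∏ i, (X - C (y i)) := by
  have hs := IsAlgClosed.splits p
  have h1 := hs.eq_prod_roots_of_monic hp
  have h2 : p.roots.card = n := by rw [← hn]; exact hs.natDegree_eq_card_roots.symm
  obtain ⟨l, hl⟩ := Quot.exists_rep p.roots
  have hl' : (l : Multiset K) = p.roots := hl
  rw [← hl'] at h1 h2
  rw [Multiset.coe_card] at h2
  subst h2
  refine ⟨fun i => l.get i, ?_⟩
  conv_lhs => rw [h1]
  rw [Multiset.map_coe, Multiset.prod_coe]
  conv_lhs => rw [← List.ofFn_get l, List.map_ofFn, List.prod_ofFn]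
  rfl

/-- ROW S5b. Perturbation of the discriminant: for a monic polynomial `P` of degree `n` over a
domain and `deg E ≤ n - 2`, `Res(P, P' + ε E) = Res(P, P') + ε ^ 2 c`.

Proof. Consider `F(t) := resultant (P.map C) (P'.map C + C X * E.map C) n (n - 1) ∈ R[t]`
(polynomials over `R[t]`). Let `Ω` be an algebraic closure of the fraction field of `R`,
`P = ∏ (X - C (y i))` over `Ω`. Over `Ω[t]`, by `resultant_map_map` and
`resultant_eq_prod_eval` (over the domain `Ω[t]`, `P` splits),
`F = ∏ i, (C (P'(y i)) + X * C (E(y i)))`, and its coefficient at `t` is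
`∑ i, E(y i) ∏_{k ≠ i} P'(y k) = 0` by `sum_eval_mul_prod_eq_zero`
(`P'(y k) = ∏_{j ≠ k} (y k - y j)`). So `F = F₀ + t ^ 2 F₁(t)`, and evaluating `t` at `ε` and at `0`
(`resultant_map_map` with `Polynomial.evalRingHom`) gives the claim with `c = F₁(ε)`. -/
theorem resultant_perturb {R : Type} [CommRing R] [IsDomain R] (P E : R[X]) (hP : P.Monic) {n : ℕ}
    (hn : P.natDegree = n) (hE : E.natDegree + 2 ≤ n) (ε : R) :
    ∃ c : R, resultant P (derivative P + C ε * E) n (n - 1) =
      resultant P (derivative P) n (n - 1) + ε ^ 2 * c := by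
  set F : R[X] := resultant (P.map C) ((derivative P).map C + C X * E.map C) n (n - 1) with hF
  have hev : ∀ t : R, F.eval t = resultant P (derivative P + C t * E) n (n - 1) := by
    intro t
    have h1 := resultant_map_map (P.map (C : R →+* R[X])) ((derivative P).map C + C X * E.map C) n (n - 1)
      (evalRingHom t)
    have h2 : (evalRingHom t).comp (C : R →+* R[X]) = RingHom.id R := by
      ext x
      simp
    rw [Polynomial.map_map, h2, Polynomial.map_id, Polynomial.map_add, Polynomial.map_mul, Polynomial.map_map,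
      Polynomial.map_map, h2, Polynomial.map_id, Polynomial.map_id, map_C, coe_evalRingHom, eval_X] at h1
    exact h1.symm
  have hF1 : F.coeff 1 = 0 := by
    obtain ⟨K₁, _, _, φ, hφ⟩ : ∃ (K₁ : Type) (_ : Field K₁) (_ : IsAlgClosed K₁) (φ : R →+* K₁),
        Function.Injective φ :=
      ⟨AlgebraicClosure (FractionRing R), inferInstance, inferInstance,
        (algebraMap (FractionRing R) (AlgebraicClosure (FractionRing R))).comp (algebraMap R (FractionRing R)),
        (algebraMap (FractionRing R) (AlgebraicClosure (FractionRing R))).injective.comp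
          (IsFractionRing.injective R (FractionRing R))⟩
    obtain ⟨y, hy⟩ := s5b_roots (P.map φ) (hP.map φ) (n := n) (by rw [hP.natDegree_map, hn])
    have h1 := resultant_map_map (P.map (C : R →+* R[X])) ((derivative P).map C + C X * E.map C) n (n - 1)
      (mapRingHom φ)
    have h2 : (mapRingHom φ).comp (C : R →+* R[X]) = (C : K₁ →+* K₁[X]).comp φ := by
      ext x
      simp
    have h2' : ∀ q : R[X], (q.map (C : R →+* R[X])).map (mapRingHom φ) = (q.map φ).map (C : K₁ →+* K₁[X]) := by
      intro q
      rw [Polynomial.map_map, h2, ← Polynomial.map_map]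
    rw [h2', hy, Polynomial.map_add, Polynomial.map_mul, h2', h2', map_C, Polynomial.map_prod] at h1
    have h3 : (∏ i : Fin n, (X - C (y i)).map (C : K₁ →+* K₁[X])) = ∏ i : Fin n, (X - C (C (y i))) := by
      refine Finset.prod_congr rfl fun i _ => ?_
      rw [Polynomial.map_sub, map_X, map_C]
    have h4 : (mapRingHom φ) (X : R[X]) = X := by simp
    have hd : (((derivative P).map φ).map (C : K₁ →+* K₁[X]) + C X * (E.map φ).map C).natDegree ≤ n - 1 := by
      refine (natDegree_add_le _ _).trans (max_le ?_ ?_)
      · refine natDegree_map_le.trans (natDegree_map_le.trans ((natDegree_derivative_le P).trans ?_))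
        rw [hn]
      · refine (natDegree_C_mul_le _ _).trans (natDegree_map_le.trans (natDegree_map_le.trans ?_))
        omega
    rw [h3, h4, s5b_res _ _ hd] at h1
    have h5 : (mapRingHom φ F).coeff 1 = 0 := by
      rw [← h1]
      have h6 : ∀ i : Fin n, (((derivative P).map φ).map (C : K₁ →+* K₁[X]) + C X * (E.map φ).map C).eval (C (y i)) =
          C (∏ j ∈ Finset.univ.erase i, (y i - y j)) + X * C ((E.map φ).eval (y i)) := by
        intro i
        rw [eval_add, eval_mul, eval_C, eval_map_apply, eval_map_apply, ← s5b_der, ← hy, derivative_map]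
      rw [Finset.prod_congr rfl fun i _ => h6 i, s5b_coeff]
      exact sum_eval_mul_prod_eq_zero y (E.map φ) (by
        have := natDegree_map_le (f := φ) (p := E)
        omega)
    rw [coe_mapRingHom, coeff_map] at h5
    exact hφ (h5.trans (map_zero φ).symm)
  refine ⟨F.divX.divX.eval ε, ?_⟩
  have h1 := divX_mul_X_add F
  have h2 := divX_mul_X_add F.divX
  rw [coeff_divX, zero_add, hF1, map_zero, add_zero] at h2
  have h3 := hev ε
  have h4 := hev 0
  rw [map_zero, zero_mul, add_zero, ← coeff_zero_eq_eval_zero] at h4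
  rw [← h3, ← h4]
  conv_lhs => rw [← h1, ← h2]
  rw [eval_add, eval_mul, eval_mul, eval_X, eval_C]
  ring

end Pool.Agent.AFA
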