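import Pool.Agent.AFA.Def

set_option autoImplicit false

namespace Pool.Agent.AFA

open Polynomial

theorem s6a_up {R : Type} [CommRing R] (P f : R[X]) {n a : ℕ} (hP : P.Monic)
    (hn : P.natDegree = n) (ha : f.natDegree ≤ a) :
    resultant P f n a = resultant P f n f.natDegree := by
  obtain ⟨k, rfl⟩ := Nat.exists_eq_add_of_le ha
  have h1 := resultant_add_right_deg P f n f.natDegree k le_rfl
  have h2 : P.coeff n = 1 := by
    rw [← hn]
    exact hP.coeff_natDegree
  rw [h1, h2, one_pow, one_mul]

/-- ROW S6a. Multiplicativity of the resultant with a monic polynomial, formal degrees on the right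
being irrelevant.

Proof. `Polynomial.resultant_mul_right` gives the claim with right degree
`f.natDegree + g.natDegree`, and with `f.natDegree`, `g.natDegree` on the other side;
`resultant_add_right_deg` shows that for the monic polynomial `P` (`P.coeff n = 1`) enlarging the
right formal degree does not change the resultant. -/
theorem resultant_mul_monic {R : Type} [CommRing R] (P f g : R[X]) {n a b : ℕ} (hP : P.Monic)
    (hn : P.natDegree = n) (ha : f.natDegree ≤ a) (hb : g.natDegree ≤ b) :
    resultant P (f * g) n (a + b) = resultant P f n a * resultant P g n b := by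
  have h1 : (f * g).natDegree ≤ f.natDegree + g.natDegree := natDegree_mul_le
  rw [s6a_up P (f * g) hP hn (by omega), s6a_up P f hP hn ha, s6a_up P g hP hn hb,
    ← resultant_mul_right P f g n (le_of_eq hn), s6a_up P (f * g) hP hn h1]

/-- ROW S6b. For monic `P` of degree `n` the right formal degree is irrelevant. -/
theorem resultant_deg_right {R : Type} [CommRing R] (P f : R[X]) {n a b : ℕ} (hP : P.Monic)
    (hn : P.natDegree = n) (ha : f.natDegree ≤ a) (hb : f.natDegree ≤ b) :
    resultant P f n a = resultant P f n b := by
  rw [s6a_up P f hP hn ha, s6a_up P f hP hn hb]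

/-- ROW S6c. For monic `P` of degree `n` the resultant depends only on the class modulo `P`.

Proof. `Polynomial.resultant_add_mul_right` (after enlarging the right formal degree by
`resultant_deg_right` to `max b (n + q.natDegree)`). -/
theorem resultant_add_mul {R : Type} [CommRing R] (P f g q : R[X]) {n a b : ℕ} (hP : P.Monic)
    (hn : P.natDegree = n) (ha : f.natDegree ≤ a) (hb : g.natDegree ≤ b) (hfg : f = g + P * q) :
    resultant P f n a = resultant P g n b := by
  obtain ⟨c, hc⟩ : ∃ c, c = f.natDegree + g.natDegree + (q.natDegree + n) := ⟨_, rfl⟩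
  rw [resultant_deg_right P f (b := c) hP hn ha (by omega),
    resultant_deg_right P g (b := c) hP hn hb (by omega)]
  rw [hfg]
  exact resultant_add_mul_right P g q n c (by omega) (le_of_eq hn)

end Pool.Agent.AFA
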