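import Pool.Agent.AFA.Def
import Pool.Agent.AFA.S6a

set_option autoImplicit false

namespace Pool.Agent.AFA

open Polynomial

/-- ROW S6d. `Res(Y^n + S W, W) = 1`.

Proof. `resultant_comm`: `Res(P, W; n, w) = (-1) ^ (n w) Res(W, P; w, n)`, then
`resultant_add_mul_right` (`S.natDegree + w ≤ n`, `W.natDegree ≤ w`): `Res(W, Y^n + W S; w, n) =
Res(W, Y^n; w, n)`, then `resultant_comm` again and `resultant_X_pow_left`:
`Res(Y^n, W; n, w) = W(0) ^ n = 1`. The signs cancel. -/
theorem resultant_W {R : Type} [CommRing R] (S W : R[X]) {n s w : ℕ} (hS : S.natDegree ≤ s)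
    (hW : W.natDegree ≤ w) (hn : s + w < n) (hW0 : W.coeff 0 = 1) :
    resultant (X ^ n + S * W) W n w = 1 := by
  rw [resultant_comm]
  have h1 : X ^ n + S * W = X ^ n + W * S := by ring
  rw [h1, resultant_add_mul_right _ _ _ _ _ (by omega) hW, resultant_comm, resultant_X_pow_left _ _ _ hW, hW0,
    one_pow, mul_one, mul_comm w n, ← mul_pow]
  norm_num

end Pool.Agent.AFA
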