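import Pool.Agent.AFA.Def
import Pool.Agent.AFA.S6d

set_option autoImplicit false

namespace Pool.Agent.AFA

open Polynomial

/-- ROW S6e. Reduction of the (modified) discriminant of `P = Y^n + S W` to the resultant of `P`
with the small polynomial `Y S' - n S`.

Proof. `P` is monic of degree `n`, `P(0) = S(0) W(0) = 1` (`n > 0`). With
`F = n Y^(n-1) + S' W` we have `Y F = n Y^n + Y S' W = n P + W (Y S' - n S)`. So by
`resultant_mul_monic` and `resultant_add_mul`,
`Res(P, Y; n, 1) * Res(P, F; n, n-1) = Res(P, Y F; n, n) = Res(P, W (Y S' - n S); n, w + s) =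
Res(P, W; n, w) * Res(P, Y S' - n S; n, s) = Res(P, Y S' - n S; n, s)` (`resultant_W`).
And `Res(P, Y; n, 1) = (-1) ^ n P(0) = (-1) ^ n` (`resultant_X_pow_right` with exponent 1 or
`resultant_X_sub_C_right` with `r = 0`). Multiply by `(-1) ^ n`. Degrees: `F` has degree
`≤ n - 1`, `Y S' - n S` has degree `≤ s`, `Y F` has degree `≤ n`. -/
theorem resultant_red {R : Type} [CommRing R] (S W : R[X]) {n s w : ℕ} (hS : S.natDegree ≤ s)
    (hW : W.natDegree ≤ w) (hn : s + w < n) (hS0 : S.coeff 0 = 1) (hW0 : W.coeff 0 = 1) :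
    resultant (X ^ n + S * W) (C (n : R) * X ^ (n - 1) + derivative S * W) n (n - 1) =
      (-1) ^ n * resultant (X ^ n + S * W) (X * derivative S - C (n : R) * S) n s := by
  rcases subsingleton_or_nontrivial R with hR | hR
  · exact Subsingleton.elim _ _
  have hSW : (S * W).natDegree ≤ s + w := natDegree_mul_le.trans (Nat.add_le_add hS hW)
  have hdeg : (S * W).degree < (n : WithBot ℕ) :=
    lt_of_le_of_lt degree_le_natDegree (by exact_mod_cast lt_of_le_of_lt hSW hn)
  have hP : (X ^ n + S * W).Monic := monic_X_pow_add hdeg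
  have hPn : (X ^ n + S * W).natDegree = n := by
    rw [natDegree_add_eq_left_of_degree_lt (by rw [degree_X_pow]; exact hdeg), natDegree_X_pow]
  have hS' : (derivative S).natDegree ≤ s - 1 := (natDegree_derivative_le S).trans (Nat.sub_le_sub_right hS 1)
  have hF : (C (n : R) * X ^ (n - 1) + derivative S * W).natDegree ≤ n - 1 := by
    apply natDegree_add_le_of_degree_le
    · exact natDegree_C_mul_X_pow_le _ _
    · refine natDegree_mul_le.trans ?_
      omega
  have hG : (X * derivative S - C (n : R) * S).natDegree ≤ s := by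
    refine (natDegree_sub_le _ _).trans (max_le ?_ ?_)
    · rcases Nat.eq_zero_or_pos s with h0 | h0
      · have h1 : S.natDegree = 0 := by omega
        have h2 : derivative S = 0 := derivative_of_natDegree_zero h1
        rw [h2, mul_zero, natDegree_zero]
        exact Nat.zero_le _
      · refine natDegree_mul_le.trans ?_
        rw [natDegree_X]
        omega
    · exact (natDegree_C_mul_le _ _).trans hS
  have hXF : (X * (C (n : R) * X ^ (n - 1) + derivative S * W)).natDegree ≤ 1 + (n - 1) := by
    refine natDegree_mul_le.trans ?_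
    rw [natDegree_X]
    omega
  have hWG : (W * (X * derivative S - C (n : R) * S)).natDegree ≤ w + s :=
    natDegree_mul_le.trans (Nat.add_le_add hW hG)
  have hn0 : n = (n - 1) + 1 := by omega
  have hid : X * (C (n : R) * X ^ (n - 1) + derivative S * W) =
      W * (X * derivative S - C (n : R) * S) + (X ^ n + S * W) * C (n : R) := by
    have h1 : (X : R[X]) ^ n = X ^ (n - 1) * X := by
      rw [← pow_succ, ← hn0]
    rw [h1]
    ring
  have e1 := resultant_mul_monic (X ^ n + S * W) X (C (n : R) * X ^ (n - 1) + derivative S * W) (a := 1)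
    (b := n - 1) hP hPn natDegree_X_le hF
  have e2 := resultant_add_mul (X ^ n + S * W) (X * (C (n : R) * X ^ (n - 1) + derivative S * W))
    (W * (X * derivative S - C (n : R) * S)) (C (n : R)) hP hPn hXF hWG hid
  have e3 := resultant_mul_monic (X ^ n + S * W) W (X * derivative S - C (n : R) * S) (a := w) (b := s)
    hP hPn hW hG
  have e4 := resultant_W S W hS hW hn hW0
  have e5 : resultant (X ^ n + S * W) X n 1 = (-1) ^ n := by
    have h1 := resultant_X_sub_C_right (X ^ n + S * W) n 0 hPn.le
    rw [C_0, sub_zero] at h1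
    have h2 : eval 0 (X ^ n + S * W) = 1 := by
      have h3 : n ≠ 0 := by omega
      rw [← coeff_zero_eq_eval_zero, coeff_add, mul_coeff_zero, hS0, hW0, coeff_X_pow, if_neg h3.symm]
      ring
    rw [h1, h2, mul_one]
  have e6 : (-1 : R) ^ n * (-1) ^ n = 1 := by
    rw [← mul_pow, neg_one_mul, neg_neg, one_pow]
  rw [e1, e3, e4, e5, one_mul] at e2
  rw [← e2, ← mul_assoc, e6, one_mul]

end Pool.Agent.AFA
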