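import Pool.Agent.AFA.Def
import Pool.Agent.AFA.S5b
import Pool.Agent.AFA.S6e

set_option autoImplicit false

namespace Pool.Agent.AFA

open Polynomial

/-- ROW S7. Modulo 8 the resultant of `P = fam S a T n i` and `P'` is `(-1) ^ n` times the
resultant of `P` and `Y S' - n S`.

Proof. Write `P = Y^n + S W` with `W = 1 + a Y^4 + T Y^(4i)` (definition of `fam`), where `S`
stands for `S.map (Int.castRingHom ℤ[X])`. Then `W' = 4 E₀` with `E₀ = a Y^3 + i T Y^(4i-1)`, and
`P' = n Y^(n-1) + S' W + 4 E` with `E = S E₀`, of degree `≤ s + 4 i - 1 ≤ n - 2`. So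
`F := n Y^(n-1) + S' W = P' + C (-4) * E` and `resultant_perturb` (with `ε = -4`, the ring `ℤ[X]`
is a domain, `P` is monic of degree `n`) gives `Res(P, F) = Res(P, P') + 16 c`. By `resultant_red`
(with `w = 4 i`), `Res(P, F) = (-1) ^ n Res(P, Y S' - n S)`. -/
theorem resultant_fam (S : ℤ[X]) {s : ℕ} (hS : S.natDegree ≤ s) (hS0 : S.coeff 0 = 1) (a : ℤ)
    (T : ℤ[X]) (n i : ℕ) (hi : 0 < i) (hn : s + 4 * i < n) :
    (8 : ℤ[X]) ∣ resultant (fam S a T n i) (derivative (fam S a T n i)) n (n - 1) -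
      (-1) ^ n * resultant (fam S a T n i)
        (X * derivative (S.map (Int.castRingHom ℤ[X])) -
          C (n : ℤ[X]) * S.map (Int.castRingHom ℤ[X])) n s := by
  set S' : ℤ[X][X] := S.map (Int.castRingHom ℤ[X]) with hS'
  set W : ℤ[X][X] := 1 + C ((a : ℤ) : ℤ[X]) * X ^ 4 + C T * X ^ (4 * i) with hW
  have hP : fam S a T n i = X ^ n + S' * W := rfl
  have hSd : S'.natDegree ≤ s := natDegree_map_le.trans hS
  have hWd : W.natDegree ≤ 4 * i := by
    rw [hW]
    refine (natDegree_add_le _ _).trans (max_le ((natDegree_add_le _ _).trans (max_le ?_ ?_)) ?_)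
    · rw [natDegree_one]
      exact Nat.zero_le _
    · exact (natDegree_C_mul_X_pow_le _ _).trans (by omega)
    · exact natDegree_C_mul_X_pow_le _ _
  have hS0' : S'.coeff 0 = 1 := by
    rw [hS', coeff_map, hS0, map_one]
  have hW0 : W.coeff 0 = 1 := by
    have h4 : 4 * i ≠ 0 := by omega
    rw [hW, coeff_add, coeff_add, coeff_one_zero, coeff_C_mul, coeff_C_mul, coeff_X_pow, coeff_X_pow,
      if_neg (by norm_num), if_neg h4.symm, mul_zero, mul_zero, add_zero, add_zero]
  have hSW : (S' * W).natDegree < n :=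
    (natDegree_mul_le.trans (Nat.add_le_add hSd hWd)).trans_lt hn
  have hlt : (S' * W).degree < (n : WithBot ℕ) :=
    degree_le_natDegree.trans_lt (Nat.cast_lt.2 hSW)
  have hmon : (X ^ n + S' * W).Monic := monic_X_pow_add hlt
  have hdeg : (X ^ n + S' * W).natDegree = n := by
    rw [natDegree_add_eq_left_of_natDegree_lt (by rw [natDegree_X_pow]; exact hSW), natDegree_X_pow]
  set E0 : ℤ[X][X] := C ((a : ℤ) : ℤ[X]) * X ^ 3 + C ((i : ℤ[X]) * T) * X ^ (4 * i - 1) with hE0
  have hE0d : E0.natDegree ≤ 4 * i - 1 := by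
    rw [hE0]
    refine (natDegree_add_le _ _).trans (max_le ?_ ?_)
    · exact (natDegree_C_mul_X_pow_le _ _).trans (by omega)
    · exact natDegree_C_mul_X_pow_le _ _
  have hE : (S' * E0).natDegree + 2 ≤ n := by
    have h1 := natDegree_mul_le.trans (Nat.add_le_add hSd hE0d)
    omega
  have hWder : derivative W = C 4 * E0 := by
    rw [hW, hE0, derivative_add, derivative_add, derivative_one, derivative_C_mul_X_pow, derivative_C_mul_X_pow]
    simp only [map_mul, map_natCast, map_ofNat, Nat.cast_mul, Nat.cast_ofNat]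
    ring
  have hPder : derivative (X ^ n + S' * W) + C (-4) * (S' * E0) =
      C (n : ℤ[X]) * X ^ (n - 1) + derivative S' * W := by
    rw [derivative_add, derivative_X_pow, derivative_mul, hWder, map_neg]
    simp only [map_natCast]
    ring
  obtain ⟨c, hc⟩ := resultant_perturb (X ^ n + S' * W) (S' * E0) hmon hdeg hE (-4)
  rw [hPder, resultant_red S' W hSd hWd hn hS0' hW0] at hc
  rw [hP, hc]
  exact ⟨-2 * c, by ring⟩

end Pool.Agent.AFA
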