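import Pool.Agent.AFA.Def

set_option autoImplicit false

namespace Pool.Agent.AFA

open Polynomial

theorem s8a_split {R : Type} [CommRing R] (h : R[X]) :
    h = expand R 2 (contract 2 h) + X * expand R 2 (contract 2 (divX h)) := by
  ext n
  rw [coeff_add, coeff_expand (by norm_num), coeff_contract (by norm_num)]
  rcases n with - | k
  · rw [coeff_X_mul_zero, if_pos (dvd_zero 2), add_zero, Nat.zero_div, zero_mul]
  · rw [coeff_X_mul, coeff_expand (by norm_num), coeff_contract (by norm_num), coeff_divX]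
    by_cases hk : 2 ∣ k
    · rw [if_pos hk, if_neg (by omega), Nat.div_mul_cancel hk, zero_add]
    · have h1 : 2 ∣ k + 1 := by omega
      rw [if_neg hk, if_pos h1, Nat.div_mul_cancel h1, add_zero]

theorem s8a_deg0 {R : Type} [CommRing R] {m : ℕ} (h : R[X]) (hh : h.degree < (2 * m + 1 : ℕ)) :
    (contract 2 h).natDegree ≤ m := by
  rw [natDegree_le_iff_coeff_eq_zero]
  intro N hN
  rw [coeff_contract (by norm_num)]
  refine coeff_eq_zero_of_degree_lt (hh.trans_le ?_)
  exact_mod_cast (by omega : 2 * m + 1 ≤ N * 2)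

theorem s8a_deg1 {R : Type} [CommRing R] {m : ℕ} (h : R[X]) (hh : h.degree < (2 * m + 1 : ℕ)) :
    (X * contract 2 (divX h)).natDegree ≤ m := by
  rw [natDegree_le_iff_coeff_eq_zero]
  intro N hN
  obtain ⟨k, rfl⟩ : ∃ k, N = k + 1 := ⟨N - 1, by omega⟩
  rw [coeff_X_mul, coeff_contract (by norm_num), coeff_divX]
  refine coeff_eq_zero_of_degree_lt (hh.trans_le ?_)
  exact_mod_cast (by omega : 2 * m + 1 ≤ k * 2 + 1)

theorem s8a_deg2 {R : Type} [CommRing R] {m : ℕ} (h : R[X]) (hh : h.degree < (2 * m + 1 : ℕ)) :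
    (contract 2 (divX h)).natDegree ≤ m := by
  rw [natDegree_le_iff_coeff_eq_zero]
  intro N hN
  rw [coeff_contract (by norm_num), coeff_divX]
  refine coeff_eq_zero_of_degree_lt (hh.trans_le ?_)
  exact_mod_cast (by omega : 2 * m + 1 ≤ N * 2 + 1)

theorem s8a_comp {F : Type} [CommRing F] (g : F[X]) : (expand F 2 g).comp (-X) = expand F 2 g := by
  rw [expand_eq_comp_X_pow, comp_assoc, pow_comp, X_comp, neg_pow_two]

/-- ROW S8a. One Graeffe step: from `χ = Y^s + c h` (odd degree `s`, `2 ∣ c`) one gets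
`χ' = Y^s + 2 c h'` whose roots are the squares of the roots of `χ`.

Proof. Let `h(Y) = ∑_{j<s} h_j Y^j` and `q(Y) := - χ(Y) χ(-Y) = (Y^s + c h(Y)) (Y^s - c h(-Y)) =
Y^(2s) + c Y^s (h(Y) - h(-Y)) - c^2 h(Y) h(-Y)` (`s` odd). `q(-Y) = q(Y)`, so the odd coefficients
of `q` vanish (`CharZero`, domain) and `q = expand R 2 χ'` with `χ' := contract 2 q`. Now
`h(Y) - h(-Y) = 2 h_odd(Y)` and `c^2 = (2 c) * (c / 2)`, so all coefficients of `q - Y^(2s)` are
divisible by `2 c`, and `q - Y^(2s)` has degree `< 2 s`; hence `χ' = Y^s + 2 c h'` with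
`h'.degree < s`. If `χ.map φ = ∏ (Y - ρ j)` then
`(q.map φ)(Y) = - ∏ (Y - ρ j) ∏ (-Y - ρ j) = ∏ (Y - ρ j) (Y + ρ j) = ∏ (Y^2 - ρ j ^ 2)` (`s` odd),
so `expand 2 (χ'.map φ) = expand 2 (∏ (Y - ρ j ^ 2))`, and `expand` is injective. -/
theorem graeffe {R : Type} [CommRing R] [IsDomain R] [CharZero R] {s : ℕ} (hs : Odd s)
    (c c' : R) (hc : c = 2 * c') (h : R[X]) (hh : h.degree < s) :
    ∃ h' : R[X], h'.degree < s ∧ ∀ (F : Type) [Field F] (φ : R →+* F) (ρ : Fin s → F),
      (X ^ s + C c * h).map φ = ∏ j, (X - C (ρ j)) →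
      (X ^ s + C (2 * c) * h').map φ = ∏ j, (X - C (ρ j ^ 2)) := by
  obtain ⟨m, rfl⟩ := hs
  subst hc
  refine ⟨X ^ (m + 1) * contract 2 (divX h) -
    C c' * ((contract 2 h) ^ 2 - X * (contract 2 (divX h)) ^ 2), ?_, ?_⟩
  · have d0 := s8a_deg0 h hh
    have d1 := s8a_deg1 h hh
    have d2 := s8a_deg2 h hh
    have e1 : X ^ (m + 1) * contract 2 (divX h) = X ^ m * (X * contract 2 (divX h)) := by ring
    have e2 : X * (contract 2 (divX h)) ^ 2 = (X * contract 2 (divX h)) * contract 2 (divX h) := by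
      ring
    have h0 : (X ^ (m + 1) * contract 2 (divX h) -
        C c' * ((contract 2 h) ^ 2 - X * (contract 2 (divX h)) ^ 2)).natDegree ≤ 2 * m := by
      refine (natDegree_sub_le _ _).trans (max_le ?_ ?_)
      · rw [e1]
        refine natDegree_mul_le.trans ?_
        have h3 : (X ^ m : R[X]).natDegree ≤ m := natDegree_X_pow_le m
        omega
      · refine (natDegree_C_mul_le _ _).trans ?_
        refine (natDegree_sub_le _ _).trans (max_le ?_ ?_)
        · refine natDegree_pow_le.trans ?_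
          omega
        · rw [e2]
          refine natDegree_mul_le.trans ?_
          omega
    refine degree_le_natDegree.trans_lt ?_
    exact_mod_cast (by omega)
  · intro F _ φ ρ hρ
    apply expand_injective (n := 2) (by norm_num)
    have hsplit := s8a_split h
    set he := contract 2 h
    set ho := contract 2 (divX h)
    set A : F[X] := expand F 2 (he.map φ) with hA
    set B : F[X] := expand F 2 (ho.map φ) with hB
    set d : F := φ c' with hd
    have hmap : h.map φ = A + X * B := by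
      rw [hsplit, Polynomial.map_add, Polynomial.map_mul, map_X, map_expand, map_expand]
    have hP : (X ^ (2 * m + 1) + C (2 * c') * h).map φ = X ^ (2 * m + 1) + C (2 * d) * (A + X * B) := by
      rw [Polynomial.map_add, Polynomial.map_mul, Polynomial.map_pow, map_X, map_C, hmap, map_mul,
        map_ofNat]
    have hPc : (X ^ (2 * m + 1) + C (2 * d) * (A + X * B) : F[X]).comp (-X) =
        - X ^ (2 * m + 1) + C (2 * d) * (A - X * B) := by
      rw [add_comp, mul_comp, add_comp, mul_comp, X_pow_comp, X_comp, C_comp, hA, hB, s8a_comp,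
        s8a_comp, Odd.neg_pow ⟨m, rfl⟩]
      ring
    rw [hP] at hρ
    have hL : expand F 2 ((X ^ (2 * m + 1) + C (2 * (2 * c')) * (X ^ (m + 1) * ho -
        C c' * (he ^ 2 - X * ho ^ 2))).map φ) = - ((X ^ (2 * m + 1) + C (2 * d) * (A + X * B)) *
          (X ^ (2 * m + 1) + C (2 * d) * (A + X * B) : F[X]).comp (-X)) := by
      rw [hPc]
      simp only [Polynomial.map_add, Polynomial.map_sub, Polynomial.map_mul, Polynomial.map_pow,
        map_X, map_C, map_add, map_sub, map_mul, map_pow, expand_X, expand_C, map_ofNat,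
        Polynomial.map_ofNat, ← hA, ← hB, ← hd]
      ring
    rw [hL, hρ, Polynomial.prod_comp, ← Finset.prod_mul_distrib, map_prod]
    have h1 : ∀ j : Fin (2 * m + 1), (X - C (ρ j)) * (X - C (ρ j)).comp (-X) =
        -1 * (expand F 2 (X - C (ρ j ^ 2))) := by
      intro j
      rw [sub_comp, X_comp, C_comp, map_sub, expand_X, expand_C, C_pow]
      ring
    rw [Finset.prod_congr rfl (fun j _ => h1 j), Finset.prod_mul_distrib, Finset.prod_const,
      Finset.card_univ, Fintype.card_fin, Odd.neg_one_pow ⟨m, rfl⟩]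
    ring

end Pool.Agent.AFA
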