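import Pool.Agent.AFA.Def
import Pool.Agent.AFA.S8a

set_option autoImplicit false

namespace Pool.Agent.AFA

open Polynomial

theorem s8b_roots {F : Type} [Field F] [IsAlgClosed F] (p : F[X]) (hp : p.Monic) {s : ℕ}
    (hn : p.natDegree = s) : ∃ ρ : Fin s → F, p = ∏ j, (X - C (ρ j)) := by
  have h1 : p.Splits := IsAlgClosed.splits p
  have h2 := h1.eq_prod_roots_of_monic hp
  have h3 := h1.natDegree_eq_card_roots
  obtain ⟨l, hl⟩ : ∃ l : List F, (l : Multiset F) = p.roots := ⟨p.roots.toList, Multiset.coe_toList _⟩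
  rw [← hl] at h2 h3
  have h4 : l.length = s := by
    rw [← hn, h3, Multiset.coe_card]
  subst h4
  refine ⟨fun j => l[j.1], ?_⟩
  rw [Fin.prod_univ_fun_getElem l (fun a => X - C a)]
  rw [Multiset.map_coe, Multiset.prod_coe] at h2
  exact h2

theorem s8b_res {F : Type} [Field F] {s : ℕ} (ρ : Fin s → F) (g : F[X]) (n : ℕ)
    (hg : g.natDegree ≤ n) :
    resultant (∏ j, (X - C (ρ j))) g s n = ∏ j, eval (ρ j) g := by
  have h1 := resultant_prod_left Finset.univ (fun j => X - C (ρ j)) g n
    (by simp) hg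
  rw [natDegree_finsetProd_X_sub_C_eq_card, Finset.card_univ, Fintype.card_fin] at h1
  rw [h1]
  refine Finset.prod_congr rfl fun j _ => ?_
  rw [natDegree_X_sub_C, resultant_X_sub_C_left _ _ _ hg]

theorem s8b_monic {R : Type} [CommRing R] [Nontrivial R] {s : ℕ} (c : R) (h : R[X])
    (hh : h.degree < s) : (X ^ s + C c * h).Monic ∧ (X ^ s + C c * h).natDegree = s := by
  have h1 : (C c * h).degree < s := by
    refine lt_of_le_of_lt ?_ hh
    rw [← smul_eq_C_mul]
    exact degree_smul_le c h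
  have h2 : (C c * h).degree < (X ^ s : R[X]).degree := by
    rw [degree_X_pow]
    exact h1
  constructor
  · exact (monic_X_pow s).add_of_left h2
  · have h3 : (X ^ s + C c * h).degree = (s : WithBot ℕ) := by
      rw [degree_add_eq_left_of_degree_lt h2, degree_X_pow]
    exact natDegree_eq_of_degree_eq_some h3

/-- ROW S8b. If `χ` is monic of odd degree `s` and `χ ≡ Y^s` modulo 2 then for every `f`,
`Res(χ(Y), f(Y^4)) ≡ f(0) ^ s` modulo 8.

Proof. Write `χ = Y^s + 2 h` with `h.degree < s`. Let `F` be an algebraic closure of the fraction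
field of `R`, `φ : R → F`, `χ.map φ = ∏ (Y - ρ j)`. Apply `graeffe` twice (`c = 2`, then `c = 4`):
there is `χ₂ = Y^s + 8 h₂` over `R` with `χ₂.map φ = ∏ (Y - ρ j ^ 4)`. By
`resultant_eq_prod_eval` over `F`: `Res(χ, expand 4 f; s, 4 m) = ∏ f(ρ j ^ 4) = Res(χ₂, f; s, m)`
(after `resultant_map_map`, `φ` injective), so the two resultants are equal in `R`. Modulo 8 (map
to `R ⧸ Ideal.span {8}`, `resultant_map_map`): `χ₂ = Y^s` and
`Res(Y^s, f; s, m) = f(0) ^ s` (`resultant_X_pow_left`). -/
theorem resultant_expand_four {R : Type} [CommRing R] [IsDomain R] [CharZero R] {s : ℕ}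
    (hs : Odd s) (h : R[X]) (hh : h.degree < s) (f : R[X]) {m : ℕ} (hm : f.natDegree ≤ m) :
    (8 : R) ∣ resultant (X ^ s + C 2 * h) (expand R 4 f) s (4 * m) - f.coeff 0 ^ s := by
  obtain ⟨h1, hh1, H1⟩ := graeffe hs (2 : R) 1 (by ring) h hh
  obtain ⟨h2, hh2, H2⟩ := graeffe hs (2 * 2 : R) 2 (by ring) h1 hh1
  let φ : R →+* AlgebraicClosure (FractionRing R) :=
    (algebraMap (FractionRing R) (AlgebraicClosure (FractionRing R))).comp (algebraMap R (FractionRing R))
  have hφ : Function.Injective φ :=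
    (algebraMap (FractionRing R) (AlgebraicClosure (FractionRing R))).injective.comp
      (IsFractionRing.injective R (FractionRing R))
  obtain ⟨hmon, hdeg⟩ := s8b_monic (2 : R) h hh
  have hmon' : ((X ^ s + C 2 * h).map φ).Monic := hmon.map φ
  have hdeg' : ((X ^ s + C 2 * h).map φ).natDegree = s := by
    rw [natDegree_map_eq_of_injective hφ, hdeg]
  obtain ⟨ρ, hρ⟩ := s8b_roots _ hmon' hdeg'
  have e1 := H1 _ φ ρ hρ
  have e2 := H2 _ φ (fun j => ρ j ^ 2) e1
  have key : resultant (X ^ s + C 2 * h) (expand R 4 f) s (4 * m) =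
      resultant (X ^ s + C (2 * (2 * 2)) * h2) f s m := by
    apply hφ
    rw [← resultant_map_map, ← resultant_map_map, hρ, e2, s8b_res, s8b_res]
    · refine Finset.prod_congr rfl fun j _ => ?_
      rw [map_expand, expand_eval, ← pow_mul]
    · exact natDegree_map_le.trans hm
    · refine natDegree_map_le.trans ?_
      rw [natDegree_expand]
      omega
  rw [key, ← Ideal.mem_span_singleton, ← Ideal.Quotient.eq_zero_iff_mem, map_sub, sub_eq_zero,
    ← resultant_map_map, map_pow]
  have h8 : (Ideal.Quotient.mk (Ideal.span {(8 : R)})) (2 * (2 * 2)) = 0 := by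
    rw [Ideal.Quotient.eq_zero_iff_mem, Ideal.mem_span_singleton]
    exact ⟨1, by norm_num⟩
  rw [Polynomial.map_add, Polynomial.map_pow, map_X, Polynomial.map_mul, map_C, h8, map_zero, zero_mul,
    add_zero, resultant_X_pow_left _ _ _ (natDegree_map_le.trans hm), coeff_map]

end Pool.Agent.AFA
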