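import Pool.Agent.AFA.Def
import Pool.Agent.AFA.S8b

set_option autoImplicit false

namespace Pool.Agent.AFA

open Polynomial

/-- ROW S8c. `Res(χ, 1 + a Y^4 + T Y^(4i)) = 1` over `(ZMod 8)[x]`, for
`χ = Y^s + 2 (b Y^2 + c)`, `s` odd, `s = 1` and `b = 0`, or `s ≥ 3`.

Proof. Lift `b`, `c`, `T` to `ℤ[X]` (`Polynomial.map_surjective`, `ZMod.intCast_surjective`) and
apply `resultant_expand_four` over `R = ℤ[X]` with `h = b Y^2 + c` (degree `< s`) and
`f = 1 + a Z + T Z^i`, `expand 4 f = 1 + a Y^4 + T Y^(4 i)`, `m = i`, `f(0) = 1`. Then map to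
`(ZMod 8)[x]` (`resultant_map_map`), where `8 = 0`. -/
theorem resultant_chi_W {s i : ℕ} (hs : Odd s) (b c T : (ZMod 8)[X]) (hb : s = 1 → b = 0)
    (hi : 0 < i) (a : ℤ) :
    resultant (X ^ s + C 2 * (C b * X ^ 2 + C c) : (ZMod 8)[X][X])
      (1 + C (a : (ZMod 8)[X]) * X ^ 4 + C T * X ^ (4 * i)) s (4 * i) = 1 := by
  have hsurj : Function.Surjective (Polynomial.mapRingHom (Int.castRingHom (ZMod 8))) :=
    Polynomial.map_surjective _ (ZMod.intCast_surjective)
  obtain ⟨c', hc'⟩ := hsurj c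
  obtain ⟨T', hT'⟩ := hsurj T
  obtain ⟨b', hb', hbs⟩ : ∃ b' : ℤ[X], Polynomial.mapRingHom (Int.castRingHom (ZMod 8)) b' = b ∧
      (s = 1 → b' = 0) := by
    by_cases h1 : s = 1
    · exact ⟨0, by rw [hb h1, map_zero], fun _ => rfl⟩
    · obtain ⟨b', hb'⟩ := hsurj b
      exact ⟨b', hb', fun h => absurd h h1⟩
  have hdeg : (C b' * X ^ 2 + C c' : ℤ[X][X]).degree < s := by
    by_cases h1 : s = 1
    · rw [hbs h1, C_0, zero_mul, zero_add]
      refine lt_of_le_of_lt degree_C_le ?_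
      rw [h1]
      exact_mod_cast Nat.one_pos
    · have h3 : 3 ≤ s := by
        rcases hs with ⟨k, hk⟩
        omega
      have h2 : (C b' * X ^ 2 + C c' : ℤ[X][X]).degree ≤ 2 := by compute_degree
      refine lt_of_le_of_lt h2 ?_
      exact_mod_cast (show 2 < s by omega)
  have hfd : (1 + C (a : ℤ[X]) * X + C T' * X ^ i : ℤ[X][X]).natDegree ≤ i := by
    refine natDegree_add_le_of_degree_le (natDegree_add_le_of_degree_le ?_ ?_) ?_
    · rw [natDegree_one]
      exact Nat.zero_le _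
    · refine (natDegree_C_mul_le _ _).trans ?_
      rw [natDegree_X]
      exact hi
    · exact natDegree_C_mul_X_pow_le _ _
  have hf0 : (1 + C (a : ℤ[X]) * X + C T' * X ^ i : ℤ[X][X]).coeff 0 = 1 := by
    rw [coeff_add, coeff_add, coeff_one_zero, mul_coeff_zero, mul_coeff_zero, coeff_X_zero,
      coeff_X_pow, if_neg (by omega)]
    ring
  have hexp : expand ℤ[X] 4 (1 + C (a : ℤ[X]) * X + C T' * X ^ i : ℤ[X][X]) =
      1 + C (a : ℤ[X]) * X ^ 4 + C T' * X ^ (4 * i) := by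
    rw [map_add, map_add, map_one, map_mul, map_mul, expand_C, expand_C, expand_X, map_pow, expand_X,
      ← pow_mul]
  obtain ⟨k, hk⟩ := resultant_expand_four hs (C b' * X ^ 2 + C c' : ℤ[X][X]) hdeg
    (1 + C (a : ℤ[X]) * X + C T' * X ^ i : ℤ[X][X]) hfd
  rw [hf0, one_pow, hexp] at hk
  have h8 : (8 : (ZMod 8)[X]) = 0 := by
    have h1 : (8 : (ZMod 8)[X]) = C (8 : ZMod 8) := by
      rw [show (8 : ZMod 8) = ((8 : ℕ) : ZMod 8) by rfl, C_eq_natCast]
      rfl
    rw [h1, show (8 : ZMod 8) = 0 by decide, C_0]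
  have h10 : (Polynomial.mapRingHom (Int.castRingHom (ZMod 8))) (8 : ℤ[X]) = 0 := by
    rw [map_ofNat]
    exact h8
  have h9 := congrArg (Polynomial.mapRingHom (Int.castRingHom (ZMod 8))) hk
  rw [map_sub, map_one, map_mul, h10, zero_mul, sub_eq_zero, ← resultant_map_map] at h9
  have h2 : (Polynomial.mapRingHom (Int.castRingHom (ZMod 8))) (2 : ℤ[X]) = 2 := map_ofNat _ 2
  have ha : (Polynomial.mapRingHom (Int.castRingHom (ZMod 8))) (a : ℤ[X]) = (a : (ZMod 8)[X]) :=
    map_intCast _ a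
  rw [← h9]
  congr 1
  · rw [Polynomial.map_add, Polynomial.map_pow, map_X, Polynomial.map_mul, map_C, Polynomial.map_add,
      Polynomial.map_mul, map_C, Polynomial.map_pow, map_X, map_C, hb', hc', h2]
  · rw [Polynomial.map_add, Polynomial.map_add, Polynomial.map_one, Polynomial.map_mul, map_C,
      Polynomial.map_pow, map_X, Polynomial.map_mul, map_C, Polynomial.map_pow, map_X, hT', ha]

end Pool.Agent.AFA
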