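import Pool.Agent.AFA.Def
import Pool.Agent.AFA.S6a

set_option autoImplicit false
set_option linter.unusedSimpArgs false
set_option linter.unusedVariables false

namespace Pool.Agent.AFA

open Polynomial

theorem s8d_N (n : ℕ) (hn : Even n) : ((n : ZMod 8)) ^ 2 = 2 * n ∧ (4 : ZMod 8) * n = 0 := by
  obtain ⟨k, rfl⟩ := hn
  have h : ∀ k : ZMod 8, (k + k) ^ 2 = 2 * (k + k) ∧ 4 * (k + k) = 0 := by decide
  have := h (k : ZMod 8)
  push_cast
  exact this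

theorem s8d_monic (s : ℕ) (hs : 3 ≤ s) (a c : ZMod 8) :
    (X ^ s + C a * X ^ 2 - C c : (ZMod 8)[X]).Monic ∧
      (X ^ s + C a * X ^ 2 - C c : (ZMod 8)[X]).natDegree = s := by
  have : Fact (1 < 8) := ⟨by norm_num⟩
  have h1 : (C a * X ^ 2 - C c : (ZMod 8)[X]).degree < s := by
    refine lt_of_le_of_lt (degree_sub_le _ _) (max_lt ?_ ?_)
    · refine lt_of_le_of_lt (degree_C_mul_X_pow_le 2 a) ?_
      exact_mod_cast (by omega : 2 < s)
    · refine lt_of_le_of_lt degree_C_le ?_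
      exact_mod_cast (by omega : 0 < s)
  have h2 : (X ^ s + C a * X ^ 2 - C c : (ZMod 8)[X]) = X ^ s + (C a * X ^ 2 - C c) := by ring
  rw [h2]
  refine ⟨monic_X_pow_add h1, ?_⟩
  rw [natDegree_add_eq_left_of_degree_lt (by rw [degree_X_pow]; exact h1), natDegree_X_pow]

theorem s8d_qm (q : ZMod 8) : (X ^ 2 + C q : (ZMod 8)[X]).Monic ∧
    (X ^ 2 + C q : (ZMod 8)[X]).natDegree = 2 := by
  have : Fact (1 < 8) := ⟨by norm_num⟩
  exact ⟨monic_X_pow_add_C q (by norm_num), natDegree_X_pow_add_C⟩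

theorem s8d_A (N : ZMod 8) (h1 : N ^ 2 = 2 * N) (h2 : 4 * N = 0) :
    resultant (X ^ 1 + C ((0 : ZMod 8) * (1 - N) * (2 - N)) * X ^ 2 - C ((1 - N) * N) : (ZMod 8)[X])
      (X ^ 1 + C (0 : ZMod 8) * X ^ 2 + 1) 1 1 = 1 + 4 * 0 - 1 * N := by
  have e1 : (X ^ 1 + C ((0 : ZMod 8) * (1 - N) * (2 - N)) * X ^ 2 - C ((1 - N) * N) : (ZMod 8)[X]) =
      (X - C ((1 - N) * N)) ^ 1 := by simp
  rw [e1, resultant_X_sub_C_pow_left]
  · simp only [pow_one, map_zero, zero_mul, add_zero, eval_add, eval_X, eval_one]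
    linear_combination -h1
  · have : Fact (1 < 8) := ⟨by norm_num⟩
    simp only [pow_one, map_zero, zero_mul, add_zero]
    rw [show (X + 1 : (ZMod 8)[X]) = X + C 1 by simp, natDegree_X_add_C]

theorem s8d_B (N : ZMod 8) (h1 : N ^ 2 = 2 * N) (h2 : 4 * N = 0) :
    resultant (X ^ 3 + C ((0 : ZMod 8) * (3 - N) * (2 - N)) * X ^ 2 - C ((3 - N) * N) : (ZMod 8)[X])
      (X ^ 3 + C (0 : ZMod 8) * X ^ 2 + 1) 3 3 = 1 + 4 * 0 - 3 * N := by
  obtain ⟨m1, m2⟩ := s8d_monic 3 le_rfl ((0 : ZMod 8) * (3 - N) * (2 - N)) ((3 - N) * N)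
  rw [resultant_add_mul _ _ (C (1 + (3 - N) * N)) 1 m1 m2 (a := 3) (b := 0) ?_
    (natDegree_C _).le ?_]
  · rw [resultant_C_zero_right]
    have : ∀ N : ZMod 8, N ^ 2 = 2 * N → 4 * N = 0 → (1 + (3 - N) * N) ^ 3 = 1 + 4 * 0 - 3 * N := by
      decide
    exact this N h1 h2
  · compute_degree
  · simp only [map_zero, zero_mul, add_zero, map_add, map_mul, map_sub, map_one]
    ring

theorem s8d_C (N : ZMod 8) (h1 : N ^ 2 = 2 * N) (h2 : 4 * N = 0) :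
    resultant (X ^ 3 + C ((1 : ZMod 8) * (3 - N) * (2 - N)) * X ^ 2 - C ((3 - N) * N) : (ZMod 8)[X])
      (X ^ 3 + C (1 : ZMod 8) * X ^ 2 + 1) 3 3 = 1 + 4 * 1 - 3 * N := by
  have k1 : (C N : (ZMod 8)[X]) ^ 2 = 2 * C N := by
    rw [← map_pow, h1, map_mul]
    rfl
  have k2 : (4 : (ZMod 8)[X]) * C N = 0 := by
    have c4 : (C 4 : (ZMod 8)[X]) = 4 := rfl
    rw [← c4, ← map_mul, h2, map_zero]
  have k3 : (8 : (ZMod 8)[X]) = 0 := by
    have h3 : (8 : ZMod 8) = 0 := by decide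
    have c8 : (C 8 : (ZMod 8)[X]) = 8 := rfl
    rw [← c8, h3, map_zero]
  obtain ⟨m1, m2⟩ := s8d_monic 3 le_rfl ((1 : ZMod 8) * (3 - N) * (2 - N)) ((3 - N) * N)
  obtain ⟨q1, q2⟩ := s8d_qm 3
  have c3 : (C 3 : (ZMod 8)[X]) = 3 := rfl
  have c2 : (C 2 : (ZMod 8)[X]) = 2 := rfl
  rw [resultant_add_mul _ _ (C (3 - N) * (X ^ 2 + C 3)) 1 m1 m2 (a := 3) (b := 2) ?_ ?_ ?_,
    resultant_C_mul_right, resultant_comm,
    resultant_add_mul _ _ (C (-3) * (X - C 2) ^ 1) (X + C ((3 - N) * (2 - N))) q1 q2 (a := 3) (b := 1) ?_ ?_ ?_,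
    resultant_C_mul_right, resultant_X_sub_C_pow_right]
  · simp only [eval_add, eval_pow, eval_X, eval_C]
    have : ∀ N : ZMod 8, N ^ 2 = 2 * N → 4 * N = 0 → (3 - N) ^ 3 * ((-1) ^ (3 * 2) *
        ((-3) ^ 2 * ((-1) ^ (2 * 1) * (2 ^ 2 + 3) ^ 1))) = 1 + 4 * 1 - 3 * N := by
      decide
    exact this N h1 h2
  · rw [q2]
  · exact m2.le
  · compute_degree
  · simp only [map_add, map_mul, map_sub, map_one, map_neg, c2, c3]
    linear_combination -3 * k3 + 2 * k2 - 2 * k1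
  · compute_degree
  · compute_degree
  · simp only [map_add, map_mul, map_sub, map_one, map_neg, c2, c3]
    linear_combination (X ^ 2 + 1) * (-k3 - k1 + k2)

theorem s8d_D (N : ZMod 8) (h1 : N ^ 2 = 2 * N) (h2 : 4 * N = 0) :
    resultant (X ^ 5 + C ((1 : ZMod 8) * (5 - N) * (2 - N)) * X ^ 2 - C ((5 - N) * N) : (ZMod 8)[X])
      (X ^ 5 + C (1 : ZMod 8) * X ^ 2 + 1) 5 5 = 1 + 4 * 1 - 5 * N := by
  have k1 : (C N : (ZMod 8)[X]) ^ 2 = 2 * C N := by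
    rw [← map_pow, h1, map_mul]
    rfl
  have k2 : (4 : (ZMod 8)[X]) * C N = 0 := by
    have c4 : (C 4 : (ZMod 8)[X]) = 4 := rfl
    rw [← c4, ← map_mul, h2, map_zero]
  have k3 : (8 : (ZMod 8)[X]) = 0 := by
    have h3 : (8 : ZMod 8) = 0 := by decide
    have c8 : (C 8 : (ZMod 8)[X]) = 8 := rfl
    rw [← c8, h3, map_zero]
  obtain ⟨m1, m2⟩ := s8d_monic 5 (by norm_num) ((1 : ZMod 8) * (5 - N) * (2 - N)) ((5 - N) * N)
  obtain ⟨q1, q2⟩ := s8d_qm 7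
  have c3 : (C 3 : (ZMod 8)[X]) = 3 := rfl
  have c2 : (C 2 : (ZMod 8)[X]) = 2 := rfl
  have c5 : (C 5 : (ZMod 8)[X]) = 5 := rfl
  have c7 : (C 7 : (ZMod 8)[X]) = 7 := rfl
  rw [resultant_add_mul _ _ (C (3 * (5 - N)) * (X ^ 2 + C 7)) 1 m1 m2 (a := 5) (b := 2) ?_ ?_ ?_,
    resultant_C_mul_right, resultant_comm,
    resultant_add_mul _ _ ((X - C (-2)) ^ 1) (X ^ 3 - C 7 * X + C ((5 - N) * (2 - N))) q1 q2
      (a := 5) (b := 1) ?_ ?_ ?_, resultant_X_sub_C_pow_right]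
  · simp only [eval_add, eval_pow, eval_X, eval_C]
    have : ∀ N : ZMod 8, N ^ 2 = 2 * N → 4 * N = 0 → (3 * (5 - N)) ^ 5 * ((-1) ^ (5 * 2) *
        ((-1) ^ (2 * 1) * ((-2) ^ 2 + 7) ^ 1)) = 1 + 4 * 1 - 5 * N := by
      decide
    exact this N h1 h2
  · rw [q2]
  · exact m2.le
  · compute_degree
  · simp only [map_add, map_mul, map_sub, map_one, map_neg, c2, c3, c5, c7]
    linear_combination (6 * X - 9) * k3 + 8 * k2 - 6 * k1
  · compute_degree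
  · compute_degree
  · simp only [map_add, map_mul, map_sub, map_one, map_neg, c2, c3, c5, c7]
    linear_combination X ^ 2 * (-3 * k3 + 2 * k2 - k1) + (-13 * k3 + 6 * k2 - k1)

/-- ROW S8d. The constant resultant of the even families: with `u = s - n` (an odd residue,
`u ^ 2 = 1` in `ZMod 8`) and `χ = Y^s + e u (2 - n) Y^2 - u n`,
`Res(χ, Y^s + e Y^2 + 1; s, s) = 1 + 4 e - s n` over `ZMod 8`, or over any commutative ring
containing it; we state it over `(ZMod 8)[x]`.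

Proof. `S - χ = u (e (s - 2) Y^2 + s)`, because `u (s - 2) = u (u + n - 2) = 1 - u (2 - n)` and
`u s = u (u + n) = 1 + u n`. `χ` is monic of degree `s`, so by `resultant_add_mul`
`Res(χ, S; s, s) = Res(χ, u (e (s - 2) Y^2 + s); s, 2) = u ^ s Res(χ, e (s - 2) Y^2 + s; s, 2)`
(`resultant_C_mul_right`), and `u ^ s = u`.
Case `e = 0`: `Res(χ, C s; s, 0) = s ^ s = s` and `u s = (s - n) s = 1 - s n` in `ZMod 8`.
Case `e = 1`, `s ∈ {3, 5}`, `v := s - 2`, `v ^ 2 = 1`: `v Y^2 + s = v (Y^2 + v s)`, so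
`Res(χ, v Y^2 + s; s, 2) = v ^ s Res(Y^2 + v s, χ; 2, s)` (`resultant_comm`, the sign is `1`), and
modulo `Y^2 + v s` the polynomial `χ` is `α Y + β` with `β = 1 - v s`, and
`α = (-v s) ^ ((s - 1) / 2)`: for `s = 3` (`v s = 3`): `α = -3`, `β = -2`; for `s = 5`
(`v s = 15 = 7`): `α = 1`, `β = 2` (mod 8). And `Res(Y^2 + q, α Y + β; 2, 1) = β ^ 2 + q α ^ 2`
(a 3 x 3 determinant, or `resultant_comm` and `resultant_X_sub_C...`), which is `4 + 27 = 7` for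
`s = 3` and `4 + 7 = 3` for `s = 5`; multiplied by `v ^ s = v` this is `4 + s` in both cases. So the
resultant is `u (4 + s) = (s - n) (4 + s) = 5 - s n` modulo 8 (`s` odd, `n` even).
(For `s ∈ {1, 3, 5}` and the four even residues of `n` modulo 8 one can also compute the
determinants directly.) -/
theorem resultant_chi_S (s n : ℕ) (e : ℤ) (hse : (s = 1 ∧ e = 0) ∨ (s = 3 ∧ e = 0) ∨
    (s = 3 ∧ e = 1) ∨ (s = 5 ∧ e = 1)) (hn : Even n) :
    resultant (X ^ s + C (C ((e : ZMod 8) * ((s : ZMod 8) - n) * (2 - n))) * X ^ 2 -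
        C (C (((s : ZMod 8) - n) * n)) : (ZMod 8)[X][X])
      (X ^ s + C (C (e : ZMod 8)) * X ^ 2 + 1) s s = C (1 + 4 * (e : ZMod 8) - s * n) := by
  obtain ⟨h1, h2⟩ := s8d_N n hn
  have key : resultant (X ^ s + C ((e : ZMod 8) * ((s : ZMod 8) - n) * (2 - n)) * X ^ 2 -
        C (((s : ZMod 8) - n) * n) : (ZMod 8)[X])
      (X ^ s + C (e : ZMod 8) * X ^ 2 + 1) s s = 1 + 4 * (e : ZMod 8) - s * n := by
    rcases hse with ⟨rfl, rfl⟩ | ⟨rfl, rfl⟩ | ⟨rfl, rfl⟩ | ⟨rfl, rfl⟩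
    · simp only [Int.cast_zero, Int.cast_one, Nat.cast_one, Nat.cast_ofNat]
      exact s8d_A _ h1 h2
    · simp only [Int.cast_zero, Int.cast_one, Nat.cast_one, Nat.cast_ofNat]
      exact s8d_B _ h1 h2
    · simp only [Int.cast_zero, Int.cast_one, Nat.cast_one, Nat.cast_ofNat]
      exact s8d_C _ h1 h2
    · simp only [Int.cast_zero, Int.cast_one, Nat.cast_one, Nat.cast_ofNat]
      exact s8d_D _ h1 h2
  rw [← key, ← resultant_map_map]
  congr 1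
  · simp
  · simp

end Pool.Agent.AFA
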