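import Pool.Agent.AFA.Def
import Pool.Agent.AFA.S6a
import Pool.Agent.AFA.S8c
import Pool.Agent.AFA.S8d

set_option autoImplicit false

namespace Pool.Agent.AFA

open Polynomial

/-- ROW S8e. The resultant of `P` and `Y S' - n S` for the even families.

Proof. All over `A = (ZMod 8)[x]`. Put `u = s - n`, `u ^ 2 = 1`,
`χ = Y^s + e u (2 - n) Y^2 - u n`, `S = Y^s + e Y^2 + 1`, `W = 1 + a Y^4 + T Y^(4i)`,
`P = Y^n + S W`. Then `Y S' - n S = (s - n) Y^s + e (2 - n) Y^2 - n = u χ`. So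
`Res(P, Y S' - n S; n, s) = u ^ n Res(P, χ; n, s) = Res(P, χ; n, s)` (`n` even) `= Res(χ, P; s, n)`
(`resultant_comm`, the sign is `1`). As `n` is even, `χ = Y^s + 2 g` with
`g = b Y^2 + c`, so modulo `χ` we have `Y^s = - 2 g`, `Y^(3 s) = - 8 g^3 = 0`: precisely
`Y^(3 s) = χ * (Y^(2s) - 2 g Y^s + 4 g^2) - 8 g^3`, so `Y^n` is a multiple of `χ` (`3 s ≤ n`). By
`resultant_add_mul` and `resultant_mul_monic` (with `χ` monic of degree `s` in the role of `P`),
`Res(χ, P; s, n) = Res(χ, S W; s, s + 4 i) = Res(χ, S; s, s) Res(χ, W; s, 4 i)`. The first factor is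
computed in `resultant_chi_S`, the second one is `1` by `resultant_chi_W` (`-u n` and
`e u (2 - n)` are even: they are twice something in `ZMod 8`). -/
theorem resultant_even (s n i : ℕ) (e a : ℤ) (T : (ZMod 8)[X]) (hse : (s = 1 ∧ e = 0) ∨
    (s = 3 ∧ e = 0) ∨ (s = 3 ∧ e = 1) ∨ (s = 5 ∧ e = 1)) (hn : Even n) (h3 : 3 * s ≤ n)
    (hi : 0 < i) (hlt : s + 4 * i < n) :
    resultant (fam (SE s e) a T n i)
      (X * derivative ((SE s e).map (Int.castRingHom (ZMod 8)[X])) -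
        C (n : (ZMod 8)[X]) * (SE s e).map (Int.castRingHom (ZMod 8)[X])) n s =
      C (1 + 4 * (e : ZMod 8) - s * n) := by
  have hF : Fact (1 < 8) := ⟨by norm_num⟩
  have hNT : Nontrivial (ZMod 8) := inferInstance
  obtain ⟨m, hm⟩ := hn
  have hn : Even n := ⟨m, hm⟩
  have hsodd : Odd s := by
    rcases hse with ⟨rfl, -⟩ | ⟨rfl, -⟩ | ⟨rfl, -⟩ | ⟨rfl, -⟩ <;> decide
  obtain ⟨l, hl⟩ := hsodd
  have hsodd : Odd s := ⟨l, hl⟩
  obtain ⟨n0, hn0⟩ : ∃ n0 : ZMod 8, n0 = (n : ZMod 8) := ⟨_, rfl⟩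
  obtain ⟨s0, hs0⟩ : ∃ s0 : ZMod 8, s0 = (s : ZMod 8) := ⟨_, rfl⟩
  obtain ⟨e0, he0⟩ : ∃ e0 : ZMod 8, e0 = (e : ZMod 8) := ⟨_, rfl⟩
  have hn1 : n0 = 2 * (m : ZMod 8) := by
    rw [hn0, hm]
    push_cast
    ring
  have hs1 : s0 = 2 * (l : ZMod 8) + 1 := by
    rw [hs0, hl]
    push_cast
    ring
  have f1 : (s0 - n0) ^ 2 = 1 := by
    rw [hn1, hs1]
    generalize (m : ZMod 8) = x
    generalize (l : ZMod 8) = y
    revert x y
    decide
  have h8' : (8 : (ZMod 8)[X][X]) = 0 := by exact_mod_cast CharP.cast_eq_zero (ZMod 8)[X][X] 8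
  have g1 : (C (s0 - n0) : (ZMod 8)[X]) ^ 2 = 1 := by
    rw [← C_pow, f1, C_1]
  have k1 : ((C (C s0) - C (C n0) : (ZMod 8)[X][X])) ^ 2 = 1 := by
    rw [← C_sub, ← C_sub, ← C_pow, g1, C_1]
  have hnc : ((n : ℕ) : (ZMod 8)[X]) = C n0 := by
    rw [hn0, map_natCast]
  have hsc : ((s : ℕ) : (ZMod 8)[X][X]) = C (C s0) := by
    rw [hs0, map_natCast, map_natCast]
  have hec : ((e : ℤ) : (ZMod 8)[X]) = C e0 := by
    rw [he0, map_intCast]
  have hac : ((a : ℤ) : (ZMod 8)[X]) = C (a : ZMod 8) := by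
    rw [map_intCast]
  -- the polynomials
  set S : (ZMod 8)[X][X] := X ^ s + C (C (e : ZMod 8)) * X ^ 2 + 1 with hS
  set W : (ZMod 8)[X][X] := 1 + C (a : (ZMod 8)[X]) * X ^ 4 + C T * X ^ (4 * i) with hW
  set χ : (ZMod 8)[X][X] := X ^ s + C (C ((e : ZMod 8) * ((s : ZMod 8) - n) * (2 - n))) * X ^ 2 -
        C (C (((s : ZMod 8) - n) * n)) with hχ
  have hSm : (SE s e).map (Int.castRingHom (ZMod 8)[X]) = S := by
    unfold SE
    rw [hS]
    simp
  have hfam : fam (SE s e) a T n i = X ^ n + S * W := by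
    unfold fam
    rw [hSm]
  set b : (ZMod 8)[X] := C (e0 * (s0 - n0) * (1 - (m : ZMod 8))) with hb
  set c : (ZMod 8)[X] := C (-((s0 - n0) * (m : ZMod 8))) with hc
  have hχ2 : χ = X ^ s + C 2 * (C b * X ^ 2 + C c) := by
    have c1 : C (C ((e : ZMod 8) * ((s : ZMod 8) - n) * (2 - n))) = (C 2 * C b : (ZMod 8)[X][X]) := by
      rw [hb, ← C_mul, ← map_ofNat (C : ZMod 8 →+* (ZMod 8)[X]) 2, ← C_mul, ← hn0, ← hs0, ← he0]
      congr 2
      rw [hn1]
      ring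
    have c2 : C (C (((s : ZMod 8) - n) * n)) = (-(C 2 * C c) : (ZMod 8)[X][X]) := by
      rw [hc, ← C_mul, ← map_ofNat (C : ZMod 8 →+* (ZMod 8)[X]) 2, ← C_mul, ← hn0, ← hs0, ← C_neg, ← C_neg]
      congr 2
      rw [hn1]
      ring
    rw [hχ, c1, c2]
    ring
  have hb1 : s = 1 → b = 0 := by
    intro h1
    rcases hse with ⟨-, h2⟩ | ⟨h2, -⟩ | ⟨h2, -⟩ | ⟨h2, -⟩
    · rw [hb, he0, h2, Int.cast_zero, zero_mul, zero_mul, C_0]
    all_goals omega
  have hrd : (C 2 * (C b * X ^ 2 + C c) : (ZMod 8)[X][X]).degree < s := by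
    by_cases h1 : s = 1
    · rw [hb1 h1, C_0, zero_mul, zero_add, ← C_mul]
      refine degree_C_le.trans_lt ?_
      exact_mod_cast hsodd.pos
    · have h3 : 2 < s := by
        rcases hse with ⟨h2, -⟩ | ⟨h2, -⟩ | ⟨h2, -⟩ | ⟨h2, -⟩ <;> omega
      refine lt_of_le_of_lt (b := ((2 : ℕ) : WithBot ℕ)) ?_ (by exact_mod_cast h3)
      compute_degree
      exact le_rfl
  have hχm : χ.Monic := by
    rw [hχ2]
    exact monic_X_pow_add hrd
  have hχd : χ.natDegree = s := by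
    rw [hχ2]
    refine natDegree_eq_of_degree_eq_some ?_
    rw [degree_add_eq_left_of_degree_lt (by rw [degree_X_pow]; exact hrd), degree_X_pow]
  have hSd : S.natDegree ≤ s := by
    rw [← hSm]
    refine natDegree_map_le.trans ?_
    unfold SE
    rcases hse with ⟨rfl, rfl⟩ | ⟨rfl, rfl⟩ | ⟨rfl, rfl⟩ | ⟨rfl, rfl⟩
    · simp only [map_zero, zero_mul, add_zero]
      compute_degree
    · compute_degree
    · compute_degree
    · compute_degree
  have hWd : W.natDegree ≤ 4 * i := by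
    rw [hW]
    compute_degree
    omega
  have hSW : (S * W).natDegree ≤ s + 4 * i := natDegree_mul_le.trans (add_le_add hSd hWd)
  have hPd : (X ^ n + S * W).natDegree ≤ n := by
    refine (natDegree_add_le _ _).trans (max_le (natDegree_X_pow_le n) ?_)
    omega
  have hfac : X * derivative S - C (n : (ZMod 8)[X]) * S = C (C (s0 - n0)) * χ := by
    have hd : X * derivative S = C (C s0) * X ^ s + 2 * C (C e0) * X ^ 2 := by
      obtain ⟨s', hs'⟩ : ∃ s', s = s' + 1 := ⟨2 * l, hl⟩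
      rw [hS, ← he0, ← hsc, hs']
      simp only [derivative_add, derivative_X_pow, derivative_one, derivative_C_mul, Nat.cast_add, Nat.cast_one]
      have c2 : (C 2 : (ZMod 8)[X][X]) = 2 := map_ofNat C 2
      simp
      rw [c2]
      ring
    rw [hd, hχ, hnc, hS, ← hn0, ← hs0, ← he0]
    simp only [C_sub, C_mul, map_ofNat]
    generalize (C (C n0) : (ZMod 8)[X][X]) = N at *
    generalize (C (C s0) : (ZMod 8)[X][X]) = s1 at *
    generalize (C (C e0) : (ZMod 8)[X][X]) = e1 at *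
    linear_combination (-(e1 * (2 - N) * X ^ 2) + N) * k1
  have sgn : ((-1 : (ZMod 8)[X]) ^ (n * s)) = 1 := by
    rw [pow_mul, hn.neg_one_pow, one_pow]
  have hXn : ∃ q, X ^ n = χ * q := by
    refine ⟨X ^ (n - 3 * s) * (X ^ (2 * s) - C 2 * (C b * X ^ 2 + C c) * X ^ s + (C 2 * (C b * X ^ 2 + C c)) ^ 2), ?_⟩
    have h1 : (X : (ZMod 8)[X][X]) ^ n = X ^ (n - 3 * s) * X ^ (3 * s) := by
      rw [← pow_add]
      congr 1
      omega
    have h2 : (X : (ZMod 8)[X][X]) ^ (3 * s) = χ * (X ^ (2 * s) - C 2 * (C b * X ^ 2 + C c) * X ^ s +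
        (C 2 * (C b * X ^ 2 + C c)) ^ 2) := by
      rw [hχ2, map_ofNat C 2, pow_mul', pow_mul' X 2 s]
      linear_combination (-(C b * X ^ 2 + C c) ^ 3) * h8'
    rw [h1, h2]
    ring
  obtain ⟨q, hq⟩ := hXn
  rw [hfam, hSm, hfac, resultant_C_mul_right, resultant_comm, sgn, one_mul]
  have hu : (C (s0 - n0) : (ZMod 8)[X]) ^ n = 1 := by
    rw [hm, ← two_mul, pow_mul, g1, one_pow]
  rw [hu, one_mul, resultant_add_mul χ (X ^ n + S * W) (S * W) q hχm hχd hPd hSW (by rw [hq]; ring),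
    resultant_mul_monic χ S W hχm hχd hSd hWd, hχ, hS, resultant_chi_S s n e hse hn, ← hχ, hχ2, hW,
    resultant_chi_W hsodd b c T hb1 hi a, mul_one]

end Pool.Agent.AFA
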