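import Pool.Agent.AFA.Def
import Pool.Agent.AFA.S7
import Pool.Agent.AFA.S8e
import Pool.Agent.AFA.S10a

set_option autoImplicit false

namespace Pool.Agent.AFA

open Polynomial

/-- ROW S10b. Discriminants modulo 8, even degree.

Proof. Combine `resultant_fam` (with `S = SE s e`, monic of degree `s`, `S(0) = 1`; the sign
`(-1) ^ n` is `1`) with `resultant_even` for `T := red8 T`: the difference
`Res(P, Y S' - n S; n, s) - C (1 + 4 e - s n)` is mapped to zero by `red8`
(`resultant_map_map`, `map_fam`, `Polynomial.map_map`, `derivative_map`), so it is divisible by 8 by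
`eight_dvd_iff`. -/
theorem disc_even (s n i : ℕ) (e a : ℤ) (T : ℤ[X]) (hse : (s = 1 ∧ e = 0) ∨
    (s = 3 ∧ e = 0) ∨ (s = 3 ∧ e = 1) ∨ (s = 5 ∧ e = 1)) (hn : Even n) (h3 : 3 * s ≤ n)
    (hi : 0 < i) (hlt : s + 4 * i < n) :
    (8 : ℤ[X]) ∣ resultant (fam (SE s e) a T n i) (derivative (fam (SE s e) a T n i)) n (n - 1) -
      C (1 + 4 * e - s * n) := by
  have hS : (SE s e).natDegree ≤ s := by
    unfold SE
    rcases hse with ⟨rfl, rfl⟩ | ⟨rfl, rfl⟩ | ⟨rfl, rfl⟩ | ⟨rfl, rfl⟩
    · simp only [map_zero, zero_mul, add_zero]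
      compute_degree
    · compute_degree
    · compute_degree
    · compute_degree
  have hS0 : (SE s e).coeff 0 = 1 := by
    unfold SE
    rcases hse with ⟨rfl, rfl⟩ | ⟨rfl, rfl⟩ | ⟨rfl, rfl⟩ | ⟨rfl, rfl⟩ <;> simp
  have h1 := resultant_fam (SE s e) hS hS0 a T n i hi hlt
  rw [hn.neg_one_pow, one_mul] at h1
  have h2 : (8 : ℤ[X]) ∣ resultant (fam (SE s e) a T n i)
      (X * derivative ((SE s e).map (Int.castRingHom ℤ[X])) -
        C (n : ℤ[X]) * (SE s e).map (Int.castRingHom ℤ[X])) n s - C (1 + 4 * e - s * n) := by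
    rw [eight_dvd_iff, map_sub, ← resultant_map_map, map_fam]
    have e1 : ((SE s e).map (Int.castRingHom ℤ[X])).map red8 = (SE s e).map (Int.castRingHom (ZMod 8)[X]) := by
      rw [Polynomial.map_map]
      congr 1
      exact RingHom.ext_int _ _
    rw [Polynomial.map_sub, Polynomial.map_mul, Polynomial.map_mul, Polynomial.map_X, ← derivative_map, e1, Polynomial.map_C,
      map_natCast, resultant_even s n i e a (red8 T) hse hn h3 hi hlt]
    have e2 : red8 (C (1 + 4 * e - s * n)) = C (1 + 4 * (e : ZMod 8) - s * n) := by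
      show Polynomial.map (Int.castRingHom (ZMod 8)) (C (1 + 4 * e - s * n)) = _
      rw [Polynomial.map_C]
      congr 1
      simp
    rw [e2, sub_self]
  have h3' := dvd_add h1 h2
  rwa [sub_add_sub_cancel] at h3'

end Pool.Agent.AFA
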