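import Pool.Agent.AFA.Def
import Pool.Agent.AFA.M2b
import Pool.Agent.AFA.S10b
import Pool.Agent.AFA.E1
import Pool.Agent.AFA.C2

set_option autoImplicit false

namespace Pool.Agent.AFA

open Polynomial

/-- ROW M3a. Even degree.

Proof. `T := X`, `Data` for `S = SE s e`, `a = 0`, `T = X`: `S` is monic of degree `s` with
`S(0) = 1` (`e = 0` if `s = 1`), its derivative modulo 2 is `s Y^(s-1) + 2 e Y = Y^(s-1)` (`s` odd),
so `coprime_even` gives `cop` (`CharP (ZMod 2)[X] 2`); `r ≠ 2` because `n - s - 4 i = r` is odd.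
By `disc_even` the discriminant is `D = 1 + 4 e - s n` modulo 8, an odd integer. Case `D ≡ ± 1`
modulo 8: `realizes_of_data` with `h = 0`, `ε = ± 1`, `0 = 0 ^ 2 + 0`, gives the alternating group.
Case `D ≡ ± 3`: `D ≡ ε (1 + 4)` modulo 8 with `ε = ∓ 1` (`3 = - 5`, `- 3 = 5`), so `h = 1`, and
`artinSchreier_ne` with `h = 1` gives the symmetric group. -/
theorem even_family {s n i r : ℕ} {e : ℤ} (hse : (s = 1 ∧ e = 0) ∨
    (s = 3 ∧ e = 0) ∨ (s = 3 ∧ e = 1) ∨ (s = 5 ∧ e = 1)) (hn : Even n) (h3 : 3 * s ≤ n)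
    (hi : 0 < i) (hnr : n = r + s + 4 * i) (hr : r.Prime) (hbig : n < 2 * r) :
    (((8 : ℤ) ∣ (1 + 4 * e - s * n) - 1 ∨ (8 : ℤ) ∣ (1 + 4 * e - s * n) + 1) →
      Realizes (alternatingGroup (Fin n))) ∧
    (((8 : ℤ) ∣ (1 + 4 * e - s * n) - 3 ∨ (8 : ℤ) ∣ (1 + 4 * e - s * n) + 3) →
      Realizes (Equiv.Perm (Fin n))) := by
  have hF : Fact (Nat.Prime 2) := ⟨Nat.prime_two⟩
  have hso : Odd s := by
    rcases hse with ⟨rfl, rfl⟩ | ⟨rfl, rfl⟩ | ⟨rfl, rfl⟩ | ⟨rfl, rfl⟩ <;> decide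
  have hdeg : (X ^ s + C e * X ^ 2 + 1 : ℤ[X]).natDegree = s ∧ (X ^ s + C e * X ^ 2 + 1 : ℤ[X]).Monic ∧
      (X ^ s + C e * X ^ 2 + 1 : ℤ[X]).coeff 0 = 1 := by
    rcases hse with ⟨rfl, rfl⟩ | ⟨rfl, rfl⟩ | ⟨rfl, rfl⟩ | ⟨rfl, rfl⟩
    · refine ⟨by simp only [C_0, zero_mul, add_zero]; compute_degree!, by simp only [C_0, zero_mul, add_zero]; monicity!, by simp⟩
    · refine ⟨by simp only [C_0, zero_mul, add_zero]; compute_degree!, by simp only [C_0, zero_mul, add_zero]; monicity!, by simp⟩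
    · refine ⟨by compute_degree!, by monicity!, by simp⟩
    · refine ⟨by compute_degree!, by monicity!, by simp⟩
  have h20 : (2 : (ZMod 2)[X]) = 0 := by exact_mod_cast CharP.cast_eq_zero (ZMod 2)[X] 2
  have hder : derivative ((SE s e).map (Int.castRingHom (ZMod 2)[X])) = X ^ (s - 1) := by
    have h1 : ((SE s e).map (Int.castRingHom (ZMod 2)[X])) = X ^ s + C (e : (ZMod 2)[X]) * X ^ 2 + 1 := by
      simp [SE]
    have h2 : ((s : (ZMod 2)[X])) = 1 := by
      obtain ⟨m, rfl⟩ := hso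
      push_cast
      rw [h20]
      ring
    have h21 : (2 : (ZMod 2)[X][X]) = 0 := by
      have : (2 : (ZMod 2)[X][X]) = C (2 : (ZMod 2)[X]) := (map_ofNat C 2).symm
      rw [this, h20, C_0]
    rw [h1]
    simp only [derivative_add, derivative_X_pow, derivative_one, derivative_mul, derivative_C, zero_mul, zero_add, add_zero]
    rw [h2]
    simp [h21, h20]
  have hlt : s + 4 * i < n := by
    have := hr.pos
    omega
  have hr2 : r ≠ 2 := by
    rintro rfl
    obtain ⟨m, rfl⟩ := hso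
    obtain ⟨l, rfl⟩ := hn
    omega
  have hD : Data (SE s e) s 0 X n i r :=
    { monic := hdeg.2.1
      deg := hdeg.1
      zero := hdeg.2.2
      ipos := hi
      ha := Or.inl rfl
      hn := by omega
      prime := hr
      odd := hr2
      big := hbig
      hT := Or.inl (by simp [red])
      cop := coprime_even (SE s e) (s - 1) hder hdeg.2.2 0 _ n i hn (by omega) hi }
  have hdisc := disc_even s n i e 0 X hse hn h3 hi hlt
  have key : ∀ (ε k : ℤ), (8 : ℤ) ∣ (1 + 4 * e - s * n) - ε * (1 + 4 * k) →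
      (8 : ℤ[X]) ∣ resultant (fam (SE s e) 0 X n i) (derivative (fam (SE s e) 0 X n i)) n (n - 1) -
      C ε * (1 + 4 * (C k : ℤ[X])) := by
    intro ε k hk
    obtain ⟨m, hm⟩ := hk
    have : (8 : ℤ[X]) ∣ C (1 + 4 * e - s * n) - C ε * (1 + 4 * (C k : ℤ[X])) := by
      refine ⟨C m, ?_⟩
      have h8 : (8 : ℤ[X]) = C 8 := (map_ofNat C 8).symm
      have h4 : (4 : ℤ[X]) = C 4 := (map_ofNat C 4).symm
      have h9 := congrArg (C : ℤ → ℤ[X]) hm
      rw [C_mul, C_sub] at h9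
      rw [h8, h4, ← h9]
      simp only [C_sub, C_mul, C_add, C_1]
    have h2 := dvd_add hdisc this
    rwa [sub_add_sub_cancel] at h2
  constructor
  · intro h
    rcases h with h | h
    · exact (realizes_of_data hD (C 0) 1 (Or.inl rfl) (key 1 0 (by simpa using h))).1 ⟨0, by simp⟩
    · refine (realizes_of_data hD (C 0) (-1) (Or.inr rfl) (key (-1) 0 ?_)).1 ⟨0, by simp⟩
      simpa using h
  · intro h
    rcases h with h | h
    · refine (realizes_of_data hD (C 1) (-1) (Or.inr rfl) (key (-1) 1 (by omega))).2 ?_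
      intro f
      exact artinSchreier_ne _ (Or.inl (by simp [red])) f
    · refine (realizes_of_data hD (C 1) 1 (Or.inl rfl) (key 1 1 (by omega))).2 ?_
      intro f
      exact artinSchreier_ne _ (Or.inl (by simp [red])) f

end Pool.Agent.AFA
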