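import Pool.Agent.AFA.Def
import Pool.Agent.AFA.S6a

set_option autoImplicit false

namespace Pool.Agent.AFA

open Polynomial

/-- ROW S9a. The family `S = 1`, `n` odd.

Proof. `Y S' - n S = C (-n)`, and `Res(P, C (-n); n, 0) = (-n) ^ n` (`resultant_C_zero_right`), which
is `-n` in `ZMod 8`, because the square of an odd residue is `1`. -/
theorem resultant_odd0 (n i : ℕ) (a : ℤ) (T : (ZMod 8)[X]) (hn : Odd n) :
    resultant (fam 1 a T n i)
      (X * derivative ((1 : ℤ[X]).map (Int.castRingHom (ZMod 8)[X])) -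
        C (n : (ZMod 8)[X]) * (1 : ℤ[X]).map (Int.castRingHom (ZMod 8)[X])) n 0 =
      -C (n : ZMod 8) := by
  have h1 : X * derivative ((1 : ℤ[X]).map (Int.castRingHom (ZMod 8)[X])) -
      C (n : (ZMod 8)[X]) * (1 : ℤ[X]).map (Int.castRingHom (ZMod 8)[X]) =
      C (-(n : (ZMod 8)[X])) := by
    rw [Polynomial.map_one, derivative_one, mul_zero, mul_one, zero_sub, C_neg]
  rw [h1, resultant_C_zero_right]
  obtain ⟨k, hk⟩ := hn
  have h3 : (n : ZMod 8) ^ 2 = 1 := by
    rw [hk]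
    push_cast
    generalize (k : ZMod 8) = c
    revert c
    decide
  have h4 : (-(n : (ZMod 8)[X])) = C (-(n : ZMod 8)) := by
    rw [C_neg, map_natCast]
  rw [h4, ← C_pow, ← C_neg]
  congr 1
  have h5 : n = 2 * k + 1 := hk
  have h6 : (-(n : ZMod 8)) ^ n = (-(n : ZMod 8)) ^ (2 * k + 1) := by
    rw [← h5]
  rw [h6, pow_succ, pow_mul, neg_sq, h3, one_pow, one_mul]

end Pool.Agent.AFA
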