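import Pool.Agent.AFA.Def
import Pool.Agent.AFA.S6a

set_option autoImplicit false

namespace Pool.Agent.AFA

open Polynomial

/-- the computation over a commutative ring in which `n^2 = 1`, `4 n = 4`, `8 = 0` -/
theorem s9b_main {A : Type} [CommRing A] [Nontrivial A] (n i : ℕ) (a : ℤ) (T : A) (hn : Odd n) (hi : 0 < i)
    (hlt : 2 + 4 * i < n) (h1 : (n : A) ^ 2 = 1) (h4 : 4 * (n : A) = 4) :
    resultant (fam ((X + 1) ^ 2) a T n i)
      (X * derivative (((X + 1) ^ 2 : ℤ[X]).map (Int.castRingHom A)) -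
        C (n : A) * ((X + 1) ^ 2 : ℤ[X]).map (Int.castRingHom A)) n 2 =
      -((n : A) + 4 * (1 + (a : A) + T)) := by
  have hS : ((X + 1) ^ 2 : ℤ[X]).map (Int.castRingHom A) = (X + 1) ^ 2 := by
    rw [Polynomial.map_pow, Polynomial.map_add, map_X, Polynomial.map_one]
  have hP : fam ((X + 1) ^ 2) a T n i =
      X ^ n + (X + 1) ^ 2 * (1 + C (a : A) * X ^ 4 + C T * X ^ (4 * i)) := by
    unfold fam
    rw [hS]
  have hWd : (1 + C (a : A) * X ^ 4 + C T * X ^ (4 * i)).natDegree ≤ 4 * i := by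
    refine (natDegree_add_le _ _).trans (max_le ((natDegree_add_le _ _).trans (max_le ?_ ?_)) ?_)
    · rw [natDegree_one]
      exact Nat.zero_le _
    · exact (natDegree_C_mul_X_pow_le _ _).trans (by omega)
    · exact natDegree_C_mul_X_pow_le _ _
  have hX1 : (X + 1 : A[X]).natDegree = 1 := natDegree_X_add_C (1 : A)
  have hSW : ((X + 1) ^ 2 * (1 + C (a : A) * X ^ 4 + C T * X ^ (4 * i))).natDegree < n := by
    refine (natDegree_mul_le.trans (Nat.add_le_add (natDegree_pow_le.trans ?_) hWd)).trans_lt hlt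
    rw [hX1]
  have hdlt := degree_le_natDegree.trans_lt (Nat.cast_lt (α := WithBot ℕ).2 hSW)
  have hmon : (fam ((X + 1) ^ 2) a T n i).Monic := by
    rw [hP]
    exact monic_X_pow_add hdlt
  have hdeg : (fam ((X + 1) ^ 2) a T n i).natDegree = n := by
    rw [hP, natDegree_add_eq_left_of_natDegree_lt (by rw [natDegree_X_pow]; exact hSW), natDegree_X_pow]
  have hev : ∀ x : A, (fam ((X + 1) ^ 2) a T n i).eval x = x ^ n + (x + 1) ^ 2 * (1 + (a : A) * x ^ 4 + T * x ^ (4 * i)) := by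
    intro x
    rw [hP]
    simp only [eval_add, eval_mul, eval_pow, eval_X, eval_one, eval_C]
  have hu : (2 - (n : A)) ^ 2 = 1 := by linear_combination h1 - h4
  have hfac : X * derivative ((X + 1) ^ 2 : A[X]) - C (n : A) * (X + 1) ^ 2 =
      (X + C 1) * (C (2 - (n : A)) * (X - C ((2 - (n : A)) * n))) := by
    have h2 : C (2 - (n : A)) * C ((2 - (n : A)) * n) = C (n : A) := by
      rw [← C_mul]
      congr 1
      linear_combination (n : A) * hu
    have h3 : derivative ((X + 1) ^ 2 : A[X]) = 2 * (X + 1) := by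
      have h9 : (C (2 : A) : A[X]) = 2 := rfl
      rw [derivative_pow, derivative_add, derivative_X, derivative_one]
      simp [h9]
    have h5 : C (2 - (n : A)) = 2 - C (n : A) := by
      rw [C_sub]
      rfl
    rw [h3, mul_sub, h2, h5, C_1]
    ring
  rw [hS, hfac, resultant_mul_monic (a := 1) (b := 1) _ _ _ hmon hdeg (natDegree_X_add_C (1 : A)).le
    ((natDegree_C_mul_le _ _).trans (natDegree_X_sub_C_le _)), resultant_X_add_C_right _ _ _ hdeg.le,
    resultant_C_mul_right, resultant_X_sub_C_right _ _ _ hdeg.le, hev, hev]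
  have hw2 : ((2 - (n : A)) * n) ^ 2 = 1 := by
    rw [mul_pow, hu, h1, one_mul]
  have hw4 : ((2 - (n : A)) * n) ^ 4 = 1 := by
    have e : ((2 - (n : A)) * n) ^ 4 = (((2 - (n : A)) * n) ^ 2) ^ 2 := by ring
    rw [e, hw2, one_pow]
  obtain ⟨k, hk⟩ := hn
  have hpn : ∀ x : A, x ^ 2 = 1 → x ^ n = x := by
    intro x hx
    rw [hk, pow_succ, pow_mul, hx, one_pow, one_mul]
  have hm1 : (-1 : A) ^ n = -1 := hpn _ (by ring)
  rw [hpn _ hw2, hpn _ hu, hm1, pow_mul ((2 - (n : A)) * n) 4 i, hw4, one_pow]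
  have h6 : ((2 - (n : A)) * n + 1) ^ 2 = 4 := by
    linear_combination hw2 + h4 - 2 * h1
  rw [h6]
  linear_combination (-(n : A)) * hu + (1 + (a : A) + T) * h4

/-- ROW S9b. The family `S = (Y + 1) ^ 2`, `n` odd.

Proof. Over `A = (ZMod 8)[x]`: `Y S' - n S = (Y + 1) ((2 - n) Y - n)`. With `u = 2 - n`, `u^2 = 1`
in `ZMod 8`: `(2 - n) Y - n = u (Y - u n)`. `P` is monic of degree `n`. By `resultant_mul_monic`,
`resultant_C_mul_right`, `resultant_X_sub_C_right` (`X + 1 = X - C (-1)`):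
`Res(P, Y + 1; n, 1) = (-1) ^ n P(-1) = - P(-1) = 1`, as `P(-1) = (-1) ^ n + 0`;
`Res(P, u (Y - u n); n, 1) = u ^ n (-1) ^ n P(u n) = - u P(u n)` and
`P(u n) = (u n) ^ n + (u n + 1) ^ 2 W(u n)`, `(u n) ^ n = u n` (odd),
`u n + 1 = u (n + u) = 2 u`, so `(u n + 1) ^ 2 = 4`, and `4 W(u n) = 4 (1 + a + T)` because
`4 (u n) ^ k = 4` (`u n` is odd). So the total is `- u (u n + 4 (1 + a + T)) =
- (n + 4 (1 + a + T))` (`4 u = 4`). -/
theorem resultant_odd1 (n i : ℕ) (a : ℤ) (T : (ZMod 8)[X]) (hn : Odd n) (hi : 0 < i)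
    (hlt : 2 + 4 * i < n) :
    resultant (fam ((X + 1) ^ 2) a T n i)
      (X * derivative (((X + 1) ^ 2 : ℤ[X]).map (Int.castRingHom (ZMod 8)[X])) -
        C (n : (ZMod 8)[X]) * ((X + 1) ^ 2 : ℤ[X]).map (Int.castRingHom (ZMod 8)[X])) n 2 =
      -(C (n : ZMod 8) + 4 * (1 + C (a : ZMod 8) + T)) := by
  have k1 : ((n : ZMod 8)) ^ 2 = 1 ∧ 4 * (n : ZMod 8) = 4 := by
    obtain ⟨k, hk⟩ := hn
    have h1 : ∀ y : ZMod 8, (2 * y + 1) ^ 2 = 1 ∧ 4 * (2 * y + 1) = 4 := by decide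
    rw [hk]
    push_cast
    exact h1 _
  have h1 : ((n : (ZMod 8)[X])) ^ 2 = 1 := by
    rw [← C_eq_natCast, ← C_pow, k1.1, C_1]
  have h4 : 4 * (n : (ZMod 8)[X]) = 4 := by
    have h9 : (C (4 : ZMod 8) : (ZMod 8)[X]) = 4 := rfl
    rw [← C_eq_natCast, ← h9, ← C_mul, k1.2]
  have hnt : Nontrivial (ZMod 8) := ⟨⟨0, 1, by decide⟩⟩
  have h2 := s9b_main n i a T hn hi hlt h1 h4
  have h3 : (n : (ZMod 8)[X]) = C (n : ZMod 8) := (C_eq_natCast n).symm
  have h5 : (a : (ZMod 8)[X]) = C (a : ZMod 8) := (C_eq_intCast a).symm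
  rw [h3, h5] at h2
  rw [h3]
  exact h2

end Pool.Agent.AFA
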