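import Pool.Agent.AFA.Def
import Pool.Agent.AFA.S6a

set_option autoImplicit false

namespace Pool.Agent.AFA

open Polynomial

section

variable {R : Type} [CommRing R]

noncomputable def s9c_V (p : R) : R[X] := X ^ 2 + C p * X + C 5

theorem s9c_lin (p α β : R) : resultant (s9c_V p) (C α * X + C β) 2 1 =
    β ^ 2 - p * α * β + 5 * α ^ 2 := by
  have h1 : sylvester (s9c_V p) (C α * X + C β) 2 1 = !![β, 0, 5; α, β, p; 0, α, 1] := by
    ext i j
    fin_cases i <;> fin_cases j <;>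
      simp [s9c_V, sylvester, Fin.addCases, coeff_X, coeff_C, coeff_X_pow]
  have h2 : resultant (s9c_V p) (C α * X + C β) 2 1 =
      Matrix.det (!![β, 0, 5; α, β, p; 0, α, 1] : Matrix (Fin 3) (Fin 3) R) := by
    rw [resultant, h1]
  rw [h2, Matrix.det_fin_three]
  simp
  ring

theorem s9c_monic (p : R) : (s9c_V p).Monic := by
  unfold s9c_V
  nontriviality R
  rw [add_assoc]
  exact monic_X_pow_add degree_linear_lt

theorem s9c_deg [Nontrivial R] (p : R) : (s9c_V p).natDegree = 2 := by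
  have h1 : s9c_V p = C 1 * X ^ 2 + C p * X + C 5 := by
    rw [s9c_V, C_1, one_mul]
  rw [h1]
  exact natDegree_quadratic one_ne_zero

/-- coefficient of `Y` of `Y ^ k` modulo `Y ^ 2 + Y + 1` and `2` -/
def s9c_A (R : Type) [CommRing R] (k : ℕ) : R := if k % 3 = 0 then 0 else 1

/-- constant coefficient of `Y ^ k` modulo `Y ^ 2 + Y + 1` and `2` -/
def s9c_B (R : Type) [CommRing R] (k : ℕ) : R := if k % 3 = 1 then 0 else 1

def s9c_t (R : Type) [CommRing R] (k : ℕ) : R := if 3 ∣ k then 0 else 1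

theorem s9c_pow (h8 : (8 : R) = 0) (p m : R) (hp : p = 1 + 2 * m) (k : ℕ) :
    ∃ (α β : R) (q : R[X]), X ^ k = C α * X + C β + s9c_V p * q ∧
      4 * α = 4 * s9c_A R k ∧ 4 * β = 4 * s9c_B R k := by
  induction k with
  | zero => exact ⟨0, 1, 0, by simp, by simp [s9c_A], by simp [s9c_B]⟩
  | succ k ih =>
    obtain ⟨α, β, q, h1, h2, h3⟩ := ih
    refine ⟨β - p * α, -5 * α, C α + q * X, ?_, ?_, ?_⟩
    · rw [pow_succ, h1]
      unfold s9c_V
      simp only [map_sub, map_mul, map_neg, map_ofNat]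
      ring
    · have h4 : 4 * (β - p * α) = 4 * s9c_A R k + 4 * s9c_B R k := by
        rw [hp]
        linear_combination h2 + h3 - (α + α * m) * h8
      rw [h4]
      unfold s9c_A s9c_B
      rcases (by omega : k % 3 = 0 ∨ k % 3 = 1 ∨ k % 3 = 2) with h | h | h
      · rw [if_pos h, if_neg (by omega), if_neg (by omega)]; ring
      · rw [if_neg (by omega), if_pos h, if_neg (by omega)]; ring
      · rw [if_neg (by omega), if_neg (by omega), if_pos (by omega)]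
        linear_combination h8
    · have h4 : 4 * (-5 * α) = 4 * s9c_A R k := by
        linear_combination h2 - 3 * α * h8
      rw [h4]
      unfold s9c_A s9c_B
      rcases (by omega : k % 3 = 0 ∨ k % 3 = 1 ∨ k % 3 = 2) with h | h | h
      · rw [if_pos h, if_pos (by omega)]
      · rw [if_neg (by omega), if_neg (by omega)]
      · rw [if_neg (by omega), if_neg (by omega)]

theorem s9c_D (h8 : (8 : R) = 0) (n k : ℕ) :
    4 * (s9c_A R n * s9c_B R k + s9c_B R n * s9c_A R k) = 4 * s9c_t R (2 * n + k) := by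
  unfold s9c_A s9c_B s9c_t
  have hn : n % 3 = 0 ∨ n % 3 = 1 ∨ n % 3 = 2 := by omega
  have hk : k % 3 = 0 ∨ k % 3 = 1 ∨ k % 3 = 2 := by omega
  rcases hn with hn | hn | hn <;> rcases hk with hk | hk | hk <;> rw [hn, hk]
  · rw [if_pos (by omega : 3 ∣ 2 * n + k)]; norm_num
  · rw [if_neg (by omega : ¬ 3 ∣ 2 * n + k)]; norm_num
  · rw [if_neg (by omega : ¬ 3 ∣ 2 * n + k)]; norm_num
  · rw [if_neg (by omega : ¬ 3 ∣ 2 * n + k)]; norm_num
  · rw [if_pos (by omega : 3 ∣ 2 * n + k)]; norm_num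
  · rw [if_neg (by omega : ¬ 3 ∣ 2 * n + k)]; norm_num
  · rw [if_neg (by omega : ¬ 3 ∣ 2 * n + k)]; norm_num
  · rw [if_neg (by omega : ¬ 3 ∣ 2 * n + k)]; norm_num
  · rw [if_pos (by omega : 3 ∣ 2 * n + k)]
    norm_num
    linear_combination h8

theorem s9c_t_two (m k : ℕ) (h : m = 2 * k ∨ m = 2 * k + 6) : s9c_t R m = s9c_t R k := by
  unfold s9c_t
  by_cases hk : 3 ∣ k
  · rw [if_pos hk, if_pos (by omega)]
  · rw [if_neg hk, if_neg (by omega)]

theorem s9c_five (h8 : (8 : R) = 0) {n : ℕ} (hn : Odd n) : (5 : R) ^ n = 5 := by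
  obtain ⟨m, rfl⟩ := hn
  have h1 : (5 : R) ^ 2 = 1 := by linear_combination 3 * h8
  rw [pow_succ, pow_mul, h1, one_pow, one_mul]

theorem s9c_main [Nontrivial R] (h8 : (8 : R) = 0) (p m a T : R) (hp : p = 1 + 2 * m) (n i : ℕ)
    (hn : Odd n) (hi : 0 < i) (hlt : 4 + 4 * i < n) :
    resultant (s9c_V p) (X ^ n + 4 * X ^ 2 * (1 + C a * X ^ 4 + C T * X ^ (4 * i))) 2 n =
      5 + 4 * (s9c_t R (n + 1) + a * s9c_t R n + T * s9c_t R (n + 1 + 2 * i)) := by
  obtain ⟨α, β, q, e1, e2, e3⟩ := s9c_pow h8 p m hp n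
  obtain ⟨α2, β2, q2, f1, f2, f3⟩ := s9c_pow h8 p m hp 2
  obtain ⟨α6, β6, q6, g1, g2, g3⟩ := s9c_pow h8 p m hp 6
  obtain ⟨αi, βi, qi, k1, k2, k3⟩ := s9c_pow h8 p m hp (4 * i + 2)
  have hmon := s9c_monic p
  have hdeg := s9c_deg p
  -- the norm of `Y ^ n`
  have hN : β ^ 2 - p * α * β + 5 * α ^ 2 = 5 := by
    have h1 : resultant (s9c_V p) (X ^ n) 2 n = resultant (s9c_V p) (C α * X + C β) 2 1 :=
      resultant_add_mul (s9c_V p) (X ^ n) (C α * X + C β) q hmon hdeg (natDegree_X_pow_le n)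
        natDegree_linear_le e1
    rw [s9c_lin, resultant_X_pow_right _ _ _ hdeg.le] at h1
    have h2 : (s9c_V p).coeff 0 = 5 := by simp [s9c_V]
    rw [← h1, h2, s9c_five h8 hn, pow_mul]
    norm_num
  set G1 : R := α2 + a * α6 + T * αi with hG1
  set G0 : R := β2 + a * β6 + T * βi with hG0
  have hfd : (X ^ n + 4 * X ^ 2 * (1 + C a * X ^ 4 + C T * X ^ (4 * i)) : R[X]).natDegree ≤ n := by
    have h1 : (4 * X ^ 2 : R[X]).natDegree ≤ 2 := by
      have : (4 * X ^ 2 : R[X]) = C 4 * X ^ 2 := rfl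
      rw [this]
      exact natDegree_C_mul_X_pow_le _ _
    have h2 : (1 + C a * X ^ 4 + C T * X ^ (4 * i) : R[X]).natDegree ≤ 4 * i := by
      apply natDegree_add_le_of_degree_le
      · apply natDegree_add_le_of_degree_le
        · rw [natDegree_one]; omega
        · exact (natDegree_C_mul_X_pow_le _ _).trans (by omega)
      · exact natDegree_C_mul_X_pow_le _ _
    apply natDegree_add_le_of_degree_le (natDegree_X_pow_le n)
    exact (natDegree_mul_le_of_le h1 h2).trans (by omega)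
  have hsplit : (X ^ n + 4 * X ^ 2 * (1 + C a * X ^ 4 + C T * X ^ (4 * i)) : R[X]) =
      (C (α + 4 * G1) * X + C (β + 4 * G0)) +
        s9c_V p * (q + 4 * (q2 + C a * q6 + C T * qi)) := by
    have h1 : (X ^ n + 4 * X ^ 2 * (1 + C a * X ^ 4 + C T * X ^ (4 * i)) : R[X]) =
        X ^ n + 4 * (X ^ 2 + C a * X ^ 6 + C T * X ^ (4 * i + 2)) := by ring
    rw [h1, e1, f1, g1, k1, hG1, hG0]
    simp only [map_add, map_mul, map_ofNat]
    ring
  rw [resultant_add_mul (s9c_V p) _ _ _ hmon hdeg hfd natDegree_linear_le hsplit, s9c_lin]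
  have hD2 := s9c_D h8 n 2
  have hD6 := s9c_D h8 n 6
  have hDi := s9c_D h8 n (4 * i + 2)
  rw [s9c_t_two (R := R) (2 * n + 2) (n + 1) (by omega)] at hD2
  rw [s9c_t_two (R := R) (2 * n + 6) n (by omega)] at hD6
  rw [s9c_t_two (R := R) (2 * n + (4 * i + 2)) (n + 1 + 2 * i) (by omega)] at hDi
  have hkey : 4 * (α * G0 + β * G1) =
      4 * (s9c_t R (n + 1) + a * s9c_t R n + T * s9c_t R (n + 1 + 2 * i)) := by
    have h1 : 4 * (α * G0 + β * G1) = 4 * ((s9c_A R n * s9c_B R 2 + s9c_B R n * s9c_A R 2) +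
        a * (s9c_A R n * s9c_B R 6 + s9c_B R n * s9c_A R 6) +
        T * (s9c_A R n * s9c_B R (4 * i + 2) + s9c_B R n * s9c_A R (4 * i + 2))) := by
      rw [hG1, hG0]
      linear_combination (β2 + a * β6 + T * βi) * e2 + (α2 + a * α6 + T * αi) * e3 +
        s9c_A R n * (f3 + a * g3 + T * k3) + s9c_B R n * (f2 + a * g2 + T * k2)
    rw [h1]
    linear_combination hD2 + a * hD6 + T * hDi
  linear_combination hN + hkey + (β * G0 + 2 * G0 ^ 2 - (1 + m) * (α * G0 + β * G1) -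
    2 * (1 + 2 * m) * G1 * G0 + 5 * α * G1 + 10 * G1 ^ 2) * h8 -
    (4 * (α * G0 + β * G1) + 16 * G1 * G0) * hp

end

/-- ROW S9c. A resultant with a quadratic polynomial `V ≡ Y^2 + Y + 1` modulo 2.

Proof. Let `V = Y^2 + p Y + 5` with `p = 1 + 2 n` (so `p = 3` or `7`). For a linear polynomial,
`Res(V, α Y + β; 2, 1) = β ^ 2 - p α β + 5 α ^ 2` (3 x 3 determinant of
`Polynomial.sylvester`, or by `resultant_comm` and evaluation). Modulo `V` (`resultant_add_mul`)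
`Y^n` is congruent to a linear polynomial `α Y + β` with `α, β ∈ ZMod 8` (recursion), whose reduction
modulo 2 is that of `Y^n` modulo `Y^2 + Y + 1`: `1`, `Y`, `Y + 1` for `n ≡ 0, 1, 2` modulo 3; and
`N(α Y + β) := β ^ 2 - p α β + 5 α ^ 2 = Res(V, Y^n; 2, n) = 5 ^ n = 5` (`resultant_X_pow_right`,
`V(0) = 5`, `n` odd). Similarly `4 Y^2 W` is congruent to `4 (g₁ Y + g₀)` where
`g₁ Y + g₀` is computed modulo 2: `Y^2 + a Y^6 + T Y^(4i+2)` with `Y^3 = 1`, `Y^2 = Y + 1`.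
Then `Res(V, Y^n + 4 Y^2 W) = N((α + 4 g₁) Y + (β + 4 g₀)) = N(α Y + β) + 4 (α g₀ + β g₁) =
5 + 4 (α g₀ + β g₁)` (`8 = 0`, `p` odd). Finally, modulo 2, `α g₀ + β g₁ = B(Y^n, Y^2 W)` for the
bilinear form `B(α Y + β, g₁ Y + g₀) = α g₀ + β g₁`, for which `B(Y^j, Y^k) = 0` if `3 ∣ j - k` and
`1` otherwise (check the nine cases), i.e. `B(Y^n, Y^k) = tt (2 n + k)`. So the sum is
`tt (2 n + 2) + a tt (2 n + 6) + T tt (2 n + 2 + 4 i)`, which is
`tt (n + 1) + a tt n + T tt (n + 1 + 2 i)` modulo 2 (`3 ∣ 2 m ↔ 3 ∣ m`). -/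
theorem resultant_quadratic (n i : ℕ) (a : ℤ) (T : (ZMod 8)[X]) (hn : Odd n) (hi : 0 < i)
    (hlt : 4 + 4 * i < n) :
    resultant (X ^ 2 + C (C (1 + 2 * (n : ZMod 8))) * X + C (C 5) : (ZMod 8)[X][X])
      (X ^ n + 4 * X ^ 2 * (1 + C (C (a : ZMod 8)) * X ^ 4 + C T * X ^ (4 * i))) 2 n =
      5 + 4 * (C (tt (n + 1) : ZMod 8) + C (a * tt n : ZMod 8) +
        T * C (tt (n + 1 + 2 * i) : ZMod 8)) := by
  have h8 : (8 : (ZMod 8)[X]) = 0 := by
    have h : (8 : ZMod 8) = 0 := by decide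
    have h2 : C (8 : ZMod 8) = (8 : (ZMod 8)[X]) := rfl
    rw [← h2, h, C_0]
  have hfact : Fact (1 < 8) := ⟨by norm_num⟩
  have hnt : Nontrivial (ZMod 8) := ZMod.nontrivial 8
  have h1 := s9c_main h8 (C (1 + 2 * (n : ZMod 8))) (C (n : ZMod 8)) (C (a : ZMod 8)) T
    (by rw [map_add, map_mul, map_one]; rfl) n i hn hi hlt
  have ht : ∀ k, (C ((tt k : ℤ) : ZMod 8) : (ZMod 8)[X]) = s9c_t (ZMod 8)[X] k := by
    intro k
    unfold tt s9c_t
    split_ifs <;> simp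
  have e5 : (C 5 : (ZMod 8)[X][X]) = C (5 : (ZMod 8)[X]) := rfl
  rw [show (C (C 5) : (ZMod 8)[X][X]) = C 5 from rfl]
  refine h1.trans ?_
  rw [ht, ht, map_mul, ht]

end Pool.Agent.AFA
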