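import Pool.Agent.AFA.Def
import Pool.Agent.AFA.S9c

set_option autoImplicit false

namespace Pool.Agent.AFA

open Polynomial

/-- ROW S9d. The family `S = (Y ^ 2 + Y + 1) ^ 2`, `n` odd.

Proof. Over `A = (ZMod 8)[x]`. Let `Q = Y^2 + Y + 1`, `W = 1 + a Y^4 + T Y^(4i)`, `P = Y^n + Q^2 W`.
`Y S' - n S = Q (2 Y Q' - n Q) = Q ((4 - n) Y^2 + (2 - n) Y - n) = Q (u V)` with `u = 4 - n`,
`u ^ 2 = 1`, `V = Y^2 + (1 + 2 n) Y + 5` (in `ZMod 8`, `n` odd: `u (2 - n) = 8 - 6 n + n^2 =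
1 + 2 n`, `- u n = n^2 - 4 n = 1 - 4 = 5`).
`Res(P, Q; n, 2) = Res(Q, P; 2, n) = Res(Q, Y^n; 2, n) = Q(0) ^ n = 1` (`resultant_comm` with sign
`1`, `resultant_add_mul`, `resultant_X_pow_right`: sign `(-1) ^ (2 n) = 1`).
`Res(P, u V; n, 2) = u ^ n Res(P, V; n, 2) = u Res(V, P; 2, n)`. Modulo `V`,
`Q = V - 2 n Y - 4`, so `Q^2 = 4 (n Y + 2)^2 = 4 Y^2` modulo `V` (and 8; `4 n^2 = 4`,
`4 * 4 n = 0`), so `Res(V, P; 2, n) = Res(V, Y^n + 4 Y^2 W; 2, n)` by `resultant_add_mul`, which is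
`5 + 4 B` by `resultant_quadratic`, `B = tt (n + 1) + a tt n + T tt (n + 1 + 2 i)`. Total:
`(4 - n) (5 + 4 B) = 20 - 5 n + 4 B = - n + 4 B = - (n + 4 B)` in characteristic 8
(`20 - 5 n + n = 20 - 4 n = 20 - 4 = 16`, `n` odd; `4 (4 - n) B = 4 B`). -/
theorem resultant_odd2 (n i : ℕ) (a : ℤ) (T : (ZMod 8)[X]) (hn : Odd n) (hi : 0 < i)
    (hlt : 4 + 4 * i < n) :
    resultant (fam ((X ^ 2 + X + 1) ^ 2) a T n i)
      (X * derivative (((X ^ 2 + X + 1) ^ 2 : ℤ[X]).map (Int.castRingHom (ZMod 8)[X])) -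
        C (n : (ZMod 8)[X]) * ((X ^ 2 + X + 1) ^ 2 : ℤ[X]).map (Int.castRingHom (ZMod 8)[X])) n 4 =
      -(C (n : ZMod 8) + 4 * (C (tt (n + 1) : ZMod 8) + C (a * tt n : ZMod 8) +
        T * C (tt (n + 1 + 2 * i) : ZMod 8))) := by
  have hF : Fact (1 < 8) := ⟨by norm_num⟩
  have hNT : Nontrivial (ZMod 8) := inferInstance
  obtain ⟨n0, hn0⟩ : ∃ n0 : ZMod 8, n0 = (n : ZMod 8) := ⟨_, rfl⟩
  obtain ⟨m, hm⟩ := hn
  have hm0 : n0 = 2 * (m : ZMod 8) + 1 := by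
    rw [hn0, hm]
    push_cast
    ring
  have f1 : n0 ^ 2 = 1 := by
    rw [hm0]
    generalize (m : ZMod 8) = x
    revert x
    decide
  have f2 : 4 * n0 = 4 := by
    rw [hm0]
    generalize (m : ZMod 8) = x
    revert x
    decide
  have f3 : (4 - n0) ^ 2 = 1 := by
    rw [hm0]
    generalize (m : ZMod 8) = x
    revert x
    decide
  have hodd : Odd n := ⟨m, hm⟩
  have h8 : (8 : (ZMod 8)[X]) = 0 := by exact_mod_cast CharP.cast_eq_zero (ZMod 8)[X] 8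
  have h8' : (8 : (ZMod 8)[X][X]) = 0 := by exact_mod_cast CharP.cast_eq_zero (ZMod 8)[X][X] 8
  have g1 : (C n0 : (ZMod 8)[X]) ^ 2 = 1 := by
    rw [← C_pow, f1, C_1]
  have g2 : 4 * (C n0 : (ZMod 8)[X]) = 4 := by
    have h := congrArg (C : ZMod 8 →+* (ZMod 8)[X]) f2
    rwa [C_mul, map_ofNat C 4] at h
  have k1 : (C (C n0) : (ZMod 8)[X][X]) ^ 2 = 1 := by
    rw [← C_pow, g1, C_1]
  have k2 : 4 * (C (C n0) : (ZMod 8)[X][X]) = 4 := by
    have h := congrArg (C : (ZMod 8)[X] →+* (ZMod 8)[X][X]) g2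
    rwa [C_mul, map_ofNat C 4] at h
  have hnc : ((n : ℕ) : (ZMod 8)[X]) = C n0 := by
    rw [hn0, map_natCast]
  set Q : (ZMod 8)[X][X] := X ^ 2 + X + 1 with hQ
  set V : (ZMod 8)[X][X] := X ^ 2 + C (C (1 + 2 * (n : ZMod 8))) * X + C (C 5) with hV
  set W : (ZMod 8)[X][X] := 1 + C (C (a : ZMod 8)) * X ^ 4 + C T * X ^ (4 * i) with hW
  have hV' : V = X ^ 2 + (1 + 2 * C (C n0)) * X + 5 := by
    rw [hV, ← hn0, C_add, C_add, C_mul, C_mul, C_1, C_1, map_ofNat C 2, map_ofNat C 2, map_ofNat C 5, map_ofNat C 5]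
  have hSQ : ((X ^ 2 + X + 1) ^ 2 : ℤ[X]).map (Int.castRingHom (ZMod 8)[X]) = Q ^ 2 := by
    simp [hQ]
  have hfam : fam ((X ^ 2 + X + 1) ^ 2) a T n i = X ^ n + Q ^ 2 * W := by
    unfold fam
    rw [hSQ, hW]
    simp
  have hWd : W.natDegree ≤ 4 * i := by
    rw [hW]
    compute_degree
    omega
  have hQm : Q.Monic := by
    rw [hQ]
    monicity!
  have hQd : Q.natDegree = 2 := by
    rw [hQ]
    compute_degree!
  have hVm : V.Monic := by
    rw [hV]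
    monicity!
  have hVd : V.natDegree = 2 := by
    rw [hV]
    compute_degree!
  have hQW : (Q * W).natDegree ≤ 2 + 4 * i := natDegree_mul_le.trans (by omega)
  have hPd : (Q ^ 2 * W).natDegree < n := by
    refine lt_of_le_of_lt natDegree_mul_le ?_
    have h1 : (Q ^ 2).natDegree ≤ 4 := natDegree_pow_le.trans (by omega)
    omega
  have hPm : (X ^ n + Q ^ 2 * W).Monic := by
    refine (monic_X_pow n).add_of_left ?_
    rw [degree_X_pow]
    exact (degree_le_natDegree).trans_lt (by exact_mod_cast hPd)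
  have hPn : (X ^ n + Q ^ 2 * W).natDegree = n := by
    rw [natDegree_add_eq_left_of_natDegree_lt (by rw [natDegree_X_pow]; exact hPd), natDegree_X_pow]
  have hfac : X * derivative (Q ^ 2) - C (n : (ZMod 8)[X]) * Q ^ 2 = Q * (C (C (4 - n0)) * V) := by
    have hd : derivative (Q ^ 2) = 2 * Q * (2 * X + 1) := by
      rw [hQ]
      simp only [derivative_pow, derivative_add, derivative_X, derivative_one, Nat.cast_ofNat, C_ofNat]
      norm_num
    rw [hd, hnc, hV', C_sub, C_sub, map_ofNat C 4, map_ofNat C 4]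
    generalize (C (C n0) : (ZMod 8)[X][X]) = N at *
    rw [hQ]
    linear_combination (X ^ 2 + X + 1) * (2 * X * k1 + k2 - (2 + N * X) * h8')
  have sgn : ((-1 : (ZMod 8)[X]) ^ (n * 2)) = 1 := by
    rw [mul_comm, pow_mul]
    norm_num
  have sgn' : ((-1 : (ZMod 8)[X]) ^ (2 * n)) = 1 := by
    rw [pow_mul]
    norm_num
  have r1 : resultant (X ^ n + Q ^ 2 * W) Q n 2 = 1 := by
    rw [resultant_comm, sgn, one_mul]
    have h1 : X ^ n + Q ^ 2 * W = X ^ n + Q * (Q * W) := by ring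
    rw [h1, resultant_add_mul_right _ _ _ _ _ (by omega) hQd.le, resultant_X_pow_right _ _ _ hQd.le, sgn', one_mul]
    have h2 : Q.coeff 0 = 1 := by simp [hQ]
    rw [h2, one_pow]
  have r2 : resultant (X ^ n + Q ^ 2 * W) (C (C (4 - n0)) * V) n 2 =
      C (4 - n0) * (5 + 4 * (C (tt (n + 1) : ZMod 8) + C (a * tt n : ZMod 8) +
        T * C (tt (n + 1 + 2 * i) : ZMod 8))) := by
    rw [resultant_C_mul_right, resultant_comm, sgn, one_mul]
    have h1 : X ^ n + Q ^ 2 * W = (X ^ n + 4 * X ^ 2 * W) + V * ((V - 4 * X) * W) := by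
      rw [hV', hQ]
      generalize (C (C n0) : (ZMod 8)[X][X]) = N at *
      linear_combination W * (-(X * (X ^ 2 + X + 1)) * k2 - 4 * X ^ 2 * k1 -
        (X ^ 2 + (X ^ 2 + X + 1) + 2 * N * X + 2 - N * X ^ 2 - 2 * X) * h8')
    have hd : ((V - 4 * X) * W).natDegree ≤ 2 + 4 * i := by
      refine natDegree_mul_le.trans (add_le_add ?_ hWd)
      refine (natDegree_sub_le _ _).trans (max_le hVd.le ?_)
      compute_degree
      norm_num
    rw [h1, resultant_add_mul_right _ _ _ _ _ (by omega) hVd.le, hV, hW,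
      resultant_quadratic n i a T hodd hi hlt]
    congr 1
    rw [hm, pow_succ, pow_mul, ← C_pow, f3, C_1, one_pow, one_mul]
  rw [hfam, hSQ, hfac, show (4 : ℕ) = 2 + 2 from rfl, resultant_mul_monic _ _ _ hPm hPn hQd.le
    ((natDegree_C_mul_le _ _).trans hVd.le), r1, r2, one_mul, ← hn0, C_sub, map_ofNat C 4]
  generalize (C (tt (n + 1) : ZMod 8) + C (a * tt n : ZMod 8) + T * C (tt (n + 1 + 2 * i) : ZMod 8)) = B
  generalize (C n0 : (ZMod 8)[X]) = N at *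
  linear_combination (-(1 + B)) * g2 + 2 * (1 + B) * h8

end Pool.Agent.AFA
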