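import Pool.Agent.AFA.Def
import Pool.Agent.AFA.S7
import Pool.Agent.AFA.S9a
import Pool.Agent.AFA.S9b
import Pool.Agent.AFA.S9d
import Pool.Agent.AFA.S10a

set_option autoImplicit false

namespace Pool.Agent.AFA

open Polynomial

theorem s10c_four : red8 (4 : ℤ[X]) = 4 := map_ofNat red8 4

theorem s10c_C (z : ℤ) : red8 (C z) = C (z : ZMod 8) := by
  show Polynomial.map (Int.castRingHom (ZMod 8)) (C z) = _
  rw [Polynomial.map_C]
  rfl

theorem s10c_aux (S : ℤ[X]) {s : ℕ} (hS : S.natDegree ≤ s) (hS0 : S.coeff 0 = 1) (n i : ℕ) (a : ℤ)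
    (T : ℤ[X]) (hn : Odd n) (hi : 0 < i) (hlt : s + 4 * i < n) (R : ℤ[X]) (R8 : (ZMod 8)[X])
    (hR : red8 R = R8)
    (hres : resultant (fam S a (red8 T) n i)
      (X * derivative (S.map (Int.castRingHom (ZMod 8)[X])) -
        C (n : (ZMod 8)[X]) * S.map (Int.castRingHom (ZMod 8)[X])) n s = -R8) :
    (8 : ℤ[X]) ∣ resultant (fam S a T n i) (derivative (fam S a T n i)) n (n - 1) - R := by
  have h1 := resultant_fam S hS hS0 a T n i hi hlt
  rw [hn.neg_one_pow] at h1
  have h2 : (8 : ℤ[X]) ∣ -1 * resultant (fam S a T n i)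
      (X * derivative (S.map (Int.castRingHom ℤ[X])) -
        C (n : ℤ[X]) * S.map (Int.castRingHom ℤ[X])) n s - R := by
    rw [eight_dvd_iff, map_sub, map_mul, ← resultant_map_map, map_fam]
    have e1 : (S.map (Int.castRingHom ℤ[X])).map red8 = S.map (Int.castRingHom (ZMod 8)[X]) := by
      rw [Polynomial.map_map]
      congr 1
      exact RingHom.ext_int _ _
    rw [Polynomial.map_sub, Polynomial.map_mul, Polynomial.map_mul, Polynomial.map_X, ← derivative_map,
      e1, Polynomial.map_C, map_natCast, hres, hR, map_neg, map_one]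
    ring
  have h3' := dvd_add h1 h2
  rwa [sub_add_sub_cancel] at h3'

/-- ROW S10c. Discriminants modulo 8, the three families of odd degree.

Proof. Combine `resultant_fam` (the sign `(-1) ^ n` is `-1`) with `resultant_odd0`,
`resultant_odd1`, `resultant_odd2` as in `disc_even`. -/
theorem disc_odd0 (n i : ℕ) (a : ℤ) (T : ℤ[X]) (hn : Odd n) (hi : 0 < i) (hlt : 4 * i < n) :
    (8 : ℤ[X]) ∣ resultant (fam 1 a T n i) (derivative (fam 1 a T n i)) n (n - 1) - C (n : ℤ) := by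
  refine s10c_aux 1 (s := 0) (by simp) (by simp) n i a T hn hi (by omega) _ (C (n : ZMod 8)) ?_
    (resultant_odd0 n i a (red8 T) hn)
  rw [s10c_C]
  simp

theorem disc_odd1 (n i : ℕ) (a : ℤ) (T : ℤ[X]) (hn : Odd n) (hi : 0 < i) (hlt : 2 + 4 * i < n) :
    (8 : ℤ[X]) ∣ resultant (fam ((X + 1) ^ 2) a T n i)
      (derivative (fam ((X + 1) ^ 2) a T n i)) n (n - 1) -
      (C (n : ℤ) + 4 * (1 + C a + T)) := by
  refine s10c_aux ((X + 1) ^ 2) (s := 2) (by compute_degree) ?_ n i a T hn hi hlt _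
    (C (n : ZMod 8) + 4 * (1 + C (a : ZMod 8) + red8 T)) ?_
    (resultant_odd1 n i a (red8 T) hn hi hlt)
  · rw [coeff_zero_eq_eval_zero]
    simp
  · rw [map_add, map_mul, map_add, map_add, map_one, s10c_C, s10c_C, s10c_four]
    simp

theorem disc_odd2 (n i : ℕ) (a : ℤ) (T : ℤ[X]) (hn : Odd n) (hi : 0 < i) (hlt : 4 + 4 * i < n) :
    (8 : ℤ[X]) ∣ resultant (fam ((X ^ 2 + X + 1) ^ 2) a T n i)
      (derivative (fam ((X ^ 2 + X + 1) ^ 2) a T n i)) n (n - 1) -
      (C (n : ℤ) + 4 * (C (tt (n + 1)) + C (a * tt n) + T * C (tt (n + 1 + 2 * i)))) := by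
  refine s10c_aux ((X ^ 2 + X + 1) ^ 2) (s := 4) (by compute_degree) ?_ n i a T hn hi hlt _
    (C (n : ZMod 8) + 4 * (C (tt (n + 1) : ZMod 8) + C (a * tt n : ZMod 8) +
        red8 T * C (tt (n + 1 + 2 * i) : ZMod 8))) ?_
    (resultant_odd2 n i a (red8 T) hn hi hlt)
  · rw [coeff_zero_eq_eval_zero]
    simp
  · rw [map_add red8, map_mul red8, map_add red8, map_add red8, map_mul red8, s10c_four]
    rw [s10c_C, s10c_C, s10c_C, s10c_C]
    simp

end Pool.Agent.AFA
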