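import Pool.Agent.AFA.Def
import Pool.Agent.AFA.M2b
import Pool.Agent.AFA.S10c
import Pool.Agent.AFA.E1
import Pool.Agent.AFA.C1

set_option autoImplicit false

namespace Pool.Agent.AFA

open Polynomial

/-- ROW M3b. Odd degree, `S = 1`.

Proof. As for `even_family`, with `coprime_odd` (`Q = 1`) and `disc_odd0`, `T = X`, `s = 0`,
`a = 0`. -/
theorem odd_family0 {n i r : ℕ} (hn : Odd n) (hi : 0 < i) (hnr : n = r + 4 * i) (hr : r.Prime)
    (hbig : n < 2 * r) :
    ((n % 8 = 1 ∨ n % 8 = 7) → Realizes (alternatingGroup (Fin n))) ∧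
    ((n % 8 = 3 ∨ n % 8 = 5) → Realizes (Equiv.Perm (Fin n))) := by
  have hF : Fact (Nat.Prime 2) := ⟨Nat.prime_two⟩
  have hlt : 4 * i < n := by
    have := hr.pos
    omega
  have hr2 : r ≠ 2 := by
    rintro rfl
    obtain ⟨l, rfl⟩ := hn
    omega
  have hD : Data (1 : ℤ[X]) 0 0 X n i r :=
    { monic := monic_one
      deg := natDegree_one
      zero := by simp
      ipos := hi
      ha := Or.inl rfl
      hn := by omega
      prime := hr
      odd := hr2
      big := hbig
      hT := Or.inl (by simp [red])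
      cop := coprime_odd 1 1 (by simp) (by simp) 0 _ n i hn hi }
  have hdisc := disc_odd0 n i 0 X hn hi hlt
  have key : ∀ (ε k : ℤ), (8 : ℤ) ∣ (n : ℤ) - ε * (1 + 4 * k) →
      (8 : ℤ[X]) ∣ resultant (fam 1 0 X n i) (derivative (fam 1 0 X n i)) n (n - 1) -
      C ε * (1 + 4 * (C k : ℤ[X])) := by
    intro ε k hk
    obtain ⟨m, hm⟩ := hk
    have : (8 : ℤ[X]) ∣ C (n : ℤ) - C ε * (1 + 4 * (C k : ℤ[X])) := by
      refine ⟨C m, ?_⟩
      have h8 : (8 : ℤ[X]) = C 8 := (map_ofNat C 8).symm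
      have h4 : (4 : ℤ[X]) = C 4 := (map_ofNat C 4).symm
      have h9 := congrArg (C : ℤ → ℤ[X]) hm
      rw [C_mul, C_sub] at h9
      rw [h8, h4, ← h9]
      simp only [C_sub, C_mul, C_add, C_1]
    have h2 := dvd_add hdisc this
    rwa [sub_add_sub_cancel] at h2
  constructor
  · intro h
    rcases h with h | h
    · exact (realizes_of_data hD (C 0) 1 (Or.inl rfl) (key 1 0 (by omega))).1 ⟨0, by simp⟩
    · exact (realizes_of_data hD (C 0) (-1) (Or.inr rfl) (key (-1) 0 (by omega))).1 ⟨0, by simp⟩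
  · intro h
    rcases h with h | h
    · refine (realizes_of_data hD (C 1) (-1) (Or.inr rfl) (key (-1) 1 (by omega))).2 ?_
      intro f
      exact artinSchreier_ne _ (Or.inl (by simp [red])) f
    · refine (realizes_of_data hD (C 1) 1 (Or.inl rfl) (key 1 1 (by omega))).2 ?_
      intro f
      exact artinSchreier_ne _ (Or.inl (by simp [red])) f

end Pool.Agent.AFA
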