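import Pool.Agent.AFA.Def
import Pool.Agent.AFA.M2b
import Pool.Agent.AFA.S10c
import Pool.Agent.AFA.E1
import Pool.Agent.AFA.C1

set_option autoImplicit false

namespace Pool.Agent.AFA

open Polynomial

theorem m3c_data {n i r : ℕ} (hn : Odd n) (hi : 0 < i) (hnr : n = r + 2 + 4 * i) (hr : r.Prime)
    (hbig : n < 2 * r) (T : ℤ[X]) (hT : red T = X ∨ ∃ c : ZMod 2, red T = X ^ 2 + X + C c) :
    Data ((X + 1) ^ 2) 2 0 T n i r where
  monic := by
    have h1 : (X + 1 : ℤ[X]).Monic := by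
      have := monic_X_add_C (1 : ℤ)
      rwa [C_1] at this
    exact h1.pow 2
  deg := by
    have h1 : (X + 1 : ℤ[X]).natDegree = 1 := by
      have := natDegree_X_add_C (1 : ℤ)
      rwa [C_1] at this
    rw [natDegree_pow, h1]
  zero := by
    rw [coeff_zero_eq_eval_zero]
    simp
  ipos := hi
  ha := Or.inl rfl
  hn := hnr
  prime := hr
  odd := by
    rintro rfl
    obtain ⟨k, hk⟩ := hn
    omega
  big := hbig
  hT := hT
  cop := by
    refine coprime_odd ((X + 1) ^ 2) (X + 1) ?_ ?_ 0 (red T) n i hn hi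
    · rw [Polynomial.map_pow, Polynomial.map_add, map_X, Polynomial.map_one]
    · rw [coeff_zero_eq_eval_zero]
      simp

theorem m3c_num {n : ℕ} (hn : Odd n) : ∃ ε ν k : ℤ, (ε = 1 ∨ ε = -1) ∧ (n : ℤ) = ε * (1 + 4 * ν) + 8 * k := by
  obtain ⟨m, hm⟩ := hn
  have h1 : n % 8 = 1 ∨ n % 8 = 3 ∨ n % 8 = 5 ∨ n % 8 = 7 := by omega
  rcases h1 with h1 | h1 | h1 | h1
  · exact ⟨1, 0, (n - 1) / 8, Or.inl rfl, by omega⟩
  · exact ⟨-1, 1, (n + 5) / 8, Or.inr rfl, by omega⟩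
  · exact ⟨1, 1, (n - 5) / 8, Or.inl rfl, by omega⟩
  · exact ⟨-1, 0, (n + 1) / 8, Or.inr rfl, by omega⟩

theorem m3c_disc {n i : ℕ} (hn : Odd n) (hi : 0 < i) (hlt : 2 + 4 * i < n) (T : ℤ[X]) {ε ν k : ℤ}
    (hε : ε = 1 ∨ ε = -1) (hk : (n : ℤ) = ε * (1 + 4 * ν) + 8 * k) :
    (8 : ℤ[X]) ∣ resultant (fam ((X + 1) ^ 2) 0 T n i) (derivative (fam ((X + 1) ^ 2) 0 T n i)) n (n - 1) -
      C ε * (1 + 4 * (C ν + 1 + T)) := by
  obtain ⟨q, hq⟩ := disc_odd1 n i 0 T hn hi hlt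
  rw [hk] at hq
  rcases hε with rfl | rfl
  · refine ⟨q + C k, ?_⟩
    simp only [C_add, C_mul, C_1, C_0, map_ofNat, C_neg] at hq ⊢
    linear_combination hq
  · refine ⟨q + C k + 1 + T, ?_⟩
    simp only [C_add, C_mul, C_1, C_0, map_ofNat, C_neg] at hq ⊢
    linear_combination hq

theorem m3c_red (ν : ℤ) (T : ℤ[X]) : red (C ν + 1 + T) = C ((ν : ZMod 2)) + 1 + red T := by
  unfold red
  rw [map_add, map_add, map_one, coe_mapRingHom, map_C]
  rfl

/-- ROW M3c. Odd degree, `S = (Y + 1) ^ 2`: both groups.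

Proof. `coprime_odd` with `Q = X + 1`. The discriminant is `n + 4 (1 + T)` modulo 8 (`disc_odd1`,
`a = 0`). Write `n ≡ ε (1 + 4 ν)` modulo 8 with `ε = ± 1`, `ν ∈ {0, 1}`
(`1 = 1`, `3 = - 5`, `5 = 1 + 4`, `7 = - 1`); then the discriminant is `ε (1 + 4 h)` modulo 8 with
`h = ν + 1 + T`. Alternating group: `T := X ^ 2 + X + C (1 + ν)`; then
`red h = X ^ 2 + X` is `g ^ 2 + g` with `g = X`. Symmetric group: `T := X`; then
`red h = X + C (ν + 1)` is not of the form `f ^ 2 + f` by `artinSchreier_ne`. -/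
theorem odd_family1 {n i r : ℕ} (hn : Odd n) (hi : 0 < i) (hnr : n = r + 2 + 4 * i) (hr : r.Prime)
    (hbig : n < 2 * r) :
    Realizes (alternatingGroup (Fin n)) ∧ Realizes (Equiv.Perm (Fin n)) := by
  obtain ⟨ε, ν, k, hε, hk⟩ := m3c_num hn
  have hr0 := hr.pos
  constructor
  · have hT : red (X ^ 2 + X + C (1 + ν) : ℤ[X]) = X ^ 2 + X + C ((1 + ν : ℤ) : ZMod 2) := by
      unfold red
      rw [map_add, map_add, map_pow, coe_mapRingHom, map_X, map_C]
      rfl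
    have D := m3c_data hn hi hnr hr hbig (X ^ 2 + X + C (1 + ν)) (Or.inr ⟨_, hT⟩)
    refine (realizes_of_data D _ ε hε (m3c_disc hn hi (by omega) _ hε hk)).1 ⟨X, ?_⟩
    rw [m3c_red, hT]
    have h2 : (2 : (ZMod 2)[X]) = 0 := CharP.cast_eq_zero (ZMod 2)[X] 2
    simp only [Int.cast_add, Int.cast_one, C_add, C_1]
    linear_combination (1 + C ((ν : ℤ) : ZMod 2)) * h2
  · have hT : red (X : ℤ[X]) = X := by
      unfold red
      rw [coe_mapRingHom, map_X]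
    have D := m3c_data hn hi hnr hr hbig X (Or.inl hT)
    refine (realizes_of_data D _ ε hε (m3c_disc hn hi (by omega) _ hε hk)).2 ?_
    apply artinSchreier_ne
    right
    refine ⟨(ν : ZMod 2) + 1, ?_⟩
    rw [m3c_red, hT, C_add, C_1]
    ring

end Pool.Agent.AFA
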