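import Pool.Agent.AFA.Def
import Pool.Agent.AFA.M2b
import Pool.Agent.AFA.S10c
import Pool.Agent.AFA.E1
import Pool.Agent.AFA.C1

set_option autoImplicit false

namespace Pool.Agent.AFA

open Polynomial

theorem m3d_deg : (X ^ 2 + X + 1 : ℤ[X]).natDegree = 2 := by
  compute_degree!

theorem m3d_monic : (X ^ 2 + X + 1 : ℤ[X]).Monic := by
  rw [Monic, leadingCoeff, m3d_deg]
  simp [coeff_X, coeff_one]

theorem m3d_core {S : ℤ[X]} {s : ℕ} {a : ℤ} {T Z : ℤ[X]} {n i r : ℕ} (D : Data S s a T n i r)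
    (hn : Odd n) (hZ : (8 : ℤ[X]) ∣ resultant (fam S a T n i) (derivative (fam S a T n i)) n (n - 1) -
      (C (n : ℤ) + 4 * Z)) {ν : ℤ}
    (hν : ((n % 8 = 3 ∨ n % 8 = 5) → ν = 1) ∧ ((n % 8 = 1 ∨ n % 8 = 7) → ν = 0)) :
    ((∃ g : (ZMod 2)[X], red (Z + C ν) = g ^ 2 + g) → Realizes (alternatingGroup (Fin n))) ∧
    ((∀ f : RatFunc (ZMod 2), f ^ 2 + f ≠ algebraMap (ZMod 2)[X] (RatFunc (ZMod 2)) (red (Z + C ν))) →
      Realizes (Equiv.Perm (Fin n))) := by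
  obtain ⟨ε, k, hε, hk⟩ : ∃ ε k : ℤ, (ε = 1 ∨ ε = -1) ∧ (n : ℤ) = ε * (1 + 4 * ν) + 8 * k := by
    obtain ⟨m, hm⟩ := hn
    have h8 : n % 8 = 1 ∨ n % 8 = 3 ∨ n % 8 = 5 ∨ n % 8 = 7 := by omega
    rcases h8 with h | h | h | h
    · exact ⟨1, n / 8, Or.inl rfl, by rw [hν.2 (Or.inl h)]; omega⟩
    · exact ⟨-1, n / 8 + 1, Or.inr rfl, by rw [hν.1 (Or.inl h)]; omega⟩
    · exact ⟨1, n / 8, Or.inl rfl, by rw [hν.1 (Or.inr h)]; omega⟩
    · exact ⟨-1, n / 8 + 1, Or.inr rfl, by rw [hν.2 (Or.inr h)]; omega⟩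
  have hkC : (C (n : ℤ) : ℤ[X]) = C ε * (1 + 4 * C ν) + 8 * C k := by
    rw [hk]
    simp only [C_add, C_mul, C_1]
    rfl
  refine realizes_of_data D (Z + C ν) ε hε ?_
  obtain ⟨Q, hQ⟩ := hZ
  rcases hε with rfl | rfl
  · refine ⟨Q + C k, ?_⟩
    rw [C_1] at hkC ⊢
    linear_combination hQ + hkC
  · refine ⟨Q + C k + Z, ?_⟩
    rw [C_neg, C_1] at hkC ⊢
    linear_combination hQ + hkC

/-- ROW M3d. Odd degree, `S = (Y ^ 2 + Y + 1) ^ 2`.

Proof. `coprime_odd` with `Q = X ^ 2 + X + 1`. The discriminant is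
`n + 4 (tt (n + 1) + a tt n + T tt (n + 1 + 2 i))` modulo 8 (`disc_odd2`). With `n = r + 4 + 4 i`
we have `n + 1 + 2 i ≡ r + 2` modulo 3 (`n + 1 + 2 i = r + 5 + 6 i`). Since `r > 3` is a prime
(`n < 2 r`, `n ≥ r + 8`), `r` is `1` or `2` modulo 3. As in `odd_family1` write
`n ≡ ε (1 + 4 ν)`.
Case `r ≡ 2`: `tt (n + 1 + 2 i) = 1`; take `a = 0`; `h = ν + tt (n + 1) + T`. With
`T = X ^ 2 + X + C (ν + tt (n + 1))` we get the alternating group and with `T = X` the symmetric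
group.
Case `r ≡ 1`: `tt (n + 1 + 2 i) = 0` and the term with `T` vanishes. Choose `T = X` and `a = 0` if
`3 ∤ n + 1`, `a = 1` if `3 ∣ n + 1`; in the second case `tt n = 1`, and `3 ∣ i`
(`n + 1 = r + 5 + 4 i ≡ i` modulo 3), so `i ≥ 3 ≥ 2` as required by `Data.ha`. So
`tt (n + 1) + a tt n = 1` and the discriminant is `n + 4` modulo 8: `h = ν + 1`. If
`n ≡ 3, 5` modulo 8 then `ν = 1`, `red h = 0`: alternating group. If `n ≡ 1, 7` then `ν = 0`,
`red h = 1`: symmetric group. -/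
theorem odd_family2 {n i r : ℕ} (hn : Odd n) (hi : 0 < i) (hnr : n = r + 4 + 4 * i) (hr : r.Prime)
    (hbig : n < 2 * r) :
    ((n % 8 = 3 ∨ n % 8 = 5) → Realizes (alternatingGroup (Fin n))) ∧
    ((n % 8 = 1 ∨ n % 8 = 7) → Realizes (Equiv.Perm (Fin n))) := by
  have hr8 : 8 < r := by omega
  have hr3 : r % 3 = 1 ∨ r % 3 = 2 := by
    have h3 : ¬ 3 ∣ r := by
      intro h3
      have := (Nat.prime_dvd_prime_iff_eq Nat.prime_three hr).1 h3
      omega
    omega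
  obtain ⟨ν, hν⟩ : ∃ ν : ℤ, ((n % 8 = 3 ∨ n % 8 = 5) → ν = 1) ∧ ((n % 8 = 1 ∨ n % 8 = 7) → ν = 0) := by
    by_cases h : n % 8 = 3 ∨ n % 8 = 5
    · exact ⟨1, fun _ => rfl, fun h' => by omega⟩
    · exact ⟨0, fun h' => absurd h' h, fun _ => rfl⟩
  have hredC : ∀ c : ℤ, red (C c) = C (c : ZMod 2) := by
    intro c
    simp [red]
  have hredX : red X = X := by simp [red]
  have hdata : ∀ (a : ℤ) (T : ℤ[X]), (a = 0 ∨ 2 ≤ i) →
      (red T = X ∨ ∃ c : ZMod 2, red T = X ^ 2 + X + C c) → Data ((X ^ 2 + X + 1) ^ 2) 4 a T n i r := by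
    intro a T ha hT
    exact
      { monic := m3d_monic.pow 2
        deg := by rw [m3d_monic.natDegree_pow, m3d_deg]
        zero := by rw [coeff_zero_eq_eval_zero]; simp
        ipos := hi
        ha := ha
        hn := hnr
        prime := hr
        odd := by omega
        big := hbig
        hT := hT
        cop := coprime_odd ((X ^ 2 + X + 1) ^ 2) (X ^ 2 + X + 1) (by simp [Polynomial.map_pow])
          (by rw [coeff_zero_eq_eval_zero]; simp) a (red T) n i hn hi }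
  have hdisc := fun (a : ℤ) (T : ℤ[X]) => disc_odd2 n i a T hn hi (by omega)
  rcases hr3 with h1 | h2
  · -- the term with `T` vanishes
    have ht2 : tt (n + 1 + 2 * i) = 0 := by
      unfold tt
      rw [if_pos (by omega)]
    obtain ⟨a, ha, hta⟩ : ∃ a : ℤ, (a = 0 ∨ 2 ≤ i) ∧ tt (n + 1) + a * tt n = 1 := by
      by_cases h3 : 3 ∣ n + 1
      · refine ⟨1, Or.inr (by omega), ?_⟩
        unfold tt
        rw [if_pos h3, if_neg (by omega)]
        norm_num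
      · refine ⟨0, Or.inl rfl, ?_⟩
        unfold tt
        rw [if_neg h3]
        norm_num
    have hZ : (C (tt (n + 1)) + C (a * tt n) + X * C (tt (n + 1 + 2 * i)) : ℤ[X]) = 1 := by
      rw [ht2, C_0, mul_zero, add_zero, ← C_add, hta, C_1]
    have hcore := m3d_core (hdata a X ha (Or.inl hredX)) hn (hdisc a X) hν
    rw [hZ] at hcore
    refine ⟨fun h => hcore.1 ⟨0, ?_⟩, fun h => hcore.2 ?_⟩
    · rw [hν.1 h, map_add, map_one, hredC, Int.cast_one, C_1]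
      have h4 : (1 : (ZMod 2)[X]) + 1 = 0 := CharTwo.add_self_eq_zero _
      rw [h4]
      ring
    · rw [hν.2 h, C_0, add_zero, map_one]
      exact artinSchreier_ne 1 (Or.inl rfl)
  · have ht2 : tt (n + 1 + 2 * i) = 1 := by
      unfold tt
      rw [if_neg (by omega)]
    have hZ : ∀ T : ℤ[X], (C (tt (n + 1)) + C (0 * tt n) + T * C (tt (n + 1 + 2 * i)) : ℤ[X]) =
        C (tt (n + 1)) + T := by
      intro T
      rw [ht2, C_1, mul_one, zero_mul, C_0, add_zero]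
    refine ⟨fun _ => ?_, fun _ => ?_⟩
    · have hT : red (X ^ 2 + X + C (ν + tt (n + 1))) = X ^ 2 + X + C (((ν + tt (n + 1) : ℤ)) : ZMod 2) := by
        rw [map_add, map_add, map_pow, hredX, hredC]
      have hcore := m3d_core (hdata 0 (X ^ 2 + X + C (ν + tt (n + 1))) (Or.inl rfl) (Or.inr ⟨_, hT⟩)) hn
        (hdisc 0 _) hν
      rw [hZ] at hcore
      refine hcore.1 ⟨X, ?_⟩
      rw [map_add, map_add, hT, hredC, hredC, Int.cast_add, C_add]
      have h4 : ∀ p : (ZMod 2)[X], p + p = 0 := fun p => CharTwo.add_self_eq_zero p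
      linear_combination h4 (C ((tt (n + 1) : ℤ) : ZMod 2)) + h4 (C ((ν : ℤ) : ZMod 2))
    · have hcore := m3d_core (hdata 0 X (Or.inl rfl) (Or.inl hredX)) hn (hdisc 0 _) hν
      rw [hZ] at hcore
      refine hcore.2 (artinSchreier_ne _ (Or.inr ⟨((tt (n + 1) + ν : ℤ) : ZMod 2), ?_⟩))
      rw [map_add, map_add, hredX, hredC, hredC, Int.cast_add, C_add]
      ring

end Pool.Agent.AFA
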