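import Pool.Agent.AFA.Def
import Pool.Agent.AFA.M3b
import Pool.Agent.AFA.M3c
import Pool.Agent.AFA.M3d

set_option autoImplicit false

namespace Pool.Agent.AFA

/-- ROW M4a. Selection for odd `n`.

Proof. `δ = n - r` is even (`r` is odd: `2 r > n ≥ r + 9`). If `δ ≡ 2` modulo 4, then
`δ = 2 + 4 i`, `i ≥ 2`, `odd_family1`. If `δ ≡ 0` modulo 4, `δ ≥ 12`: `δ = 4 i` and
`δ = 4 + 4 i'`; for `n ≡ 1, 7` modulo 8 the alternating group is given by `odd_family0` and the
symmetric group by `odd_family2`; for `n ≡ 3, 5` the other way around. -/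
theorem realizes_odd {n r : ℕ} (hn : Odd n) (hr : r.Prime) (h1 : n < 2 * r) (h9 : r + 9 ≤ n) :
    Realizes (alternatingGroup (Fin n)) ∧ Realizes (Equiv.Perm (Fin n)) := by
  have hro : r % 2 = 1 := by
    rcases hr.eq_two_or_odd with h | h
    · omega
    · exact h
  have hno : n % 2 = 1 := Nat.odd_iff.1 hn
  rcases (by omega : (n - r) % 4 = 2 ∨ (n - r) % 4 = 0) with h | h
  · exact odd_family1 (i := (n - r - 2) / 4) hn (by omega) (by omega) hr h1
  · have ha := odd_family0 (i := (n - r) / 4) hn (by omega) (by omega) hr h1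
    have hb := odd_family2 (i := (n - r - 4) / 4) hn (by omega) (by omega) hr h1
    rcases (by omega : (n % 8 = 1 ∨ n % 8 = 7) ∨ (n % 8 = 3 ∨ n % 8 = 5)) with h8 | h8
    · exact ⟨ha.1 h8, hb.2 h8⟩
    · exact ⟨hb.1 h8, ha.2 h8⟩

end Pool.Agent.AFA
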