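import Pool.Agent.AFA.Def
import Pool.Agent.AFA.M3a

set_option autoImplicit false

namespace Pool.Agent.AFA

/-- ROW M4b. Selection for even `n`.

Proof. `δ = n - r ≥ 9` is odd. With `even_family`: `δ ≡ 1` modulo 4: `δ = 1 + 4 i` (`s = 1`,
`e = 0`) and `δ = 5 + 4 i'` (`s = 5`, `e = 1`). `D = 1 - n` for `s = 1`, `e = 0`:
`n ≡ 0, 2` modulo 8: `D ≡ 1, - 1`, alternating; `n ≡ 4, 6`: `D ≡ - 3, - 5 = 3`, symmetric.
`D = 5 - 5 n` for `s = 5`, `e = 1`: `n ≡ 0`: `5 = - 3`, symmetric; `n ≡ 2`: `- 5 = 3`, symmetric;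
`n ≡ 4`: `- 15 = 1`, alternating; `n ≡ 6`: `- 25 = - 1`, alternating. `3 s = 15 ≤ n` because
`n ≥ r + 9 > n / 2 + 9`.
`δ ≡ 3` modulo 4: `δ = 3 + 4 i`, `s = 3`, `e = 0`: `D = 1 - 3 n`: `n ≡ 0, 6`: `1, - 17 = - 1`,
alternating; `n ≡ 2, 4`: `- 5 = 3`, `- 11 = - 3`, symmetric. `s = 3`, `e = 1`: `D = 5 - 3 n`:
`n ≡ 2, 4`: `- 1`, `- 7 = 1`, alternating; `n ≡ 0, 6`: `5 = - 3`, `- 13 = 3`, symmetric. -/
theorem realizes_even {n r : ℕ} (hn : Even n) (hr : r.Prime) (h1 : n < 2 * r) (h9 : r + 9 ≤ n) :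
    Realizes (alternatingGroup (Fin n)) ∧ Realizes (Equiv.Perm (Fin n)) := by
  have hro : r % 2 = 1 := by
    rcases hr.eq_two_or_odd with h | h
    · omega
    · exact h
  have hno : n % 2 = 0 := Nat.even_iff.1 hn
  rcases (by omega : (n - r) % 4 = 1 ∨ (n - r) % 4 = 3) with h | h
  · have ha := even_family (s := 1) (e := 0) (i := (n - r - 1) / 4) (Or.inl ⟨rfl, rfl⟩) hn (by omega) (by omega)
      (by omega) hr h1
    have hb := even_family (s := 5) (e := 1) (i := (n - r - 5) / 4) (Or.inr (Or.inr (Or.inr ⟨rfl, rfl⟩))) hn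
      (by omega) (by omega) (by omega) hr h1
    push_cast at ha hb
    rcases (by omega : (n % 8 = 0 ∨ n % 8 = 2) ∨ (n % 8 = 4 ∨ n % 8 = 6)) with h8 | h8
    · exact ⟨ha.1 (by omega), hb.2 (by omega)⟩
    · exact ⟨hb.1 (by omega), ha.2 (by omega)⟩
  · have ha := even_family (s := 3) (e := 0) (i := (n - r - 3) / 4) (Or.inr (Or.inl ⟨rfl, rfl⟩)) hn (by omega)
      (by omega) (by omega) hr h1
    have hb := even_family (s := 3) (e := 1) (i := (n - r - 3) / 4) (Or.inr (Or.inr (Or.inl ⟨rfl, rfl⟩))) hn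
      (by omega) (by omega) (by omega) hr h1
    push_cast at ha hb
    rcases (by omega : (n % 8 = 0 ∨ n % 8 = 6) ∨ (n % 8 = 2 ∨ n % 8 = 4)) with h8 | h8
    · exact ⟨ha.1 (by omega), hb.2 (by omega)⟩
    · exact ⟨hb.1 (by omega), ha.2 (by omega)⟩

end Pool.Agent.AFA
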