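import Pool.Agent.AFA.Def
import Pool.Agent.AFA.M3a
import Pool.Agent.AFA.M3b
import Pool.Agent.AFA.M3c

set_option autoImplicit false

namespace Pool.Agent.AFA

/-- ROW M4c. The degrees `17, ..., 21`.

Proof. 17: `odd_family0` (`r = 13`, `i = 1`) and `odd_family1` (`r = 11`, `i = 1`).
18: `even_family` with `s = 1`, `e = 0`, `r = 13`, `i = 1` (`D = - 17 ≡ - 1`) and `s = 3`,
`e = 0`, `r = 11`, `i = 1` (`D = 1 - 54 = - 53 ≡ 3`).
19: `odd_family1` (`r = 13`, `i = 1`) gives both.
20: `even_family` with `s = 3`, `r = 13`, `i = 1`: `e = 1` (`D = 5 - 60 = - 55 ≡ 1`) and `e = 0`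
(`D = 1 - 60 = - 59 ≡ - 3`).
21: `odd_family1` (`r = 11`, `i = 2`) gives both. -/
theorem realizes_small {n : ℕ} (h1 : 17 ≤ n) (h2 : n ≤ 21) :
    Realizes (alternatingGroup (Fin n)) ∧ Realizes (Equiv.Perm (Fin n)) := by
  have hp11 : Nat.Prime 11 := by norm_num
  have hp13 : Nat.Prime 13 := by norm_num
  rcases (by omega : n = 17 ∨ n = 18 ∨ n = 19 ∨ n = 20 ∨ n = 21) with rfl | rfl | rfl | rfl | rfl
  · exact ⟨(odd_family0 (r := 13) (i := 1) (by decide) (by omega) (by omega) hp13 (by omega)).1 (by omega),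
      (odd_family1 (r := 11) (i := 1) (by decide) (by omega) (by omega) hp11 (by omega)).2⟩
  · exact ⟨(even_family (s := 1) (e := 0) (r := 13) (i := 1) (Or.inl ⟨rfl, rfl⟩) (by decide) (by omega) (by omega)
        (by omega) hp13 (by omega)).1 (by norm_num),
      (even_family (s := 3) (e := 0) (r := 11) (i := 1) (Or.inr (Or.inl ⟨rfl, rfl⟩)) (by decide) (by omega) (by omega)
        (by omega) hp11 (by omega)).2 (by norm_num)⟩
  · exact odd_family1 (r := 13) (i := 1) (by decide) (by omega) (by omega) hp13 (by omega)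
  · exact ⟨(even_family (s := 3) (e := 1) (r := 13) (i := 1) (Or.inr (Or.inr (Or.inl ⟨rfl, rfl⟩))) (by decide)
        (by omega) (by omega) (by omega) hp13 (by omega)).1 (by norm_num),
      (even_family (s := 3) (e := 0) (r := 13) (i := 1) (Or.inr (Or.inl ⟨rfl, rfl⟩)) (by decide) (by omega) (by omega)
        (by omega) hp13 (by omega)).2 (by norm_num)⟩
  · exact odd_family1 (r := 11) (i := 2) (by decide) (by omega) (by omega) hp11 (by omega)

end Pool.Agent.AFA
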