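import Pool.Agent.AFA.M4a
import Pool.Agent.AFA.M4b
import Pool.Agent.AFA.M4c
import Pool.Agent.AFA.B3

set_option autoImplicit false

namespace Pool.Agent.AFA

/-- All degrees `≥ 17`. -/
theorem realizes_all {n : ℕ} (hn : 17 ≤ n) :
    Realizes (alternatingGroup (Fin n)) ∧ Realizes (Equiv.Perm (Fin n)) := by
  rcases Nat.lt_or_ge 21 n with h | h
  · obtain ⟨r, hr, h1, h9⟩ := exists_prime_mid (n := n) h
    rcases Nat.even_or_odd n with he | ho
    · exact realizes_even he hr h1 h9
    · exact realizes_odd ho hr h1 h9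
  · exact realizes_small hn h

end Pool.Agent.AFA
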