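import Pool.Agent.AFA.N11
import Pool.Agent.AFA.M3c

set_option autoImplicit false

namespace Pool.Agent.AFA

open Polynomial

theorem pa11_map {R : Type} [CommRing R] (T : R) : fam ((X + 1) ^ 2) 0 T 11 1 =
    X ^ 11 + (X + 1) ^ 2 * (1 + C T * X ^ 4) := by
  simp [fam]

/-- The alternating group of degree 11, from `Y ^ 11 + (Y + 1) ^ 2 (1 + (x ^ 2 + x) Y ^ 4)`. -/
theorem alt11 : Realizes (alternatingGroup (Fin 11)) := by
  have hSd : ((X + 1) ^ 2 : ℤ[X]).natDegree ≤ 2 := by compute_degree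
  have hS0 : ((X + 1) ^ 2 : ℤ[X]).coeff 0 = 1 := by
    rw [coeff_zero_eq_eval_zero]
    simp
  obtain ⟨hmP, hdP⟩ := fam_monic ((X + 1) ^ 2) 2 hSd 0 (X ^ 2 + X : ℤ[X]) 11 1 (by norm_num)
    (by norm_num)
  obtain ⟨hm, hd⟩ := fam_monic ((X + 1) ^ 2) 2 hSd 0 (X ^ 2 + X : (ZMod 2)[X]) 11 1 (by norm_num)
    (by norm_num)
  have hP : (fam ((X + 1) ^ 2) 0 (X ^ 2 + X : ℤ[X]) 11 1).map red =
      fam ((X + 1) ^ 2) 0 (X ^ 2 + X) 11 1 := by
    rw [map_fam, map_add, map_pow, red_X]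
  have hc : IsCoprime (fam ((X + 1) ^ 2) 0 (X ^ 2 + X : (ZMod 2)[X]) 11 1)
      (derivative (fam ((X + 1) ^ 2) 0 (X ^ 2 + X : (ZMod 2)[X]) 11 1)) :=
    coprime_odd ((X + 1) ^ 2) (X + 1) (by simp) hS0 0 _ 11 1 (by decide) (by norm_num)
  refine realizes_alt _ hmP hdP (by rw [hP]; exact hc) (X ^ 2 + X) (-1) (Or.inr rfl) ?_
    ⟨X, by rw [map_add, map_pow, red_X]⟩ ?_
  · have h := disc_odd1 11 1 0 (X ^ 2 + X) (by decide) (by norm_num) (by norm_num)
    refine dvd_change (k := 2 + (X ^ 2 + X)) h ?_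
    simp only [Nat.cast_ofNat, map_ofNat, map_zero, map_neg, map_one]
    ring
  · rw [hP]
    have h11 : AllMdl (fam ((X + 1) ^ 2) 0 (X ^ 2 + X : (ZMod 2)[X]) 11 1) 11
        (fun G => 11 ∣ Nat.card G) := by
      refine dvd_card_of_factor_two hm hc 0 (X ^ 11 + X ^ 2 + 1) 1 ?_ ?_ (by norm_num) ?_
      · rw [map_fam, pa11_map]
        have e : (evalRingHom (0 : ZMod 2)) (X ^ 2 + X) = 0 := by simp
        rw [e, C_0]
        linear_combination (X) * zmod_two_poly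
      · have h : (X ^ 11 + X ^ 2 + 1 : (ZMod 2)[X]).natDegree = 11 := by compute_degree!
        rw [h]; norm_num
      · intro κ _ _ w hw
        exact rc11a (two_eq_zero_of_algebra κ) w (by simpa using hw)
    have h3 : AllMdl (fam ((X + 1) ^ 2) 0 (X ^ 2 + X : (ZMod 2)[X]) 11 1) 11
        (fun G => ∃ g ∈ G, g.IsThreeCycle) := by
      obtain ⟨F, iF, iFt, φ, hφ, hcard, h2, ho⟩ := exists_F4
      have h2' : (2 : F[X]) = 0 := by rw [← map_ofNat C 2, h2, C_0]
      have hmap : (fam ((X + 1) ^ 2) 0 (X ^ 2 + X : (ZMod 2)[X]) 11 1).map φ =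
          (X ^ 3 + X + 1) * (X ^ 8 + X ^ 6 + X ^ 5 + X ^ 4 + X ^ 3 + X + 1) := by
        have e1 : φ (X ^ 2 + X) = 1 := by
          rw [map_add, map_pow]
          linear_combination ho - h2
        rw [map_fam, pa11_map, e1, C_1]
        linear_combination (-X ^ 9 - X ^ 8 - X ^ 7 - X ^ 6 - X ^ 4 - X ^ 3) * h2'
      refine three_cycle_of_factor hm hc φ hφ (X ^ 3 + X + 1)
        (X ^ 8 + X ^ 6 + X ^ 5 + X ^ 4 + X ^ 3 + X + 1) hmap (by compute_degree!) 4 ?_ ?_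
      · intro κ _ _ w hw
        have h2k : (2 : κ) = 0 := by rw [← map_ofNat (algebraMap F κ) 2, h2, map_zero]
        rw [hcard]
        exact rf3_four h2k w (by simpa using hw)
      · intro κ _ _ w hw
        have h2k : (2 : κ) = 0 := by rw [← map_ofNat (algebraMap F κ) 2, h2, map_zero]
        rw [hcard]
        exact rf8_four h2k w (by simpa using hw)
    exact (h11.and h3).mono (fun G hG => alternating_le_of_prime (by norm_num) G
      (trans_of_prime_dvd (by norm_num) G hG.1) hG.2)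

end Pool.Agent.AFA
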