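import Pool.Agent.AFA.T1
import Pool.Agent.AFA.S6a

set_option autoImplicit false

namespace Pool.Agent.AFA

open Polynomial

theorem t3_odd {n : ℕ} (hodd : Odd n) : ∃ k : ℤ[X], (n : ℤ[X]) ^ 2 = 1 + 8 * k := by
  obtain ⟨m, rfl⟩ := hodd
  obtain ⟨j, hj⟩ : ∃ j : ℕ, m * (m + 1) = 2 * j := by
    obtain ⟨j, hj⟩ := (Nat.even_mul_succ_self m)
    exact ⟨j, by rw [hj]; ring⟩
  refine ⟨(j : ℤ[X]), ?_⟩
  have h1 : ((m : ℤ[X]) * (m + 1)) = 2 * j := by exact_mod_cast hj
  push_cast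
  linear_combination 4 * h1

/-- ROW T3. The resultant of `P` and `P'` modulo 8 for odd `n`, when
`Y P' = n P - (n + 2 f)`.

Proof. By `resultant_mul_monic`,
`Res(P, Y; n, 1) * Res(P, P'; n, n - 1) = Res(P, Y P'; n, 1 + (n - 1))`; `Res(P, Y; n, 1) =
(-1) ^ n P(0) = - 1` (`resultant_X_pow_right` with exponent 1 or `resultant_X_sub_C_right` with
`r = 0`; see the proof of `resultant_red` in `S6e.lean`). By `resultant_add_mul` and
`resultant_deg_right`, `Res(P, Y P'; n, n) = Res(P, - (n + 2 f); n, m)`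
for `m = f.natDegree`, and `= (-1) ^ n Res(P, n + 2 f; n, m) = - Res(P, n + 2 f; n, m)`
(`resultant_C_mul_right` with the constant `-1`). So `Res(P, P') = Res(P, n + 2 f)`, which is
`n ^ n + 2 n ^ (n - 1) t₁ + 4 n ^ (n - 2) e + 8 c` by `resultant_trace`. Modulo 8, as `n` is odd,
`n ^ (n - 1) ≡ 1` (square of an odd number), `n ^ n ≡ n` and `4 n ^ (n - 2) ≡ 4`; finally
`4 e = 2 (t₁ ^ 2 - t₂)`. (These congruences for the integer `n` inside `ℤ[X]`:
`(n : ℤ) ^ 2 = 1 + 8 k`.) -/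
theorem disc_odd_gen (P f q r q' r' : ℤ[X][X]) {n : ℕ} (hP : P.Monic) (hn : P.natDegree = n)
    (hodd : Odd n) (h2 : 2 ≤ n) (h0 : P.coeff 0 = 1)
    (hd : X * derivative P = C (n : ℤ[X]) * P - (C (n : ℤ[X]) + 2 * f))
    (h : f * derivative P = q * P + r) (hr : r.degree < n)
    (h' : f ^ 2 * derivative P = q' * P + r') (hr' : r'.degree < n) :
    (8 : ℤ[X]) ∣ resultant P (derivative P) n (n - 1) -
      ((n : ℤ[X]) + 2 * r.coeff (n - 1) + 2 * (r.coeff (n - 1) ^ 2 - r'.coeff (n - 1))) := by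
  obtain ⟨N, hN⟩ : ∃ N : ℤ[X], N = (n : ℤ[X]) := ⟨_, rfl⟩
  rw [← hN] at hd ⊢
  set m := (C N + 2 * f).natDegree with hm
  have hdP : (derivative P).natDegree ≤ n - 1 := by
    rw [← hn]
    exact natDegree_derivative_le P
  have e1 := resultant_mul_monic P X (derivative P) (a := 1) (b := n - 1) hP hn natDegree_X_le hdP
  have hXP : (X * derivative P).natDegree ≤ 1 + (n - 1) := by
    refine natDegree_mul_le.trans ?_
    rw [natDegree_X]
    omega
  have hneg : (C (-1 : ℤ[X]) * (C N + 2 * f)).natDegree ≤ m := natDegree_C_mul_le _ _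
  have e2 := resultant_add_mul P (X * derivative P) (C (-1 : ℤ[X]) * (C N + 2 * f)) (C N) hP hn hXP hneg (by
    rw [hd, map_neg, C_1]
    ring)
  have e5 : resultant P X n 1 = -1 := by
    have h1 := resultant_X_sub_C_right P n 0 hn.le
    rw [C_0, sub_zero, ← coeff_zero_eq_eval_zero, h0, mul_one, hodd.neg_one_pow] at h1
    exact h1
  have e6 : resultant P (C (-1 : ℤ[X]) * (C N + 2 * f)) n m = -resultant P (C N + 2 * f) n m := by
    rw [resultant_C_mul_right, hodd.neg_one_pow]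
    ring
  rw [e1, e5, e6] at e2
  have e7 : resultant P (derivative P) n (n - 1) = resultant P (C N + 2 * f) n m := by
    linear_combination -e2
  have hfm : f.natDegree ≤ m := by
    have h1 : (2 : ℤ[X][X]) * f = (C N + 2 * f) - C N := by ring
    have h2 : (2 : ℤ[X][X]) = C (2 : ℤ[X]) := by rfl
    have h3 : ((2 : ℤ[X][X]) * f).natDegree = f.natDegree := by
      rw [h2]
      exact natDegree_C_mul two_ne_zero
    rw [← h3, h1]
    refine (natDegree_sub_le _ _).trans (max_le le_rfl ?_)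
    rw [natDegree_C]
    exact Nat.zero_le _
  obtain ⟨c, e, he, hres⟩ := resultant_trace P f q r q' r' N hP hn h2 hfm h hr h' hr'
  obtain ⟨k, hk⟩ := t3_odd hodd
  rw [← hN] at hk
  obtain ⟨j, hj⟩ := hodd
  have hpow : ∀ i : ℕ, ∃ l : ℤ[X], (N ^ 2) ^ i = 1 + 8 * l := by
    intro i
    induction i with
    | zero => exact ⟨0, by ring⟩
    | succ i ih =>
      obtain ⟨l, hl⟩ := ih
      refine ⟨l + k + 8 * l * k, ?_⟩
      rw [pow_succ, hl, hk]
      ring
  have hj1 : 1 ≤ j := by omega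
  obtain ⟨l, hl⟩ := hpow j
  obtain ⟨l', hl'⟩ := hpow (j - 1)
  have p1 : N ^ n = N * (1 + 8 * l) := by
    rw [← hl, ← pow_mul, hj, pow_succ]
    ring
  have p2 : N ^ (n - 1) = 1 + 8 * l := by
    rw [← hl, ← pow_mul]
    congr 1
    omega
  have p3 : N ^ (n - 2) = N * (1 + 8 * l') := by
    rw [← hl', ← pow_mul, ← pow_succ']
    congr 1
    omega
  -- N = 1 + 2 * u
  have hu : N = 1 + 2 * (j : ℤ[X]) := by
    rw [hN, hj]
    push_cast
    ring
  rw [e7, hres, he, p1, p2, p3]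
  refine ⟨N * l + 2 * l * r.coeff (n - 1) + 4 * N * l' * e + (j : ℤ[X]) * e + c, ?_⟩
  linear_combination (4 * e) * hu

end Pool.Agent.AFA
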