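import Pool.Agent.AFA.T2
import Pool.Agent.AFA.T3

set_option autoImplicit false
set_option linter.unusedSimpArgs false

namespace Pool.Agent.AFA

open Polynomial

/-- Discriminant of `Y ^ 12 + Y ^ 10 + Y ^ 8 + T Y ^ 2 + Y + 1` modulo 8. -/
theorem disc12 (T : ℤ[X]) :
    (8 : ℤ[X]) ∣ resultant (X ^ 12 + X ^ 10 + X ^ 8 + X ^ 2 * (C T) + X + 1 : ℤ[X][X])
        (derivative (X ^ 12 + X ^ 10 + X ^ 8 + X ^ 2 * (C T) + X + 1 : ℤ[X][X])) 12 11 -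
      (300 * T ^ 2 - 1084 * T + 7593) := by
  have hdP : derivative (X ^ 12 + X ^ 10 + X ^ 8 + X ^ 2 * (C T) + X + 1 : ℤ[X][X]) =
      12 * X ^ 11 + 10 * X ^ 9 + 8 * X ^ 7 + 2 * X * (C T) + 1 := by
    simp only [derivative_add, derivative_X_pow, derivative_mul, derivative_C, derivative_one,
      derivative_X, Nat.cast_ofNat, map_ofNat]
    ring
  have hm : (X ^ 12 + X ^ 10 + X ^ 8 + X ^ 2 * (C T) + X + 1 : ℤ[X][X]).Monic := by monicity!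
  have hn : (X ^ 12 + X ^ 10 + X ^ 8 + X ^ 2 * (C T) + X + 1 : ℤ[X][X]).natDegree = 12 := by
      compute_degree!
  have h1 : (6 * X ^ 11 + 5 * X ^ 9 + 4 * X ^ 7 + X * (C T) : ℤ[X][X]) * derivative (X ^ 12 + X
      ^ 10 + X ^ 8 + X ^ 2 * (C T) + X + 1 : ℤ[X][X]) =
      (72 * X ^ 10 + 48 * X ^ 8 + 26 * X ^ 6 + 6 * X ^ 4 - 48 * (C T) - 6 : ℤ[X][X]) * (X ^ 12 +
          X ^ 10 + X ^ 8 + X ^ 2 * (C T) + X + 1 : ℤ[X][X]) +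
      (C (-66 : ℤ[X]) * X ^ 11 + C (20 * T - 66 : ℤ[X]) * X ^ 10 + C (-43 : ℤ[X]) * X ^ 9 + C
          (38 * T - 42 : ℤ[X]) * X ^ 8 + C (-22 : ℤ[X]) * X ^ 7 + C (-6 * T - 26 : ℤ[X]) * X ^ 6 + C
          (-6 : ℤ[X]) * X ^ 5 + C (-6 : ℤ[X]) * X ^ 4 + C (50 * T ^ 2 + 6 * T : ℤ[X]) * X ^ 2 + C
          (49 * T + 6 : ℤ[X]) * X + C (48 * T + 6 : ℤ[X]) : ℤ[X][X]) := by
    rw [hdP]
    simp only [map_add, map_sub, map_neg, map_mul, map_pow, map_ofNat, map_one, map_zero]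
    ring
  have h2 : (6 * X ^ 11 + 5 * X ^ 9 + 4 * X ^ 7 + X * (C T) : ℤ[X][X]) ^ 2 * derivative (X ^ 12
      + X ^ 10 + X ^ 8 + X ^ 2 * (C T) + X + 1 : ℤ[X][X]) =
      (432 * X ^ 21 + 648 * X ^ 19 + 684 * X ^ 17 + 358 * X ^ 15 + 134 * X ^ 13 - 216 * X ^ 11 *
          (C T) - 12 * X ^ 11 - 396 * X ^ 10 - 72 * X ^ 9 * (C T) - 426 * X ^ 9 - 192 * X ^ 8 + 42 *
          X ^ 7 * (C T) - 210 * X ^ 7 - 23 * X ^ 6 - 88 * X ^ 5 * (C T) - 48 * X ^ 5 - 103 * X ^ 4 +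
          8 * X ^ 3 * (C T) - 100 * X ^ 3 + 8 * X ^ 2 + 252 * X * (C T) ^ 2 + 92 * X * (C T) + 14 *
          X + 624 * (C T) + 107 : ℤ[X][X]) * (X ^ 12 + X ^ 10 + X ^ 8 + X ^ 2 * (C T) + X + 1 :
          ℤ[X][X]) +
      (C (-150 * T ^ 2 + 542 * T + 494 : ℤ[X]) * X ^ 11 + C (-350 * T + 707 : ℤ[X]) * X ^ 10 + C
          (-270 * T ^ 2 + 190 * T + 604 : ℤ[X]) * X ^ 9 + C (-635 * T + 295 : ℤ[X]) * X ^ 8 + C (88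
          * T ^ 2 + 6 * T + 233 : ℤ[X]) * X ^ 7 + C (191 * T + 71 : ℤ[X]) * X ^ 6 + C (-8 * T ^ 2 +
          188 * T + 151 : ℤ[X]) * X ^ 5 + C (-16 * T + 203 : ℤ[X]) * X ^ 4 + C (-250 * T ^ 3 - 92 *
          T ^ 2 - 22 * T + 92 : ℤ[X]) * X ^ 3 + C (-875 * T ^ 2 - 199 * T - 22 : ℤ[X]) * X ^ 2 + C
          (-252 * T ^ 2 - 716 * T - 121 : ℤ[X]) * X + C (-624 * T - 107 : ℤ[X]) : ℤ[X][X]) := by
    rw [hdP]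
    simp only [map_add, map_sub, map_neg, map_mul, map_pow, map_ofNat, map_one, map_zero]
    ring
  have hr1 : (C (-66 : ℤ[X]) * X ^ 11 + C (20 * T - 66 : ℤ[X]) * X ^ 10 + C (-43 : ℤ[X]) * X ^ 9
      + C (38 * T - 42 : ℤ[X]) * X ^ 8 + C (-22 : ℤ[X]) * X ^ 7 + C (-6 * T - 26 : ℤ[X]) * X ^ 6 + C
      (-6 : ℤ[X]) * X ^ 5 + C (-6 : ℤ[X]) * X ^ 4 + C (50 * T ^ 2 + 6 * T : ℤ[X]) * X ^ 2 + C (49 *
      T + 6 : ℤ[X]) * X + C (48 * T + 6 : ℤ[X]) : ℤ[X][X]).degree < ((12 : ℕ) : WithBot ℕ) := by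
    refine lt_of_le_of_lt (b := ((11 : ℕ) : WithBot ℕ)) ?_ (by norm_num)
    compute_degree <;> norm_num
  have hr2 : (C (-150 * T ^ 2 + 542 * T + 494 : ℤ[X]) * X ^ 11 + C (-350 * T + 707 : ℤ[X]) * X ^
      10 + C (-270 * T ^ 2 + 190 * T + 604 : ℤ[X]) * X ^ 9 + C (-635 * T + 295 : ℤ[X]) * X ^ 8 + C
      (88 * T ^ 2 + 6 * T + 233 : ℤ[X]) * X ^ 7 + C (191 * T + 71 : ℤ[X]) * X ^ 6 + C (-8 * T ^ 2 +
      188 * T + 151 : ℤ[X]) * X ^ 5 + C (-16 * T + 203 : ℤ[X]) * X ^ 4 + C (-250 * T ^ 3 - 92 * T ^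
      2 - 22 * T + 92 : ℤ[X]) * X ^ 3 + C (-875 * T ^ 2 - 199 * T - 22 : ℤ[X]) * X ^ 2 + C (-252 * T
      ^ 2 - 716 * T - 121 : ℤ[X]) * X + C (-624 * T - 107 : ℤ[X]) : ℤ[X][X]).degree < ((12 : ℕ) :
      WithBot ℕ) := by
    refine lt_of_le_of_lt (b := ((11 : ℕ) : WithBot ℕ)) ?_ (by norm_num)
    compute_degree <;> norm_num
  have e1 : (C (-66 : ℤ[X]) * X ^ 11 + C (20 * T - 66 : ℤ[X]) * X ^ 10 + C (-43 : ℤ[X]) * X ^ 9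
      + C (38 * T - 42 : ℤ[X]) * X ^ 8 + C (-22 : ℤ[X]) * X ^ 7 + C (-6 * T - 26 : ℤ[X]) * X ^ 6 + C
      (-6 : ℤ[X]) * X ^ 5 + C (-6 : ℤ[X]) * X ^ 4 + C (50 * T ^ 2 + 6 * T : ℤ[X]) * X ^ 2 + C (49 *
      T + 6 : ℤ[X]) * X + C (48 * T + 6 : ℤ[X]) : ℤ[X][X]).coeff 11 = -66 := by
    simp only [coeff_add, coeff_C_mul, coeff_X_pow, coeff_X, coeff_C]
    norm_num
  have e2 : (C (-150 * T ^ 2 + 542 * T + 494 : ℤ[X]) * X ^ 11 + C (-350 * T + 707 : ℤ[X]) * X ^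
      10 + C (-270 * T ^ 2 + 190 * T + 604 : ℤ[X]) * X ^ 9 + C (-635 * T + 295 : ℤ[X]) * X ^ 8 + C
      (88 * T ^ 2 + 6 * T + 233 : ℤ[X]) * X ^ 7 + C (191 * T + 71 : ℤ[X]) * X ^ 6 + C (-8 * T ^ 2 +
      188 * T + 151 : ℤ[X]) * X ^ 5 + C (-16 * T + 203 : ℤ[X]) * X ^ 4 + C (-250 * T ^ 3 - 92 * T ^
      2 - 22 * T + 92 : ℤ[X]) * X ^ 3 + C (-875 * T ^ 2 - 199 * T - 22 : ℤ[X]) * X ^ 2 + C (-252 * T
      ^ 2 - 716 * T - 121 : ℤ[X]) * X + C (-624 * T - 107 : ℤ[X]) : ℤ[X][X]).coeff 11 = -150 * T ^ 2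
      + 542 * T + 494 := by
    simp only [coeff_add, coeff_C_mul, coeff_X_pow, coeff_X, coeff_C]
    norm_num
  have hd : derivative (X ^ 12 + X ^ 10 + X ^ 8 + X ^ 2 * (C T) + X + 1 : ℤ[X][X]) = 1 + 2 * (6
      * X ^ 11 + 5 * X ^ 9 + 4 * X ^ 7 + X * (C T) : ℤ[X][X]) := by
    rw [hdP]
    ring
  have key := disc_even_gen _ _ _ _ _ _ hm hn (by norm_num) hd h1 hr1 h2 hr2
  rw [show 12 - 1 = 11 from rfl, e1, e2] at key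
  convert key using 2
  push_cast
  ring

end Pool.Agent.AFA
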