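import Pool.Agent.AFA.N11
import Pool.Agent.AFA.T5

set_option autoImplicit false

namespace Pool.Agent.AFA

open Polynomial

/-- The alternating group of degree 12, from `Y ^ 12 + Y ^ 10 + Y ^ 8 + x Y ^ 2 + Y + 1`. -/
theorem alt12 : Realizes (alternatingGroup (Fin 12)) := by
  have hP : (X ^ 12 + X ^ 10 + X ^ 8 + X ^ 2 * C X + X + 1 : ℤ[X][X]).map red =
      lin (X ^ 12 + X ^ 10 + X ^ 8 + X + 1) (X ^ 2) := by
    simp only [lin, Polynomial.map_add, Polynomial.map_mul, Polynomial.map_pow, Polynomial.map_X,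
      Polynomial.map_one, Polynomial.map_C, red_X]
    ring
  have hmP : (X ^ 12 + X ^ 10 + X ^ 8 + X ^ 2 * C X + X + 1 : ℤ[X][X]).Monic := by monicity!
  have hdP : (X ^ 12 + X ^ 10 + X ^ 8 + X ^ 2 * C X + X + 1 : ℤ[X][X]).natDegree = 12 := by
    compute_degree!
  have hG : (X ^ 12 + X ^ 10 + X ^ 8 + X + 1 : (ZMod 2)[X]).Monic := by monicity!
  have hn : (X ^ 12 + X ^ 10 + X ^ 8 + X + 1 : (ZMod 2)[X]).natDegree = 12 := by compute_degree!
  have hlt : (X ^ 2 : (ZMod 2)[X]).natDegree < 12 := by rw [natDegree_X_pow]; norm_num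
  have hc : IsCoprime (lin (X ^ 12 + X ^ 10 + X ^ 8 + X + 1) (X ^ 2))
      (derivative (lin (X ^ 12 + X ^ 10 + X ^ 8 + X + 1) (X ^ 2))) := by
    refine coprime_of_derivative _ 0 ?_ (Or.inl rfl)
    have h2 := zmod_two_poly2
    simp only [lin, Polynomial.map_add, Polynomial.map_pow, Polynomial.map_X, Polynomial.map_one,
      derivative_add, derivative_X_pow, derivative_mul, derivative_C, derivative_one,
      Nat.cast_ofNat, map_ofNat, derivative_X]
    norm_num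
    linear_combination (6 * X ^ 11 + 5 * X ^ 9 + 4 * X ^ 7 + C X * X) * h2
  refine alt_jordan _ hmP hdP (X ^ 12 + X ^ 10 + X ^ 8 + X + 1) (X ^ 2) hP hG hn hlt
    (pow_ne_zero _ X_ne_zero) (coprime_one_coeff _ (by simp) 2) hc (X ^ 2 + X) 1 (Or.inl rfl)
    ?_ ⟨X, by rw [map_add, map_pow, red_X]⟩ 0 (X ^ 7 + X ^ 6 + X ^ 5 + X ^ 4 + X ^ 2 + X + 1) (X
        ^ 5 + X ^ 4 + X ^ 3 + X ^ 2 + 1) ?_ ?_ (r := 7) (by norm_num) (by norm_num)
    (by norm_num) ?_
  · rw [show 12 - 1 = 11 from rfl]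
    refine dvd_change (k := 37 * X ^ 2 - 136 * X + 949) (disc12 X) ?_
    rw [map_one]
    ring
  · rw [map_zero]
    linear_combination (-X ^ 11 - X ^ 10 - 2 * X ^ 9 - X ^ 8 - 2 * X ^ 7 - 2 * X ^ 6 - 2 * X ^ 5
        - 2 * X ^ 4 - X ^ 3 - X ^ 2) * zmod_two_poly
  · have h : (X ^ 7 + X ^ 6 + X ^ 5 + X ^ 4 + X ^ 2 + X + 1 : (ZMod 2)[X]).natDegree = 7 := by
      compute_degree!
    rw [h]; norm_num
  · intro κ _ _ w hw
    exact rc7d (two_eq_zero_of_algebra κ) w (by simpa using hw)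

end Pool.Agent.AFA
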