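import Pool.Agent.AFA.N12

set_option autoImplicit false

namespace Pool.Agent.AFA

open Polynomial

/-- The alternating group of degree 14. -/
theorem alt14 : Realizes (alternatingGroup (Fin 14)) := by
  refine alt_even_jordan (s := 3) (n := 14) (i := 2) (r := 11) (Or.inr rfl) (by decide) (by
      norm_num)
    (by norm_num) (by norm_num) (-1) (-5) (Or.inr rfl) (by norm_num) 1
    (X ^ 11 + X ^ 10 + X ^ 9 + X ^ 8 + X ^ 6 + X ^ 5 + X ^ 4 + X ^ 2 + 1)
    ((X ^ 3 + X ^ 2 + 1)) ?_ ?_ (by norm_num) (by norm_num) (by norm_num) ?_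
  · rw [map_one]
    linear_combination (-X ^ 13 - X ^ 12 - X ^ 11 - X ^ 10 - X ^ 9 - X ^ 8 - X ^ 7 - X ^ 6 - X ^
        5 - X ^ 4 - X ^ 2) * zmod_two_poly
  · have h : (X ^ 11 + X ^ 10 + X ^ 9 + X ^ 8 + X ^ 6 + X ^ 5 + X ^ 4 + X ^ 2 + 1 : (ZMod
      2)[X]).natDegree = 11 := by
      compute_degree!
    rw [h]; norm_num
  · intro κ _ _ w hw
    exact rc11b (two_eq_zero_of_algebra κ) w (by simpa using hw)

end Pool.Agent.AFA
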