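import Pool.Agent.AFA.T2
import Pool.Agent.AFA.T3

set_option autoImplicit false
set_option linter.unusedSimpArgs false

namespace Pool.Agent.AFA

open Polynomial

/-- Discriminant of `Y ^ 3 + Y + 1` modulo 8. -/
theorem disc3 :
    (8 : ℤ[X]) ∣ resultant (X ^ 3 + X + 1 : ℤ[X][X]) (derivative (X ^ 3 + X + 1 : ℤ[X][X])) 3 2 -
      (7) := by
  have hdP : derivative (X ^ 3 + X + 1 : ℤ[X][X]) =
      3 * X ^ 2 + 1 := by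
    simp only [derivative_add, derivative_X_pow, derivative_mul, derivative_C, derivative_one,
      derivative_X, Nat.cast_ofNat, map_ofNat]
    ring
  have hm : (X ^ 3 + X + 1 : ℤ[X][X]).Monic := by monicity!
  have hn : (X ^ 3 + X + 1 : ℤ[X][X]).natDegree = 3 := by compute_degree!
  have h1 : (X : ℤ[X][X]) * derivative (X ^ 3 + X + 1 : ℤ[X][X]) =
      (3 : ℤ[X][X]) * (X ^ 3 + X + 1 : ℤ[X][X]) +
      (C (0 : ℤ[X]) * X ^ 2 + C (-2 : ℤ[X]) * X + C (-3 : ℤ[X]) : ℤ[X][X]) := by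
    rw [hdP]
    simp only [map_add, map_sub, map_neg, map_mul, map_pow, map_ofNat, map_one, map_zero]
    ring
  have h2 : (X : ℤ[X][X]) ^ 2 * derivative (X ^ 3 + X + 1 : ℤ[X][X]) =
      (3 * X : ℤ[X][X]) * (X ^ 3 + X + 1 : ℤ[X][X]) +
      (C (-2 : ℤ[X]) * X ^ 2 + C (-3 : ℤ[X]) * X : ℤ[X][X]) := by
    rw [hdP]
    simp only [map_add, map_sub, map_neg, map_mul, map_pow, map_ofNat, map_one, map_zero]
    ring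
  have hr1 : (C (0 : ℤ[X]) * X ^ 2 + C (-2 : ℤ[X]) * X + C (-3 : ℤ[X]) : ℤ[X][X]).degree < ((3 :
      ℕ) : WithBot ℕ) := by
    refine lt_of_le_of_lt (b := ((2 : ℕ) : WithBot ℕ)) ?_ (by norm_num)
    compute_degree <;> norm_num
  have hr2 : (C (-2 : ℤ[X]) * X ^ 2 + C (-3 : ℤ[X]) * X : ℤ[X][X]).degree < ((3 : ℕ) : WithBot
      ℕ) := by
    refine lt_of_le_of_lt (b := ((2 : ℕ) : WithBot ℕ)) ?_ (by norm_num)
    compute_degree <;> norm_num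
  have e1 : (C (0 : ℤ[X]) * X ^ 2 + C (-2 : ℤ[X]) * X + C (-3 : ℤ[X]) : ℤ[X][X]).coeff 2 = 0 := by
    simp only [coeff_add, coeff_C_mul, coeff_X_pow, coeff_X, coeff_C]
    norm_num
  have e2 : (C (-2 : ℤ[X]) * X ^ 2 + C (-3 : ℤ[X]) * X : ℤ[X][X]).coeff 2 = -2 := by
    simp only [coeff_add, coeff_C_mul, coeff_X_pow, coeff_X, coeff_C]
    norm_num
  have hd : X * derivative (X ^ 3 + X + 1 : ℤ[X][X]) =
      C ((3 : ℕ) : ℤ[X]) * (X ^ 3 + X + 1 : ℤ[X][X]) - (C ((3 : ℕ) : ℤ[X]) + 2 * (X : ℤ[X][X]))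
          := by
    rw [hdP]
    simp only [Nat.cast_ofNat, map_ofNat]
    ring
  have h0 : (X ^ 3 + X + 1 : ℤ[X][X]).coeff 0 = 1 := by simp
  have key := disc_odd_gen _ _ _ _ _ _ hm hn (by decide) (by norm_num) h0 hd h1 hr1 h2 hr2
  rw [show 3 - 1 = 2 from rfl, e1, e2] at key
  convert key using 2
  push_cast
  ring

/-- Discriminant of `Y ^ 4 + Y ^ 2 + Y + T` modulo 8. -/
theorem disc4 (T : ℤ[X]) :
    (8 : ℤ[X]) ∣ resultant (X ^ 4 + X ^ 2 + X + (C T) : ℤ[X][X]) (derivative (X ^ 4 + X ^ 2 + X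
        + (C T) : ℤ[X][X])) 4 3 -
      (-16 * T + 41) := by
  have hdP : derivative (X ^ 4 + X ^ 2 + X + (C T) : ℤ[X][X]) =
      4 * X ^ 3 + 2 * X + 1 := by
    simp only [derivative_add, derivative_X_pow, derivative_mul, derivative_C, derivative_one,
      derivative_X, Nat.cast_ofNat, map_ofNat]
    ring
  have hm : (X ^ 4 + X ^ 2 + X + (C T) : ℤ[X][X]).Monic := by monicity!
  have hn : (X ^ 4 + X ^ 2 + X + (C T) : ℤ[X][X]).natDegree = 4 := by compute_degree!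
  have h1 : (2 * X ^ 3 + X : ℤ[X][X]) * derivative (X ^ 4 + X ^ 2 + X + (C T) : ℤ[X][X]) =
      (8 * X ^ 2 : ℤ[X][X]) * (X ^ 4 + X ^ 2 + X + (C T) : ℤ[X][X]) +
      (C (-6 : ℤ[X]) * X ^ 3 + C (-8 * T + 2 : ℤ[X]) * X ^ 2 + C (1 : ℤ[X]) * X : ℤ[X][X]) := by
    rw [hdP]
    simp only [map_add, map_sub, map_neg, map_mul, map_pow, map_ofNat, map_one, map_zero]
    ring
  have h2 : (2 * X ^ 3 + X : ℤ[X][X]) ^ 2 * derivative (X ^ 4 + X ^ 2 + X + (C T) : ℤ[X][X]) =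
      (16 * X ^ 5 + 8 * X ^ 3 - 12 * X ^ 2 - 16 * X * (C T) + 4 * X + 8 : ℤ[X][X]) * (X ^ 4 + X
          ^ 2 + X + (C T) : ℤ[X][X]) +
      (C (8 * T + 10 : ℤ[X]) * X ^ 3 + C (28 * T - 11 : ℤ[X]) * X ^ 2 + C (16 * T ^ 2 - 4 * T -
          8 : ℤ[X]) * X + C (-8 * T : ℤ[X]) : ℤ[X][X]) := by
    rw [hdP]
    simp only [map_add, map_sub, map_neg, map_mul, map_pow, map_ofNat, map_one, map_zero]
    ring
  have hr1 : (C (-6 : ℤ[X]) * X ^ 3 + C (-8 * T + 2 : ℤ[X]) * X ^ 2 + C (1 : ℤ[X]) * X :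
      ℤ[X][X]).degree < ((4 : ℕ) : WithBot ℕ) := by
    refine lt_of_le_of_lt (b := ((3 : ℕ) : WithBot ℕ)) ?_ (by norm_num)
    compute_degree <;> norm_num
  have hr2 : (C (8 * T + 10 : ℤ[X]) * X ^ 3 + C (28 * T - 11 : ℤ[X]) * X ^ 2 + C (16 * T ^ 2 - 4
      * T - 8 : ℤ[X]) * X + C (-8 * T : ℤ[X]) : ℤ[X][X]).degree < ((4 : ℕ) : WithBot ℕ) := by
    refine lt_of_le_of_lt (b := ((3 : ℕ) : WithBot ℕ)) ?_ (by norm_num)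
    compute_degree <;> norm_num
  have e1 : (C (-6 : ℤ[X]) * X ^ 3 + C (-8 * T + 2 : ℤ[X]) * X ^ 2 + C (1 : ℤ[X]) * X :
      ℤ[X][X]).coeff 3 = -6 := by
    simp only [coeff_add, coeff_C_mul, coeff_X_pow, coeff_X, coeff_C]
    norm_num
  have e2 : (C (8 * T + 10 : ℤ[X]) * X ^ 3 + C (28 * T - 11 : ℤ[X]) * X ^ 2 + C (16 * T ^ 2 - 4
      * T - 8 : ℤ[X]) * X + C (-8 * T : ℤ[X]) : ℤ[X][X]).coeff 3 = 8 * T + 10 := by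
    simp only [coeff_add, coeff_C_mul, coeff_X_pow, coeff_X, coeff_C]
    norm_num
  have hd : derivative (X ^ 4 + X ^ 2 + X + (C T) : ℤ[X][X]) = 1 + 2 * (2 * X ^ 3 + X : ℤ[X][X])
      := by
    rw [hdP]
    ring
  have key := disc_even_gen _ _ _ _ _ _ hm hn (by norm_num) hd h1 hr1 h2 hr2
  rw [show 4 - 1 = 3 from rfl, e1, e2] at key
  convert key using 2
  push_cast
  ring

/-- Discriminant of `Y ^ 6 + Y ^ 4 + Y + T` modulo 8. -/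
theorem disc6 (T : ℤ[X]) :
    (8 : ℤ[X]) ∣ resultant (X ^ 6 + X ^ 4 + X + (C T) : ℤ[X][X]) (derivative (X ^ 6 + X ^ 4 + X
        + (C T) : ℤ[X][X])) 6 5 -
      (36 * T + 335) := by
  have hdP : derivative (X ^ 6 + X ^ 4 + X + (C T) : ℤ[X][X]) =
      6 * X ^ 5 + 4 * X ^ 3 + 1 := by
    simp only [derivative_add, derivative_X_pow, derivative_mul, derivative_C, derivative_one,
      derivative_X, Nat.cast_ofNat, map_ofNat]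
    ring
  have hm : (X ^ 6 + X ^ 4 + X + (C T) : ℤ[X][X]).Monic := by monicity!
  have hn : (X ^ 6 + X ^ 4 + X + (C T) : ℤ[X][X]).natDegree = 6 := by compute_degree!
  have h1 : (3 * X ^ 5 + 2 * X ^ 3 : ℤ[X][X]) * derivative (X ^ 6 + X ^ 4 + X + (C T) : ℤ[X][X]) =
      (18 * X ^ 4 + 6 * X ^ 2 + 2 : ℤ[X][X]) * (X ^ 6 + X ^ 4 + X + (C T) : ℤ[X][X]) +
      (C (-15 : ℤ[X]) * X ^ 5 + C (-18 * T - 2 : ℤ[X]) * X ^ 4 + C (-4 : ℤ[X]) * X ^ 3 + C (-6 *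
          T : ℤ[X]) * X ^ 2 + C (-2 : ℤ[X]) * X + C (-2 * T : ℤ[X]) : ℤ[X][X]) := by
    rw [hdP]
    simp only [map_add, map_sub, map_neg, map_mul, map_pow, map_ofNat, map_one, map_zero]
    ring
  have h2 : (3 * X ^ 5 + 2 * X ^ 3 : ℤ[X][X]) ^ 2 * derivative (X ^ 6 + X ^ 4 + X + (C T) :
      ℤ[X][X]) =
      (54 * X ^ 9 + 54 * X ^ 7 + 18 * X ^ 5 - 45 * X ^ 4 - 54 * X ^ 3 * (C T) - 2 * X ^ 3 + 3 *
          X ^ 2 + 2 * X - 17 : ℤ[X][X]) * (X ^ 6 + X ^ 4 + X + (C T) : ℤ[X][X]) +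
      (C (-18 * T + 43 : ℤ[X]) * X ^ 5 + C (99 * T + 19 : ℤ[X]) * X ^ 4 + C (54 * T ^ 2 + 2 * T
          - 3 : ℤ[X]) * X ^ 3 + C (-3 * T - 2 : ℤ[X]) * X ^ 2 + C (-2 * T + 17 : ℤ[X]) * X + C (17 *
          T : ℤ[X]) : ℤ[X][X]) := by
    rw [hdP]
    simp only [map_add, map_sub, map_neg, map_mul, map_pow, map_ofNat, map_one, map_zero]
    ring
  have hr1 : (C (-15 : ℤ[X]) * X ^ 5 + C (-18 * T - 2 : ℤ[X]) * X ^ 4 + C (-4 : ℤ[X]) * X ^ 3 +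
      C (-6 * T : ℤ[X]) * X ^ 2 + C (-2 : ℤ[X]) * X + C (-2 * T : ℤ[X]) : ℤ[X][X]).degree < ((6 : ℕ)
      : WithBot ℕ) := by
    refine lt_of_le_of_lt (b := ((5 : ℕ) : WithBot ℕ)) ?_ (by norm_num)
    compute_degree <;> norm_num
  have hr2 : (C (-18 * T + 43 : ℤ[X]) * X ^ 5 + C (99 * T + 19 : ℤ[X]) * X ^ 4 + C (54 * T ^ 2 +
      2 * T - 3 : ℤ[X]) * X ^ 3 + C (-3 * T - 2 : ℤ[X]) * X ^ 2 + C (-2 * T + 17 : ℤ[X]) * X + C (17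
      * T : ℤ[X]) : ℤ[X][X]).degree < ((6 : ℕ) : WithBot ℕ) := by
    refine lt_of_le_of_lt (b := ((5 : ℕ) : WithBot ℕ)) ?_ (by norm_num)
    compute_degree <;> norm_num
  have e1 : (C (-15 : ℤ[X]) * X ^ 5 + C (-18 * T - 2 : ℤ[X]) * X ^ 4 + C (-4 : ℤ[X]) * X ^ 3 + C
      (-6 * T : ℤ[X]) * X ^ 2 + C (-2 : ℤ[X]) * X + C (-2 * T : ℤ[X]) : ℤ[X][X]).coeff 5 = -15 := by
    simp only [coeff_add, coeff_C_mul, coeff_X_pow, coeff_X, coeff_C]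
    norm_num
  have e2 : (C (-18 * T + 43 : ℤ[X]) * X ^ 5 + C (99 * T + 19 : ℤ[X]) * X ^ 4 + C (54 * T ^ 2 +
      2 * T - 3 : ℤ[X]) * X ^ 3 + C (-3 * T - 2 : ℤ[X]) * X ^ 2 + C (-2 * T + 17 : ℤ[X]) * X + C (17
      * T : ℤ[X]) : ℤ[X][X]).coeff 5 = -18 * T + 43 := by
    simp only [coeff_add, coeff_C_mul, coeff_X_pow, coeff_X, coeff_C]
    norm_num
  have hd : derivative (X ^ 6 + X ^ 4 + X + (C T) : ℤ[X][X]) = 1 + 2 * (3 * X ^ 5 + 2 * X ^ 3 :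
      ℤ[X][X]) := by
    rw [hdP]
    ring
  have key := disc_even_gen _ _ _ _ _ _ hm hn (by norm_num) hd h1 hr1 h2 hr2
  rw [show 6 - 1 = 5 from rfl, e1, e2] at key
  convert key using 2
  push_cast
  ring

/-- Discriminant of `Y ^ 5 + a Y ^ 3 + b Y + 1` modulo 8. -/
theorem disc5 (a b : ℤ[X]) :
    (8 : ℤ[X]) ∣ resultant (X ^ 5 + X ^ 3 * (C a) + X * (C b) + 1 : ℤ[X][X]) (derivative (X ^ 5
        + X ^ 3 * (C a) + X * (C b) + 1 : ℤ[X][X])) 5 4 -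
      (4 * a ^ 5 - 28 * a ^ 3 * b + 48 * a * b ^ 2 + 5) := by
  have hdP : derivative (X ^ 5 + X ^ 3 * (C a) + X * (C b) + 1 : ℤ[X][X]) =
      5 * X ^ 4 + 3 * X ^ 2 * (C a) + (C b) := by
    simp only [derivative_add, derivative_X_pow, derivative_mul, derivative_C, derivative_one,
      derivative_X, Nat.cast_ofNat, map_ofNat]
    ring
  have hm : (X ^ 5 + X ^ 3 * (C a) + X * (C b) + 1 : ℤ[X][X]).Monic := by monicity!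
  have hn : (X ^ 5 + X ^ 3 * (C a) + X * (C b) + 1 : ℤ[X][X]).natDegree = 5 := by compute_degree!
  have h1 : (X ^ 3 * (C a) + 2 * X * (C b) : ℤ[X][X]) * derivative (X ^ 5 + X ^ 3 * (C a) + X *
      (C b) + 1 : ℤ[X][X]) =
      (5 * X ^ 2 * (C a) - 2 * (C a) ^ 2 + 10 * (C b) : ℤ[X][X]) * (X ^ 5 + X ^ 3 * (C a) + X *
          (C b) + 1 : ℤ[X][X]) +
      (C (0 : ℤ[X]) * X ^ 4 + C (2 * a ^ 3 - 8 * a * b : ℤ[X]) * X ^ 3 + C (-5 * a : ℤ[X]) * X ^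
          2 + C (2 * a ^ 2 * b - 8 * b ^ 2 : ℤ[X]) * X + C (2 * a ^ 2 - 10 * b : ℤ[X]) : ℤ[X][X]) :=
          by
    rw [hdP]
    simp only [map_add, map_sub, map_neg, map_mul, map_pow, map_ofNat, map_one, map_zero]
    ring
  have h2 : (X ^ 3 * (C a) + 2 * X * (C b) : ℤ[X][X]) ^ 2 * derivative (X ^ 5 + X ^ 3 * (C a) +
      X * (C b) + 1 : ℤ[X][X]) =
      (5 * X ^ 5 * (C a) ^ 2 - 2 * X ^ 3 * (C a) ^ 3 + 20 * X ^ 3 * (C a) * (C b) + 2 * X * (C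
          a) ^ 4 - 12 * X * (C a) ^ 2 * (C b) + 20 * X * (C b) ^ 2 - 5 * (C a) ^ 2 : ℤ[X][X]) * (X ^
          5 + X ^ 3 * (C a) + X * (C b) + 1 : ℤ[X][X]) +
      (C (-2 * a ^ 5 + 14 * a ^ 3 * b - 24 * a * b ^ 2 : ℤ[X]) * X ^ 4 + C (7 * a ^ 3 - 20 * a *
          b : ℤ[X]) * X ^ 3 + C (-2 * a ^ 4 * b + 12 * a ^ 2 * b ^ 2 - 16 * b ^ 3 : ℤ[X]) * X ^ 2 +
          C (-2 * a ^ 4 + 17 * a ^ 2 * b - 20 * b ^ 2 : ℤ[X]) * X + C (5 * a ^ 2 : ℤ[X]) : ℤ[X][X])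
          := by
    rw [hdP]
    simp only [map_add, map_sub, map_neg, map_mul, map_pow, map_ofNat, map_one, map_zero]
    ring
  have hr1 : (C (0 : ℤ[X]) * X ^ 4 + C (2 * a ^ 3 - 8 * a * b : ℤ[X]) * X ^ 3 + C (-5 * a :
      ℤ[X]) * X ^ 2 + C (2 * a ^ 2 * b - 8 * b ^ 2 : ℤ[X]) * X + C (2 * a ^ 2 - 10 * b : ℤ[X]) :
      ℤ[X][X]).degree < ((5 : ℕ) : WithBot ℕ) := by
    refine lt_of_le_of_lt (b := ((4 : ℕ) : WithBot ℕ)) ?_ (by norm_num)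
    compute_degree <;> norm_num
  have hr2 : (C (-2 * a ^ 5 + 14 * a ^ 3 * b - 24 * a * b ^ 2 : ℤ[X]) * X ^ 4 + C (7 * a ^ 3 -
      20 * a * b : ℤ[X]) * X ^ 3 + C (-2 * a ^ 4 * b + 12 * a ^ 2 * b ^ 2 - 16 * b ^ 3 : ℤ[X]) * X ^
      2 + C (-2 * a ^ 4 + 17 * a ^ 2 * b - 20 * b ^ 2 : ℤ[X]) * X + C (5 * a ^ 2 : ℤ[X]) :
      ℤ[X][X]).degree < ((5 : ℕ) : WithBot ℕ) := by
    refine lt_of_le_of_lt (b := ((4 : ℕ) : WithBot ℕ)) ?_ (by norm_num)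
    compute_degree <;> norm_num
  have e1 : (C (0 : ℤ[X]) * X ^ 4 + C (2 * a ^ 3 - 8 * a * b : ℤ[X]) * X ^ 3 + C (-5 * a : ℤ[X])
      * X ^ 2 + C (2 * a ^ 2 * b - 8 * b ^ 2 : ℤ[X]) * X + C (2 * a ^ 2 - 10 * b : ℤ[X]) :
      ℤ[X][X]).coeff 4 = 0 := by
    simp only [coeff_add, coeff_C_mul, coeff_X_pow, coeff_X, coeff_C]
    norm_num
  have e2 : (C (-2 * a ^ 5 + 14 * a ^ 3 * b - 24 * a * b ^ 2 : ℤ[X]) * X ^ 4 + C (7 * a ^ 3 - 20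
      * a * b : ℤ[X]) * X ^ 3 + C (-2 * a ^ 4 * b + 12 * a ^ 2 * b ^ 2 - 16 * b ^ 3 : ℤ[X]) * X ^ 2
      + C (-2 * a ^ 4 + 17 * a ^ 2 * b - 20 * b ^ 2 : ℤ[X]) * X + C (5 * a ^ 2 : ℤ[X]) :
      ℤ[X][X]).coeff 4 = -2 * a ^ 5 + 14 * a ^ 3 * b - 24 * a * b ^ 2 := by
    simp only [coeff_add, coeff_C_mul, coeff_X_pow, coeff_X, coeff_C]
    norm_num
  have hd : X * derivative (X ^ 5 + X ^ 3 * (C a) + X * (C b) + 1 : ℤ[X][X]) =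
      C ((5 : ℕ) : ℤ[X]) * (X ^ 5 + X ^ 3 * (C a) + X * (C b) + 1 : ℤ[X][X]) - (C ((5 : ℕ) :
          ℤ[X]) + 2 * (X ^ 3 * (C a) + 2 * X * (C b) : ℤ[X][X])) := by
    rw [hdP]
    simp only [Nat.cast_ofNat, map_ofNat]
    ring
  have h0 : (X ^ 5 + X ^ 3 * (C a) + X * (C b) + 1 : ℤ[X][X]).coeff 0 = 1 := by simp
  have key := disc_odd_gen _ _ _ _ _ _ hm hn (by decide) (by norm_num) h0 hd h1 hr1 h2 hr2
  rw [show 5 - 1 = 4 from rfl, e1, e2] at key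
  convert key using 2
  push_cast
  ring

/-- Discriminant of `Y ^ 7 + Y ^ 5 + a Y ^ 3 + b Y + 1` modulo 8. -/
theorem disc7 (a b : ℤ[X]) :
    (8 : ℤ[X]) ∣ resultant (X ^ 7 + X ^ 5 + X ^ 3 * (C a) + X * (C b) + 1 : ℤ[X][X]) (derivative
        (X ^ 7 + X ^ 5 + X ^ 3 * (C a) + X * (C b) + 1 : ℤ[X][X])) 7 6 -
      (-80 * a ^ 3 + 144 * a ^ 2 * b + 100 * a ^ 2 - 204 * a * b - 36 * a + 108 * b ^ 2 + 44 * b
          + 11) := by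
  have hdP : derivative (X ^ 7 + X ^ 5 + X ^ 3 * (C a) + X * (C b) + 1 : ℤ[X][X]) =
      7 * X ^ 6 + 5 * X ^ 4 + 3 * X ^ 2 * (C a) + (C b) := by
    simp only [derivative_add, derivative_X_pow, derivative_mul, derivative_C, derivative_one,
      derivative_X, Nat.cast_ofNat, map_ofNat]
    ring
  have hm : (X ^ 7 + X ^ 5 + X ^ 3 * (C a) + X * (C b) + 1 : ℤ[X][X]).Monic := by monicity!
  have hn : (X ^ 7 + X ^ 5 + X ^ 3 * (C a) + X * (C b) + 1 : ℤ[X][X]).natDegree = 7 := by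
      compute_degree!
  have h1 : (X ^ 5 + 2 * X ^ 3 * (C a) + 3 * X * (C b) : ℤ[X][X]) * derivative (X ^ 7 + X ^ 5 +
      X ^ 3 * (C a) + X * (C b) + 1 : ℤ[X][X]) =
      (7 * X ^ 4 + 14 * X ^ 2 * (C a) - 2 * X ^ 2 - 8 * (C a) + 21 * (C b) + 2 : ℤ[X][X]) * (X ^
          7 + X ^ 5 + X ^ 3 * (C a) + X * (C b) + 1 : ℤ[X][X]) +
      (C (0 : ℤ[X]) * X ^ 6 + C (-8 * a ^ 2 + 10 * a - 12 * b - 2 : ℤ[X]) * X ^ 5 + C (-7 :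
          ℤ[X]) * X ^ 4 + C (8 * a ^ 2 - 24 * a * b - 2 * a + 2 * b : ℤ[X]) * X ^ 3 + C (-14 * a + 2
          : ℤ[X]) * X ^ 2 + C (8 * a * b - 18 * b ^ 2 - 2 * b : ℤ[X]) * X + C (8 * a - 21 * b - 2 :
          ℤ[X]) : ℤ[X][X]) := by
    rw [hdP]
    simp only [map_add, map_sub, map_neg, map_mul, map_pow, map_ofNat, map_one, map_zero]
    ring
  have h2 : (X ^ 5 + 2 * X ^ 3 * (C a) + 3 * X * (C b) : ℤ[X][X]) ^ 2 * derivative (X ^ 7 + X ^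
      5 + X ^ 3 * (C a) + X * (C b) + 1 : ℤ[X][X]) =
      (7 * X ^ 9 + 28 * X ^ 7 * (C a) - 2 * X ^ 7 + 28 * X ^ 5 * (C a) ^ 2 - 12 * X ^ 5 * (C a)
          + 42 * X ^ 5 * (C b) + 2 * X ^ 5 - 24 * X ^ 3 * (C a) ^ 2 + 84 * X ^ 3 * (C a) * (C b) +
          14 * X ^ 3 * (C a) - 18 * X ^ 3 * (C b) - 2 * X ^ 3 - 7 * X ^ 2 - 16 * X * (C a) ^ 3 + 36
          * X * (C a) ^ 2 - 72 * X * (C a) * (C b) - 16 * X * (C a) + 63 * X * (C b) ^ 2 + 20 * X *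
          (C b) + 2 * X - 28 * (C a) + 9 : ℤ[X][X]) * (X ^ 7 + X ^ 5 + X ^ 3 * (C a) + X * (C b) + 1
          : ℤ[X][X]) +
      (C (40 * a ^ 3 - 72 * a ^ 2 * b - 50 * a ^ 2 + 102 * a * b + 18 * a - 54 * b ^ 2 - 22 * b
          - 2 : ℤ[X]) * X ^ 6 + C (-28 * a ^ 2 + 47 * a - 42 * b - 11 : ℤ[X]) * X ^ 5 + C (16 * a ^
          4 - 36 * a ^ 3 + 96 * a ^ 2 * b + 16 * a ^ 2 - 108 * a * b ^ 2 - 34 * a * b - 2 * a + 18 *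
          b ^ 2 + 2 * b : ℤ[X]) * X ^ 4 + C (52 * a ^ 2 - 84 * a * b - 23 * a + 25 * b + 2 : ℤ[X]) *
          X ^ 3 + C (16 * a ^ 3 * b - 36 * a ^ 2 * b + 72 * a * b ^ 2 + 16 * a * b - 54 * b ^ 3 - 20
          * b ^ 2 - 2 * b + 7 : ℤ[X]) * X ^ 2 + C (16 * a ^ 3 - 36 * a ^ 2 + 100 * a * b + 16 * a -
          63 * b ^ 2 - 29 * b - 2 : ℤ[X]) * X + C (28 * a - 9 : ℤ[X]) : ℤ[X][X]) := by
    rw [hdP]
    simp only [map_add, map_sub, map_neg, map_mul, map_pow, map_ofNat, map_one, map_zero]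
    ring
  have hr1 : (C (0 : ℤ[X]) * X ^ 6 + C (-8 * a ^ 2 + 10 * a - 12 * b - 2 : ℤ[X]) * X ^ 5 + C (-7
      : ℤ[X]) * X ^ 4 + C (8 * a ^ 2 - 24 * a * b - 2 * a + 2 * b : ℤ[X]) * X ^ 3 + C (-14 * a + 2 :
      ℤ[X]) * X ^ 2 + C (8 * a * b - 18 * b ^ 2 - 2 * b : ℤ[X]) * X + C (8 * a - 21 * b - 2 : ℤ[X])
      : ℤ[X][X]).degree < ((7 : ℕ) : WithBot ℕ) := by
    refine lt_of_le_of_lt (b := ((6 : ℕ) : WithBot ℕ)) ?_ (by norm_num)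
    compute_degree <;> norm_num
  have hr2 : (C (40 * a ^ 3 - 72 * a ^ 2 * b - 50 * a ^ 2 + 102 * a * b + 18 * a - 54 * b ^ 2 -
      22 * b - 2 : ℤ[X]) * X ^ 6 + C (-28 * a ^ 2 + 47 * a - 42 * b - 11 : ℤ[X]) * X ^ 5 + C (16 * a
      ^ 4 - 36 * a ^ 3 + 96 * a ^ 2 * b + 16 * a ^ 2 - 108 * a * b ^ 2 - 34 * a * b - 2 * a + 18 * b
      ^ 2 + 2 * b : ℤ[X]) * X ^ 4 + C (52 * a ^ 2 - 84 * a * b - 23 * a + 25 * b + 2 : ℤ[X]) * X ^ 3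
      + C (16 * a ^ 3 * b - 36 * a ^ 2 * b + 72 * a * b ^ 2 + 16 * a * b - 54 * b ^ 3 - 20 * b ^ 2 -
      2 * b + 7 : ℤ[X]) * X ^ 2 + C (16 * a ^ 3 - 36 * a ^ 2 + 100 * a * b + 16 * a - 63 * b ^ 2 -
      29 * b - 2 : ℤ[X]) * X + C (28 * a - 9 : ℤ[X]) : ℤ[X][X]).degree < ((7 : ℕ) : WithBot ℕ) := by
    refine lt_of_le_of_lt (b := ((6 : ℕ) : WithBot ℕ)) ?_ (by norm_num)
    compute_degree <;> norm_num
  have e1 : (C (0 : ℤ[X]) * X ^ 6 + C (-8 * a ^ 2 + 10 * a - 12 * b - 2 : ℤ[X]) * X ^ 5 + C (-7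
      : ℤ[X]) * X ^ 4 + C (8 * a ^ 2 - 24 * a * b - 2 * a + 2 * b : ℤ[X]) * X ^ 3 + C (-14 * a + 2 :
      ℤ[X]) * X ^ 2 + C (8 * a * b - 18 * b ^ 2 - 2 * b : ℤ[X]) * X + C (8 * a - 21 * b - 2 : ℤ[X])
      : ℤ[X][X]).coeff 6 = 0 := by
    simp only [coeff_add, coeff_C_mul, coeff_X_pow, coeff_X, coeff_C]
    norm_num
  have e2 : (C (40 * a ^ 3 - 72 * a ^ 2 * b - 50 * a ^ 2 + 102 * a * b + 18 * a - 54 * b ^ 2 -
      22 * b - 2 : ℤ[X]) * X ^ 6 + C (-28 * a ^ 2 + 47 * a - 42 * b - 11 : ℤ[X]) * X ^ 5 + C (16 * a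
      ^ 4 - 36 * a ^ 3 + 96 * a ^ 2 * b + 16 * a ^ 2 - 108 * a * b ^ 2 - 34 * a * b - 2 * a + 18 * b
      ^ 2 + 2 * b : ℤ[X]) * X ^ 4 + C (52 * a ^ 2 - 84 * a * b - 23 * a + 25 * b + 2 : ℤ[X]) * X ^ 3
      + C (16 * a ^ 3 * b - 36 * a ^ 2 * b + 72 * a * b ^ 2 + 16 * a * b - 54 * b ^ 3 - 20 * b ^ 2 -
      2 * b + 7 : ℤ[X]) * X ^ 2 + C (16 * a ^ 3 - 36 * a ^ 2 + 100 * a * b + 16 * a - 63 * b ^ 2 -
      29 * b - 2 : ℤ[X]) * X + C (28 * a - 9 : ℤ[X]) : ℤ[X][X]).coeff 6 = 40 * a ^ 3 - 72 * a ^ 2 *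
      b - 50 * a ^ 2 + 102 * a * b + 18 * a - 54 * b ^ 2 - 22 * b - 2 := by
    simp only [coeff_add, coeff_C_mul, coeff_X_pow, coeff_X, coeff_C]
    norm_num
  have hd : X * derivative (X ^ 7 + X ^ 5 + X ^ 3 * (C a) + X * (C b) + 1 : ℤ[X][X]) =
      C ((7 : ℕ) : ℤ[X]) * (X ^ 7 + X ^ 5 + X ^ 3 * (C a) + X * (C b) + 1 : ℤ[X][X]) - (C ((7 :
          ℕ) : ℤ[X]) + 2 * (X ^ 5 + 2 * X ^ 3 * (C a) + 3 * X * (C b) : ℤ[X][X])) := by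
    rw [hdP]
    simp only [Nat.cast_ofNat, map_ofNat]
    ring
  have h0 : (X ^ 7 + X ^ 5 + X ^ 3 * (C a) + X * (C b) + 1 : ℤ[X][X]).coeff 0 = 1 := by simp
  have key := disc_odd_gen _ _ _ _ _ _ hm hn (by decide) (by norm_num) h0 hd h1 hr1 h2 hr2
  rw [show 7 - 1 = 6 from rfl, e1, e2] at key
  convert key using 2
  push_cast
  ring

end Pool.Agent.AFA
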