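import Pool.Agent.AFA.N11
import Pool.Agent.AFA.T4

set_option autoImplicit false

namespace Pool.Agent.AFA

open Polynomial

/-- The alternating group of degree 3, from `Y ^ 3 + Y + 1`. -/
theorem alt3 : Realizes (alternatingGroup (Fin 3)) := by
  have hP : (X ^ 3 + X + 1 : ℤ[X][X]).map red = X ^ 3 + X + 1 := by simp
  have hm : (X ^ 3 + X + 1 : (ZMod 2)[X][X]).Monic := by monicity!
  have hc : IsCoprime (X ^ 3 + X + 1 : (ZMod 2)[X][X]) (derivative (X ^ 3 + X + 1)) := by
    refine coprime_of_X_mul _ ?_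
    simp only [derivative_add, derivative_X_pow, derivative_one, derivative_X, Nat.cast_ofNat,
      map_ofNat]
    norm_num
    linear_combination (X ^ 3) * zmod_two_poly2
  have hmP : (X ^ 3 + X + 1 : ℤ[X][X]).Monic := by monicity!
  have hdP : (X ^ 3 + X + 1 : ℤ[X][X]).natDegree = 3 := by compute_degree!
  refine realizes_alt _ hmP hdP (by rw [hP]; exact hc) 0 (-1) (Or.inr rfl) ?_ ⟨0, by simp⟩ ?_
  · rw [show 3 - 1 = 2 from rfl]
    refine dvd_change (k := 1) disc3 ?_
    simp
    norm_num
  · rw [hP]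
    refine (dvd_card_of_factor_two (r := 3) hm hc 0 (X ^ 3 + X + 1) 1 (by simp) ?_ (by norm_num)
      ?_).mono (fun G hG => alternating_le_small (by norm_num) G
        (trans_of_prime_dvd (by norm_num) G hG) hG)
    · have h : (X ^ 3 + X + 1 : (ZMod 2)[X]).natDegree = 3 := by compute_degree!
      rw [h]; norm_num
    · intro κ _ _ w hw
      exact rc3 (two_eq_zero_of_algebra κ) w (by simpa using hw)

end Pool.Agent.AFA
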