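import Pool.Agent.AFA.N11
import Pool.Agent.AFA.T4

set_option autoImplicit false

namespace Pool.Agent.AFA

open Polynomial

/-- The alternating group of degree 4, from `Y ^ 4 + Y ^ 2 + Y + x`. -/
theorem alt4 : Realizes (alternatingGroup (Fin 4)) := by
  have hP : (X ^ 4 + X ^ 2 + X + C X : ℤ[X][X]).map red = lin (X ^ 4 + X ^ 2 + X) 1 := by
    simp [lin, red_X]
  have hmP : (X ^ 4 + X ^ 2 + X + C X : ℤ[X][X]).Monic := by monicity!
  have hdP : (X ^ 4 + X ^ 2 + X + C X : ℤ[X][X]).natDegree = 4 := by compute_degree!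
  have hG : (X ^ 4 + X ^ 2 + X : (ZMod 2)[X]).Monic := by monicity!
  have hn : (X ^ 4 + X ^ 2 + X : (ZMod 2)[X]).natDegree = 4 := by compute_degree!
  have hlt : (1 : (ZMod 2)[X]).natDegree < 4 := by rw [natDegree_one]; norm_num
  obtain ⟨hm, hdn⟩ := lin_monic hG hn hlt
  have hc : IsCoprime (lin (X ^ 4 + X ^ 2 + X) 1) (derivative (lin (X ^ 4 + X ^ 2 + X) 1)) := by
    refine coprime_of_derivative _ 0 ?_ (Or.inl rfl)
    have h2 := zmod_two_poly2
    simp only [lin, Polynomial.map_add, Polynomial.map_pow, Polynomial.map_X, Polynomial.map_one,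
      derivative_add, derivative_X_pow, derivative_mul, derivative_C, derivative_one,
      Nat.cast_ofNat, map_ofNat, derivative_X]
    norm_num
    linear_combination (2 * X ^ 3 + X) * h2
  refine realizes_alt _ hmP hdP (by rw [hP]; exact hc) 0 1 (Or.inl rfl) ?_ ⟨0, by simp⟩ ?_
  · rw [show 4 - 1 = 3 from rfl]
    refine dvd_change (k := 5 - 2 * X) (disc4 X) ?_
    simp
    ring
  · rw [hP]
    have h1 := lin_trans hG hn hlt one_ne_zero isCoprime_one_right
    have h3 : AllMdl (lin (X ^ 4 + X ^ 2 + X) 1) 4 (fun G => 3 ∣ Nat.card G) := by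
      refine dvd_card_of_factor_two hm hc 0 (X ^ 3 + X + 1) X ?_ ?_ (by norm_num) ?_
      · rw [lin_eval, map_zero]
        ring
      · have h : (X ^ 3 + X + 1 : (ZMod 2)[X]).natDegree = 3 := by compute_degree!
        rw [h]; norm_num
      · intro κ _ _ w hw
        exact rc3 (two_eq_zero_of_algebra κ) w (by simpa using hw)
    exact (h1.and h3).mono (fun Γ hΓ => alternating_le_small (by norm_num) Γ hΓ.1 hΓ.2)

end Pool.Agent.AFA
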