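import Pool.Agent.AFA.N11
import Pool.Agent.AFA.T4

set_option autoImplicit false

namespace Pool.Agent.AFA

open Polynomial

/-- The alternating group of degree 5, from `Y ^ 5 + (v + 1) Y ^ 3 + v ^ 3 Y + 1`,
`v = x ^ 2 + x`. -/
theorem alt5 : Realizes (alternatingGroup (Fin 5)) := by
  have hP : (X ^ 5 + X ^ 3 * C (X ^ 2 + X + 1) + X * C ((X ^ 2 + X) ^ 3) + 1 : ℤ[X][X]).map red =
      X ^ 5 + X ^ 3 * C (X ^ 2 + X + 1) + X * C ((X ^ 2 + X) ^ 3) + 1 := by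
    simp [red_X]
  have hmP : (X ^ 5 + X ^ 3 * C (X ^ 2 + X + 1) + X * C ((X ^ 2 + X) ^ 3) + 1 :
    ℤ[X][X]).Monic := by monicity!
  have hdP : (X ^ 5 + X ^ 3 * C (X ^ 2 + X + 1) + X * C ((X ^ 2 + X) ^ 3) + 1 :
    ℤ[X][X]).natDegree = 5 := by compute_degree!
  have hm : (X ^ 5 + X ^ 3 * C (X ^ 2 + X + 1) + X * C ((X ^ 2 + X) ^ 3) + 1 :
    (ZMod 2)[X][X]).Monic := by monicity!
  have hc : IsCoprime (X ^ 5 + X ^ 3 * C (X ^ 2 + X + 1) + X * C ((X ^ 2 + X) ^ 3) + 1 :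
      (ZMod 2)[X][X]) (derivative (X ^ 5 + X ^ 3 * C (X ^ 2 + X + 1) +
        X * C ((X ^ 2 + X) ^ 3) + 1)) := by
    refine coprime_of_X_mul _ ?_
    simp only [derivative_add, derivative_mul, derivative_C, derivative_X_pow, derivative_one,
      derivative_X, Nat.cast_ofNat, map_ofNat]
    norm_num
    linear_combination (2 * X ^ 5 + (C X ^ 2 + C X + 1) * X ^ 3) * zmod_two_poly2
  refine realizes_alt _ hmP hdP (by rw [hP]; exact hc)
    (1 + (X ^ 2 + X + 1) ^ 5 + (X ^ 2 + X + 1) ^ 3 * (X ^ 2 + X) ^ 3) 1 (Or.inl rfl) ?_ ?_ ?_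
  · rw [show 5 - 1 = 4 from rfl]
    refine dvd_change (k := -4 * (X ^ 2 + X + 1) ^ 3 * (X ^ 2 + X) ^ 3 +
      6 * (X ^ 2 + X + 1) * ((X ^ 2 + X) ^ 3) ^ 2) (disc5 (X ^ 2 + X + 1) ((X ^ 2 + X) ^ 3)) ?_
    rw [map_one]
    ring
  · refine ⟨X + (X ^ 2 + X + 1) + (X ^ 2 + X + 1) ^ 2 + (X ^ 2 + X + 1) ^ 3, ?_⟩
    simp only [map_add, map_mul, map_pow, map_one, red_X]
    linear_combination (-2 * X ^ 10 - 10 * X ^ 9 - 30 * X ^ 8 - 61 * X ^ 7 - 95 * X ^ 6 - 115 * X ^ 5 - 112 * X ^ 4 - 86 * X ^ 3 - 52 * X ^ 2 - 22 * X - 5) * zmod_two_poly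
  · rw [hP]
    have h5 : AllMdl (X ^ 5 + X ^ 3 * C (X ^ 2 + X + 1) + X * C ((X ^ 2 + X) ^ 3) + 1 :
        (ZMod 2)[X][X]) 5 (fun G => 5 ∣ Nat.card G) := by
      refine dvd_card_of_factor_two hm hc 0 (X ^ 5 + X ^ 3 + 1) 1 ?_ ?_ (by norm_num) ?_
      · simp
      · have h : (X ^ 5 + X ^ 3 + 1 : (ZMod 2)[X]).natDegree = 5 := by compute_degree!
        rw [h]; norm_num
      · intro κ _ _ w hw
        exact rc5a (two_eq_zero_of_algebra κ) w (by simpa using hw)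
    have h3 : AllMdl (X ^ 5 + X ^ 3 * C (X ^ 2 + X + 1) + X * C ((X ^ 2 + X) ^ 3) + 1 :
        (ZMod 2)[X][X]) 5 (fun G => 3 ∣ Nat.card G) := by
      obtain ⟨F, iF, iFt, φ, hφ, hcard, h2, ho⟩ := exists_F4
      have hmap : (X ^ 5 + X ^ 3 * C (X ^ 2 + X + 1) + X * C ((X ^ 2 + X) ^ 3) + 1 :
          (ZMod 2)[X][X]).map φ = X ^ 5 + X + 1 := by
        have e1 : φ X ^ 2 + φ X = 1 := by linear_combination ho - h2
        simp only [Polynomial.map_add, Polynomial.map_mul, Polynomial.map_pow, Polynomial.map_X,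
          Polynomial.map_one, Polynomial.map_C, map_add, map_mul, map_pow, map_one]
        rw [← C_pow, ← C_add, e1, C_1]
        have h2' : (2 : F[X]) = 0 := by rw [← map_ofNat C 2, h2, C_0]
        linear_combination X ^ 3 * h2'
      have h2' : (2 : F[X]) = 0 := by rw [← map_ofNat C 2, h2, C_0]
      refine dvd_card_of_factor hm hc φ hφ (X ^ 3 + X ^ 2 + 1) ⟨X ^ 2 + X + 1, ?_⟩ ?_
        (by norm_num) ?_
      · rw [hmap]
        linear_combination (-X ^ 4 - X ^ 3 - X ^ 2) * h2'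
      · have h : (X ^ 3 + X ^ 2 + 1 : F[X]).natDegree = 3 := by compute_degree!
        rw [h]; norm_num
      · intro κ _ _ w hw
        have h2k : (2 : κ) = 0 := by rw [← map_ofNat (algebraMap F κ) 2, h2, map_zero]
        rw [hcard]
        have h := rf3b h2k w (by simpa using hw)
        rw [pow_one] at h
        exact h
    exact (h5.and h3).mono (fun G hG => alternating_le_small (by norm_num) G
      (trans_of_prime_dvd (by norm_num) G hG.1) hG.2)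

end Pool.Agent.AFA
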