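import Pool.Agent.AFA.N11
import Pool.Agent.AFA.T4
import Pool.Agent.AFA.I3

set_option autoImplicit false

namespace Pool.Agent.AFA

open Polynomial

/-- The alternating group of degree 6, from `Y ^ 6 + Y ^ 4 + Y + x ^ 2 + x`. -/
theorem alt6 : Realizes (alternatingGroup (Fin 6)) := by
  have hP : (X ^ 6 + X ^ 4 + X + C (X ^ 2 + X) : ℤ[X][X]).map red =
      X ^ 6 + X ^ 4 + X + C (X ^ 2 + X) := by
    simp [red_X]
  have hmP : (X ^ 6 + X ^ 4 + X + C (X ^ 2 + X) : ℤ[X][X]).Monic := by monicity!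
  have hdP : (X ^ 6 + X ^ 4 + X + C (X ^ 2 + X) : ℤ[X][X]).natDegree = 6 := by compute_degree!
  have hm : (X ^ 6 + X ^ 4 + X + C (X ^ 2 + X) : (ZMod 2)[X][X]).Monic := by monicity!
  have hc : IsCoprime (X ^ 6 + X ^ 4 + X + C (X ^ 2 + X) : (ZMod 2)[X][X])
      (derivative (X ^ 6 + X ^ 4 + X + C (X ^ 2 + X))) := by
    refine coprime_of_derivative _ 0 ?_ (Or.inl rfl)
    simp only [derivative_add, derivative_C, derivative_X_pow, derivative_X, Nat.cast_ofNat,
      map_ofNat]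
    norm_num
    linear_combination (3 * X ^ 5 + 2 * X ^ 3) * zmod_two_poly2
  have hirr : Irreducible (X ^ 6 + X ^ 4 + X + C (X ^ 2 + X) : (ZMod 2)[X][X]) := by
    have h := irreducible_artinSchreier 0 (X ^ 6 + X ^ 4 + X) 1 one_ne_zero isCoprime_one_right
      (algebraMap (ZMod 2)[X] (RatFunc (ZMod 2)) (X ^ 3 + X ^ 2 + X)) (X ^ 3)
      (by rw [natDegree_X_pow]; decide) (by
        rw [map_one, one_mul, ← map_pow, ← map_add, ← map_add]
        congr 1
        linear_combination (-X ^ 5 - X ^ 4 - 2 * X ^ 3 - X ^ 2) * zmod_two_poly)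
    have e : (X ^ 6 + X ^ 4 + X + C (X ^ 2 + X) : (ZMod 2)[X][X]) =
        (X ^ 6 + X ^ 4 + X : (ZMod 2)[X]).map (C : ZMod 2 →+* (ZMod 2)[X]) +
          C (X ^ 2 + X + C 0 : (ZMod 2)[X]) * (1 : (ZMod 2)[X]).map (C : ZMod 2 →+* (ZMod 2)[X]) := by
      simp
    rw [e]
    exact h
  refine realizes_alt _ hmP hdP (by rw [hP]; exact hc) (X ^ 2 + X) (-1) (Or.inr rfl) ?_ ?_ ?_
  · rw [show 6 - 1 = 5 from rfl]
    refine dvd_change (k := 5 * (X ^ 2 + X) + 42) (disc6 (X ^ 2 + X)) ?_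
    rw [map_neg, map_one]
    ring
  · refine ⟨X, ?_⟩
    rw [map_add, map_pow, red_X]
  · rw [hP]
    have h1 := trans_of_irreducible (n := 6) (irreducible_frac hm hirr)
    have h5 : AllMdl (X ^ 6 + X ^ 4 + X + C (X ^ 2 + X) : (ZMod 2)[X][X]) 6
        (fun G => 5 ∣ Nat.card G) := by
      refine dvd_card_of_factor_two hm hc 0 (X ^ 5 + X ^ 3 + 1) X ?_ ?_ (by norm_num) ?_
      · simp
        ring
      · have h : (X ^ 5 + X ^ 3 + 1 : (ZMod 2)[X]).natDegree = 5 := by compute_degree!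
        rw [h]; norm_num
      · intro κ _ _ w hw
        exact rc5a (two_eq_zero_of_algebra κ) w (by simpa using hw)
    have h3 : AllMdl (X ^ 6 + X ^ 4 + X + C (X ^ 2 + X) : (ZMod 2)[X][X]) 6
        (fun G => ∃ g ∈ G, g.IsThreeCycle) := by
      obtain ⟨F, iF, iFt, φ, hφ, hcard, h2, ho⟩ := exists_F4
      have h2' : (2 : F[X]) = 0 := by rw [← map_ofNat C 2, h2, C_0]
      have hmap : (X ^ 6 + X ^ 4 + X + C (X ^ 2 + X) : (ZMod 2)[X][X]).map φ =
          (X ^ 3 + X + 1) * ((X + 1) * (X ^ 2 + X + 1)) := by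
        have e1 : φ X ^ 2 + φ X = 1 := by linear_combination ho - h2
        simp only [Polynomial.map_add, Polynomial.map_pow, Polynomial.map_X, Polynomial.map_C,
          map_add, map_pow]
        rw [add_assoc, ← C_pow, ← C_add, e1, C_1]
        linear_combination (-X ^ 5 - X ^ 4 - 2 * X ^ 3 - 2 * X ^ 2 - X) * h2'
      refine three_cycle_of_factor hm hc φ hφ (X ^ 3 + X + 1) ((X + 1) * (X ^ 2 + X + 1)) hmap
        (by compute_degree!) 1 ?_ ?_
      · intro κ _ _ w hw
        have h2k : (2 : κ) = 0 := by rw [← map_ofNat (algebraMap F κ) 2, h2, map_zero]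
        rw [hcard]
        exact rf3_one h2k w (by simpa using hw)
      · intro κ _ _ w hw
        have h2k : (2 : κ) = 0 := by rw [← map_ofNat (algebraMap F κ) 2, h2, map_zero]
        have hw0 : (w + 1) * (w ^ 2 + w + 1) = 0 := by simpa using hw
        rw [hcard]
        rcases mul_eq_zero.1 hw0 with h | h
        · have h1 : w = 1 := by linear_combination h - h2k
          rw [h1, one_pow]
        · exact rf2_one h2k w h
    exact ((h1.and h5).and h3).mono (fun G hG => alternating_le_of_big (r := 5) (by norm_num)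
      (by norm_num) G hG.1.1 hG.1.2 hG.2)

end Pool.Agent.AFA
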