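import Pool.Agent.AFA.N11
import Pool.Agent.AFA.T4

set_option autoImplicit false

namespace Pool.Agent.AFA

open Polynomial

/-- The alternating group of degree 7, from `Y ^ 7 + Y ^ 5 + (x ^ 2 + x + 1) Y ^ 3 +
(x ^ 4 + x ^ 3 + 1) Y + 1`. -/
theorem alt7 : Realizes (alternatingGroup (Fin 7)) := by
  have hP : (X ^ 7 + X ^ 5 + X ^ 3 * C (X ^ 2 + X + 1) + X * C (X ^ 4 + X ^ 3 + 1) + 1 :
      ℤ[X][X]).map red =
      X ^ 7 + X ^ 5 + X ^ 3 * C (X ^ 2 + X + 1) + X * C (X ^ 4 + X ^ 3 + 1) + 1 := by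
    simp [red_X]
  have hmP : (X ^ 7 + X ^ 5 + X ^ 3 * C (X ^ 2 + X + 1) + X * C (X ^ 4 + X ^ 3 + 1) + 1 :
    ℤ[X][X]).Monic := by monicity!
  have hdP : (X ^ 7 + X ^ 5 + X ^ 3 * C (X ^ 2 + X + 1) + X * C (X ^ 4 + X ^ 3 + 1) + 1 :
    ℤ[X][X]).natDegree = 7 := by compute_degree!
  have hm : (X ^ 7 + X ^ 5 + X ^ 3 * C (X ^ 2 + X + 1) + X * C (X ^ 4 + X ^ 3 + 1) + 1 :
    (ZMod 2)[X][X]).Monic := by monicity!
  have hc : IsCoprime (X ^ 7 + X ^ 5 + X ^ 3 * C (X ^ 2 + X + 1) + X * C (X ^ 4 + X ^ 3 + 1) + 1 :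
      (ZMod 2)[X][X]) (derivative (X ^ 7 + X ^ 5 + X ^ 3 * C (X ^ 2 + X + 1) +
        X * C (X ^ 4 + X ^ 3 + 1) + 1)) := by
    refine coprime_of_X_mul _ ?_
    simp only [derivative_add, derivative_mul, derivative_C, derivative_X_pow, derivative_one,
      derivative_X, Nat.cast_ofNat, map_ofNat]
    norm_num
    linear_combination (3 * X ^ 7 + 2 * X ^ 5 + (C X ^ 2 + C X + 1) * X ^ 3) * zmod_two_poly2
  refine realizes_alt _ hmP hdP (by rw [hP]; exact hc)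
    (1 + (X ^ 2 + X + 1) ^ 2 + (X ^ 2 + X + 1) * (X ^ 4 + X ^ 3 + 1) + (X ^ 2 + X + 1) +
      (X ^ 4 + X ^ 3 + 1) ^ 2 + (X ^ 4 + X ^ 3 + 1)) (-1) (Or.inr rfl) ?_ ?_ ?_
  · rw [show 7 - 1 = 6 from rfl]
    refine dvd_change (k := -10 * (X ^ 2 + X + 1) ^ 3 + 18 * (X ^ 2 + X + 1) ^ 2 * (X ^ 4 + X ^
        3 + 1) + 13 * (X ^ 2 + X + 1) ^ 2 - 25 * (X ^ 2 + X + 1) * (X ^ 4 + X ^ 3 + 1) - 4 * (X ^ 2
        + X + 1) + 14 * (X ^ 4 + X ^ 3 + 1) ^ 2 + 6 * (X ^ 4 + X ^ 3 + 1) + 2)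
      (disc7 (X ^ 2 + X + 1) (X ^ 4 + X ^ 3 + 1)) ?_
    rw [map_neg, map_one]
    ring
  · refine ⟨(X ^ 4 + X ^ 3 + 1) + (X ^ 2 + X + 1) + X ^ 3 + X, ?_⟩
    simp only [map_add, map_mul, map_pow, map_one, red_X]
    linear_combination (-X ^ 7 - 2 * X ^ 6 - 3 * X ^ 5 - 4 * X ^ 4 - 4 * X ^ 3 - 2 * X ^ 2 - 3 *
        X) * zmod_two_poly
  · rw [hP]
    have h7 : AllMdl (X ^ 7 + X ^ 5 + X ^ 3 * C (X ^ 2 + X + 1) + X * C (X ^ 4 + X ^ 3 + 1) + 1 :
        (ZMod 2)[X][X]) 7 (fun G => 7 ∣ Nat.card G) := by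
      refine dvd_card_of_factor_two hm hc 0 (X ^ 7 + X ^ 5 + X ^ 3 + X + 1) 1 ?_ ?_
        (by norm_num) ?_
      · simp
      · have h : (X ^ 7 + X ^ 5 + X ^ 3 + X + 1 : (ZMod 2)[X]).natDegree = 7 := by
          compute_degree!
        rw [h]; norm_num
      · intro κ _ _ w hw
        exact rc7a (two_eq_zero_of_algebra κ) w (by simpa using hw)
    have h3 : AllMdl (X ^ 7 + X ^ 5 + X ^ 3 * C (X ^ 2 + X + 1) + X * C (X ^ 4 + X ^ 3 + 1) + 1 :
        (ZMod 2)[X][X]) 7 (fun G => ∃ g ∈ G, g.IsThreeCycle) := by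
      obtain ⟨F, iF, iFt, φ, hφ, hcard, h2, ho⟩ := exists_F4
      have h2' : (2 : F[X]) = 0 := by rw [← map_ofNat C 2, h2, C_0]
      have ho' : (C (φ X) : F[X]) ^ 2 + C (φ X) + 1 = 0 := by
        rw [← C_pow, ← C_add, ← C_1, ← C_add, ho, C_0]
      have hmap : (X ^ 7 + X ^ 5 + X ^ 3 * C (X ^ 2 + X + 1) + X * C (X ^ 4 + X ^ 3 + 1) + 1 :
          (ZMod 2)[X][X]).map φ = (X ^ 3 + C (φ X) * X ^ 2 + 1) *
            (X ^ 4 + C (φ X) * X ^ 3 + C (φ X) * X ^ 2 + C (φ X) * X + 1) := by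
        have e1 : φ (X ^ 2 + X + 1) = 0 := by
          rw [map_add, map_add, map_pow, map_one]
          exact ho
        have e2 : φ (X ^ 4 + X ^ 3 + 1) = φ X := by
          rw [map_add, map_add, map_pow, map_pow, map_one]
          linear_combination (φ X ^ 2 - 1) * ho + h2
        simp only [Polynomial.map_add, Polynomial.map_mul, Polynomial.map_pow, Polynomial.map_X,
          Polynomial.map_one, Polynomial.map_C, e1, e2, C_0]
        linear_combination (-X ^ 5 - X ^ 4 - X ^ 3) * ho' + (-X ^ 6 * C (φ X) + X ^ 5 - X ^ 2 *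
            C (φ X)) * h2'
      refine three_cycle_of_factor hm hc φ hφ (X ^ 3 + C (φ X) * X ^ 2 + 1)
        (X ^ 4 + C (φ X) * X ^ 3 + C (φ X) * X ^ 2 + C (φ X) * X + 1) hmap
        (by compute_degree!) 2 ?_ ?_
      · intro κ _ _ w hw
        have h2k : (2 : κ) = 0 := by rw [← map_ofNat (algebraMap F κ) 2, h2, map_zero]
        have hok : algebraMap F κ (φ X) ^ 2 + algebraMap F κ (φ X) + 1 = 0 := by
          rw [← map_pow, ← map_add, ← map_one (algebraMap F κ), ← map_add, ho, map_zero]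
        rw [hcard]
        refine rf3o h2k (algebraMap F κ (φ X)) hok w ?_
        have hw0 : w ^ 3 + algebraMap F κ (φ X) * w ^ 2 + 1 = 0 := by simpa using hw
        linear_combination hw0
      · intro κ _ _ w hw
        have h2k : (2 : κ) = 0 := by rw [← map_ofNat (algebraMap F κ) 2, h2, map_zero]
        have hok : algebraMap F κ (φ X) ^ 2 + algebraMap F κ (φ X) + 1 = 0 := by
          rw [← map_pow, ← map_add, ← map_one (algebraMap F κ), ← map_add, ho, map_zero]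
        rw [hcard]
        refine rf4o h2k (algebraMap F κ (φ X)) hok w ?_
        have hw0 : w ^ 4 + algebraMap F κ (φ X) * w ^ 3 + algebraMap F κ (φ X) * w ^ 2 +
            algebraMap F κ (φ X) * w + 1 = 0 := by simpa using hw
        linear_combination hw0
    exact (h7.and h3).mono (fun G hG => alternating_le_of_prime (by norm_num) G
      (trans_of_prime_dvd (by norm_num) G hG.1) hG.2)

end Pool.Agent.AFA
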