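import Pool.Agent.AFA.N10

set_option autoImplicit false

namespace Pool.Agent.AFA

open Polynomial

/-- The symmetric group of degree 10, from `Y ^ 10 + Y ^ 3 + 1 + x Y ^ 4`. -/
theorem sym10 : Realizes (Equiv.Perm (Fin 10)) := by
  refine sym_big (n := 10) (r := 7) (m := 7) (X ^ 10 + X ^ 3 + 1 : (ZMod 2)[X]) (X ^ 4 : (ZMod
      2)[X]) ?_ ?_ ?_ ?_ ?_ 2 ?_ ?_ 1 ((X + 1) * (X ^ 7 + X ^ 4 + 1))
    ?_ ?_ ?_ 1 (X ^ 7 + X ^ 4 + 1) ((X + 1) * (X ^ 2 + X + 1)) ?_ ?_ ?_ ?_ ?_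
  · monicity!
  · compute_degree!
  · rw [natDegree_X_pow]; norm_num
  · exact pow_ne_zero _ X_ne_zero
  · exact coprime_one_coeff _ (by simp) 4
  · have h2 := zmod_two_poly2
    simp only [lin, Polynomial.map_add, Polynomial.map_pow, Polynomial.map_X, Polynomial.map_one,
      derivative_add, derivative_X_pow, derivative_mul, derivative_C, derivative_one,
      Nat.cast_ofNat, map_ofNat]
    norm_num
    linear_combination (5 * X ^ 9 + X ^ 2 + 2 * C X * X ^ 3) * h2
  · right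
    simp [lin]
  · rw [map_one]
    linear_combination (-X ^ 9 - X ^ 8 - X ^ 7 - X ^ 6 - X ^ 5 - X ^ 2 - X) * zmod_two_poly
  · decide
  · intro κ _ _ w hw
    have h2 := two_eq_zero_of_algebra κ
    have hw0 : (w + 1) * (w ^ 7 + w ^ 4 + 1) = 0 := by simpa using hw
    rcases mul_eq_zero.1 hw0 with h | h
    · have h1 : w = 1 := by linear_combination h - h2
      rw [h1, one_pow]
    · exact (rc7b h2 w h).1
  · rw [map_one]
    linear_combination (-X ^ 9 - X ^ 8 - X ^ 7 - X ^ 6 - X ^ 5 - X ^ 2 - X) * zmod_two_poly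
  · have h : (X ^ 7 + X ^ 4 + 1 : (ZMod 2)[X]).natDegree = 7 := by compute_degree!
    rw [h]; norm_num
  · norm_num
  · norm_num
  · intro κ _ _ w hw
    exact rc7b (two_eq_zero_of_algebra κ) w (by simpa using hw)

end Pool.Agent.AFA
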