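import Pool.Agent.AFA.N10

set_option autoImplicit false

namespace Pool.Agent.AFA

open Polynomial

/-- The symmetric group of degree 16, from `Y ^ 16 + Y + 1 + x Y ^ 6`. -/
theorem sym16 : Realizes (Equiv.Perm (Fin 16)) := by
  refine sym_big (n := 16) (r := 13) (m := 13) (X ^ 16 + X + 1 : (ZMod 2)[X]) (X ^ 6 : (ZMod
      2)[X]) ?_ ?_ ?_ ?_ ?_ 0 ?_ ?_ 1 ((X + 1) * (X ^ 13 + X ^ 10 + X ^ 7 + X ^ 4 + X ^ 3 + X + 1))
    ?_ ?_ ?_ 1 (X ^ 13 + X ^ 10 + X ^ 7 + X ^ 4 + X ^ 3 + X + 1) ((X + 1) * (X ^ 2 + X + 1)) ?_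
        ?_ ?_ ?_ ?_
  · monicity!
  · compute_degree!
  · rw [natDegree_X_pow]; norm_num
  · exact pow_ne_zero _ X_ne_zero
  · exact coprime_one_coeff _ (by simp) 6
  · have h2 := zmod_two_poly2
    simp only [lin, Polynomial.map_add, Polynomial.map_pow, Polynomial.map_X, Polynomial.map_one,
      derivative_add, derivative_X_pow, derivative_mul, derivative_C, derivative_one,
      Nat.cast_ofNat, map_ofNat, derivative_X]
    norm_num
    linear_combination (8 * X ^ 15 + 3 * C X * X ^ 5) * h2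
  · exact Or.inl rfl
  · rw [map_one]
    linear_combination (-X ^ 15 - X ^ 14 - X ^ 13 - X ^ 12 - X ^ 11 - X ^ 10 - X ^ 9 - X ^ 8 - X
        ^ 7 - X ^ 6 - 2 * X ^ 5 - 2 * X ^ 4 - 2 * X ^ 3 - 2 * X ^ 2 - X) * zmod_two_poly
  · decide
  · intro κ _ _ w hw
    have h2 := two_eq_zero_of_algebra κ
    have hw0 : (w + 1) * (w ^ 13 + w ^ 10 + w ^ 7 + w ^ 4 + w ^ 3 + w + 1) = 0 := by simpa using hw
    rcases mul_eq_zero.1 hw0 with h | h
    · have h1 : w = 1 := by linear_combination h - h2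
      rw [h1, one_pow]
    · exact (rc13b h2 w h).1
  · rw [map_one]
    linear_combination (-X ^ 15 - X ^ 14 - X ^ 13 - X ^ 12 - X ^ 11 - X ^ 10 - X ^ 9 - X ^ 8 - X
        ^ 7 - X ^ 6 - 2 * X ^ 5 - 2 * X ^ 4 - 2 * X ^ 3 - 2 * X ^ 2 - X) * zmod_two_poly
  · have h : (X ^ 13 + X ^ 10 + X ^ 7 + X ^ 4 + X ^ 3 + X + 1 : (ZMod 2)[X]).natDegree = 13 :=
      by compute_degree!
    rw [h]; norm_num
  · norm_num
  · norm_num
  · intro κ _ _ w hw
    exact rc13b (two_eq_zero_of_algebra κ) w (by simpa using hw)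

end Pool.Agent.AFA
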