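import Pool.Agent.AFA.N10

set_option autoImplicit false

namespace Pool.Agent.AFA

open Polynomial

/-- The symmetric group of degree 2, from `Y ^ 2 + Y + x Y ^ 0`. -/
theorem sym2 : Realizes (Equiv.Perm (Fin 2)) := by
  refine sym_prime (n := 2) (m := 1) (by norm_num) (X ^ 2 + X : (ZMod 2)[X]) (1 : (ZMod 2)[X])
      ?_ ?_ ?_ ?_ ?_ 0 ?_ ?_ 1 (1)
    ?_ ?_ ?_
  · monicity!
  · compute_degree!
  · rw [natDegree_one]; norm_num
  · exact one_ne_zero
  · exact isCoprime_one_right
  · have h2 := zmod_two_poly2
    simp only [lin, Polynomial.map_add, Polynomial.map_pow, Polynomial.map_X, Polynomial.map_one,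
      derivative_add, derivative_X_pow, derivative_mul, derivative_C, derivative_one,
      Nat.cast_ofNat, map_ofNat, derivative_X]
    norm_num
    exact h2
  · exact Or.inl rfl
  · rw [map_one]
    linear_combination (0) * zmod_two_poly
  · decide
  · intro κ _ _ w hw
    have h2 := two_eq_zero_of_algebra κ
    exact absurd hw (by simp)

end Pool.Agent.AFA
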