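import Pool.Agent.AFA.J1

set_option autoImplicit false

namespace Pool.Agent.AFA

open Equiv.Perm MulAction

/-- ROW N8b. A transitive group of degree at most 5 whose order is divisible by 3 contains the
alternating group.

Proof. As in `alternating_le` (file `J3.lean`) with `r = 3`: by Cauchy there is `g ∈ G` of order 3,
as `n < 6` it is a cycle (`Equiv.Perm.isCycle_of_prime_order'`), with support of cardinality 3, so a
3-cycle (`card_support_eq_three_iff`), and `G` is preprimitive by `isPreprimitive_of_cycle`; now use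
`alternatingGroup_le_of_isPreprimitive_of_isThreeCycle_mem`. -/
theorem alternating_le_small {n : ℕ} (hn : n < 6) (G : Subgroup (Equiv.Perm (Fin n)))
    (htr : ∀ i j : Fin n, ∃ g ∈ G, g i = j) (h : 3 ∣ Nat.card G) :
    alternatingGroup (Fin n) ≤ G := by
  have hr : (3 : ℕ).Prime := Nat.prime_three
  have : Fact (3 : ℕ).Prime := ⟨hr⟩
  obtain ⟨g0, hg0⟩ := exists_prime_orderOf_dvd_card' (G := G) 3 h
  obtain ⟨g, hgG⟩ := g0
  have hgo : orderOf g = 3 := by
    rw [← hg0, Subgroup.orderOf_mk]
  have hgc : g.IsCycle := isCycle_of_prime_order' (by rw [hgo]; exact hr)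
    (by rw [hgo, Fintype.card_fin]; omega)
  have hgs : g.support.card = 3 := by rw [← hgc.orderOf, hgo]
  have htr' : IsPretransitive G (Fin n) := ⟨fun i j => by
    obtain ⟨h, hh, e⟩ := htr i j
    exact ⟨⟨h, hh⟩, e⟩⟩
  have hprim := isPreprimitive_of_cycle G htr' hr hgc hgs hgG
    (by rw [Fintype.card_fin]; omega)
  exact alternatingGroup_le_of_isPreprimitive_of_isThreeCycle_mem hprim
    (card_support_eq_three_iff.1 hgs) hgG

end Pool.Agent.AFA
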