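import Mathlib

set_option autoImplicit false

namespace Pool.Agent.AFA

open Equiv.Perm MulAction

theorem n8e_dec : ∀ g : Equiv.Perm (Fin 4), g ^ 4 = 1 → sign g = 1 → g ^ 2 = 1 := by
  decide +kernel

/-- ROW N8e. Degree 4: a subgroup containing the alternating group and an element `g` with
`g ^ 2 ≠ 1`, `g ^ 4 = 1` is everything.

Proof. No even permutation of 4 points has this property (`decide` over `Perm (Fin 4)`: for all `g`,
`g ^ 4 = 1 → sign g = 1 → g ^ 2 = 1`), so `g` is odd. For any `h : Perm (Fin 4)`: if `sign h = 1`,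
`h` is in the alternating group; otherwise `g⁻¹ * h` is even, so `h = g * (g⁻¹ * h) ∈ G`. -/
theorem eq_top_of_four (G : Subgroup (Equiv.Perm (Fin 4))) (hle : alternatingGroup (Fin 4) ≤ G)
    (h : ∃ g ∈ G, g ^ 2 ≠ 1 ∧ g ^ 4 = 1) : G = ⊤ := by
  obtain ⟨g, hg, h2, h4⟩ := h
  have hodd : sign g ≠ 1 := fun hs => h2 (n8e_dec g h4 hs)
  have hsg : sign g = -1 := (Int.units_eq_one_or (sign g)).resolve_left hodd
  rw [eq_top_iff]
  intro k _
  rcases Int.units_eq_one_or (sign k) with hk | hk
  · exact hle (Equiv.Perm.mem_alternatingGroup.mpr hk)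
  · have h5 : g⁻¹ * k ∈ alternatingGroup (Fin 4) := by
      rw [Equiv.Perm.mem_alternatingGroup, map_mul, map_inv, hsg, hk]
      decide
    have h6 := G.mul_mem hg (hle h5)
    rwa [mul_inv_cancel_left] at h6

end Pool.Agent.AFA
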