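import Pool.Agent.AFA.N4

set_option autoImplicit false

namespace Pool.Agent.AFA

open Polynomial

/-- ROW N9. If all roots `w` of the specialised polynomial satisfy `w ^ (q ^ 4) = w` and
`w ^ (q ^ 2) ≠ w` then the group contains an element `g` with `g ^ 2 ≠ 1` and `g ^ 4 = 1`.

Proof. Take `σ`, `κ`, `y` from `exists_frob` and `g = ρ σ ∈ ρ.range`. By induction on `m`,
`y ((g ^ m) j) = y j ^ (q ^ m)`. Every `y j` is a root of the specialised polynomial (evaluate the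
product). So `y ((g ^ 4) j) = y j` for all `j`, hence `g ^ 4 = 1` (`y` injective); and for the index
`j = ⟨0, hn⟩`, `y ((g ^ 2) j) ≠ y j`, so `g ^ 2 ≠ 1`. -/
theorem exists_order_four {P₀ : (ZMod 2)[X][X]} {n : ℕ} (hn : 0 < n) (hm : P₀.Monic)
    (hcop : IsCoprime P₀ (derivative P₀)) {F : Type} [Field F] [Fintype F]
    (φ : (ZMod 2)[X] →+* F) (hφ : Function.Surjective φ)
    (hroot : ∀ (κ : Type) [Field κ] [Algebra F κ] (w : κ), aeval w (P₀.map φ) = 0 →
      w ^ (Fintype.card F ^ 4) = w ∧ w ^ (Fintype.card F ^ 2) ≠ w) :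
    AllMdl P₀ n (fun G => ∃ g ∈ G, g ^ 2 ≠ 1 ∧ g ^ 4 = 1) := by
  intro L _ _ _ _ _ _ z ρ M
  obtain ⟨σ, κ, _, _, y, hy, hprod, hact⟩ := exists_frob hm hcop M φ hφ
  have hpow : ∀ m j, y ((ρ σ ^ m) j) = y j ^ (Fintype.card F ^ m) := by
    intro m
    induction m with
    | zero => intro j; simp
    | succ m ih =>
      intro j
      rw [pow_succ, Equiv.Perm.mul_apply, ih, hact, ← pow_mul, pow_succ, mul_comm]
  have hr : ∀ j, aeval (y j) (P₀.map φ) = 0 := by
    intro j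
    rw [aeval_def, eval₂_eq_eval_map, hprod, eval_prod]
    refine Finset.prod_eq_zero (Finset.mem_univ j) ?_
    simp
  refine ⟨ρ σ, ⟨σ, rfl⟩, ?_, ?_⟩
  · intro h
    have h1 := (hroot κ (y ⟨0, hn⟩) (hr _)).2
    apply h1
    rw [← hpow, h]
    rfl
  · refine Equiv.ext fun j => hy ?_
    rw [hpow, (hroot κ (y j) (hr j)).1]
    rfl

end Pool.Agent.AFA
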