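import Pool.Agent.AFA.N10
import Pool.Agent.AFA.N8b
import Pool.Agent.AFA.N8e
import Pool.Agent.AFA.N9

set_option autoImplicit false

namespace Pool.Agent.AFA

open Polynomial

/-- The symmetric group of degree 4, from `Y ^ 4 + x Y ^ 2 + Y + 1`. -/
theorem sym4 : Realizes (Equiv.Perm (Fin 4)) := by
  have hG : (X ^ 4 + X + 1 : (ZMod 2)[X]).Monic := by monicity!
  have hn : (X ^ 4 + X + 1 : (ZMod 2)[X]).natDegree = 4 := by compute_degree!
  have hlt : (X ^ 2 : (ZMod 2)[X]).natDegree < 4 := by rw [natDegree_X_pow]; norm_num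
  have hcop : IsCoprime (X ^ 4 + X + 1 : (ZMod 2)[X]) (X ^ 2) := coprime_one_coeff _ (by simp) 2
  obtain ⟨hm, hdn⟩ := lin_monic hG hn hlt
  have hc : IsCoprime (lin (X ^ 4 + X + 1) (X ^ 2)) (derivative (lin (X ^ 4 + X + 1) (X ^ 2))) := by
    refine coprime_of_derivative _ 0 ?_ (Or.inl rfl)
    have h2 := zmod_two_poly2
    simp only [lin, Polynomial.map_add, Polynomial.map_pow, Polynomial.map_X, Polynomial.map_one,
      derivative_add, derivative_X_pow, derivative_mul, derivative_C, derivative_one,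
      Nat.cast_ofNat, map_ofNat, derivative_X]
    norm_num
    linear_combination (2 * X ^ 3 + C X * X) * h2
  refine realizes_sym (lin (X ^ 4 + X + 1) (X ^ 2)) hm hdn hc ?_
  have h1 := lin_trans hG hn hlt (pow_ne_zero _ X_ne_zero) hcop
  have h3 : AllMdl (lin (X ^ 4 + X + 1) (X ^ 2)) 4 (fun G => 3 ∣ Nat.card G) := by
    refine dvd_card_of_factor_two hm hc 1 (X ^ 3 + X ^ 2 + 1) (X + 1) ?_ ?_ (by norm_num) ?_
    · rw [lin_eval, map_one]
      linear_combination (-X ^ 3) * zmod_two_poly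
    · have h : (X ^ 3 + X ^ 2 + 1 : (ZMod 2)[X]).natDegree = 3 := by compute_degree!
      rw [h]; norm_num
    · intro κ _ _ w hw
      exact rc3b (two_eq_zero_of_algebra κ) w (by simpa using hw)
  have h4 := exists_order_four (n := 4) (by norm_num) hm hc (evalRingHom (0 : ZMod 2))
    (evalRingHom_surjective 0) (by
      intro κ _ _ w hw
      rw [lin_eval, map_zero, zero_mul, add_zero] at hw
      rw [ZMod.card]
      exact rc4 (two_eq_zero_of_algebra κ) w (by simpa using hw))
  exact ((h1.and h3).and h4).mono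
    (fun Γ hΓ => eq_top_of_four Γ (alternating_le_small (by norm_num) Γ hΓ.1.1 hΓ.1.2) hΓ.2)

end Pool.Agent.AFA
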