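import Pool.Agent.AFA.N10

set_option autoImplicit false

namespace Pool.Agent.AFA

open Polynomial

/-- The symmetric group of degree 6, from `Y ^ 6 + Y ^ 4 + Y + x Y ^ 0`. -/
theorem sym6 : Realizes (Equiv.Perm (Fin 6)) := by
  refine sym_big (n := 6) (r := 5) (m := 3) (X ^ 6 + X ^ 4 + X : (ZMod 2)[X]) (1 : (ZMod 2)[X])
      ?_ ?_ ?_ ?_ ?_ 0 ?_ ?_ 1 ((X + 1) * (X ^ 3 + X + 1))
    ?_ ?_ ?_ 0 (X ^ 5 + X ^ 3 + 1) ((X)) ?_ ?_ ?_ ?_ ?_
  · monicity!
  · compute_degree!
  · rw [natDegree_one]; norm_num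
  · exact one_ne_zero
  · exact isCoprime_one_right
  · have h2 := zmod_two_poly2
    simp only [lin, Polynomial.map_add, Polynomial.map_pow, Polynomial.map_X, Polynomial.map_one,
      derivative_add, derivative_X_pow, derivative_mul, derivative_C, derivative_one,
      Nat.cast_ofNat, map_ofNat, derivative_X]
    norm_num
    linear_combination (3 * X ^ 5 + 2 * X ^ 3) * h2
  · exact Or.inl rfl
  · rw [map_one]
    linear_combination (-X ^ 5 - X ^ 4 - 2 * X ^ 3 - 2 * X ^ 2 - X) * zmod_two_poly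
  · decide
  · intro κ _ _ w hw
    have h2 := two_eq_zero_of_algebra κ
    have hw0 : (w + 1) * (w ^ 3 + w + 1) = 0 := by simpa using hw
    rcases mul_eq_zero.1 hw0 with h | h
    · have h1 : w = 1 := by linear_combination h - h2
      rw [h1, one_pow]
    · exact (rc3 h2 w h).1
  · rw [map_zero]
    linear_combination (0) * zmod_two_poly
  · have h : (X ^ 5 + X ^ 3 + 1 : (ZMod 2)[X]).natDegree = 5 := by compute_degree!
    rw [h]; norm_num
  · norm_num
  · norm_num
  · intro κ _ _ w hw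
    exact rc5a (two_eq_zero_of_algebra κ) w (by simpa using hw)

end Pool.Agent.AFA
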