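import Pool.Agent.AFA.N10

set_option autoImplicit false

namespace Pool.Agent.AFA

open Polynomial

/-- The symmetric group of degree 7, from `Y ^ 7 + Y ^ 2 + 1 + x Y ^ 4`. -/
theorem sym7 : Realizes (Equiv.Perm (Fin 7)) := by
  refine sym_prime (n := 7) (m := 5) (by norm_num) (X ^ 7 + X ^ 2 + 1 : (ZMod 2)[X]) (X ^ 4 :
      (ZMod 2)[X]) ?_ ?_ ?_ ?_ ?_ 6 ?_ ?_ 0 ((X ^ 5 + X ^ 4 + X ^ 2 + X + 1))
    ?_ ?_ ?_
  · monicity!
  · compute_degree!
  · rw [natDegree_X_pow]; norm_num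
  · exact pow_ne_zero _ X_ne_zero
  · exact coprime_one_coeff _ (by simp) 4
  · have h2 := zmod_two_poly2
    simp only [lin, Polynomial.map_add, Polynomial.map_pow, Polynomial.map_X, Polynomial.map_one,
      derivative_add, derivative_X_pow, derivative_mul, derivative_C, derivative_one,
      Nat.cast_ofNat, map_ofNat]
    norm_num
    linear_combination (3 * X ^ 6 + X + 2 * C X * X ^ 3) * h2
  · right
    simp [lin]
  · rw [map_zero]
    linear_combination (-X ^ 6 - X ^ 5 - X ^ 4 - X ^ 3 - X ^ 2 - X) * zmod_two_poly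
  · decide
  · intro κ _ _ w hw
    have h2 := two_eq_zero_of_algebra κ
    have hw0 : (w ^ 5 + w ^ 4 + w ^ 2 + w + 1) = 0 := by simpa using hw
    exact (rc5b h2 w hw0).1

end Pool.Agent.AFA
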