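import Pool.Agent.AFA.N1

set_option autoImplicit false

namespace Pool.Agent.AFA

open Polynomial

theorem Realizes.congr {A B : Type} [Group A] [Group B] (e : A ≃* B) (h : Realizes A) :
    Realizes B := by
  obtain ⟨L, i1, i2, i3, i4, i5, i6, ⟨g⟩, hq⟩ := h
  exact ⟨L, i1, i2, i3, i4, i5, i6, ⟨g.trans e⟩, hq⟩

/-- The trivial group. -/
theorem realizes_trivial (A : Type) [Group A] [Subsingleton A] : Realizes A := by
  have h : Realizes (Equiv.Perm (Fin 1)) := by
    refine realizes_sym (X : (ZMod 2)[X][X]) monic_X natDegree_X ?_ ?_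
    · rw [derivative_X]
      exact isCoprime_one_right
    · intro L _ _ _ _ _ _ z ρ _
      exact Subsingleton.elim _ _
  exact h.congr ⟨⟨fun _ => 1, fun _ => 1, fun _ => Subsingleton.elim _ _,
    fun _ => Subsingleton.elim _ _⟩, fun _ _ => Subsingleton.elim _ _⟩

end Pool.Agent.AFA
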