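import Pool.Agent.AFA.M5
import Pool.Agent.AFA.PT
import Pool.Agent.AFA.PS2
import Pool.Agent.AFA.PS3
import Pool.Agent.AFA.PS4
import Pool.Agent.AFA.PS5
import Pool.Agent.AFA.PS6
import Pool.Agent.AFA.PS7
import Pool.Agent.AFA.PS8
import Pool.Agent.AFA.PS9
import Pool.Agent.AFA.PS10
import Pool.Agent.AFA.PS14
import Pool.Agent.AFA.PS15
import Pool.Agent.AFA.PS16
import Pool.Agent.AFA.PA3
import Pool.Agent.AFA.PA4
import Pool.Agent.AFA.PA5
import Pool.Agent.AFA.PA6
import Pool.Agent.AFA.PA7
import Pool.Agent.AFA.PA8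
import Pool.Agent.AFA.PA10
import Pool.Agent.AFA.PA11
import Pool.Agent.AFA.PA12
import Pool.Agent.AFA.PA14

set_option autoImplicit false

namespace Pool.Agent.AFA

/-- All degrees. -/
theorem realizes_every (n : ℕ) :
    Realizes (alternatingGroup (Fin n)) ∧ Realizes (Equiv.Perm (Fin n)) := by
  rcases Nat.lt_or_ge n 17 with h | h
  · interval_cases n
    · exact ⟨realizes_trivial _, realizes_trivial _⟩
    · exact ⟨realizes_trivial _, realizes_trivial _⟩
    · have h2 : Subsingleton (alternatingGroup (Fin 2)) := by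
        refine ⟨fun a b => ?_⟩
        have key : ∀ g : Equiv.Perm (Fin 2), Equiv.Perm.sign g = 1 → g = 1 := by decide
        rw [Subtype.ext_iff, key a.1 (Equiv.Perm.mem_alternatingGroup.1 a.2),
          key b.1 (Equiv.Perm.mem_alternatingGroup.1 b.2)]
      exact ⟨realizes_trivial _, sym2⟩
    · exact ⟨alt3, sym3⟩
    · exact ⟨alt4, sym4⟩
    · exact ⟨alt5, sym5⟩
    · exact ⟨alt6, sym6⟩
    · exact ⟨alt7, sym7⟩
    · exact ⟨alt8, sym8⟩
    · exact ⟨(odd_family0 (n := 9) (i := 1) (r := 5) (by decide) (by norm_num) (by norm_num)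
        (by norm_num) (by norm_num)).1 (by norm_num), sym9⟩
    · exact ⟨alt10, sym10⟩
    · exact ⟨alt11, (odd_family0 (n := 11) (i := 1) (r := 7) (by decide) (by norm_num)
        (by norm_num) (by norm_num) (by norm_num)).2 (by norm_num)⟩
    · exact ⟨alt12, (even_family (s := 1) (n := 12) (i := 1) (r := 7) (e := 0)
        (Or.inl ⟨rfl, rfl⟩) (by decide) (by norm_num) (by norm_num) (by norm_num) (by norm_num)
        (by norm_num)).2 (by norm_num)⟩
    · exact odd_family1 (n := 13) (i := 1) (r := 7) (by decide) (by norm_num) (by norm_num)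
        (by norm_num) (by norm_num)
    · exact ⟨alt14, sym14⟩
    · exact ⟨(odd_family0 (n := 15) (i := 1) (r := 11) (by decide) (by norm_num) (by norm_num)
        (by norm_num) (by norm_num)).1 (by norm_num), sym15⟩
    · exact ⟨(even_family (s := 1) (n := 16) (i := 1) (r := 11) (e := 0)
        (Or.inl ⟨rfl, rfl⟩) (by decide) (by norm_num) (by norm_num) (by norm_num) (by norm_num)
        (by norm_num)).1 (by norm_num), sym16⟩
  · exact realizes_all h

end Pool.Agent.AFA
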