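import Pool.Agent.AFA.Def

set_option autoImplicit false

namespace Pool.Agent.AFA

open Polynomial

/-- `L` is a splitting field of `P₀` over `F_2(x)`, `z` enumerates the roots, `ρ` is the action of
the Galois group on the roots, and `L` is unramified at all primes of the affine line. -/
structure Mdl (P₀ : (ZMod 2)[X][X]) (n : ℕ) (L : Type) [Field L] [Algebra (RatFunc (ZMod 2)) L]
    [Algebra (ZMod 2)[X] L] [IsScalarTower (ZMod 2)[X] (RatFunc (ZMod 2)) L] (z : Fin n → L)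
    (ρ : (L ≃ₐ[RatFunc (ZMod 2)] L) →* Equiv.Perm (Fin n)) : Prop where
  inj : Function.Injective z
  rinj : Function.Injective ρ
  act : ∀ (σ : L ≃ₐ[RatFunc (ZMod 2)] L) (j : Fin n), σ (z j) = z (ρ σ j)
  prod : (P₀.map (algebraMap (ZMod 2)[X] (RatFunc (ZMod 2)))).map
    (algebraMap (RatFunc (ZMod 2)) L) = ∏ j, (X - C (z j))
  top : IntermediateField.adjoin (RatFunc (ZMod 2)) (Set.range z) = ⊤
  unram : ∀ (q : Ideal (integralClosure (Polynomial (ZMod 2)) L)) (_ : q.IsPrime),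
    Algebra.IsUnramifiedAt (Polynomial (ZMod 2)) q

/-- Every model of `P₀` has a Galois group (as a group of permutations of the roots) with the
property `Q`. -/
def AllMdl (P₀ : (ZMod 2)[X][X]) (n : ℕ) (Q : Subgroup (Equiv.Perm (Fin n)) → Prop) : Prop :=
  ∀ (L : Type) [Field L] [Algebra (RatFunc (ZMod 2)) L] [Algebra (ZMod 2)[X] L]
    [IsScalarTower (ZMod 2)[X] (RatFunc (ZMod 2)) L] [FiniteDimensional (RatFunc (ZMod 2)) L]
    [IsGalois (RatFunc (ZMod 2)) L] (z : Fin n → L)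
    (ρ : (L ≃ₐ[RatFunc (ZMod 2)] L) →* Equiv.Perm (Fin n)), Mdl P₀ n L z ρ → Q ρ.range

theorem AllMdl.mono {P₀ : (ZMod 2)[X][X]} {n : ℕ} {Q Q' : Subgroup (Equiv.Perm (Fin n)) → Prop}
    (h : AllMdl P₀ n Q) (hQ : ∀ G, Q G → Q' G) : AllMdl P₀ n Q' :=
  fun L _ _ _ _ _ _ z ρ M => hQ _ (h L z ρ M)

theorem AllMdl.and {P₀ : (ZMod 2)[X][X]} {n : ℕ} {Q Q' : Subgroup (Equiv.Perm (Fin n)) → Prop}
    (h : AllMdl P₀ n Q) (h' : AllMdl P₀ n Q') : AllMdl P₀ n (fun G => Q G ∧ Q' G) :=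
  fun L _ _ _ _ _ _ z ρ M => ⟨h L z ρ M, h' L z ρ M⟩

end Pool.Agent.AFA
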