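import Pool.Agent.AFA.N0
import Pool.Agent.AFA.G1
import Pool.Agent.AFA.G2
import Pool.Agent.AFA.G3
import Pool.Agent.AFA.U1c

set_option autoImplicit false

namespace Pool.Agent.AFA

open Polynomial

/-- A model exists for every monic polynomial which is coprime to its derivative. -/
theorem exists_mdl (P₀ : (ZMod 2)[X][X]) {n : ℕ} (hm : P₀.Monic) (hdeg : P₀.natDegree = n)
    (hcop : IsCoprime P₀ (derivative P₀)) :
    ∃ (L : Type) (_ : Field L) (_ : Algebra (RatFunc (ZMod 2)) L)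
      (_ : Algebra (Polynomial (ZMod 2)) L)
      (_ : IsScalarTower (Polynomial (ZMod 2)) (RatFunc (ZMod 2)) L)
      (_ : FiniteDimensional (RatFunc (ZMod 2)) L) (_ : IsGalois (RatFunc (ZMod 2)) L)
      (z : Fin n → L) (ρ : (L ≃ₐ[RatFunc (ZMod 2)] L) →* Equiv.Perm (Fin n)), Mdl P₀ n L z ρ := by
  have hPm : (P₀.map (algebraMap (ZMod 2)[X] (RatFunc (ZMod 2)))).Monic := hm.map _
  have hPd : (P₀.map (algebraMap (ZMod 2)[X] (RatFunc (ZMod 2)))).natDegree = n := by
    rw [hm.natDegree_map, hdeg]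
  have hsep : (P₀.map (algebraMap (ZMod 2)[X] (RatFunc (ZMod 2)))).Separable := by
    unfold Polynomial.Separable
    rw [derivative_map]
    exact hcop.map (Polynomial.mapRingHom (algebraMap (ZMod 2)[X] (RatFunc (ZMod 2))))
  obtain ⟨L, i1, i2, i3, i4, i5, i6, z, hzinj, hzP, htop⟩ :=
    exists_splitting (A := (ZMod 2)[X]) _ hPm hsep hPd
  obtain ⟨ρ, hρ, hρz⟩ := exists_perm_rep _ z hzinj hzP htop
  refine ⟨L, i1, i2, i3, i4, i5, i6, z, ρ, hzinj, hρ, hρz, hzP, htop, ?_⟩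
  intro q hq
  refine isUnramifiedAt_of_coprime (K := RatFunc (ZMod 2)) P₀ hm hcop
    (Set.range z) (Set.finite_range z) htop ?_ q hq
  rintro y ⟨x, rfl⟩
  have h1 : aeval (z x) (P₀.map (algebraMap (ZMod 2)[X] (RatFunc (ZMod 2)))) = 0 := by
    rw [← Polynomial.eval_map_algebraMap, hzP, Polynomial.eval_prod]
    refine Finset.prod_eq_zero (Finset.mem_univ x) ?_
    rw [eval_sub, eval_X, eval_C, sub_self]
  rwa [Polynomial.aeval_map_algebraMap] at h1

/-- If the group of every model is the full symmetric group, the symmetric group is realized. -/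
theorem realizes_sym (P₀ : (ZMod 2)[X][X]) {n : ℕ} (hm : P₀.Monic) (hdeg : P₀.natDegree = n)
    (hcop : IsCoprime P₀ (derivative P₀)) (hQ : AllMdl P₀ n (fun G => G = ⊤)) :
    Realizes (Equiv.Perm (Fin n)) := by
  obtain ⟨L, i1, i2, i3, i4, i5, i6, z, ρ, M⟩ := exists_mdl P₀ hm hdeg hcop
  have h : ρ.range = ⊤ := hQ L z ρ M
  exact ⟨L, i1, i2, i3, i4, i5, i6,
    ⟨MulEquiv.ofBijective ρ ⟨M.rinj, MonoidHom.range_eq_top.1 h⟩⟩, M.unram⟩

end Pool.Agent.AFA
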