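import Pool.Agent.AFA.N4

set_option autoImplicit false

namespace Pool.Agent.AFA

open Polynomial

/-- ROW N5. If the specialised polynomial has a nonconstant factor `f` all of whose roots `w`
satisfy `w ^ (q ^ r) = w` and `w ^ q ≠ w`, `r` prime, then `r` divides the order of the group.

Proof. Take `σ`, `κ`, `y` from `exists_frob`, `π = ρ σ ∈ ρ.range`, so `y (π ^ m j) = y j ^ (q ^ m)`
for all `m`, `j` (induction). The image of `f` in `κ[X]` divides `∏ (X - C (y j))` and is not
constant, so it has a root among the `y j`: some `j` with `aeval (y j) f = 0`. Let `m` be the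
order of `π` (`orderOf`), `m > 0`. If `r ∤ m` there are naturals `a, b` with
`r a = m b + 1` (coprimality), so `y j = y j ^ (q ^ (r a)) = (y j ^ (q ^ (m b))) ^ q = y j ^ q`
(using `y j ^ (q ^ m) = y (π ^ m j) = y j`), a contradiction. So `r ∣ orderOf π ∣ Nat.card ρ.range`
(`Subgroup.orderOf_dvd_natCard`). -/
theorem dvd_card_of_factor {P₀ : (ZMod 2)[X][X]} {n : ℕ} (hm : P₀.Monic)
    (hcop : IsCoprime P₀ (derivative P₀)) {F : Type} [Field F] [Fintype F]
    (φ : (ZMod 2)[X] →+* F) (hφ : Function.Surjective φ) (f : F[X]) (hf : f ∣ P₀.map φ)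
    (hdeg : 0 < f.natDegree) {r : ℕ} (hr : r.Prime)
    (hroot : ∀ (κ : Type) [Field κ] [Algebra F κ] (w : κ), aeval w f = 0 →
      w ^ (Fintype.card F ^ r) = w ∧ w ^ Fintype.card F ≠ w) :
    AllMdl P₀ n (fun G => r ∣ Nat.card G) := by
  intro L _ _ _ _ _ _ z ρ M
  obtain ⟨σ, κ, _, _, y, hinj, hprod, hfrob⟩ := exists_frob hm hcop M φ hφ
  set q : ℕ := Fintype.card F with hq
  have hpow : ∀ (m : ℕ) (j : Fin n), y ((ρ σ ^ m) j) = y j ^ q ^ m := by
    intro m
    induction m with
    | zero => intro j; simp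
    | succ m ih =>
      intro j
      rw [pow_succ', Equiv.Perm.mul_apply, hfrob, ih, ← pow_mul, ← pow_succ]
  -- a root of `f` among the `y j`
  have hmap : f.map (algebraMap F κ) ∣ ∏ j, (X - C (y j)) := by
    rw [← hprod]
    exact Polynomial.map_dvd _ hf
  have hnu : ¬ IsUnit (f.map (algebraMap F κ)) := by
    intro hu
    have h1 := natDegree_eq_zero_of_isUnit hu
    rw [natDegree_map] at h1
    omega
  obtain ⟨g, -, hgi, hgd⟩ := exists_monic_irreducible_factor _ hnu
  obtain ⟨j, -, hj⟩ := hgi.prime.exists_mem_finset_dvd (hgd.trans hmap)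
  have hj' : X - C (y j) ∣ f.map (algebraMap F κ) :=
    ((hgi.associated_of_dvd (irreducible_X_sub_C (y j)) hj).symm.dvd).trans hgd
  have hroot0 : aeval (y j) f = 0 := by
    rw [dvd_iff_isRoot, IsRoot.def, eval_map_algebraMap] at hj'
    exact hj'
  obtain ⟨h1, h2⟩ := hroot κ (y j) hroot0
  have hdvd : r ∣ orderOf (ρ σ) := by
    by_contra hnd
    have hcopr : Nat.gcd r (orderOf (ρ σ)) = 1 := (Nat.Prime.coprime_iff_not_dvd hr).2 hnd
    have p1 : Function.IsPeriodicPt (fun x : κ => x ^ q) r (y j) := by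
      unfold Function.IsPeriodicPt Function.IsFixedPt
      rw [pow_iterate]
      exact h1
    have p2 : Function.IsPeriodicPt (fun x : κ => x ^ q) (orderOf (ρ σ)) (y j) := by
      unfold Function.IsPeriodicPt Function.IsFixedPt
      rw [pow_iterate]
      have h3 := hpow (orderOf (ρ σ)) j
      rw [pow_orderOf_eq_one, Equiv.Perm.one_apply] at h3
      exact h3.symm
    have p3 := p1.gcd p2
    rw [hcopr] at p3
    exact h2 p3
  exact hdvd.trans (Subgroup.orderOf_dvd_natCard _ ⟨σ, rfl⟩)

end Pool.Agent.AFA
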