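import Pool.Agent.AFA.N4

set_option autoImplicit false

namespace Pool.Agent.AFA

open Polynomial

/-- ROW N6. If the specialised polynomial is `f * h` where all roots `w` of `h` satisfy
`w ^ (q ^ m) = w` and no root of `f` does, then the group contains a permutation which moves
exactly `f.natDegree` points; for degree 3 it is a 3-cycle and for degree 2 a transposition.

Proof. Take `σ`, `κ`, `y` from `exists_frob`, `π = (ρ σ) ^ m ∈ ρ.range`, so
`y (π j) = y j ^ (q ^ m)` for all `j` (induction on `m`). Each `y j` is a root of exactly one of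
`f`, `h` (their product is `∏ (X - C (y j))`, squarefree as the `y j` are distinct). If
`h (y j) = 0` then `y (π j) = y j`, so `π j = j`; if `f (y j) = 0` then `π j ≠ j`. So the support
of `π` is the set of `j` with `aeval (y j) f = 0`. Its cardinality is `f.natDegree`: over `κ` the
image of `f` is (up to a nonzero constant) the product of `X - C (y j)` over these `j` (it divides
`∏ (X - C (y j))`; count: the number of roots of `f` plus the number of roots of `h` among the
`y j` is `n = deg f + deg h`, and each number is at most the degree). -/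
theorem exists_support_card {P₀ : (ZMod 2)[X][X]} {n : ℕ} (hm : P₀.Monic)
    (hcop : IsCoprime P₀ (derivative P₀)) {F : Type} [Field F] [Fintype F]
    (φ : (ZMod 2)[X] →+* F) (hφ : Function.Surjective φ) (f h : F[X]) (hfh : P₀.map φ = f * h)
    (m : ℕ)
    (hf : ∀ (κ : Type) [Field κ] [Algebra F κ] (w : κ), aeval w f = 0 →
      w ^ (Fintype.card F ^ m) ≠ w)
    (hh : ∀ (κ : Type) [Field κ] [Algebra F κ] (w : κ), aeval w h = 0 →
      w ^ (Fintype.card F ^ m) = w) :
    AllMdl P₀ n (fun G => ∃ g ∈ G, g.support.card = f.natDegree) := by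
  classical
  intro L _ _ _ _ _ _ z ρ M
  obtain ⟨σ, κ, _, _, y, hy, hprod, hact⟩ := exists_frob hm hcop M φ hφ
  refine ⟨(ρ σ) ^ m, ⟨σ ^ m, map_pow ρ σ m⟩, ?_⟩
  have hiter : ∀ k : ℕ, ∀ j, y (((ρ σ) ^ k) j) = y j ^ (Fintype.card F ^ k) := by
    intro k
    induction k with
    | zero => intro j; simp
    | succ k ih =>
      intro j
      rw [pow_succ', Equiv.Perm.mul_apply, hact, ih, ← pow_mul, ← pow_succ]
  set f' := f.map (algebraMap F κ) with hf'
  set h' := h.map (algebraMap F κ) with hh'
  have hmul : f' * h' = ∏ j, (X - C (y j)) := by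
    rw [← hprod, hfh, Polynomial.map_mul]
  have hmon : (f' * h').Monic := by
    rw [hmul]
    exact monic_prod_of_monic _ _ (fun j _ => monic_X_sub_C _)
  have hne : f' * h' ≠ 0 := hmon.ne_zero
  have hmulti : ∏ j, (X - C (y j)) = (((Finset.univ : Finset (Fin n)).val.map y).map
      (fun a => X - C a)).prod := by
    rw [Multiset.map_map]
    rfl
  have hroots : f'.roots + h'.roots = (Finset.univ : Finset (Fin n)).val.map y := by
    rw [← roots_mul hne, hmul, hmulti, roots_multiset_prod_X_sub_C]
  have hnat : f'.natDegree + h'.natDegree = n := by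
    rw [← natDegree_mul (left_ne_zero_of_mul hne) (right_ne_zero_of_mul hne), hmul, hmulti,
      natDegree_multiset_prod_X_sub_C_eq_card, Multiset.card_map]
    simp
  have hcard : f'.roots.card + h'.roots.card = n := by
    rw [← Multiset.card_add, hroots, Multiset.card_map]
    simp
  have hfc : f'.roots.card = f.natDegree := by
    have h1 := card_roots' f'
    have h2 := card_roots' h'
    have h3 : f'.natDegree = f.natDegree := natDegree_map _
    omega
  have hnd : f'.roots.Nodup := by
    have h1 : ((Finset.univ : Finset (Fin n)).val.map y).Nodup :=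
      Multiset.Nodup.map hy Finset.univ.nodup
    rw [← hroots] at h1
    exact Multiset.nodup_of_le (Multiset.le_add_right _ _) h1
  have hf0 : f' ≠ 0 := left_ne_zero_of_mul hne
  have hsupp : ((ρ σ) ^ m).support.image y = f'.roots.toFinset := by
    ext w
    rw [Finset.mem_image, Multiset.mem_toFinset]
    constructor
    · rintro ⟨j, hj, rfl⟩
      rw [Equiv.Perm.mem_support] at hj
      have h1 : y j ^ (Fintype.card F ^ m) ≠ y j := by
        intro h2
        apply hj
        apply hy
        rw [hiter m j, h2]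
      have h3 : aeval (y j) h ≠ 0 := fun h4 => h1 (hh κ (y j) h4)
      rw [mem_roots hf0, IsRoot.def]
      have h5 : eval (y j) (f' * h') = 0 := by
        rw [hmul, eval_prod]
        exact Finset.prod_eq_zero (Finset.mem_univ j) (by simp)
      rw [eval_mul] at h5
      rcases mul_eq_zero.mp h5 with h6 | h6
      · exact h6
      · exfalso
        apply h3
        rw [aeval_def, eval₂_eq_eval_map]
        exact h6
    · intro hw
      have h1 : w ∈ (Finset.univ : Finset (Fin n)).val.map y := by
        rw [← hroots]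
        exact Multiset.mem_add.mpr (Or.inl hw)
      obtain ⟨j, _, rfl⟩ := Multiset.mem_map.mp h1
      refine ⟨j, ?_, rfl⟩
      rw [Equiv.Perm.mem_support]
      intro h2
      rw [mem_roots hf0, IsRoot.def] at hw
      have h3 : aeval (y j) f = 0 := by
        rw [aeval_def, eval₂_eq_eval_map]
        exact hw
      apply hf κ (y j) h3
      rw [← hiter m j, h2]
  rw [← Finset.card_image_of_injective _ hy, hsupp, Multiset.toFinset_card_of_nodup hnd, hfc]

/-- The case of degree 3. -/
theorem three_cycle_of_factor {P₀ : (ZMod 2)[X][X]} {n : ℕ} (hm : P₀.Monic)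
    (hcop : IsCoprime P₀ (derivative P₀)) {F : Type} [Field F] [Fintype F]
    (φ : (ZMod 2)[X] →+* F) (hφ : Function.Surjective φ) (f h : F[X]) (hfh : P₀.map φ = f * h)
    (hdeg : f.natDegree = 3) (m : ℕ)
    (hf : ∀ (κ : Type) [Field κ] [Algebra F κ] (w : κ), aeval w f = 0 →
      w ^ (Fintype.card F ^ m) ≠ w)
    (hh : ∀ (κ : Type) [Field κ] [Algebra F κ] (w : κ), aeval w h = 0 →
      w ^ (Fintype.card F ^ m) = w) :
    AllMdl P₀ n (fun G => ∃ g ∈ G, g.IsThreeCycle) :=
  (exists_support_card hm hcop φ hφ f h hfh m hf hh).mono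
    (fun _ ⟨g, hg, hc⟩ => ⟨g, hg, card_support_eq_three_iff.1 (hc.trans hdeg)⟩)

/-- The case of degree 2. -/
theorem swap_of_factor {P₀ : (ZMod 2)[X][X]} {n : ℕ} (hm : P₀.Monic)
    (hcop : IsCoprime P₀ (derivative P₀)) {F : Type} [Field F] [Fintype F]
    (φ : (ZMod 2)[X] →+* F) (hφ : Function.Surjective φ) (f h : F[X]) (hfh : P₀.map φ = f * h)
    (hdeg : f.natDegree = 2) (m : ℕ)
    (hf : ∀ (κ : Type) [Field κ] [Algebra F κ] (w : κ), aeval w f = 0 →
      w ^ (Fintype.card F ^ m) ≠ w)
    (hh : ∀ (κ : Type) [Field κ] [Algebra F κ] (w : κ), aeval w h = 0 →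
      w ^ (Fintype.card F ^ m) = w) :
    AllMdl P₀ n (fun G => ∃ g ∈ G, g.IsSwap) :=
  (exists_support_card hm hcop φ hφ f h hfh m hf hh).mono
    (fun _ ⟨g, hg, hc⟩ => ⟨g, hg, Equiv.Perm.card_support_eq_two.1 (hc.trans hdeg)⟩)

end Pool.Agent.AFA
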