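import Pool.Agent.AFA.J1

set_option autoImplicit false

namespace Pool.Agent.AFA

open Equiv.Perm MulAction

theorem n8c_prim {n : ℕ} (hn : n.Prime) (G : Subgroup (Equiv.Perm (Fin n)))
    (htr : ∀ i j : Fin n, ∃ g ∈ G, g i = j) : IsPreprimitive G (Fin n) := by
  have htr' : IsPretransitive G (Fin n) := ⟨fun i j => by
    obtain ⟨h, hh, e⟩ := htr i j
    exact ⟨⟨h, hh⟩, e⟩⟩
  apply IsPreprimitive.of_prime_card
  rw [Nat.card_eq_fintype_card, Fintype.card_fin]
  exact hn

/-- ROW N8c. Prime degree: a transitive group with a 3-cycle contains the alternating group, a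
transitive group with a transposition is the symmetric group.

Proof. A transitive action on a set of prime cardinality is preprimitive
(`IsPreprimitive.of_prime_card`; see `J1.lean`, `J3.lean` for the passage between the explicit
transitivity and `IsPretransitive`); then
`alternatingGroup_le_of_isPreprimitive_of_isThreeCycle_mem`, resp.
`subgroup_eq_top_of_isPreprimitive_of_isSwap_mem` (for `n = 2` too). -/
theorem alternating_le_of_prime {n : ℕ} (hn : n.Prime) (G : Subgroup (Equiv.Perm (Fin n)))
    (htr : ∀ i j : Fin n, ∃ g ∈ G, g i = j) (h : ∃ g ∈ G, g.IsThreeCycle) :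
    alternatingGroup (Fin n) ≤ G := by
  obtain ⟨g, hg, h3⟩ := h
  exact alternatingGroup_le_of_isPreprimitive_of_isThreeCycle_mem (n8c_prim hn G htr) h3 hg

theorem eq_top_of_prime {n : ℕ} (hn : n.Prime) (G : Subgroup (Equiv.Perm (Fin n)))
    (htr : ∀ i j : Fin n, ∃ g ∈ G, g i = j) (h : ∃ g ∈ G, g.IsSwap) : G = ⊤ := by
  obtain ⟨g, hg, h2⟩ := h
  exact subgroup_eq_top_of_isPreprimitive_of_isSwap_mem (n8c_prim hn G htr) g h2 hg

end Pool.Agent.AFA
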