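import Pool.Agent.AFA.J1

set_option autoImplicit false

namespace Pool.Agent.AFA

open Equiv.Perm MulAction

theorem n8d_prim {n r : ℕ} (hr : r.Prime) (hbig : n < 2 * r)
    (G : Subgroup (Equiv.Perm (Fin n))) (htr : ∀ i j : Fin n, ∃ g ∈ G, g i = j)
    (hdvd : r ∣ Nat.card G) : IsPreprimitive G (Fin n) := by
  have : Fact r.Prime := ⟨hr⟩
  obtain ⟨g0, hg0⟩ := exists_prime_orderOf_dvd_card' (G := G) r hdvd
  obtain ⟨g, hgG⟩ := g0
  have hgo : orderOf g = r := by
    rw [← hg0, Subgroup.orderOf_mk]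
  have hgc : g.IsCycle := isCycle_of_prime_order' (by rw [hgo]; exact hr)
    (by rw [hgo, Fintype.card_fin]; exact hbig)
  have hgs : g.support.card = r := by rw [← hgc.orderOf, hgo]
  have htr' : IsPretransitive G (Fin n) := ⟨fun i j => by
    obtain ⟨h, hh, e⟩ := htr i j
    exact ⟨⟨h, hh⟩, e⟩⟩
  exact isPreprimitive_of_cycle G htr' hr hgc hgs hgG (by rw [Fintype.card_fin]; exact hbig)

/-- ROW N8d. A transitive group whose order is divisible by a prime `r > n / 2` and which contains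
a 3-cycle (a transposition) contains the alternating group (is the symmetric group).

Proof. By Cauchy and `isCycle_of_prime_order'` there is a cycle of length `r` in `G` (as in the proof
of `alternating_le`, file `J3.lean`), so `G` is preprimitive by `isPreprimitive_of_cycle`; then
`alternatingGroup_le_of_isPreprimitive_of_isThreeCycle_mem`, resp.
`subgroup_eq_top_of_isPreprimitive_of_isSwap_mem`. -/
theorem alternating_le_of_big {n r : ℕ} (hr : r.Prime) (hbig : n < 2 * r)
    (G : Subgroup (Equiv.Perm (Fin n))) (htr : ∀ i j : Fin n, ∃ g ∈ G, g i = j)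
    (hdvd : r ∣ Nat.card G) (h : ∃ g ∈ G, g.IsThreeCycle) : alternatingGroup (Fin n) ≤ G := by
  obtain ⟨g, hg, h3⟩ := h
  exact alternatingGroup_le_of_isPreprimitive_of_isThreeCycle_mem (n8d_prim hr hbig G htr hdvd) h3 hg

theorem eq_top_of_big {n r : ℕ} (hr : r.Prime) (hbig : n < 2 * r)
    (G : Subgroup (Equiv.Perm (Fin n))) (htr : ∀ i j : Fin n, ∃ g ∈ G, g i = j)
    (hdvd : r ∣ Nat.card G) (h : ∃ g ∈ G, g.IsSwap) : G = ⊤ := by
  obtain ⟨g, hg, h2⟩ := h
  exact subgroup_eq_top_of_isPreprimitive_of_isSwap_mem (n8d_prim hr hbig G htr hdvd) g h2 hg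

end Pool.Agent.AFA
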