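import Mathlib

set_option autoImplicit false

namespace Pool.Agent.AFA

/-- Roots of `Y ^ 3 + Y + 1`. -/
theorem rc3 {κ : Type} [Field κ] (h2 : (2 : κ) = 0) (w : κ)
    (hf : w ^ 3 + w + 1 = 0) :
    w ^ (2 ^ 3) = w ∧ w ^ (2 ^ 1) ≠ w := by
  have e0 : w ^ 1 = w := pow_one w
  have e1 : w ^ 2 = w ^ 2 := rfl
  have e2 : w ^ 4 = w ^ 2 + w := by
    linear_combination (w ^ 2 + (w ^ 2)) * e1 + (w) * hf + (-w ^ 2 - w) * h2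
  have e3 : w ^ 8 = w := by
    linear_combination (w ^ 4 + (w ^ 2 + w)) * e2 + (w) * hf + (w ^ 3 - w) * h2
  refine ⟨?_, ?_⟩
  · rw [show (2 : ℕ) ^ 3 = 8 from rfl]
    exact e3
  · intro hw
    rw [show (2 : ℕ) ^ 1 = 2 from rfl, e1] at hw
    have h1 : (1 : κ) = 0 := by
      linear_combination (w + 1) * hw + (1) * hf - (w ^ 3) * h2
    exact one_ne_zero h1

/-- Roots of `Y ^ 3 + Y ^ 2 + 1`. -/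
theorem rc3b {κ : Type} [Field κ] (h2 : (2 : κ) = 0) (w : κ)
    (hf : w ^ 3 + w ^ 2 + 1 = 0) :
    w ^ (2 ^ 3) = w ∧ w ^ (2 ^ 1) ≠ w := by
  have e0 : w ^ 1 = w := pow_one w
  have e1 : w ^ 2 = w ^ 2 := rfl
  have e2 : w ^ 4 = w ^ 2 + w + 1 := by
    linear_combination (w ^ 2 + (w ^ 2)) * e1 + (w + 1) * hf + (-w ^ 3 - w ^ 2 - w - 1) * h2
  have e3 : w ^ 8 = w := by
    linear_combination (w ^ 4 + (w ^ 2 + w + 1)) * e2 + (w + 1) * hf + (w ^ 2) * h2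
  refine ⟨?_, ?_⟩
  · rw [show (2 : ℕ) ^ 3 = 8 from rfl]
    exact e3
  · intro hw
    rw [show (2 : ℕ) ^ 1 = 2 from rfl, e1] at hw
    have h1 : (1 : κ) = 0 := by
      linear_combination (w) * hw + (1) * hf - (w ^ 3) * h2
    exact one_ne_zero h1

/-- Roots of `Y ^ 4 + Y + 1`. -/
theorem rc4 {κ : Type} [Field κ] (h2 : (2 : κ) = 0) (w : κ)
    (hf : w ^ 4 + w + 1 = 0) :
    w ^ (2 ^ 4) = w ∧ w ^ (2 ^ 2) ≠ w := by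
  have e0 : w ^ 1 = w := pow_one w
  have e1 : w ^ 2 = w ^ 2 := rfl
  have e2 : w ^ 4 = w + 1 := by
    linear_combination (w ^ 2 + (w ^ 2)) * e1 + (1) * hf + (-w - 1) * h2
  have e3 : w ^ 8 = w ^ 2 + 1 := by
    linear_combination (w ^ 4 + (w + 1)) * e2 + (w) * h2
  have e4 : w ^ 16 = w := by
    linear_combination (w ^ 8 + (w ^ 2 + 1)) * e3 + (1) * hf + (w ^ 2 - w) * h2
  refine ⟨?_, ?_⟩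
  · rw [show (2 : ℕ) ^ 4 = 16 from rfl]
    exact e4
  · intro hw
    rw [show (2 : ℕ) ^ 2 = 4 from rfl, e2] at hw
    have h1 : (1 : κ) = 0 := by
      linear_combination (1) * hw + (0) * hf - (0) * h2
    exact one_ne_zero h1

/-- Roots of `Y ^ 5 + Y ^ 3 + 1`. -/
theorem rc5a {κ : Type} [Field κ] (h2 : (2 : κ) = 0) (w : κ)
    (hf : w ^ 5 + w ^ 3 + 1 = 0) :
    w ^ (2 ^ 5) = w ∧ w ^ (2 ^ 1) ≠ w := by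
  have e0 : w ^ 1 = w := pow_one w
  have e1 : w ^ 2 = w ^ 2 := rfl
  have e2 : w ^ 4 = w ^ 4 := rfl
  have e3 : w ^ 8 = w ^ 4 + w ^ 3 + w := by
    linear_combination (w ^ 4 + (w ^ 4)) * e2 + (w ^ 3 + w) * hf + (-w ^ 6 - w ^ 4 - w ^ 3 - w) * h2
  have e4 : w ^ 16 = w ^ 3 + w ^ 2 := by
    linear_combination (w ^ 8 + (w ^ 4 + w ^ 3 + w)) * e3 + (w ^ 3) * hf + (w ^ 7 + w ^ 5 + w ^
        4 - w ^ 3) * h2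
  have e5 : w ^ 32 = w := by
    linear_combination (w ^ 16 + (w ^ 3 + w ^ 2)) * e4 + (w) * hf + (w ^ 5 - w) * h2
  refine ⟨?_, ?_⟩
  · rw [show (2 : ℕ) ^ 5 = 32 from rfl]
    exact e5
  · intro hw
    rw [show (2 : ℕ) ^ 1 = 2 from rfl, e1] at hw
    have h1 : (1 : κ) = 0 := by
      linear_combination (w ^ 3 + w ^ 2) * hw + (1) * hf - (w ^ 5) * h2
    exact one_ne_zero h1

/-- Roots of `Y ^ 5 + Y ^ 4 + Y ^ 2 + Y + 1`. -/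
theorem rc5b {κ : Type} [Field κ] (h2 : (2 : κ) = 0) (w : κ)
    (hf : w ^ 5 + w ^ 4 + w ^ 2 + w + 1 = 0) :
    w ^ (2 ^ 5) = w ∧ w ^ (2 ^ 1) ≠ w := by
  have e0 : w ^ 1 = w := pow_one w
  have e1 : w ^ 2 = w ^ 2 := rfl
  have e2 : w ^ 4 = w ^ 4 := rfl
  have e3 : w ^ 8 = w ^ 3 + w := by
    linear_combination (w ^ 4 + (w ^ 4)) * e2 + (w ^ 3 + w ^ 2 + w) * hf + (-w ^ 7 - w ^ 6 - w ^
        5 - w ^ 4 - 2 * w ^ 3 - w ^ 2 - w) * h2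
  have e4 : w ^ 16 = w ^ 4 + w ^ 3 + w ^ 2 + 1 := by
    linear_combination (w ^ 8 + (w ^ 3 + w)) * e3 + (w + 1) * hf + (-w ^ 5 - w ^ 3 - w ^ 2 - w -
        1) * h2
  have e5 : w ^ 32 = w := by
    linear_combination (w ^ 16 + (w ^ 4 + w ^ 3 + w ^ 2 + 1)) * e4 + (w ^ 3 + w ^ 2 + 1) * hf +
        (w ^ 6 - w) * h2
  refine ⟨?_, ?_⟩
  · rw [show (2 : ℕ) ^ 5 = 32 from rfl]
    exact e5
  · intro hw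
    rw [show (2 : ℕ) ^ 1 = 2 from rfl, e1] at hw
    have h1 : (1 : κ) = 0 := by
      linear_combination (w ^ 3 + 1) * hw + (1) * hf - (w ^ 5 + w ^ 2) * h2
    exact one_ne_zero h1

/-- Roots of `Y ^ 5 + Y ^ 2 + 1`. -/
theorem rc5c {κ : Type} [Field κ] (h2 : (2 : κ) = 0) (w : κ)
    (hf : w ^ 5 + w ^ 2 + 1 = 0) :
    w ^ (2 ^ 5) = w ∧ w ^ (2 ^ 1) ≠ w := by
  have e0 : w ^ 1 = w := pow_one w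
  have e1 : w ^ 2 = w ^ 2 := rfl
  have e2 : w ^ 4 = w ^ 4 := rfl
  have e3 : w ^ 8 = w ^ 3 + w ^ 2 + 1 := by
    linear_combination (w ^ 4 + (w ^ 4)) * e2 + (w ^ 3 + 1) * hf + (-w ^ 5 - w ^ 3 - w ^ 2 - 1) * h2
  have e4 : w ^ 16 = w ^ 4 + w ^ 3 + w + 1 := by
    linear_combination (w ^ 8 + (w ^ 3 + w ^ 2 + 1)) * e3 + (w) * hf + (w ^ 5 + w ^ 2 - w) * h2
  have e5 : w ^ 32 = w := by
    linear_combination (w ^ 16 + (w ^ 4 + w ^ 3 + w + 1)) * e4 + (w ^ 3 + w + 1) * hf + (w ^ 7 +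
        2 * w ^ 4) * h2
  refine ⟨?_, ?_⟩
  · rw [show (2 : ℕ) ^ 5 = 32 from rfl]
    exact e5
  · intro hw
    rw [show (2 : ℕ) ^ 1 = 2 from rfl, e1] at hw
    have h1 : (1 : κ) = 0 := by
      linear_combination (w ^ 3 + w ^ 2 + w) * hw + (1) * hf - (w ^ 5) * h2
    exact one_ne_zero h1

/-- Roots of `Y ^ 7 + Y ^ 5 + Y ^ 3 + Y + 1`. -/
theorem rc7a {κ : Type} [Field κ] (h2 : (2 : κ) = 0) (w : κ)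
    (hf : w ^ 7 + w ^ 5 + w ^ 3 + w + 1 = 0) :
    w ^ (2 ^ 7) = w ∧ w ^ (2 ^ 1) ≠ w := by
  have e0 : w ^ 1 = w := pow_one w
  have e1 : w ^ 2 = w ^ 2 := rfl
  have e2 : w ^ 4 = w ^ 4 := rfl
  have e3 : w ^ 8 = w ^ 6 + w ^ 4 + w ^ 2 + w := by
    linear_combination (w ^ 4 + (w ^ 4)) * e2 + (w) * hf + (-w ^ 6 - w ^ 4 - w ^ 2 - w) * h2
  have e4 : w ^ 16 = w ^ 6 + w ^ 5 + w ^ 4 + w ^ 3 + w := by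
    linear_combination (w ^ 8 + (w ^ 6 + w ^ 4 + w ^ 2 + w)) * e3 + (w ^ 5 + w ^ 3 + w) * hf +
        (w ^ 7 - w ^ 6 - w ^ 4 - w) * h2
  have e5 : w ^ 32 = w ^ 5 + w ^ 2 := by
    linear_combination (w ^ 16 + (w ^ 6 + w ^ 5 + w ^ 4 + w ^ 3 + w)) * e4 + (w ^ 5) * hf + (w ^
        11 + w ^ 10 + 2 * w ^ 9 + w ^ 8 + 2 * w ^ 7 + w ^ 6 + w ^ 4) * h2
  have e6 : w ^ 64 = w ^ 4 + w ^ 3 + w ^ 2 + w := by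
    linear_combination (w ^ 32 + (w ^ 5 + w ^ 2)) * e5 + (w ^ 3 + w) * hf + (-w ^ 8 + w ^ 7 - w
        ^ 6 - w ^ 4 - w ^ 3 - w ^ 2 - w) * h2
  have e7 : w ^ 128 = w := by
    linear_combination (w ^ 64 + (w ^ 4 + w ^ 3 + w ^ 2 + w)) * e6 + (w) * hf + (w ^ 7 + w ^ 6 +
        2 * w ^ 5 + w ^ 4 + w ^ 3 - w) * h2
  refine ⟨?_, ?_⟩
  · rw [show (2 : ℕ) ^ 7 = 128 from rfl]
    exact e7
  · intro hw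
    rw [show (2 : ℕ) ^ 1 = 2 from rfl, e1] at hw
    have h1 : (1 : κ) = 0 := by
      linear_combination (w ^ 5 + w ^ 4 + w + 1) * hw + (1) * hf - (w ^ 7 + w ^ 3) * h2
    exact one_ne_zero h1

/-- Roots of `Y ^ 7 + Y ^ 4 + 1`. -/
theorem rc7b {κ : Type} [Field κ] (h2 : (2 : κ) = 0) (w : κ)
    (hf : w ^ 7 + w ^ 4 + 1 = 0) :
    w ^ (2 ^ 7) = w ∧ w ^ (2 ^ 1) ≠ w := by
  have e0 : w ^ 1 = w := pow_one w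
  have e1 : w ^ 2 = w ^ 2 := rfl
  have e2 : w ^ 4 = w ^ 4 := rfl
  have e3 : w ^ 8 = w ^ 5 + w := by
    linear_combination (w ^ 4 + (w ^ 4)) * e2 + (w) * hf + (-w ^ 5 - w) * h2
  have e4 : w ^ 16 = w ^ 4 + w ^ 3 + w ^ 2 + 1 := by
    linear_combination (w ^ 8 + (w ^ 5 + w)) * e3 + (w ^ 3 + 1) * hf + (-w ^ 7 + w ^ 6 - w ^ 4 -
        w ^ 3 - 1) * h2
  have e5 : w ^ 32 = w ^ 6 + w ^ 5 + w ^ 4 + w + 1 := by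
    linear_combination (w ^ 16 + (w ^ 4 + w ^ 3 + w ^ 2 + 1)) * e4 + (w) * hf + (w ^ 7 + w ^ 6 +
        w ^ 4 + w ^ 3 + w ^ 2 - w) * h2
  have e6 : w ^ 64 = w ^ 6 + w ^ 4 + w ^ 3 + w := by
    linear_combination (w ^ 32 + (w ^ 6 + w ^ 5 + w ^ 4 + w + 1)) * e5 + (w ^ 5 + w ^ 3 + w ^ 2
        + w + 1) * hf + (w ^ 11 + w ^ 10 + w ^ 6 + w ^ 5 - w ^ 3) * h2
  have e7 : w ^ 128 = w := by
    linear_combination (w ^ 64 + (w ^ 6 + w ^ 4 + w ^ 3 + w)) * e6 + (w ^ 5 + w ^ 2 + w) * hf +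
        (w ^ 10 + 2 * w ^ 7 + w ^ 4 - w) * h2
  refine ⟨?_, ?_⟩
  · rw [show (2 : ℕ) ^ 7 = 128 from rfl]
    exact e7
  · intro hw
    rw [show (2 : ℕ) ^ 1 = 2 from rfl, e1] at hw
    have h1 : (1 : κ) = 0 := by
      linear_combination (w ^ 5 + w ^ 4 + w ^ 3) * hw + (1) * hf - (w ^ 7) * h2
    exact one_ne_zero h1

/-- Roots of `Y ^ 7 + Y ^ 5 + Y ^ 4 + Y ^ 3 + 1`. -/
theorem rc7c {κ : Type} [Field κ] (h2 : (2 : κ) = 0) (w : κ)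
    (hf : w ^ 7 + w ^ 5 + w ^ 4 + w ^ 3 + 1 = 0) :
    w ^ (2 ^ 7) = w ∧ w ^ (2 ^ 1) ≠ w := by
  have e0 : w ^ 1 = w := pow_one w
  have e1 : w ^ 2 = w ^ 2 := rfl
  have e2 : w ^ 4 = w ^ 4 := rfl
  have e3 : w ^ 8 = w ^ 6 + w ^ 5 + w ^ 4 + w := by
    linear_combination (w ^ 4 + (w ^ 4)) * e2 + (w) * hf + (-w ^ 6 - w ^ 5 - w ^ 4 - w) * h2
  have e4 : w ^ 16 = w ^ 6 + w ^ 5 + w ^ 4 + w ^ 3 + 1 := by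
    linear_combination (w ^ 8 + (w ^ 6 + w ^ 5 + w ^ 4 + w)) * e3 + (w ^ 5 + w ^ 2 + 1) * hf +
        (w ^ 11 + w ^ 10 - w ^ 5 - w ^ 4 - w ^ 3 - 1) * h2
  have e5 : w ^ 32 = w ^ 5 + w ^ 4 + w ^ 3 + w ^ 2 := by
    linear_combination (w ^ 16 + (w ^ 6 + w ^ 5 + w ^ 4 + w ^ 3 + 1)) * e4 + (w ^ 5 + w ^ 2 + 1)
        * hf + (w ^ 11 + w ^ 10 + w ^ 9 + w ^ 8 + w ^ 6 - w ^ 5 - w ^ 2) * h2
  have e6 : w ^ 64 = w ^ 5 + 1 := by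
    linear_combination (w ^ 32 + (w ^ 5 + w ^ 4 + w ^ 3 + w ^ 2)) * e5 + (w ^ 3 + 1) * hf + (w ^
        9 + w ^ 8 + w ^ 7 + w ^ 6 - w ^ 3 - 1) * h2
  have e7 : w ^ 128 = w := by
    linear_combination (w ^ 64 + (w ^ 5 + 1)) * e6 + (w ^ 3 + w + 1) * hf + (-w ^ 8 - w ^ 7 - w
        ^ 6 - w ^ 4 - w ^ 3 - w) * h2
  refine ⟨?_, ?_⟩
  · rw [show (2 : ℕ) ^ 7 = 128 from rfl]
    exact e7
  · intro hw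
    rw [show (2 : ℕ) ^ 1 = 2 from rfl, e1] at hw
    have h1 : (1 : κ) = 0 := by
      linear_combination (w ^ 5 + w ^ 4 + w ^ 2) * hw + (1) * hf - (w ^ 7 + w ^ 4) * h2
    exact one_ne_zero h1

/-- Roots of `Y ^ 7 + Y ^ 6 + Y ^ 5 + Y ^ 4 + Y ^ 2 + Y + 1`. -/
theorem rc7d {κ : Type} [Field κ] (h2 : (2 : κ) = 0) (w : κ)
    (hf : w ^ 7 + w ^ 6 + w ^ 5 + w ^ 4 + w ^ 2 + w + 1 = 0) :
    w ^ (2 ^ 7) = w ∧ w ^ (2 ^ 1) ≠ w := by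
  have e0 : w ^ 1 = w := pow_one w
  have e1 : w ^ 2 = w ^ 2 := rfl
  have e2 : w ^ 4 = w ^ 4 := rfl
  have e3 : w ^ 8 = w ^ 4 + w ^ 3 + 1 := by
    linear_combination (w ^ 4 + (w ^ 4)) * e2 + (w + 1) * hf + (-w ^ 7 - w ^ 6 - w ^ 5 - w ^ 4 -
        w ^ 3 - w ^ 2 - w - 1) * h2
  have e4 : w ^ 16 = w ^ 6 + w ^ 4 + w ^ 3 := by
    linear_combination (w ^ 8 + (w ^ 4 + w ^ 3 + 1)) * e3 + (w + 1) * hf + (-w ^ 6 - w ^ 5 - w ^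
        2 - w) * h2
  have e5 : w ^ 32 = w ^ 5 + w ^ 2 + w + 1 := by
    linear_combination (w ^ 16 + (w ^ 6 + w ^ 4 + w ^ 3)) * e4 + (w ^ 5 + w ^ 4 + 1) * hf + (-w
        ^ 11 - w ^ 6 - 2 * w ^ 5 - w ^ 4 - w ^ 2 - w - 1) * h2
  have e6 : w ^ 64 = w ^ 6 + w ^ 5 + w ^ 4 + 1 := by
    linear_combination (w ^ 32 + (w ^ 5 + w ^ 2 + w + 1)) * e5 + (w ^ 3 + w ^ 2) * hf + (-w ^ 9
        - w ^ 8 - w ^ 4 + w ^ 2 + w) * h2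
  have e7 : w ^ 128 = w := by
    linear_combination (w ^ 64 + (w ^ 6 + w ^ 5 + w ^ 4 + 1)) * e6 + (w ^ 5 + w ^ 4 + w ^ 3 + w
        ^ 2 + 1) * hf + (-w ^ 9 - w ^ 8 - 2 * w ^ 7 - w ^ 6 - w ^ 5 - w ^ 4 - w ^ 3 - w ^ 2 - w) *
        h2
  refine ⟨?_, ?_⟩
  · rw [show (2 : ℕ) ^ 7 = 128 from rfl]
    exact e7
  · intro hw
    rw [show (2 : ℕ) ^ 1 = 2 from rfl, e1] at hw
    have h1 : (1 : κ) = 0 := by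
      linear_combination (w ^ 5 + w ^ 3 + 1) * hw + (1) * hf - (w ^ 7 + w ^ 5 + w ^ 2) * h2
    exact one_ne_zero h1

/-- Roots of `Y ^ 11 + Y ^ 2 + 1`. -/
theorem rc11a {κ : Type} [Field κ] (h2 : (2 : κ) = 0) (w : κ)
    (hf : w ^ 11 + w ^ 2 + 1 = 0) :
    w ^ (2 ^ 11) = w ∧ w ^ (2 ^ 1) ≠ w := by
  have e0 : w ^ 1 = w := pow_one w
  have e1 : w ^ 2 = w ^ 2 := rfl
  have e2 : w ^ 4 = w ^ 4 := rfl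
  have e3 : w ^ 8 = w ^ 8 := rfl
  have e4 : w ^ 16 = w ^ 7 + w ^ 5 := by
    linear_combination (w ^ 8 + (w ^ 8)) * e3 + (w ^ 5) * hf + (-w ^ 7 - w ^ 5) * h2
  have e5 : w ^ 32 = w ^ 10 + w ^ 5 + w ^ 3 := by
    linear_combination (w ^ 16 + (w ^ 7 + w ^ 5)) * e4 + (w ^ 3) * hf + (w ^ 12 - w ^ 5 - w ^ 3)
        * h2
  have e6 : w ^ 64 = w ^ 10 + w ^ 9 + w ^ 6 + w ^ 2 + 1 := by
    linear_combination (w ^ 32 + (w ^ 10 + w ^ 5 + w ^ 3)) * e5 + (w ^ 9 + 1) * hf + (w ^ 15 + w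
        ^ 13 - w ^ 11 - w ^ 9 + w ^ 8 - w ^ 2 - 1) * h2
  have e7 : w ^ 128 = w ^ 7 + w ^ 4 + w ^ 3 + w ^ 2 + w := by
    linear_combination (w ^ 64 + (w ^ 10 + w ^ 9 + w ^ 6 + w ^ 2 + 1)) * e6 + (w ^ 9 + w ^ 7 + w
        + 1) * hf + (w ^ 19 + w ^ 16 + w ^ 15 + w ^ 12 + w ^ 10 + w ^ 8 - w ^ 7 + w ^ 6 - w ^ 3 - w)
        * h2
  have e8 : w ^ 256 = w ^ 8 + w ^ 6 + w ^ 5 + w ^ 4 + w ^ 3 + w ^ 2 := by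
    linear_combination (w ^ 128 + (w ^ 7 + w ^ 4 + w ^ 3 + w ^ 2 + w)) * e7 + (w ^ 3) * hf + (w
        ^ 11 + w ^ 10 + w ^ 9 + w ^ 8 + w ^ 7 + w ^ 6 + w ^ 5 + w ^ 4) * h2
  have e9 : w ^ 512 = w ^ 10 + w ^ 8 + w ^ 7 + w ^ 6 + w ^ 5 + w ^ 4 + w ^ 3 + w := by
    linear_combination (w ^ 256 + (w ^ 8 + w ^ 6 + w ^ 5 + w ^ 4 + w ^ 3 + w ^ 2)) * e8 + (w ^ 5
        + w) * hf + (w ^ 14 + w ^ 13 + w ^ 12 + 2 * w ^ 11 + 2 * w ^ 10 + 2 * w ^ 9 + 2 * w ^ 8 + w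
        ^ 7 + w ^ 6 - w ^ 3 - w) * h2
  have e10 : w ^ 1024 = w ^ 10 + w ^ 9 + w ^ 8 + w ^ 7 + w ^ 6 + w + 1 := by
    linear_combination (w ^ 512 + (w ^ 10 + w ^ 8 + w ^ 7 + w ^ 6 + w ^ 5 + w ^ 4 + w ^ 3 + w))
        * e9 + (w ^ 9 + w ^ 5 + w ^ 3 + w + 1) * hf + (w ^ 18 + w ^ 17 + w ^ 16 + 2 * w ^ 15 + 2 * w
        ^ 14 + 3 * w ^ 13 + 2 * w ^ 12 + 3 * w ^ 11 + 2 * w ^ 10 + 2 * w ^ 9 + 2 * w ^ 8 + w ^ 7 + w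
        ^ 6 + w ^ 4 - w ^ 3 - w - 1) * h2
  have e11 : w ^ 2048 = w := by
    linear_combination (w ^ 1024 + (w ^ 10 + w ^ 9 + w ^ 8 + w ^ 7 + w ^ 6 + w + 1)) * e10 + (w
        ^ 9 + w ^ 7 + w ^ 5 + w ^ 3 + w + 1) * hf + (w ^ 19 + w ^ 18 + 2 * w ^ 17 + 2 * w ^ 16 + 2 *
        w ^ 15 + w ^ 14 + w ^ 13 + 2 * w ^ 10 + w ^ 9 + 2 * w ^ 8 + w ^ 7 + w ^ 6 - w ^ 5 - w ^ 3) *
        h2
  refine ⟨?_, ?_⟩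
  · rw [show (2 : ℕ) ^ 11 = 2048 from rfl]
    exact e11
  · intro hw
    rw [show (2 : ℕ) ^ 1 = 2 from rfl, e1] at hw
    have h1 : (1 : κ) = 0 := by
      linear_combination (w ^ 9 + w ^ 8 + w ^ 7 + w ^ 6 + w ^ 5 + w ^ 4 + w ^ 3 + w ^ 2 + w) *
          hw + (1) * hf - (w ^ 11) * h2
    exact one_ne_zero h1

/-- Roots of `Y ^ 11 + Y ^ 10 + Y ^ 9 + Y ^ 8 + Y ^ 6 + Y ^ 5 + Y ^ 4 + Y ^ 2 + 1`. -/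
theorem rc11b {κ : Type} [Field κ] (h2 : (2 : κ) = 0) (w : κ)
    (hf : w ^ 11 + w ^ 10 + w ^ 9 + w ^ 8 + w ^ 6 + w ^ 5 + w ^ 4 + w ^ 2 + 1 = 0) :
    w ^ (2 ^ 11) = w ∧ w ^ (2 ^ 1) ≠ w := by
  have e0 : w ^ 1 = w := pow_one w
  have e1 : w ^ 2 = w ^ 2 := rfl
  have e2 : w ^ 4 = w ^ 4 := rfl
  have e3 : w ^ 8 = w ^ 8 := rfl
  have e4 : w ^ 16 = w ^ 10 + w ^ 9 + w ^ 8 + w ^ 4 + w ^ 3 + w := by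
    linear_combination (w ^ 8 + (w ^ 8)) * e3 + (w ^ 5 + w ^ 4 + w) * hf + (-w ^ 15 - w ^ 14 - w
        ^ 13 - w ^ 12 - w ^ 11 - 2 * w ^ 10 - 2 * w ^ 9 - w ^ 8 - w ^ 7 - w ^ 6 - w ^ 5 - w ^ 4 - w
        ^ 3 - w) * h2
  have e5 : w ^ 32 = w ^ 8 + w ^ 7 + w ^ 5 + 1 := by
    linear_combination (w ^ 16 + (w ^ 10 + w ^ 9 + w ^ 8 + w ^ 4 + w ^ 3 + w)) * e4 + (w ^ 9 + w
        ^ 8 + w ^ 7 + w ^ 6 + w ^ 4 + 1) * hf + (-w ^ 17 - w ^ 16 - 2 * w ^ 15 - w ^ 14 - w ^ 10 - w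
        ^ 9 - 2 * w ^ 8 - w ^ 6 - 1) * h2
  have e6 : w ^ 64 = w ^ 10 + w ^ 8 + w ^ 6 + w ^ 5 + w ^ 2 + w + 1 := by
    linear_combination (w ^ 32 + (w ^ 8 + w ^ 7 + w ^ 5 + 1)) * e5 + (w ^ 5 + w ^ 4 + w ^ 3 + w
        ^ 2 + w) * hf + (-w ^ 14 - w ^ 13 - w ^ 12 - 2 * w ^ 11 - 2 * w ^ 10 - 2 * w ^ 9 - w ^ 8 - w
        ^ 7 - 2 * w ^ 6 - w ^ 5 - w ^ 4 - w ^ 3 - w ^ 2 - w) * h2
  have e7 : w ^ 128 = w ^ 10 + w ^ 9 + w ^ 8 + w ^ 7 + w ^ 6 + w ^ 5 + w ^ 3 + w ^ 2 + 1 := by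
    linear_combination (w ^ 64 + (w ^ 10 + w ^ 8 + w ^ 6 + w ^ 5 + w ^ 2 + w + 1)) * e6 + (w ^ 9
        + w ^ 8 + w ^ 4 + w ^ 3) * hf + (-w ^ 19 - w ^ 17 + w ^ 16 - w ^ 14 - w ^ 13 + w ^ 11 + w ^
        10 - w ^ 9 + w ^ 7 + w ^ 6 + w ^ 2 + w) * h2
  have e8 : w ^ 256 = w ^ 9 + w ^ 8 + w ^ 6 + w ^ 4 + w ^ 2 + w + 1 := by
    linear_combination (w ^ 128 + (w ^ 10 + w ^ 9 + w ^ 8 + w ^ 7 + w ^ 6 + w ^ 5 + w ^ 3 + w ^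
        2 + 1)) * e7 + (w ^ 9 + w ^ 8 + w ^ 7 + w ^ 6 + w ^ 4 + w ^ 3 + w ^ 2 + w) * hf + (w ^ 16 +
        w ^ 15 + w ^ 10 - w ^ 6 + w ^ 5 - w ^ 4 - w) * h2
  have e9 : w ^ 512 = w ^ 10 + w ^ 8 + w ^ 4 + w := by
    linear_combination (w ^ 256 + (w ^ 9 + w ^ 8 + w ^ 6 + w ^ 4 + w ^ 2 + w + 1)) * e8 + (w ^ 7
        + w ^ 6 + w ^ 5 + w ^ 4 + w ^ 3 + w + 1) * hf + (-w ^ 16 - w ^ 15 - w ^ 14 - w ^ 13 - w ^ 12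
        - 2 * w ^ 11 - w ^ 9 - w ^ 7 - w ^ 5 + w ^ 2) * h2
  have e10 : w ^ 1024 = w ^ 9 + w ^ 8 + w ^ 6 + w ^ 5 + w + 1 := by
    linear_combination (w ^ 512 + (w ^ 10 + w ^ 8 + w ^ 4 + w)) * e9 + (w ^ 9 + w ^ 8 + w ^ 4 +
        w ^ 3 + w + 1) * hf + (-w ^ 19 - w ^ 17 - w ^ 15 - w ^ 14 - 2 * w ^ 13 - w ^ 12 - w ^ 11 - 2
        * w ^ 10 - 2 * w ^ 9 - 2 * w ^ 8 - w ^ 7 - 2 * w ^ 6 - w ^ 5 - w ^ 4 - w ^ 3 - w - 1) * h2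
  have e11 : w ^ 2048 = w := by
    linear_combination (w ^ 1024 + (w ^ 9 + w ^ 8 + w ^ 6 + w ^ 5 + w + 1)) * e10 + (w ^ 7 + w ^
        6 + w ^ 5 + w ^ 4 + w ^ 3 + w + 1) * hf + (-w ^ 16 - w ^ 15 - w ^ 13 - 2 * w ^ 12 - 2 * w ^
        11 - w ^ 10 - w ^ 9 - w ^ 8 - w ^ 7 - w ^ 5 - w ^ 4 - w ^ 3) * h2
  refine ⟨?_, ?_⟩
  · rw [show (2 : ℕ) ^ 11 = 2048 from rfl]
    exact e11
  · intro hw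
    rw [show (2 : ℕ) ^ 1 = 2 from rfl, e1] at hw
    have h1 : (1 : κ) = 0 := by
      linear_combination (w ^ 9 + w ^ 7 + w ^ 4 + w ^ 2 + w) * hw + (1) * hf - (w ^ 11 + w ^ 9 +
          w ^ 6 + w ^ 4) * h2
    exact one_ne_zero h1

/-- Roots of `Y ^ 11 + Y ^ 8 + Y ^ 5 + Y ^ 2 + 1`. -/
theorem rc11c {κ : Type} [Field κ] (h2 : (2 : κ) = 0) (w : κ)
    (hf : w ^ 11 + w ^ 8 + w ^ 5 + w ^ 2 + 1 = 0) :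
    w ^ (2 ^ 11) = w ∧ w ^ (2 ^ 1) ≠ w := by
  have e0 : w ^ 1 = w := pow_one w
  have e1 : w ^ 2 = w ^ 2 := rfl
  have e2 : w ^ 4 = w ^ 4 := rfl
  have e3 : w ^ 8 = w ^ 8 := rfl
  have e4 : w ^ 16 = w ^ 5 + w ^ 4 + w ^ 2 := by
    linear_combination (w ^ 8 + (w ^ 8)) * e3 + (w ^ 5 + w ^ 2) * hf + (-w ^ 13 - w ^ 10 - w ^ 7
        - w ^ 5 - w ^ 4 - w ^ 2) * h2
  have e5 : w ^ 32 = w ^ 10 + w ^ 8 + w ^ 4 := by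
    linear_combination (w ^ 16 + (w ^ 5 + w ^ 4 + w ^ 2)) * e4 + (w ^ 9 + w ^ 7 + w ^ 6) * h2
  have e6 : w ^ 64 = w ^ 9 + w ^ 6 + w ^ 5 + w ^ 4 + w ^ 2 := by
    linear_combination (w ^ 32 + (w ^ 10 + w ^ 8 + w ^ 4)) * e5 + (w ^ 9 + w ^ 6 + w ^ 5 + w ^
        2) * hf + (w ^ 18 - w ^ 17 - w ^ 13 + w ^ 12 - w ^ 11 - w ^ 10 - w ^ 9 - w ^ 7 - w ^ 6 - w ^
        5 - w ^ 4 - w ^ 2) * h2
  have e7 : w ^ 128 = w ^ 10 + w ^ 9 + w ^ 8 + w ^ 7 + w ^ 3 + w := by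
    linear_combination (w ^ 64 + (w ^ 9 + w ^ 6 + w ^ 5 + w ^ 4 + w ^ 2)) * e6 + (w ^ 7 + w ^ 4
        + w) * hf + (w ^ 14 + w ^ 13 - w ^ 12 + 2 * w ^ 11 + w ^ 10 - w ^ 9 + w ^ 8 - w ^ 3 - w) *
        h2
  have e8 : w ^ 256 = w ^ 9 + w ^ 8 + w ^ 7 + w ^ 6 + w ^ 5 + w ^ 3 + w ^ 2 + 1 := by
    linear_combination (w ^ 128 + (w ^ 10 + w ^ 9 + w ^ 8 + w ^ 7 + w ^ 3 + w)) * e7 + (w ^ 9 +
        w ^ 7 + w ^ 6 + w ^ 5 + w ^ 4 + w ^ 3 + w ^ 2 + 1) * hf + (w ^ 19 + w ^ 18 + w ^ 17 + w ^ 16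
        - w ^ 14 + w ^ 10 - w ^ 9 - w ^ 8 - 2 * w ^ 7 - w ^ 6 - 2 * w ^ 5 - w ^ 3 - w ^ 2 - 1) * h2
  have e9 : w ^ 512 = w ^ 10 + w ^ 9 + w ^ 7 + w ^ 6 + w ^ 5 + w ^ 4 + w := by
    linear_combination (w ^ 256 + (w ^ 9 + w ^ 8 + w ^ 7 + w ^ 6 + w ^ 5 + w ^ 3 + w ^ 2 + 1)) *
        e8 + (w ^ 7 + w ^ 5 + w ^ 4 + w ^ 3 + w ^ 2 + w + 1) * hf + (w ^ 17 + w ^ 16 + w ^ 15 + 2 *
        w ^ 14 + w ^ 13 + w ^ 12 + 2 * w ^ 11 + w ^ 10 + w ^ 9 + 2 * w ^ 8 - w ^ 4 - w) * h2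
  have e10 : w ^ 1024 = w ^ 10 + w ^ 7 + w ^ 6 + w ^ 4 + w + 1 := by
    linear_combination (w ^ 512 + (w ^ 10 + w ^ 9 + w ^ 7 + w ^ 6 + w ^ 5 + w ^ 4 + w)) * e9 +
        (w ^ 9 + w ^ 7 + w ^ 6 + w ^ 4 + w ^ 3 + w + 1) * hf + (w ^ 19 + 2 * w ^ 16 + w ^ 15 + w ^
        14 + 2 * w ^ 13 + w ^ 11 + 2 * w ^ 10 - w ^ 9 - w ^ 6 - w ^ 4 - w ^ 3 - w - 1) * h2
  have e11 : w ^ 2048 = w := by
    linear_combination (w ^ 1024 + (w ^ 10 + w ^ 7 + w ^ 6 + w ^ 4 + w + 1)) * e10 + (w ^ 9 + w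
        ^ 6 + w ^ 3 + w + 1) * hf + (w ^ 16 + w ^ 13 + 2 * w ^ 10 - w ^ 9 + 2 * w ^ 7 + w ^ 4 - w ^
        3) * h2
  refine ⟨?_, ?_⟩
  · rw [show (2 : ℕ) ^ 11 = 2048 from rfl]
    exact e11
  · intro hw
    rw [show (2 : ℕ) ^ 1 = 2 from rfl, e1] at hw
    have h1 : (1 : κ) = 0 := by
      linear_combination (w ^ 9 + w ^ 8 + w ^ 7 + w ^ 3 + w ^ 2 + w) * hw + (1) * hf - (w ^ 11 +
          w ^ 5) * h2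
    exact one_ne_zero h1

/-- Roots of `Y ^ 13 + Y ^ 12 + Y ^ 2 + Y + 1`. -/
theorem rc13a {κ : Type} [Field κ] (h2 : (2 : κ) = 0) (w : κ)
    (hf : w ^ 13 + w ^ 12 + w ^ 2 + w + 1 = 0) :
    w ^ (2 ^ 13) = w ∧ w ^ (2 ^ 1) ≠ w := by
  have e0 : w ^ 1 = w := pow_one w
  have e1 : w ^ 2 = w ^ 2 := rfl
  have e2 : w ^ 4 = w ^ 4 := rfl
  have e3 : w ^ 8 = w ^ 8 := rfl
  have e4 : w ^ 16 = w ^ 12 + w ^ 5 + w ^ 3 + w ^ 2 + 1 := by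
    linear_combination (w ^ 8 + (w ^ 8)) * e3 + (w ^ 3 + w ^ 2 + w + 1) * hf + (-w ^ 15 - w ^ 14
        - w ^ 13 - w ^ 12 - w ^ 5 - w ^ 4 - 2 * w ^ 3 - 2 * w ^ 2 - w - 1) * h2
  have e5 : w ^ 32 = w ^ 11 + w ^ 9 + w ^ 8 + w ^ 7 + w ^ 5 + w ^ 3 + w + 1 := by
    linear_combination (w ^ 16 + (w ^ 12 + w ^ 5 + w ^ 3 + w ^ 2 + 1)) * e4 + (w ^ 11 + w ^ 10 +
        w ^ 9 + w ^ 8 + w ^ 7 + w ^ 6 + w ^ 5 + w ^ 4 + w ^ 3 + w ^ 2 + w) * hf + (-w ^ 23 - w ^ 22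
        - w ^ 21 - w ^ 20 - w ^ 19 - w ^ 18 - w ^ 16 - w ^ 13 - 2 * w ^ 11 - w ^ 10 - 2 * w ^ 9 - w
        ^ 8 - w ^ 7 - w ^ 6 - w ^ 4 - w ^ 3 - w) * h2
  have e6 : w ^ 64 = w ^ 11 + w ^ 10 + w ^ 9 + w ^ 8 + w ^ 5 + 1 := by
    linear_combination (w ^ 32 + (w ^ 11 + w ^ 9 + w ^ 8 + w ^ 7 + w ^ 5 + w ^ 3 + w + 1)) * e5
        + (w ^ 9 + w ^ 8 + w ^ 7 + w ^ 6 + w ^ 3 + w ^ 2) * hf + (-w ^ 21 + w ^ 18 + w ^ 17 + 2 * w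
        ^ 16 + 2 * w ^ 14 + w ^ 13 + 3 * w ^ 12 + w ^ 11 + w ^ 10 + w ^ 8 + w ^ 6 + w) * h2
  have e7 : w ^ 128 = w ^ 11 + w ^ 10 + w ^ 8 + w ^ 7 + w ^ 4 + 1 := by
    linear_combination (w ^ 64 + (w ^ 11 + w ^ 10 + w ^ 9 + w ^ 8 + w ^ 5 + 1)) * e6 + (w ^ 9 +
        w ^ 8 + w ^ 5 + w ^ 4) * hf + (w ^ 20 + 2 * w ^ 19 + w ^ 18 + w ^ 16 + w ^ 15 + w ^ 14 + w ^
        13 - w ^ 7 - w ^ 6 - w ^ 4) * h2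
  have e8 : w ^ 256 = w ^ 11 + w ^ 5 + w ^ 2 + 1 := by
    linear_combination (w ^ 128 + (w ^ 11 + w ^ 10 + w ^ 8 + w ^ 7 + w ^ 4 + 1)) * e7 + (w ^ 9 +
        w ^ 8 + w ^ 3 + w ^ 2) * hf + (w ^ 19 + 2 * w ^ 18 + w ^ 17 + w ^ 15 + w ^ 14 + w ^ 12 + w ^
        11 - w ^ 9 + w ^ 8 + w ^ 7 - w ^ 5 - w ^ 3 - w ^ 2) * h2
  have e9 : w ^ 512 = w ^ 12 + w ^ 11 + w ^ 10 + w ^ 9 + w ^ 8 + w ^ 7 + w ^ 6 + w ^ 5 + w ^ 3 +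
      w ^ 2 := by
    linear_combination (w ^ 256 + (w ^ 11 + w ^ 5 + w ^ 2 + 1)) * e8 + (w ^ 9 + w ^ 8 + w ^ 7 +
        w ^ 6 + w ^ 5 + w ^ 4 + w ^ 3 + w ^ 2 + w + 1) * hf + (-w ^ 21 - w ^ 20 - w ^ 19 - w ^ 18 -
        w ^ 17 - w ^ 15 - w ^ 14 - w ^ 12 - w ^ 10 - 2 * w ^ 9 - 2 * w ^ 8 - w ^ 7 - 2 * w ^ 6 - w ^
        5 - w ^ 4 - 2 * w ^ 3 - w ^ 2 - w) * h2
  have e10 : w ^ 1024 = w ^ 9 + w ^ 5 + w ^ 4 + w + 1 := by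
    linear_combination (w ^ 512 + (w ^ 12 + w ^ 11 + w ^ 10 + w ^ 9 + w ^ 8 + w ^ 7 + w ^ 6 + w
        ^ 5 + w ^ 3 + w ^ 2)) * e9 + (w ^ 11 + w ^ 10 + w ^ 7 + w ^ 6 + w ^ 3 + w ^ 2 + 1) * hf + (w
        ^ 22 + 2 * w ^ 21 + 2 * w ^ 20 + 2 * w ^ 19 + 3 * w ^ 18 + 4 * w ^ 17 + 3 * w ^ 16 + 3 * w ^
        15 + 4 * w ^ 14 + 3 * w ^ 13 + 2 * w ^ 12 + 2 * w ^ 11 + 2 * w ^ 10 + w ^ 9 + w ^ 8 - w ^ 4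
        - w ^ 3 - w ^ 2 - w - 1) * h2
  have e11 : w ^ 2048 = w ^ 12 + w ^ 10 + w ^ 8 + w ^ 7 + w ^ 5 + w ^ 4 + w ^ 3 := by
    linear_combination (w ^ 1024 + (w ^ 9 + w ^ 5 + w ^ 4 + w + 1)) * e10 + (w ^ 5 + w ^ 4 + w ^
        3 + w ^ 2 + w + 1) * hf + (-w ^ 17 - w ^ 16 - w ^ 15 - w ^ 12 + w ^ 10 + 2 * w ^ 9 - w ^ 7 -
        w ^ 4 - 2 * w ^ 3 - w ^ 2) * h2
  have e12 : w ^ 4096 = w ^ 12 + w ^ 11 + w ^ 6 + w ^ 5 + w + 1 := by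
    linear_combination (w ^ 2048 + (w ^ 12 + w ^ 10 + w ^ 8 + w ^ 7 + w ^ 5 + w ^ 4 + w ^ 3)) *
        e11 + (w ^ 11 + w ^ 10 + w ^ 9 + w ^ 8 + w ^ 3 + w ^ 2 + 1) * hf + (-w ^ 23 - w ^ 21 + w ^
        20 + w ^ 19 + w ^ 18 + 2 * w ^ 17 + w ^ 16 + 2 * w ^ 15 + w ^ 14 + w ^ 13 + w ^ 8 + w ^ 7 -
        w ^ 5 - w ^ 4 - w ^ 3 - w ^ 2 - w - 1) * h2
  have e13 : w ^ 8192 = w := by
    linear_combination (w ^ 4096 + (w ^ 12 + w ^ 11 + w ^ 6 + w ^ 5 + w + 1)) * e12 + (w ^ 11 +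
        w ^ 10 + 1) * hf + (w ^ 18 + 2 * w ^ 17 + w ^ 16 + w ^ 12 + w ^ 11 + w ^ 7 + 2 * w ^ 6 + w ^
        5) * h2
  refine ⟨?_, ?_⟩
  · rw [show (2 : ℕ) ^ 13 = 8192 from rfl]
    exact e13
  · intro hw
    rw [show (2 : ℕ) ^ 1 = 2 from rfl, e1] at hw
    have h1 : (1 : κ) = 0 := by
      linear_combination (w ^ 11 + 1) * hw + (1) * hf - (w ^ 13 + w ^ 2) * h2
    exact one_ne_zero h1

/-- Roots of `Y ^ 13 + Y ^ 10 + Y ^ 7 + Y ^ 4 + Y ^ 3 + Y + 1`. -/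
theorem rc13b {κ : Type} [Field κ] (h2 : (2 : κ) = 0) (w : κ)
    (hf : w ^ 13 + w ^ 10 + w ^ 7 + w ^ 4 + w ^ 3 + w + 1 = 0) :
    w ^ (2 ^ 13) = w ∧ w ^ (2 ^ 1) ≠ w := by
  have e0 : w ^ 1 = w := pow_one w
  have e1 : w ^ 2 = w ^ 2 := rfl
  have e2 : w ^ 4 = w ^ 4 := rfl
  have e3 : w ^ 8 = w ^ 8 := rfl
  have e4 : w ^ 16 = w ^ 6 + w + 1 := by
    linear_combination (w ^ 8 + (w ^ 8)) * e3 + (w ^ 3 + 1) * hf + (-w ^ 13 - w ^ 10 - w ^ 7 - w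
        ^ 6 - w ^ 4 - w ^ 3 - w - 1) * h2
  have e5 : w ^ 32 = w ^ 12 + w ^ 2 + 1 := by
    linear_combination (w ^ 16 + (w ^ 6 + w + 1)) * e4 + (w ^ 7 + w ^ 6 + w) * h2
  have e6 : w ^ 64 = w ^ 11 + w ^ 9 + w ^ 5 + w ^ 2 + w + 1 := by
    linear_combination (w ^ 32 + (w ^ 12 + w ^ 2 + 1)) * e5 + (w ^ 11 + w ^ 8 + w) * hf + (-w ^
        21 - w ^ 18 - w ^ 15 - 2 * w ^ 11 - w ^ 9 - w ^ 8 - w ^ 5 - w) * h2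
  have e7 : w ^ 128 = w ^ 12 + w ^ 10 + w ^ 8 + w ^ 7 + w ^ 6 + w ^ 4 + w ^ 3 + 1 := by
    linear_combination (w ^ 64 + (w ^ 11 + w ^ 9 + w ^ 5 + w ^ 2 + w + 1)) * e6 + (w ^ 9 + w ^ 6
        + w ^ 5 + w ^ 2) * hf + (w ^ 20 - w ^ 19 - w ^ 15 + w ^ 14 - w ^ 12 + 2 * w ^ 11 - w ^ 9 - w
        ^ 8 - w ^ 6 + w ^ 2 + w) * h2
  have e8 : w ^ 256 = w ^ 12 + w ^ 10 + w ^ 9 + w ^ 5 + w ^ 4 + w := by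
    linear_combination (w ^ 128 + (w ^ 12 + w ^ 10 + w ^ 8 + w ^ 7 + w ^ 6 + w ^ 4 + w ^ 3 + 1))
        * e7 + (w ^ 11 + w ^ 8 + w ^ 7 + w ^ 4 + w ^ 3 + 1) * hf + (w ^ 22 - w ^ 21 + w ^ 20 + w ^
        19 + w ^ 18 + 2 * w ^ 16 + w ^ 15 + w ^ 14 + w ^ 13 + w ^ 12 + w ^ 10 + w ^ 6 - w ^ 5 - w ^
        4 - w) * h2
  have e9 : w ^ 512 = w ^ 11 + w ^ 9 + w ^ 3 + w ^ 2 + w := by
    linear_combination (w ^ 256 + (w ^ 12 + w ^ 10 + w ^ 9 + w ^ 5 + w ^ 4 + w)) * e8 + (w ^ 11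
        + w ^ 8 + w ^ 7 + w ^ 5 + w ^ 4 + w ^ 2 + w) * hf + (w ^ 22 + w ^ 19 - w ^ 18 + w ^ 16 - w ^
        15 + 2 * w ^ 13 - 2 * w ^ 12 - 2 * w ^ 11 + w ^ 10 - w ^ 9 - 2 * w ^ 8 - w ^ 7 - w ^ 5 - w ^
        4 - w ^ 3 - w ^ 2 - w) * h2
  have e10 : w ^ 1024 = w ^ 12 + w ^ 8 + w ^ 7 + w ^ 4 + w ^ 3 := by
    linear_combination (w ^ 512 + (w ^ 11 + w ^ 9 + w ^ 3 + w ^ 2 + w)) * e9 + (w ^ 9 + w ^ 6 +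
        w ^ 5 + w ^ 2) * hf + (w ^ 20 - w ^ 19 - w ^ 16 - w ^ 15 + w ^ 14 + w ^ 11 - 2 * w ^ 9 - w ^
        8 - w ^ 7 - w ^ 6 + w ^ 4) * h2
  have e11 : w ^ 2048 = w ^ 9 + w + 1 := by
    linear_combination (w ^ 1024 + (w ^ 12 + w ^ 8 + w ^ 7 + w ^ 4 + w ^ 3)) * e10 + (w ^ 11 + w
        ^ 8 + w ^ 3 + 1) * hf + (-w ^ 21 + w ^ 20 + w ^ 19 - w ^ 18 + w ^ 16 + w ^ 15 - w ^ 13 + w ^
        11 - w ^ 9 - w ^ 4 - w ^ 3 - w - 1) * h2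
  have e12 : w ^ 4096 = w ^ 8 + w ^ 3 + 1 := by
    linear_combination (w ^ 2048 + (w ^ 9 + w + 1)) * e11 + (w ^ 5 + w ^ 2) * hf + (-w ^ 15 - w
        ^ 12 + w ^ 10 - w ^ 8 - w ^ 6 - w ^ 5 - w ^ 3 + w) * h2
  have e13 : w ^ 8192 = w := by
    linear_combination (w ^ 4096 + (w ^ 8 + w ^ 3 + 1)) * e12 + (w ^ 3 + 1) * hf + (-w ^ 13 + w
        ^ 11 - w ^ 10 + w ^ 8 - w ^ 7 - w ^ 4 - w) * h2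
  refine ⟨?_, ?_⟩
  · rw [show (2 : ℕ) ^ 13 = 8192 from rfl]
    exact e13
  · intro hw
    rw [show (2 : ℕ) ^ 1 = 2 from rfl, e1] at hw
    have h1 : (1 : κ) = 0 := by
      linear_combination (w ^ 11 + w ^ 10 + w ^ 9 + w ^ 5 + w ^ 4 + w ^ 3 + w + 1) * hw + (1) *
          hf - (w ^ 13 + w ^ 7 + w ^ 3) * h2
    exact one_ne_zero h1

/-- Roots of `Y ^ 2 + Y + 1`, odd powers of the Frobenius. -/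
theorem rc2_odd {κ : Type} [Field κ] (h2 : (2 : κ) = 0) (w : κ) (hf : w ^ 2 + w + 1 = 0) {m : ℕ}
    (hm : Odd m) : w ^ (2 ^ m) ≠ w := by
  have key : ∀ k : ℕ, w ^ (2 ^ (2 * k + 1)) = w + 1 := by
    intro k
    induction k with
    | zero =>
      have h : (2 : ℕ) ^ (2 * 0 + 1) = 2 := rfl
      rw [h]
      linear_combination hf - (w + 1) * h2
    | succ k ih =>
      have h : (2 : ℕ) ^ (2 * (k + 1) + 1) = 2 ^ (2 * k + 1) * 4 := by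
        rw [show 2 * (k + 1) + 1 = 2 * k + 1 + 2 from rfl, pow_add]
        norm_num
      rw [h, pow_mul, ih]
      linear_combination (w ^ 2 + 3 * w + 2) * hf - (w + 1) * h2
  obtain ⟨k, rfl⟩ := hm
  rw [key k]
  intro h
  exact one_ne_zero (left_eq_add.1 h.symm)

end Pool.Agent.AFA
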