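import Pool.Agent.AFA.N3
import Pool.Agent.AFA.N5
import Pool.Agent.AFA.N6
import Pool.Agent.AFA.N8c
import Pool.Agent.AFA.N8d
import Pool.Agent.AFA.R2

set_option autoImplicit false

namespace Pool.Agent.AFA

open Polynomial

theorem two_eq_zero_of_algebra (κ : Type) [Field κ] [Algebra (ZMod 2) κ] : (2 : κ) = 0 := by
  have h : algebraMap (ZMod 2) κ (2 : ZMod 2) = 2 := map_ofNat _ 2
  rw [← h, show (2 : ZMod 2) = 0 from rfl, map_zero]

theorem zmod_two_poly : (2 : (ZMod 2)[X]) = 0 := by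
  have h : C (2 : ZMod 2) = (2 : (ZMod 2)[X]) := map_ofNat _ 2
  rw [← h, show (2 : ZMod 2) = 0 from rfl, C_0]

theorem zmod_two_poly2 : (2 : (ZMod 2)[X][X]) = 0 := by
  have h : C (2 : (ZMod 2)[X]) = (2 : (ZMod 2)[X][X]) := map_ofNat _ 2
  rw [← h, zmod_two_poly, C_0]

/-- A transposition from the factor `Y ^ 2 + Y + 1` of a specialisation over `F_2`. -/
theorem swap_of_quadratic {P₀ : (ZMod 2)[X][X]} {n m : ℕ} (hm : P₀.Monic)
    (hcop : IsCoprime P₀ (derivative P₀)) (c : ZMod 2) (h : (ZMod 2)[X])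
    (hfh : P₀.map (evalRingHom c) = (X ^ 2 + X + 1) * h) (hodd : Odd m)
    (hh : ∀ (κ : Type) [Field κ] [Algebra (ZMod 2) κ] (w : κ), aeval w h = 0 →
      w ^ (2 ^ m) = w) :
    AllMdl P₀ n (fun G => ∃ g ∈ G, g.IsSwap) := by
  refine swap_of_factor hm hcop (evalRingHom c) (evalRingHom_surjective c) (X ^ 2 + X + 1) h hfh
    (by compute_degree!) m ?_ ?_
  · intro κ _ _ w hw
    rw [ZMod.card]
    exact rc2_odd (two_eq_zero_of_algebra κ) w (by simpa using hw) hodd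
  · intro κ _ _ w hw
    rw [ZMod.card]
    exact hh κ w hw

/-- A prime `r` divides the order if a specialisation over `F_2` has a suitable factor. -/
theorem dvd_card_of_factor_two {P₀ : (ZMod 2)[X][X]} {n : ℕ} (hm : P₀.Monic)
    (hcop : IsCoprime P₀ (derivative P₀)) (c : ZMod 2) (f u : (ZMod 2)[X])
    (hf : P₀.map (evalRingHom c) = f * u) (hdeg : 0 < f.natDegree) {r : ℕ} (hr : r.Prime)
    (hroot : ∀ (κ : Type) [Field κ] [Algebra (ZMod 2) κ] (w : κ), aeval w f = 0 →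
      w ^ (2 ^ r) = w ∧ w ^ (2 ^ 1) ≠ w) :
    AllMdl P₀ n (fun G => r ∣ Nat.card G) := by
  refine dvd_card_of_factor hm hcop (evalRingHom c) (evalRingHom_surjective c) f ⟨u, hf⟩ hdeg hr ?_
  intro κ _ _ w hw
  rw [ZMod.card]
  have h := hroot κ w hw
  rw [pow_one] at h
  exact h

/-- The symmetric group of degree `n`, with a prime `r > n / 2`. -/
theorem sym_big {n r m : ℕ} (G H : (ZMod 2)[X]) (hG : G.Monic) (hn : G.natDegree = n)
    (hlt : H.natDegree < n) (hH : H ≠ 0) (hcop : IsCoprime G H) (k : ℕ)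
    (hd : derivative (lin G H) = X ^ k) (h0 : k = 0 ∨ (lin G H).coeff 0 = 1)
    (c : ZMod 2) (h : (ZMod 2)[X]) (hfh : G + C c * H = (X ^ 2 + X + 1) * h) (hodd : Odd m)
    (hh : ∀ (κ : Type) [Field κ] [Algebra (ZMod 2) κ] (w : κ), aeval w h = 0 → w ^ (2 ^ m) = w)
    (c' : ZMod 2) (f u : (ZMod 2)[X]) (hf : G + C c' * H = f * u) (hdeg : 0 < f.natDegree)
    (hr : r.Prime) (hbig : n < 2 * r)
    (hroot : ∀ (κ : Type) [Field κ] [Algebra (ZMod 2) κ] (w : κ), aeval w f = 0 →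
      w ^ (2 ^ r) = w ∧ w ^ (2 ^ 1) ≠ w) :
    Realizes (Equiv.Perm (Fin n)) := by
  obtain ⟨hm, hdn⟩ := lin_monic hG hn hlt
  have hc := coprime_of_derivative _ k hd h0
  refine realizes_sym (lin G H) hm hdn hc ?_
  have h1 := lin_trans hG hn hlt hH hcop
  have h2 := swap_of_quadratic (n := n) hm hc c h (by rw [lin_eval]; exact hfh) hodd hh
  have h3 := dvd_card_of_factor_two (n := n) hm hc c' f u (by rw [lin_eval]; exact hf) hdeg hr hroot
  exact ((h1.and h2).and h3).mono (fun Γ hΓ => eq_top_of_big hr hbig Γ hΓ.1.1 hΓ.2 hΓ.1.2)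

/-- The symmetric group of prime degree. -/
theorem sym_prime {n m : ℕ} (hp : n.Prime) (G H : (ZMod 2)[X]) (hG : G.Monic)
    (hn : G.natDegree = n) (hlt : H.natDegree < n) (hH : H ≠ 0) (hcop : IsCoprime G H) (k : ℕ)
    (hd : derivative (lin G H) = X ^ k) (h0 : k = 0 ∨ (lin G H).coeff 0 = 1)
    (c : ZMod 2) (h : (ZMod 2)[X]) (hfh : G + C c * H = (X ^ 2 + X + 1) * h) (hodd : Odd m)
    (hh : ∀ (κ : Type) [Field κ] [Algebra (ZMod 2) κ] (w : κ), aeval w h = 0 →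
      w ^ (2 ^ m) = w) :
    Realizes (Equiv.Perm (Fin n)) := by
  obtain ⟨hm, hdn⟩ := lin_monic hG hn hlt
  have hc := coprime_of_derivative _ k hd h0
  refine realizes_sym (lin G H) hm hdn hc ?_
  have h1 := lin_trans hG hn hlt hH hcop
  have h2 := swap_of_quadratic (n := n) hm hc c h (by rw [lin_eval]; exact hfh) hodd hh
  exact (h1.and h2).mono (fun Γ hΓ => eq_top_of_prime hp Γ hΓ.1 hΓ.2)

theorem coprime_one_coeff {R : Type} [CommRing R] (G : R[X]) (h : G.coeff 0 = 1) (j : ℕ) :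
    IsCoprime G (X ^ j) := by
  refine IsCoprime.pow_right ⟨1, -divX G, ?_⟩
  have h' := G.divX_mul_X_add
  rw [h] at h'
  rw [one_mul, C_1] at *
  linear_combination -h'

end Pool.Agent.AFA
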