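import Pool.Agent.AFA.N1
import Pool.Agent.AFA.S1a
import Pool.Agent.AFA.S1b
import Pool.Agent.AFA.S3b

set_option autoImplicit false

namespace Pool.Agent.AFA

open Polynomial

/-- Criterion for the alternating group: the discriminant modulo 8 of the integral lift `P` is
`± (1 + 4 h)` with `h` of the form `g ^ 2 + g` modulo 2, and the group of every model contains the
alternating group. -/
theorem realizes_alt (P : ℤ[X][X]) {n : ℕ} (hm : P.Monic) (hdeg : P.natDegree = n)
    (hcop : IsCoprime (P.map red) (derivative (P.map red))) (h : ℤ[X]) (ε : ℤ)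
    (hε : ε = 1 ∨ ε = -1)
    (hD : (8 : ℤ[X]) ∣ resultant P (derivative P) n (n - 1) - C ε * (1 + 4 * h))
    (hg : ∃ g : (ZMod 2)[X], red h = g ^ 2 + g)
    (hQ : AllMdl (P.map red) n (fun G => alternatingGroup (Fin n) ≤ G)) :
    Realizes (alternatingGroup (Fin n)) := by
  have hmr : (P.map red).Monic := hm.map _
  have hdr : (P.map red).natDegree = n := by rw [hm.natDegree_map, hdeg]
  obtain ⟨L, iF, iA, iA2, iT, iFD, iG, z, ρ, M⟩ := exists_mdl (P.map red) hmr hdr hcop
  have halt : alternatingGroup (Fin n) ≤ ρ.range := hQ L z ρ M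
  obtain ⟨v, hv⟩ := berlekamp P hm hdeg h ε hε hD
  set ι : (ZMod 2)[X] →+* L := (algebraMap (RatFunc (ZMod 2)) L).comp
    (algebraMap (ZMod 2)[X] (RatFunc (ZMod 2))) with hι
  have hfact : Fact (Nat.Prime 2) := ⟨Nat.prime_two⟩
  have hchar : CharP L 2 :=
    charP_of_injective_ringHom (f := ι.comp (C : ZMod 2 →+* (ZMod 2)[X])) (RingHom.injective _) 2
  have h20 : (2 : L) = 0 := CharTwo.two_eq_zero
  have hb := hv L ι z M.inj (by rw [hι, ← Polynomial.map_map]; exact M.prod)
  have hw := wsum_sq_add z M.inj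
  rw [hb] at hw
  have hσw : ∀ σ : L ≃ₐ[RatFunc (ZMod 2)] L,
      σ (wsum z) = wsum z + (if Equiv.Perm.sign (ρ σ) = 1 then 0 else 1) := by
    intro σ
    rw [← wsum_perm z M.inj (ρ σ)]
    unfold wsum
    rw [map_sum]
    apply Finset.sum_congr rfl
    intro p _
    rw [map_div₀, map_add, M.act, M.act]
  obtain ⟨g, hg⟩ := hg
  have hu : (wsum z + ι v + ι g) * (wsum z + ι v + ι g + 1) = 0 := by
    rw [hg, map_add, map_pow] at hw
    linear_combination hw + (wsum z * ι v + wsum z * ι g + ι v * ι g + ι v + ι g + ι v ^ 2 +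
      ι g ^ 2) * h20
  have hk : ∃ k : RatFunc (ZMod 2), wsum z = algebraMap (RatFunc (ZMod 2)) L k := by
    have h2 : ι v = algebraMap (RatFunc (ZMod 2)) L
      (algebraMap (ZMod 2)[X] (RatFunc (ZMod 2)) v) := rfl
    have h3 : ι g = algebraMap (RatFunc (ZMod 2)) L
      (algebraMap (ZMod 2)[X] (RatFunc (ZMod 2)) g) := rfl
    rcases mul_eq_zero.1 hu with h1 | h1
    · refine ⟨-(algebraMap (ZMod 2)[X] (RatFunc (ZMod 2)) v +
        algebraMap (ZMod 2)[X] (RatFunc (ZMod 2)) g), ?_⟩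
      rw [map_neg, map_add, ← h2, ← h3]
      linear_combination h1
    · refine ⟨-(algebraMap (ZMod 2)[X] (RatFunc (ZMod 2)) v +
        algebraMap (ZMod 2)[X] (RatFunc (ZMod 2)) g + 1), ?_⟩
      rw [map_neg, map_add, map_add, map_one, ← h2, ← h3]
      linear_combination h1
  obtain ⟨k, hk⟩ := hk
  have heven : ∀ σ : L ≃ₐ[RatFunc (ZMod 2)] L, Equiv.Perm.sign (ρ σ) = 1 := by
    intro σ
    by_contra hne
    have h1 := hσw σ
    rw [if_neg hne, hk, AlgEquiv.commutes] at h1
    exact one_ne_zero (left_eq_add.1 h1)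
  have hrange : ρ.range = alternatingGroup (Fin n) := by
    apply le_antisymm _ halt
    rintro _ ⟨σ, rfl⟩
    exact Equiv.Perm.mem_alternatingGroup.2 (heven σ)
  exact ⟨L, iF, iA, iA2, iT, iFD, iG,
    ⟨(MonoidHom.ofInjective M.rinj).trans (MulEquiv.subgroupCongr hrange)⟩, M.unram⟩

end Pool.Agent.AFA
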