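import Pool.Agent.AFA.J1

set_option autoImplicit false

namespace Pool.Agent.AFA

open Equiv.Perm MulAction

/-- ROW N8a. A permutation group of prime degree whose order is divisible by the degree is
transitive.

Proof. By Cauchy (`exists_prime_orderOf_dvd_card'`) it contains an element `g` of order `n`; as
`n < 2 n`, `g` is a cycle (`Equiv.Perm.isCycle_of_prime_order'`), its support has `n` elements
(`IsCycle.orderOf`), so it is `univ`, and a cycle is transitive on its support
(`Equiv.Perm.IsCycle.exists_zpow_eq` or `IsCycle.sameCycle`). -/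
theorem trans_of_prime_dvd {n : ℕ} (hn : n.Prime) (G : Subgroup (Equiv.Perm (Fin n)))
    (h : n ∣ Nat.card G) : ∀ i j : Fin n, ∃ g ∈ G, g i = j := by
  have : Fact n.Prime := ⟨hn⟩
  obtain ⟨g, hg⟩ := exists_prime_orderOf_dvd_card' (G := G) n h
  have hg' : orderOf (g : Equiv.Perm (Fin n)) = n := by rw [Subgroup.orderOf_coe, hg]
  have hc : (g : Equiv.Perm (Fin n)).IsCycle := by
    refine Equiv.Perm.isCycle_of_prime_order' (by rw [hg']; exact hn) ?_
    rw [hg', Fintype.card_fin]
    have := hn.pos
    omega
  have hs : (g : Equiv.Perm (Fin n)).support = Finset.univ := by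
    apply Finset.eq_univ_of_card
    rw [← hc.orderOf, hg', Fintype.card_fin]
  intro i j
  have hi : (g : Equiv.Perm (Fin n)) i ≠ i := by
    rw [← Equiv.Perm.mem_support, hs]
    exact Finset.mem_univ i
  have hj : (g : Equiv.Perm (Fin n)) j ≠ j := by
    rw [← Equiv.Perm.mem_support, hs]
    exact Finset.mem_univ j
  obtain ⟨k, hk⟩ := hc.exists_zpow_eq hi hj
  exact ⟨(g : Equiv.Perm (Fin n)) ^ k, G.zpow_mem g.2 k, hk⟩

end Pool.Agent.AFA
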