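import Mathlib

set_option autoImplicit false

namespace Pool.Agent.AFA

/-- Roots of `Y^3 + Y^2 + 1`, powers of 4. -/
theorem rf3b {κ : Type} [Field κ] (h2 : (2 : κ) = 0) (w : κ)
    (hf : w ^ 3 + w ^ 2 + 1 = 0) :
    w ^ (4 ^ 3) = w ∧ w ^ (4 ^ 1) ≠ w := by
  have e0 : w ^ 1 = w := pow_one w
  have e1 : w ^ 2 = w ^ 2 := rfl
  have e2 : w ^ 4 = w ^ 2 + w + 1 := by
    linear_combination (w ^ 2 + (w ^ 2)) * e1 + (w + 1) * hf + (-w ^ 3 - w ^ 2 - w - 1) * h2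
  have e3 : w ^ 8 = w := by
    linear_combination (w ^ 4 + (w ^ 2 + w + 1)) * e2 + (w + 1) * hf + (w ^ 2) * h2
  have e4 : w ^ 16 = w ^ 2 := by
    linear_combination (w ^ 8 + (w)) * e3
  have e5 : w ^ 32 = w ^ 2 + w + 1 := by
    linear_combination (w ^ 16 + (w ^ 2)) * e4 + (w + 1) * hf + (-w ^ 3 - w ^ 2 - w - 1) * h2
  have e6 : w ^ 64 = w := by
    linear_combination (w ^ 32 + (w ^ 2 + w + 1)) * e5 + (w + 1) * hf + (w ^ 2) * h2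
  refine ⟨?_, ?_⟩
  · rw [show (4 : ℕ) ^ 3 = 64 from rfl]
    exact e6
  · intro hw
    rw [show (4 : ℕ) ^ 1 = 4 from rfl, e2] at hw
    have h1 : (1 : κ) = 0 := by
      linear_combination (w ^ 2 + w + 1) * hw + (w) * hf - (w ^ 4 + w ^ 3 + w ^ 2 + w) * h2
    exact one_ne_zero h1

/-- Roots of `Y^3 + Y + 1`, first power of 4. -/
theorem rf3_one {κ : Type} [Field κ] (h2 : (2 : κ) = 0) (w : κ)
    (hf : w ^ 3 + w + 1 = 0) :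
    w ^ (4 ^ 1) ≠ w := by
  have e0 : w ^ 1 = w := pow_one w
  have e1 : w ^ 2 = w ^ 2 := rfl
  have e2 : w ^ 4 = w ^ 2 + w := by
    linear_combination (w ^ 2 + (w ^ 2)) * e1 + (w) * hf + (-w ^ 2 - w) * h2
  intro hw
  rw [show (4 : ℕ) ^ 1 = 4 from rfl, e2] at hw
  have h1 : (1 : κ) = 0 := by
    linear_combination (w ^ 2 + w + 1) * hw + (w + 1) * hf - (w ^ 4 + w ^ 3 + w ^ 2 + w) * h2
  exact one_ne_zero h1

/-- Roots of `Y^2 + Y + 1`, first power of 4. -/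
theorem rf2_one {κ : Type} [Field κ] (h2 : (2 : κ) = 0) (w : κ)
    (hf : w ^ 2 + w + 1 = 0) :
    w ^ (4 ^ 1) = w := by
  have e0 : w ^ 1 = w := pow_one w
  have e1 : w ^ 2 = w + 1 := by
    linear_combination (w ^ 1 + (w)) * e0 + (1) * hf + (-w - 1) * h2
  have e2 : w ^ 4 = w := by
    linear_combination (w ^ 2 + (w + 1)) * e1 + (1) * hf
  rw [show (4 : ℕ) ^ 1 = 4 from rfl]
  exact e2

/-- Roots of `Y^3 + Y + 1`, fourth power of 4. -/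
theorem rf3_four {κ : Type} [Field κ] (h2 : (2 : κ) = 0) (w : κ)
    (hf : w ^ 3 + w + 1 = 0) :
    w ^ (4 ^ 4) ≠ w := by
  have e0 : w ^ 1 = w := pow_one w
  have e1 : w ^ 2 = w ^ 2 := rfl
  have e2 : w ^ 4 = w ^ 2 + w := by
    linear_combination (w ^ 2 + (w ^ 2)) * e1 + (w) * hf + (-w ^ 2 - w) * h2
  have e3 : w ^ 8 = w := by
    linear_combination (w ^ 4 + (w ^ 2 + w)) * e2 + (w) * hf + (w ^ 3 - w) * h2
  have e4 : w ^ 16 = w ^ 2 := by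
    linear_combination (w ^ 8 + (w)) * e3
  have e5 : w ^ 32 = w ^ 2 + w := by
    linear_combination (w ^ 16 + (w ^ 2)) * e4 + (w) * hf + (-w ^ 2 - w) * h2
  have e6 : w ^ 64 = w := by
    linear_combination (w ^ 32 + (w ^ 2 + w)) * e5 + (w) * hf + (w ^ 3 - w) * h2
  have e7 : w ^ 128 = w ^ 2 := by
    linear_combination (w ^ 64 + (w)) * e6
  have e8 : w ^ 256 = w ^ 2 + w := by
    linear_combination (w ^ 128 + (w ^ 2)) * e7 + (w) * hf + (-w ^ 2 - w) * h2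
  intro hw
  rw [show (4 : ℕ) ^ 4 = 256 from rfl, e8] at hw
  have h1 : (1 : κ) = 0 := by
    linear_combination (w ^ 2 + w + 1) * hw + (w + 1) * hf - (w ^ 4 + w ^ 3 + w ^ 2 + w) * h2
  exact one_ne_zero h1

/-- Roots of `Y^8 + Y^6 + Y^5 + Y^4 + Y^3 + Y + 1`, fourth power of 4. -/
theorem rf8_four {κ : Type} [Field κ] (h2 : (2 : κ) = 0) (w : κ)
    (hf : w ^ 8 + w ^ 6 + w ^ 5 + w ^ 4 + w ^ 3 + w + 1 = 0) :
    w ^ (4 ^ 4) = w := by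
  have e0 : w ^ 1 = w := pow_one w
  have e1 : w ^ 2 = w ^ 2 := rfl
  have e2 : w ^ 4 = w ^ 4 := rfl
  have e3 : w ^ 8 = w ^ 6 + w ^ 5 + w ^ 4 + w ^ 3 + w + 1 := by
    linear_combination (w ^ 4 + (w ^ 4)) * e2 + (1) * hf + (-w ^ 6 - w ^ 5 - w ^ 4 - w ^ 3 - w -
        1) * h2
  have e4 : w ^ 16 = w + 1 := by
    linear_combination (w ^ 8 + (w ^ 6 + w ^ 5 + w ^ 4 + w ^ 3 + w + 1)) * e3 + (w ^ 4 + w) * hf
        + (w ^ 11 + w ^ 10 + w ^ 9 + w ^ 8 + w ^ 7 + 2 * w ^ 6 + w ^ 5 + w ^ 4 + w ^ 3) * h2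
  have e5 : w ^ 32 = w ^ 2 + 1 := by
    linear_combination (w ^ 16 + (w + 1)) * e4 + (w) * h2
  have e6 : w ^ 64 = w ^ 4 + 1 := by
    linear_combination (w ^ 32 + (w ^ 2 + 1)) * e5 + (w ^ 2) * h2
  have e7 : w ^ 128 = w ^ 6 + w ^ 5 + w ^ 4 + w ^ 3 + w := by
    linear_combination (w ^ 64 + (w ^ 4 + 1)) * e6 + (1) * hf + (-w ^ 6 - w ^ 5 - w ^ 3 - w) * h2
  have e8 : w ^ 256 = w := by
    linear_combination (w ^ 128 + (w ^ 6 + w ^ 5 + w ^ 4 + w ^ 3 + w)) * e7 + (w ^ 4 + w) * hf +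
        (w ^ 11 + w ^ 10 + w ^ 9 + w ^ 8 + w ^ 7 + w ^ 6 - w) * h2
  rw [show (4 : ℕ) ^ 4 = 256 from rfl]
  exact e8

/-- Roots of `Y^3 + o Y^2 + 1`. -/
theorem rf3o {κ : Type} [Field κ] (h2 : (2 : κ) = 0) (o : κ) (ho : o ^ 2 + o + 1 = 0) (w : κ)
    (hf : w ^ 3 + w ^ 2 * o + 1 = 0) :
    w ^ (4 ^ 2) ≠ w := by
  have e0 : w ^ 1 = w := pow_one w
  have e1 : w ^ 2 = w ^ 2 := rfl
  have e2 : w ^ 4 = w ^ 2 * o + w ^ 2 + w + o := by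
    linear_combination (w ^ 2 + (w ^ 2)) * e1 + (w + o) * hf + (-w ^ 3 * o - w - o) * h2 + (-w ^
        2) * ho
  have e3 : w ^ 8 = w * o := by
    linear_combination (w ^ 4 + (w ^ 2 * o + w ^ 2 + w + o)) * e2 + (w * o + o + 1) * hf + (w ^
        3 * o + w ^ 3 - o - 1) * h2 + (w ^ 4 - w ^ 3 + w ^ 2 + 1) * ho
  have e4 : w ^ 16 = w ^ 2 * o + w ^ 2 := by
    linear_combination (w ^ 8 + (w * o)) * e3 + (-w ^ 2 * o - w ^ 2) * h2 + (w ^ 2) * ho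
  intro hw
  rw [show (4 : ℕ) ^ 2 = 16 from rfl, e4] at hw
  have h1 : (1 : κ) = 0 := by
    linear_combination (w * o) * hw + (1) * hf - (0) * h2 - (w ^ 3) * ho
  exact one_ne_zero h1

/-- Roots of `Y^4 + o Y^3 + o Y^2 + o Y + 1`. -/
theorem rf4o {κ : Type} [Field κ] (h2 : (2 : κ) = 0) (o : κ) (ho : o ^ 2 + o + 1 = 0) (w : κ)
    (hf : w ^ 4 + w ^ 3 * o + w ^ 2 * o + w * o + 1 = 0) :
    w ^ (4 ^ 2) = w := by
  have e0 : w ^ 1 = w := pow_one w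
  have e1 : w ^ 2 = w ^ 2 := rfl
  have e2 : w ^ 4 = w ^ 3 * o + w ^ 2 * o + w * o + 1 := by
    linear_combination (w ^ 2 + (w ^ 2)) * e1 + (1) * hf + (-w ^ 3 * o - w ^ 2 * o - w * o - 1) * h2
  have e3 : w ^ 8 = w ^ 3 * o + w ^ 3 + w ^ 2 * o + w + 1 := by
    linear_combination (w ^ 4 + (w ^ 3 * o + w ^ 2 * o + w * o + 1)) * e2 + (w ^ 2 * o + w ^ 2 +
        w) * hf + (-w ^ 6 * o - w ^ 6 - w ^ 5 * o - w ^ 5 - 2 * w ^ 4 * o - w ^ 4 - w ^ 3 * o - w ^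
        3 - w ^ 2 * o - w ^ 2 + w * o - w) * h2 + (w ^ 6 + w ^ 5 + 2 * w ^ 4 + w ^ 3 + w ^ 2) * ho
  have e4 : w ^ 16 = w := by
    linear_combination (w ^ 8 + (w ^ 3 * o + w ^ 3 + w ^ 2 * o + w + 1)) * e3 + (w ^ 2 * o + w *
        o + w + 1) * hf + (-w ^ 5 + w ^ 4 * o + w ^ 4 + 2 * w ^ 3 * o + 2 * w ^ 3 + w ^ 2 - w * o) *
        h2 + (w ^ 6 + w ^ 5 - w ^ 4 - 2 * w ^ 3 - w ^ 2) * ho
  rw [show (4 : ℕ) ^ 2 = 16 from rfl]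
  exact e4

end Pool.Agent.AFA
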