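import Pool.Agent.AFA.N10
import Pool.Agent.AFA.N2
import Pool.Agent.AFA.N8a
import Pool.Agent.AFA.N8b
import Pool.Agent.AFA.F4
import Pool.Agent.AFA.R4
import Pool.Agent.AFA.J3

set_option autoImplicit false

namespace Pool.Agent.AFA

open Polynomial

theorem red_X : red (X : ℤ[X]) = X := by
  simp [red]

theorem coprime_of_X_mul {R : Type} [CommRing R] (P : R[X])
    (hd : X * derivative P = P - 1) : IsCoprime P (derivative P) :=
  ⟨1, -X, by linear_combination -hd⟩

/-- Change of the right hand side of a congruence modulo 8. -/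
theorem dvd_change {D E E' k : ℤ[X]} (h : (8 : ℤ[X]) ∣ D - E) (e : E = E' + 8 * k) :
    (8 : ℤ[X]) ∣ D - E' := by
  have e1 : D - E' = (D - E) + 8 * k := by rw [e]; ring
  rw [e1]
  exact dvd_add h (dvd_mul_right 8 k)

/-- The alternating group of degree `n`, with a prime `n / 2 < r ≤ n - 3`. -/
theorem alt_jordan (P : ℤ[X][X]) {n r : ℕ} (hm : P.Monic) (hdeg : P.natDegree = n)
    (G H : (ZMod 2)[X]) (hP : P.map red = lin G H) (hG : G.Monic) (hn : G.natDegree = n)
    (hlt : H.natDegree < n) (hH : H ≠ 0) (hGH : IsCoprime G H)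
    (hcop : IsCoprime (lin G H) (derivative (lin G H))) (h : ℤ[X]) (ε : ℤ)
    (hε : ε = 1 ∨ ε = -1)
    (hD : (8 : ℤ[X]) ∣ resultant P (derivative P) n (n - 1) - C ε * (1 + 4 * h))
    (hg : ∃ g : (ZMod 2)[X], red h = g ^ 2 + g)
    (c : ZMod 2) (f u : (ZMod 2)[X]) (hf : G + C c * H = f * u) (hfd : 0 < f.natDegree)
    (hr : r.Prime) (hbig : n < 2 * r) (hr3 : r + 3 ≤ n)
    (hroot : ∀ (κ : Type) [Field κ] [Algebra (ZMod 2) κ] (w : κ), aeval w f = 0 →
      w ^ (2 ^ r) = w ∧ w ^ (2 ^ 1) ≠ w) :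
    Realizes (alternatingGroup (Fin n)) := by
  obtain ⟨hm', hdn⟩ := lin_monic hG hn hlt
  refine realizes_alt P hm hdeg (by rw [hP]; exact hcop) h ε hε hD hg ?_
  rw [hP]
  have h1 := lin_trans hG hn hlt hH hGH
  have h3 := dvd_card_of_factor_two (n := n) hm' hcop c f u (by rw [lin_eval]; exact hf) hfd hr hroot
  exact (h1.and h3).mono (fun Γ hΓ => alternating_le Γ hΓ.1 hr hΓ.2 hbig hr3)

end Pool.Agent.AFA
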