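import Pool.Agent.AFA.N11
import Pool.Agent.AFA.M3a

set_option autoImplicit false

namespace Pool.Agent.AFA

open Polynomial

/-- The alternating group from `Y ^ n + (Y ^ s + 1) (1 + x Y ^ (4 i))`, `s = 1` or `s = 3`, and a
prime `n / 2 < r ≤ n - 3`. -/
theorem alt_even_jordan {s n i r : ℕ} (hs : s = 1 ∨ s = 3) (hn : Even n) (h3 : 3 * s ≤ n)
    (hi : 0 < i) (hlt : s + 4 * i < n) (ε k : ℤ) (hε : ε = 1 ∨ ε = -1)
    (hk : (1 - s * n : ℤ) = ε + 8 * k)
    (c : ZMod 2) (f u : (ZMod 2)[X])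
    (hf : X ^ n + (X ^ s + 1) + C c * ((X ^ s + 1) * X ^ (4 * i)) = f * u)
    (hfd : 0 < f.natDegree) (hr : r.Prime) (hbig : n < 2 * r) (hr3 : r + 3 ≤ n)
    (hroot : ∀ (κ : Type) [Field κ] [Algebra (ZMod 2) κ] (w : κ), aeval w f = 0 →
      w ^ (2 ^ r) = w ∧ w ^ (2 ^ 1) ≠ w) :
    Realizes (alternatingGroup (Fin n)) := by
  have hs0 : s ≠ 0 := by omega
  have hso : Odd s := by rcases hs with rfl | rfl <;> decide
  have hP : (fam (SE s 0) 0 X n i : ℤ[X][X]).map red =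
      lin (X ^ n + (X ^ s + 1)) ((X ^ s + 1) * X ^ (4 * i)) := by
    rw [map_fam, red_X]
    simp only [fam, SE, lin, C_0, zero_mul, add_zero, Polynomial.map_add, Polynomial.map_mul,
      Polynomial.map_pow, Polynomial.map_X, Polynomial.map_one, Int.cast_zero]
    ring
  have hSd : (X ^ s + 1 : (ZMod 2)[X]).natDegree = s := by
    rcases hs with rfl | rfl
    · compute_degree!
    · compute_degree!
  have hSm : (X ^ s + 1 : (ZMod 2)[X]).Monic := by
    rcases hs with rfl | rfl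
    · monicity!
    · monicity!
  have hdegn : (X ^ s + 1 : (ZMod 2)[X]).degree < ((X ^ n : (ZMod 2)[X])).degree := by
    refine degree_lt_degree ?_
    rw [hSd, natDegree_X_pow]
    omega
  have hG : (X ^ n + (X ^ s + 1) : (ZMod 2)[X]).Monic := (monic_X_pow n).add_of_left hdegn
  have hGn : (X ^ n + (X ^ s + 1) : (ZMod 2)[X]).natDegree = n := by
    rw [natDegree_add_eq_left_of_degree_lt hdegn, natDegree_X_pow]
  have hHd : ((X ^ s + 1) * X ^ (4 * i) : (ZMod 2)[X]).natDegree < n := by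
    rw [hSm.natDegree_mul (monic_X_pow _), hSd, natDegree_X_pow]
    exact hlt
  have hH0 : ((X ^ s + 1) * X ^ (4 * i) : (ZMod 2)[X]) ≠ 0 :=
    (hSm.mul (monic_X_pow _)).ne_zero
  have hS0 : (X ^ s + 1 : (ZMod 2)[X]).coeff 0 = 1 := by
    rw [coeff_add, coeff_X_pow, coeff_one_zero, if_neg (Ne.symm hs0), zero_add]
  have hG0 : (X ^ n + (X ^ s + 1) : (ZMod 2)[X]).coeff 0 = 1 := by
    rw [coeff_add, coeff_X_pow, if_neg (by omega), hS0, zero_add]
  have hGH : IsCoprime (X ^ n + (X ^ s + 1) : (ZMod 2)[X]) ((X ^ s + 1) * X ^ (4 * i)) := by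
    refine IsCoprime.mul_right ?_ (coprime_one_coeff _ hG0 _)
    have h := (coprime_one_coeff (X ^ s + 1 : (ZMod 2)[X]) hS0 n).symm
    obtain ⟨a, b, hab⟩ := h
    exact ⟨a, b - a, by linear_combination hab⟩
  have hSE : ((SE s 0 : ℤ[X]).map (Int.castRingHom (ZMod 2)[X])) = X ^ s + 1 := by
    simp [SE]
  have hder : derivative ((SE s 0).map (Int.castRingHom (ZMod 2)[X])) = X ^ (s - 1) := by
    rw [hSE]
    have h21 := zmod_two_poly2
    have h20 := zmod_two_poly
    have h2 : ((s : (ZMod 2)[X])) = 1 := by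
      obtain ⟨m, rfl⟩ := hso
      push_cast
      rw [h20]
      ring
    rw [derivative_add, derivative_X_pow, derivative_one, h2, C_1, one_mul, add_zero]
  have hSEm : (SE s 0 : ℤ[X]).natDegree ≤ s := by
    rcases hs with rfl | rfl
    · simp only [SE, C_0, zero_mul, add_zero]
      compute_degree!
    · simp only [SE, C_0, zero_mul, add_zero]
      compute_degree!
  have hSE0 : (SE s 0 : ℤ[X]).coeff 0 = 1 := by
    rcases hs with rfl | rfl
    · simp [SE]
    · simp [SE]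
  have hcop : IsCoprime (lin (X ^ n + (X ^ s + 1)) ((X ^ s + 1) * X ^ (4 * i)))
      (derivative (lin (X ^ n + (X ^ s + 1)) ((X ^ s + 1) * X ^ (4 * i)))) := by
    rw [← hP, map_fam]
    exact coprime_even (SE s 0) (s - 1) hder hSE0 0 _ n i hn (by omega) hi
  obtain ⟨hm, hdeg⟩ := fam_monic (SE s 0) s hSEm 0 (X : ℤ[X]) n i hi hlt
  have hdisc := disc_even s n i 0 0 X (by omega) hn h3 hi hlt
  refine alt_jordan (fam (SE s 0) 0 X n i) hm hdeg _ _ hP hG hGn hHd hH0 hGH hcop 0 ε hε ?_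
    ⟨0, by simp⟩ c f u hf hfd hr hbig hr3 hroot
  refine dvd_change (k := C k) hdisc ?_
  have e : (C (1 + 4 * 0 - (s : ℤ) * n) : ℤ[X]) = C (ε + 8 * k) := by
    rw [← hk]
    congr 1
  rw [e, map_add, map_mul, map_ofNat]
  ring

end Pool.Agent.AFA
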