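import Pool.Agent.AFA.N0
import Pool.Agent.AFA.G2

set_option autoImplicit false

namespace Pool.Agent.AFA

open Polynomial

/-- ROW N7a. Transitivity from irreducibility. Proof: as in the proof of `exists_model` (file
`M2a.lean`): `z i`, `z j` are roots of the irreducible polynomial, `exists_aut_map` gives `σ` with
`σ (z i) = z j`, so `ρ σ i = j`. -/
theorem trans_of_irreducible {P₀ : (ZMod 2)[X][X]} {n : ℕ}
    (hirr : Irreducible (P₀.map (algebraMap (ZMod 2)[X] (RatFunc (ZMod 2))))) :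
    AllMdl P₀ n (fun G => ∀ i j : Fin n, ∃ g ∈ G, g i = j) := by
  intro L _ _ _ _ _ _ z ρ M i j
  have hroot : ∀ x, aeval (z x) (P₀.map (algebraMap (ZMod 2)[X] (RatFunc (ZMod 2)))) = 0 := by
    intro x
    rw [← Polynomial.eval_map_algebraMap, M.prod, Polynomial.eval_prod]
    refine Finset.prod_eq_zero (Finset.mem_univ x) ?_
    rw [eval_sub, eval_X, eval_C, sub_self]
  obtain ⟨σ, hσ⟩ := exists_aut_map _ hirr (hroot i) (hroot j)
  refine ⟨ρ σ, ⟨σ, rfl⟩, M.inj ?_⟩
  rw [← M.act, hσ]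

end Pool.Agent.AFA
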