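import Pool.Agent.AFA.N1
import Pool.Agent.AFA.I1
import Pool.Agent.AFA.N7

set_option autoImplicit false

namespace Pool.Agent.AFA

open Polynomial

/-- A polynomial whose derivative is a power of the variable, with constant term 1 if the exponent
is positive, is coprime to its derivative. -/
theorem coprime_of_derivative {R : Type} [CommRing R] (P : R[X]) (k : ℕ)
    (hd : derivative P = X ^ k) (h0 : k = 0 ∨ P.coeff 0 = 1) : IsCoprime P (derivative P) := by
  rw [hd]
  rcases h0 with rfl | h0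
  · rw [pow_zero]
    exact isCoprime_one_right
  · refine IsCoprime.pow_right ?_
    refine ⟨1, -divX P, ?_⟩
    have h := P.divX_mul_X_add
    rw [h0] at h
    rw [one_mul, C_1] at *
    linear_combination -h

/-- The polynomial `G(Y) + x H(Y)`. -/
noncomputable def lin (G H : (ZMod 2)[X]) : (ZMod 2)[X][X] :=
  G.map (C : ZMod 2 →+* (ZMod 2)[X]) + C (X : (ZMod 2)[X]) * H.map (C : ZMod 2 →+* (ZMod 2)[X])

theorem lin_monic {G H : (ZMod 2)[X]} {n : ℕ} (hG : G.Monic) (hn : G.natDegree = n)
    (hlt : H.natDegree < n) : (lin G H).Monic ∧ (lin G H).natDegree = n := by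
  have h1 : (G.map (C : ZMod 2 →+* (ZMod 2)[X])).Monic := hG.map _
  have h2 : (G.map (C : ZMod 2 →+* (ZMod 2)[X])).natDegree = n := by rw [hG.natDegree_map, hn]
  have h3 : (C (X : (ZMod 2)[X]) * H.map (C : ZMod 2 →+* (ZMod 2)[X])).natDegree < n :=
    (natDegree_C_mul_le _ _).trans_lt (natDegree_map_le.trans_lt hlt)
  have h4 : (C (X : (ZMod 2)[X]) * H.map (C : ZMod 2 →+* (ZMod 2)[X])).degree <
      (G.map (C : ZMod 2 →+* (ZMod 2)[X])).degree := by
    refine degree_lt_degree ?_
    rw [h2]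
    exact h3
  refine ⟨h1.add_of_left h4, ?_⟩
  unfold lin
  rw [natDegree_add_eq_left_of_degree_lt h4, h2]

theorem lin_map (G H : (ZMod 2)[X]) {F : Type} [CommRing F] [Algebra (ZMod 2) F]
    (φ : (ZMod 2)[X] →+* F) (hφ : φ.comp C = algebraMap (ZMod 2) F) :
    (lin G H).map φ = G.map (algebraMap (ZMod 2) F) + C (φ X) * H.map (algebraMap (ZMod 2) F) := by
  simp [lin, Polynomial.map_map, hφ]

theorem lin_eval (G H : (ZMod 2)[X]) (c : ZMod 2) :
    (lin G H).map (evalRingHom c) = G + C c * H := by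
  have h : (evalRingHom c).comp (C : ZMod 2 →+* (ZMod 2)[X]) = RingHom.id _ := by
    ext x
    simp
  simp [lin, Polynomial.map_map, h]

theorem evalRingHom_surjective (c : ZMod 2) : Function.Surjective (evalRingHom c) := by
  intro x
  exact ⟨C x, by simp⟩

/-- Irreducibility over `F_2(x)`. -/
theorem irreducible_frac {P₀ : (ZMod 2)[X][X]} (hm : P₀.Monic) (h : Irreducible P₀) :
    Irreducible (P₀.map (algebraMap (ZMod 2)[X] (RatFunc (ZMod 2)))) :=
  (Polynomial.Monic.irreducible_iff_irreducible_map_fraction_map (K := RatFunc (ZMod 2)) hm).1 h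

theorem lin_trans {G H : (ZMod 2)[X]} {n : ℕ} (hG : G.Monic) (hn : G.natDegree = n)
    (hlt : H.natDegree < n) (hH : H ≠ 0) (hcop : IsCoprime G H) :
    AllMdl (lin G H) n (fun Γ => ∀ i j : Fin n, ∃ g ∈ Γ, g i = j) :=
  trans_of_irreducible (irreducible_frac (lin_monic hG hn hlt).1 (irreducible_linear G H hH hcop))

end Pool.Agent.AFA
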