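import Pool.Agent.AFA.N0

set_option autoImplicit false

namespace Pool.Agent.AFA

open Polynomial

/-- ROW N4. Frobenius elements: for a surjective homomorphism `φ` from `F_2[x]` to a finite field
`F` with `q` elements there is an element `σ` of the Galois group which acts on the roots `z j` as
the map `w ↦ w ^ q` acts on the roots `y j` of the specialised polynomial.

Proof. Let `A = (ZMod 2)[X]`, `B = integralClosure A L`, `p = RingHom.ker φ`, a maximal ideal of `A`
(`A ⧸ p ≃ F` by surjectivity). Choose a prime ideal `Q` of `B` lying over `p` (`B` is integral over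
`A`: `Ideal.exists_ideal_over_maximal_of_isIntegral`, or `primesOver` nonempty), it is maximal. `B`
is a finite `A`-module (`IsIntegralClosure.finite A K L B`, `L/K` separable), so `B ⧸ Q` is a finite
field `κ`. It is an `F`-algebra through `F ≃ A ⧸ p → B ⧸ Q`, so that
`algebraMap F κ (φ a) = mk Q (algebraMap A B a)`. The roots `z j` are integral over `A` (`P₀` monic,
`M.prod`), so `z j ∈ B`, and `y j := mk Q (z j)`. Reducing `P₀ = ∏ (X - C (z j))` (true in `B[X]`,
because `B → L` is injective) modulo `Q` gives `(P₀.map φ).map (algebraMap F κ) = ∏ (X - C (y j))`.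
`P₀.map φ` is coprime to its derivative, so it is separable and the `y j` are distinct. The group
`L ≃ₐ[K] L` acts on `B` (`IsIntegralClosure.MulSemiringAction A K L B`, `galRestrict`), with ring of
invariants `A` (`Algebra.IsInvariant A B G`, `Algebra.isInvariant_of_isGalois A K L B`), so by
`IsArithFrobAt.exists_of_isInvariant` (`Mathlib/RingTheory/Frobenius.lean`) there is `σ` with
`σ b - b ^ q ∈ Q` for all `b ∈ B`, `q = Nat.card (A ⧸ Q.under A) = Fintype.card F`. For `b = z j`:
`z (ρ σ j) ≡ z j ^ q` modulo `Q`, i.e. `y (ρ σ j) = y j ^ q`. -/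
theorem exists_frob {P₀ : (ZMod 2)[X][X]} {n : ℕ} (hm : P₀.Monic)
    (hcop : IsCoprime P₀ (derivative P₀)) {L : Type} [Field L] [Algebra (RatFunc (ZMod 2)) L]
    [Algebra (ZMod 2)[X] L] [IsScalarTower (ZMod 2)[X] (RatFunc (ZMod 2)) L]
    [FiniteDimensional (RatFunc (ZMod 2)) L] [IsGalois (RatFunc (ZMod 2)) L] {z : Fin n → L}
    {ρ : (L ≃ₐ[RatFunc (ZMod 2)] L) →* Equiv.Perm (Fin n)} (M : Mdl P₀ n L z ρ)
    {F : Type} [Field F] [Fintype F] (φ : (ZMod 2)[X] →+* F) (hφ : Function.Surjective φ) :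
    ∃ (σ : L ≃ₐ[RatFunc (ZMod 2)] L) (κ : Type) (_ : Field κ) (_ : Algebra F κ) (y : Fin n → κ),
      Function.Injective y ∧ (P₀.map φ).map (algebraMap F κ) = ∏ j, (X - C (y j)) ∧
      ∀ j, y (ρ σ j) = y j ^ Fintype.card F := by
  classical
  let B := integralClosure (ZMod 2)[X] L
  have : IsFractionRing B L :=
    integralClosure.isFractionRing_of_finite_extension (RatFunc (ZMod 2)) L
  have : Module.Finite (ZMod 2)[X] B :=
    IsIntegralClosure.finite (ZMod 2)[X] (RatFunc (ZMod 2)) L B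
  have : IsDedekindDomain B := integralClosure.isDedekindDomain (ZMod 2)[X] (RatFunc (ZMod 2)) L
  have hinj : Function.Injective (algebraMap (ZMod 2)[X] L) := by
    rw [IsScalarTower.algebraMap_eq (ZMod 2)[X] (RatFunc (ZMod 2)) L]
    exact (algebraMap (RatFunc (ZMod 2)) L).injective.comp
      (IsFractionRing.injective (ZMod 2)[X] (RatFunc (ZMod 2)))
  have hinjBL : Function.Injective (algebraMap B L) := IsFractionRing.injective B L
  have hinjB : Function.Injective (algebraMap (ZMod 2)[X] B) := by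
    intro x y hxy
    apply hinj
    rw [IsScalarTower.algebraMap_apply (ZMod 2)[X] B L, hxy,
      ← IsScalarTower.algebraMap_apply (ZMod 2)[X] B L]
  have : FaithfulSMul (ZMod 2)[X] B := (faithfulSMul_iff_algebraMap_injective _ B).2 hinjB
  let p : Ideal (ZMod 2)[X] := RingHom.ker φ
  have hp : p.IsPrime := RingHom.ker_isPrime φ
  let e : ((ZMod 2)[X] ⧸ p) ≃+* F := RingHom.quotientKerEquivOfSurjective hφ
  have : Finite ((ZMod 2)[X] ⧸ p) := Finite.of_equiv F e.symm.toEquiv
  obtain ⟨⟨Q, hQp, hQo⟩⟩ := Ideal.nonempty_primesOver (S := B) p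
  have : Q.LiesOver p := hQo
  have : Module.Finite ((ZMod 2)[X] ⧸ p) (B ⧸ Q) :=
    Module.Finite.of_restrictScalars_finite (ZMod 2)[X] ((ZMod 2)[X] ⧸ p) (B ⧸ Q)
  have hfin : Finite (B ⧸ Q) := Module.finite_of_finite ((ZMod 2)[X] ⧸ p)
  have hmax : Q.IsMaximal :=
    Ideal.Quotient.maximal_of_isField _ (Finite.isField_of_domain (B ⧸ Q))
  let : Field (B ⧸ Q) := Ideal.Quotient.field Q
  let ψ : F →+* (B ⧸ Q) := (algebraMap ((ZMod 2)[X] ⧸ p) (B ⧸ Q)).comp e.symm.toRingHom
  have hψ : ψ.comp φ = (Ideal.Quotient.mk Q).comp (algebraMap (ZMod 2)[X] B) := by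
    apply RingHom.ext
    intro a
    have h1 : e.symm (φ a) = Ideal.Quotient.mk p a := by
      rw [RingEquiv.symm_apply_eq]
      rfl
    show algebraMap ((ZMod 2)[X] ⧸ p) (B ⧸ Q) (e.symm (φ a)) =
      Ideal.Quotient.mk Q (algebraMap (ZMod 2)[X] B a)
    rw [h1]
    rfl
  let : Algebra F (B ⧸ Q) := ψ.toAlgebra
  have hint : ∀ j, IsIntegral (ZMod 2)[X] (z j) := by
    intro j
    refine ⟨P₀, hm, ?_⟩
    have h1 := congrArg (eval (z j)) M.prod
    rw [Polynomial.map_map, eval_map, ← IsScalarTower.algebraMap_eq] at h1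
    rw [h1, eval_prod]
    exact Finset.prod_eq_zero (Finset.mem_univ j) (by simp)
  let zB : Fin n → B := fun j => ⟨z j, hint j⟩
  have hzB : ∀ j, algebraMap B L (zB j) = z j := fun j => rfl
  have hPB : P₀.map (algebraMap (ZMod 2)[X] B) = ∏ j, (X - C (zB j)) := by
    apply Polynomial.map_injective (algebraMap B L) hinjBL
    rw [Polynomial.map_map, ← IsScalarTower.algebraMap_eq, Polynomial.map_prod]
    have h1 := M.prod
    rw [Polynomial.map_map, ← IsScalarTower.algebraMap_eq] at h1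
    rw [h1]
    refine Finset.prod_congr rfl fun j _ => ?_
    rw [Polynomial.map_sub, map_X, map_C, hzB]
  have hPκ : (P₀.map φ).map (algebraMap F (B ⧸ Q)) =
      ∏ j, (X - C (Ideal.Quotient.mk Q (zB j))) := by
    have h1 : (P₀.map φ).map (algebraMap F (B ⧸ Q)) = P₀.map (ψ.comp φ) := Polynomial.map_map _ _ _
    rw [h1, hψ, ← Polynomial.map_map, hPB, Polynomial.map_prod]
    refine Finset.prod_congr rfl fun j _ => ?_
    rw [Polynomial.map_sub, map_X, map_C]
  let : MulSemiringAction (L ≃ₐ[RatFunc (ZMod 2)] L) B :=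
    IsIntegralClosure.MulSemiringAction (ZMod 2)[X] (RatFunc (ZMod 2)) L B
  have hG : IsGaloisGroup (L ≃ₐ[RatFunc (ZMod 2)] L) (ZMod 2)[X] B :=
    IsGaloisGroup.of_isFractionRing _ _ _ (RatFunc (ZMod 2)) L
  have := hG.commutes
  have := hG.isInvariant
  obtain ⟨σ, hσ⟩ := IsArithFrobAt.exists_of_isInvariant (ZMod 2)[X]
    (L ≃ₐ[RatFunc (ZMod 2)] L) Q
  have hcard : Nat.card ((ZMod 2)[X] ⧸ Q.under (ZMod 2)[X]) = Fintype.card F := by
    have h1 : Q.under (ZMod 2)[X] = p := hQo.over.symm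
    rw [h1, Nat.card_congr e.toEquiv, Nat.card_eq_fintype_card]
  refine ⟨σ, B ⧸ Q, inferInstance, inferInstance, fun j => Ideal.Quotient.mk Q (zB j), ?_, hPκ, ?_⟩
  · rw [← separable_prod_X_sub_C_iff, ← hPκ]
    have h1 : P₀.Separable := hcop
    exact (h1.map (f := φ)).map
  · intro j
    have h1 := hσ (zB j)
    rw [hcard, ← Ideal.Quotient.eq] at h1
    have h2 : (MulSemiringAction.toAlgHom (ZMod 2)[X] B σ) (zB j) = zB (ρ σ j) := by
      apply hinjBL
      have h3 : algebraMap B L ((MulSemiringAction.toAlgHom (ZMod 2)[X] B σ) (zB j)) =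
          σ (algebraMap B L (zB j)) := algebraMap_galRestrict_apply (ZMod 2)[X] σ (zB j)
      rw [h3, hzB, hzB, M.act]
    rw [h2] at h1
    show Ideal.Quotient.mk Q (zB (ρ σ j)) = (Ideal.Quotient.mk Q (zB j)) ^ Fintype.card F
    rw [h1, map_pow]

end Pool.Agent.AFA
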