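import Pool.Agent.AFA.N12

set_option autoImplicit false

namespace Pool.Agent.AFA

open Polynomial

/-- The alternating group of degree 8. -/
theorem alt8 : Realizes (alternatingGroup (Fin 8)) := by
  refine alt_even_jordan (s := 1) (n := 8) (i := 1) (r := 5) (Or.inl rfl) (by decide) (by norm_num)
    (by norm_num) (by norm_num) (1) (-1) (Or.inl rfl) (by norm_num) 1
    (X ^ 5 + X ^ 3 + 1)
    ((X ^ 3 + X + 1)) ?_ ?_ (by norm_num) (by norm_num) (by norm_num) ?_
  · rw [map_one]
    linear_combination (-X ^ 6 - X ^ 3) * zmod_two_poly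
  · have h : (X ^ 5 + X ^ 3 + 1 : (ZMod 2)[X]).natDegree = 5 := by
      compute_degree!
    rw [h]; norm_num
  · intro κ _ _ w hw
    exact rc5a (two_eq_zero_of_algebra κ) w (by simpa using hw)

end Pool.Agent.AFA
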