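import Mathlib

set_option autoImplicit false

namespace Pool.Agent.AFA

open Polynomial

/-- ROW T0. The trace (sum of the values at the roots) read off from `f P'` modulo `P`.

Proof. Let `P = ∏ (X - C (y i))` and `P_i = ∏_{j ≠ i} (X - C (y j))`, so `P' = ∑ P_i`
(`Polynomial.derivative_prod`), each `P_i` is monic of degree `n - 1` and
`(X - C (y i)) * P_i = P`. The polynomial `f - C (f (y i))` is divisible by `X - C (y i)`
(`Polynomial.sub_dvd_eval_sub` / `X_sub_C_dvd_sub_C_eval`), so
`f * P_i ≡ C (f (y i)) * P_i` modulo `P`, and `f * P' - ∑ C (f (y i)) * P_i` is divisible by `P`. So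
`r - ∑ C (f (y i)) * P_i` is divisible by the monic polynomial `P` and has degree `< n`, hence it is
zero (`Polynomial.eq_zero_of_dvd_of_degree_lt`). Compare the coefficients of degree `n - 1`
(`P_i` is monic of degree `n - 1`). For `n = 0`, `r = 0`. -/
theorem trace_certificate {K : Type} [Field K] {n : ℕ} (y : Fin n → K) (f q r : K[X])
    (h : f * derivative (∏ i, (X - C (y i))) = q * ∏ i, (X - C (y i)) + r) (hr : r.degree < n) :
    ∑ i, f.eval (y i) = r.coeff (n - 1) := by
  classical
  rcases Nat.eq_zero_or_pos n with h0 | hpos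
  · subst h0
    have h1 : r = 0 := by
      by_contra hne
      have h2 := zero_le_degree_iff.2 hne
      exact absurd hr (not_lt.2 (by exact_mod_cast h2))
    rw [h1, coeff_zero]
    simp
  set P : K[X] := ∏ i, (X - C (y i)) with hP
  have hm : ∀ s : Finset (Fin n), (∏ j ∈ s, (X - C (y j))).Monic := fun s =>
    monic_prod_of_monic _ _ fun i _ => monic_X_sub_C (y i)
  have hdg : ∀ s : Finset (Fin n), (∏ j ∈ s, (X - C (y j))).natDegree = s.card := by
    intro s
    rw [natDegree_prod_of_monic _ _ fun i _ => monic_X_sub_C (y i)]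
    simp
  have hcardE : ∀ i : Fin n, (Finset.univ.erase i).card = n - 1 := by
    intro i
    rw [Finset.card_erase_of_mem (Finset.mem_univ i), Finset.card_univ, Fintype.card_fin]
  have hdegE : ∀ i : Fin n, (∏ j ∈ Finset.univ.erase i, (X - C (y j))).degree < (n : WithBot ℕ) := by
    intro i
    rw [degree_eq_natDegree (hm _).ne_zero, hdg, hcardE]
    exact_mod_cast (by omega : n - 1 < n)
  have hP' : derivative P = ∑ i, ∏ j ∈ Finset.univ.erase i, (X - C (y j)) := by
    rw [hP, derivative_prod_finset]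
    refine Finset.sum_congr rfl fun i _ => ?_
    rw [derivative_sub, derivative_X, derivative_C, sub_zero, mul_one]
  have hdvd : P ∣ r - ∑ i, C (f.eval (y i)) * ∏ j ∈ Finset.univ.erase i, (X - C (y j)) := by
    have h1 : P ∣ ∑ i, (f - C (f.eval (y i))) * ∏ j ∈ Finset.univ.erase i, (X - C (y j)) := by
      refine Finset.dvd_sum fun i _ => ?_
      obtain ⟨k, hk⟩ := X_sub_C_dvd_sub_C_eval (p := f) (a := y i)
      refine ⟨k, ?_⟩
      rw [hk, hP, ← Finset.mul_prod_erase Finset.univ _ (Finset.mem_univ i)]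
      ring
    have h2 : r - ∑ i, C (f.eval (y i)) * ∏ j ∈ Finset.univ.erase i, (X - C (y j)) =
        ∑ i, (f - C (f.eval (y i))) * ∏ j ∈ Finset.univ.erase i, (X - C (y j)) - P * q := by
      have h3 : ∑ i, (f - C (f.eval (y i))) * ∏ j ∈ Finset.univ.erase i, (X - C (y j)) =
          f * derivative P - ∑ i, C (f.eval (y i)) * ∏ j ∈ Finset.univ.erase i, (X - C (y j)) := by
        rw [hP', Finset.mul_sum, ← Finset.sum_sub_distrib]
        exact Finset.sum_congr rfl fun i _ => by ring
      rw [h3, h]
      ring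
    rw [h2]
    exact dvd_sub h1 (dvd_mul_right _ _)
  have hz : r - ∑ i, C (f.eval (y i)) * ∏ j ∈ Finset.univ.erase i, (X - C (y j)) = 0 := by
    refine eq_zero_of_dvd_of_degree_lt hdvd ?_
    have h1 : P.degree = n := by
      rw [hP, degree_eq_natDegree (hm _).ne_zero, hdg, Finset.card_univ, Fintype.card_fin]
    rw [h1]
    refine lt_of_le_of_lt (degree_sub_le _ _) (max_lt hr ?_)
    refine lt_of_le_of_lt (degree_sum_le _ _) ?_
    refine (Finset.sup_lt_iff (WithBot.bot_lt_coe n)).2 fun i _ => ?_
    refine lt_of_le_of_lt ((degree_mul_le _ _).trans (add_le_add degree_C_le le_rfl)) ?_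
    rw [zero_add]
    exact hdegE i
  rw [sub_eq_zero] at hz
  rw [hz, finsetSum_coeff]
  refine Finset.sum_congr rfl fun i _ => ?_
  rw [coeff_C_mul]
  have h1 : (∏ j ∈ Finset.univ.erase i, (X - C (y j))).coeff (n - 1) = 1 := by
    have h2 := (hm (Finset.univ.erase i)).coeff_natDegree
    rwa [hdg, hcardE] at h2
  rw [h1, mul_one]

end Pool.Agent.AFA
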