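import Pool.Agent.AFA.T0
import Pool.Agent.AFA.S5b

set_option autoImplicit false

namespace Pool.Agent.AFA

open Polynomial

theorem t1_coeff {A : Type} [CommRing A] {n : ℕ} (a : A) (b : Fin n → A) (k : ℕ) :
    (∏ i, (C a + X * C (b i))).coeff k =
      a ^ (n - k) * ∑ t ∈ Finset.powersetCard k (Finset.univ : Finset (Fin n)), ∏ i ∈ t, b i := by
  classical
  have h1 : ∏ i : Fin n, (C a + X * C (b i)) = ∏ i : Fin n, (X * C (b i) + C a) :=
    Finset.prod_congr rfl fun i _ => add_comm _ _
  rw [h1, Finset.prod_add, finsetSum_coeff, Finset.powersetCard_eq_filter, Finset.sum_filter, Finset.mul_sum]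
  refine Finset.sum_congr rfl fun t ht => ?_
  have h2 : (∏ i ∈ t, (X * C (b i))) * ∏ i ∈ Finset.univ \ t, C a =
      C ((∏ i ∈ t, b i) * a ^ (n - t.card)) * X ^ t.card := by
    rw [Finset.prod_mul_distrib, Finset.prod_const, Finset.prod_const,
      Finset.card_sdiff_of_subset (Finset.subset_univ t), Finset.card_univ, Fintype.card_fin, C_mul, C_pow,
      map_prod]
    ring
  rw [h2, coeff_C_mul, coeff_X_pow]
  by_cases hk : k = t.card
  · rw [if_pos hk, if_pos hk.symm, mul_one, hk, mul_comm]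
  · rw [if_neg hk, if_neg (Ne.symm hk), mul_zero, mul_zero]

theorem t1_sq {A : Type} [CommRing A] {ι : Type} [DecidableEq ι] (s : Finset ι) (b : ι → A) :
    (∏ i ∈ s, (C 1 + X * C (b i))).coeff 0 = 1 ∧
    (∏ i ∈ s, (C 1 + X * C (b i))).coeff 1 = ∑ i ∈ s, b i ∧
    (∑ i ∈ s, b i) ^ 2 = ∑ i ∈ s, b i ^ 2 + 2 * (∏ i ∈ s, (C 1 + X * C (b i))).coeff 2 := by
  induction s using Finset.induction_on with
  | empty =>
    simp [coeff_one]
  | insert i s hi ih =>
    obtain ⟨ih0, ih1, ih2⟩ := ih
    rw [Finset.prod_insert hi, Finset.sum_insert hi, Finset.sum_insert hi]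
    set Q := ∏ i ∈ s, (C 1 + X * C (b i)) with hQ
    have h0 : ((C 1 + X * C (b i)) * Q).coeff 0 = 1 := by
      rw [mul_coeff_zero, ih0]
      simp
    have e : (C 1 + X * C (b i)) * Q = Q + X * (C (b i) * Q) := by
      rw [C_1]
      ring
    have h1 : ((C 1 + X * C (b i)) * Q).coeff 1 = Q.coeff 1 + b i * Q.coeff 0 := by
      rw [e, coeff_add, coeff_X_mul, coeff_C_mul]
    have h2 : ((C 1 + X * C (b i)) * Q).coeff 2 = Q.coeff 2 + b i * Q.coeff 1 := by
      rw [e, coeff_add, coeff_X_mul, coeff_C_mul]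
    refine ⟨h0, ?_, ?_⟩
    · rw [h1, ih0, ih1]
      ring
    · rw [h2, ih1]
      linear_combination ih2

theorem t1_map {R : Type} [CommRing R] {K₁ : Type} [Field K₁] (φ : R →+* K₁) (P f : R[X]) {n m : ℕ}
    (y : Fin n → K₁) (hy : P.map φ = ∏ i, (X - C (y i))) (a : R) (hf : f.natDegree ≤ m) :
    mapRingHom φ (resultant (P.map C) (C (C a) + C X * f.map C) n m) =
      ∏ i, (C (φ a) + X * C ((f.map φ).eval (y i))) := by
  have h1 := resultant_map_map (P.map (C : R →+* R[X])) (C (C a) + C X * f.map C) n m (mapRingHom φ)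
  have h2 : (mapRingHom φ).comp (C : R →+* R[X]) = (C : K₁ →+* K₁[X]).comp φ := by
    ext x
    simp
  have h2' : ∀ q : R[X], (q.map (C : R →+* R[X])).map (mapRingHom φ) = (q.map φ).map (C : K₁ →+* K₁[X]) := by
    intro q
    rw [Polynomial.map_map, h2, ← Polynomial.map_map]
  rw [h2', hy, Polynomial.map_add, Polynomial.map_mul, h2', map_C, map_C, Polynomial.map_prod] at h1
  have h3 : (∏ i : Fin n, (X - C (y i)).map (C : K₁ →+* K₁[X])) = ∏ i : Fin n, (X - C (C (y i))) := by
    refine Finset.prod_congr rfl fun i _ => ?_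
    rw [Polynomial.map_sub, map_X, map_C]
  have h4 : (mapRingHom φ) (X : R[X]) = X := by simp
  have h4' : (mapRingHom φ) (C a : R[X]) = C (φ a) := by simp
  have hd : (C (C (φ a)) + C X * (f.map φ).map (C : K₁ →+* K₁[X])).natDegree ≤ m := by
    refine (natDegree_add_le _ _).trans (max_le ?_ ?_)
    · rw [natDegree_C]
      exact Nat.zero_le _
    · exact (natDegree_C_mul_le _ _).trans (natDegree_map_le.trans (natDegree_map_le.trans hf))
  rw [h3, h4, h4', s5b_res _ _ hd] at h1
  rw [← h1]
  refine Finset.prod_congr rfl fun i _ => ?_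
  rw [eval_add, eval_mul, eval_C, eval_C, eval_map_apply]

/-- ROW T1. The resultant of a monic polynomial `P` and `a + 2 f` modulo 8, in terms of the traces
`t₁ = r.coeff (n - 1)` of `f` and `t₂ = r'.coeff (n - 1)` of `f ^ 2`.

Proof. As in `resultant_perturb` (file `S5b.lean`, reuse its lemmas `s5b_res`, `s5b_roots`,
`s5b_coeff`): let `F := resultant (P.map C) (C (C a) + C X * f.map C) n m ∈ R[t]` (polynomials over
`R[t]`). Let `Ω` be an algebraic closure of the fraction field of `R`, `P = ∏ (X - C (y i))` over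
`Ω`. Over `Ω[t]` (`resultant_map_map`), `F = ∏ i, (C a + X * C (f(y i)))`. So `F.coeff 0 = a ^ n`,
`F.coeff 1 = a ^ (n - 1) * ∑ f(y i)` and `F.coeff 2 = a ^ (n - 2) * e₂` where `e₂` is the second
elementary symmetric function of the `f(y i)` and `(∑ f(y i)) ^ 2 = ∑ f(y i) ^ 2 + 2 e₂` (prove
first, by induction on a finite set `s`: `∏_{i ∈ s} (C a + X * C (b i))` is
`C (a ^ N) + C (a ^ (N - 1) * ∑ b) * X + C (a ^ (N - 2) * e) * X ^ 2 + X ^ 3 * Q` with
`(∑ b) ^ 2 = ∑ b ^ 2 + 2 e`; to avoid truncated subtraction state it with the product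
`∏ (C a + X * C (b i))` for `a` and multiply back, or do induction over `Fin n` with `N ≥ 2`; or take
`e := ∑_{i<j} b i b j` by the lemma on `Finset.prod_add`). By `trace_certificate`,
`∑ f(y i) = r.coeff (n - 1)` and `∑ f(y i) ^ 2 = r'.coeff (n - 1)` in `Ω`. To have `e` in `R` and not
only in `Ω`: `e₂` is a symmetric function of the roots, use `sym_descent` (file `S2a.lean`), or apply
the present argument with `a = 1` to see that `e := F.coeff 2 ∈ R` for `a = 1`. Finally, evaluating
`t` at 2 (`resultant_map_map` with `Polynomial.evalRingHom 2`) gives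
`Res(P, a + 2 f) = F(2) = F.coeff 0 + 2 F.coeff 1 + 4 F.coeff 2 + 8 c`. -/
theorem resultant_trace {R : Type} [CommRing R] [IsDomain R] (P f q r q' r' : R[X]) (a : R)
    {n m : ℕ} (hP : P.Monic) (hn : P.natDegree = n) (h2 : 2 ≤ n) (hf : f.natDegree ≤ m)
    (h : f * derivative P = q * P + r) (hr : r.degree < n)
    (h' : f ^ 2 * derivative P = q' * P + r') (hr' : r'.degree < n) :
    ∃ c e : R, r.coeff (n - 1) ^ 2 - r'.coeff (n - 1) = 2 * e ∧
      resultant P (C a + 2 * f) n m = a ^ n + 2 * a ^ (n - 1) * r.coeff (n - 1) +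
        4 * a ^ (n - 2) * e + 8 * c := by
  classical
  obtain ⟨K₁, _, _, φ, hφ⟩ : ∃ (K₁ : Type) (_ : Field K₁) (_ : IsAlgClosed K₁) (φ : R →+* K₁),
      Function.Injective φ :=
    ⟨AlgebraicClosure (FractionRing R), inferInstance, inferInstance,
      (algebraMap (FractionRing R) (AlgebraicClosure (FractionRing R))).comp (algebraMap R (FractionRing R)),
      (algebraMap (FractionRing R) (AlgebraicClosure (FractionRing R))).injective.comp
        (IsFractionRing.injective R (FractionRing R))⟩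
  obtain ⟨y, hy⟩ := s5b_roots (P.map φ) (hP.map φ) (n := n) (by rw [hP.natDegree_map, hn])
  set b : Fin n → K₁ := fun i => (f.map φ).eval (y i) with hb
  set F : R[X] := resultant (P.map C) (C (C a) + C X * f.map C) n m with hF
  set F1 : R[X] := resultant (P.map C) (C (C 1) + C X * f.map C) n m with hF1
  have hFm : F.map φ = ∏ i, (C (φ a) + X * C (b i)) := t1_map φ P f y hy a hf
  have hF1m : F1.map φ = ∏ i, (C 1 + X * C (b i)) := by
    have := t1_map φ P f y hy 1 hf
    rw [show φ 1 = 1 from map_one φ] at this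
    exact this
  have hrel : ∀ k, F.coeff k = a ^ (n - k) * F1.coeff k := by
    intro k
    apply hφ
    rw [map_mul, map_pow, ← coeff_map, ← coeff_map, hFm, hF1m, t1_coeff, t1_coeff, one_pow, one_mul]
  obtain ⟨s0, s1, s2⟩ := t1_sq (Finset.univ : Finset (Fin n)) b
  rw [← hF1m, coeff_map] at s0 s1 s2
  have hdegmap : ∀ r : R[X], r.degree < n → (r.map φ).degree < n := fun r hr =>
    lt_of_le_of_lt degree_map_le hr
  have htr1 : ∑ i, b i = φ (r.coeff (n - 1)) := by
    have h1 := congrArg (Polynomial.map φ) h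
    rw [Polynomial.map_mul, Polynomial.map_add, Polynomial.map_mul, ← derivative_map, hy] at h1
    have h2 := trace_certificate y (f.map φ) (q.map φ) (r.map φ) h1 (hdegmap r hr)
    rw [coeff_map] at h2
    exact h2
  have htr2 : ∑ i, b i ^ 2 = φ (r'.coeff (n - 1)) := by
    have h1 := congrArg (Polynomial.map φ) h'
    rw [Polynomial.map_mul, Polynomial.map_add, Polynomial.map_mul, ← derivative_map, hy] at h1
    have h2 := trace_certificate y ((f ^ 2).map φ) (q'.map φ) (r'.map φ) h1 (hdegmap r' hr')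
    rw [coeff_map] at h2
    rw [← h2]
    refine Finset.sum_congr rfl fun i _ => ?_
    rw [Polynomial.map_pow, eval_pow]
  have c0 : F1.coeff 0 = 1 := hφ (by rw [s0, map_one])
  have c1 : F1.coeff 1 = r.coeff (n - 1) := hφ (by rw [s1, htr1])
  have c2 : r.coeff (n - 1) ^ 2 - r'.coeff (n - 1) = 2 * F1.coeff 2 := by
    apply hφ
    rw [htr1, htr2] at s2
    rw [map_sub, map_pow, map_mul, map_ofNat, s2]
    ring
  have hev : F.eval 2 = resultant P (C a + 2 * f) n m := by
    have h1 := resultant_map_map (P.map (C : R →+* R[X])) (C (C a) + C X * f.map C) n m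
      (evalRingHom 2)
    have h2 : (evalRingHom 2).comp (C : R →+* R[X]) = RingHom.id R := by
      ext x
      simp
    have h3 : (evalRingHom (2 : R)) (C a) = a := by simp
    rw [Polynomial.map_map, h2, Polynomial.map_id, Polynomial.map_add, Polynomial.map_mul, Polynomial.map_map,
      h2, Polynomial.map_id, map_C, map_C, h3, coe_evalRingHom, eval_X] at h1
    rw [← h1]
    congr 3
  have d1 := divX_mul_X_add F
  have d2 := divX_mul_X_add F.divX
  have d3 := divX_mul_X_add F.divX.divX
  rw [coeff_divX, zero_add] at d2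
  rw [coeff_divX, coeff_divX, zero_add, show (1 + 1 : ℕ) = 2 from rfl] at d3
  refine ⟨F.divX.divX.divX.eval 2, F1.coeff 2, c2, ?_⟩
  rw [← hev]
  conv_lhs => rw [← d1, ← d2, ← d3]
  rw [eval_add, eval_mul, eval_add, eval_mul, eval_add, eval_mul, eval_X, eval_C, eval_C, eval_C, hrel 0, hrel 1,
    hrel 2, c0, c1, Nat.sub_zero]
  ring

end Pool.Agent.AFA
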