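import Pool.Agent.AFA.T1

set_option autoImplicit false

namespace Pool.Agent.AFA

open Polynomial

/-- ROW T2. The resultant of `P` and `P' = 1 + 2 f` modulo 8.

Proof. `resultant_trace` with `a = 1` (`C 1 + 2 * f = 1 + 2 * f`), `m = n - 1`
(`f.natDegree ≤ n - 1`: `2 * f = derivative P - 1` and `2` is a nonzero divisor in `ℤ[X][X]`, so the
degrees of `f` and `2 * f` agree). The result is `1 + 2 t₁ + 4 e + 8 c` with
`t₁ ^ 2 - t₂ = 2 e`. -/
theorem disc_even_gen (P f q r q' r' : ℤ[X][X]) {n : ℕ} (hP : P.Monic) (hn : P.natDegree = n)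
    (h2 : 2 ≤ n) (hd : derivative P = 1 + 2 * f)
    (h : f * derivative P = q * P + r) (hr : r.degree < n)
    (h' : f ^ 2 * derivative P = q' * P + r') (hr' : r'.degree < n) :
    (8 : ℤ[X]) ∣ resultant P (derivative P) n (n - 1) -
      (1 + 2 * r.coeff (n - 1) + 2 * (r.coeff (n - 1) ^ 2 - r'.coeff (n - 1))) := by
  have hfd : f.natDegree ≤ n - 1 := by
    have h1 : (2 : ℤ[X][X]) * f = derivative P - 1 := by rw [hd]; ring
    have h2 : (2 : ℤ[X][X]) = C (2 : ℤ[X]) := by rfl
    have h3 : ((2 : ℤ[X][X]) * f).natDegree = f.natDegree := by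
      rw [h2]
      exact natDegree_C_mul two_ne_zero
    rw [← h3, h1]
    refine (natDegree_sub_le _ _).trans (max_le ?_ ?_)
    · rw [← hn]
      exact natDegree_derivative_le P
    · rw [natDegree_one]
      exact Nat.zero_le _
  obtain ⟨c, e, he, hres⟩ := resultant_trace P f q r q' r' (1 : ℤ[X]) hP hn h2 hfd h hr h' hr'
  have e1 : (C (1 : ℤ[X]) + 2 * f) = derivative P := by
    rw [C_1, hd]
  rw [e1] at hres
  refine ⟨c, ?_⟩
  rw [hres, he, one_pow, one_pow, one_pow]
  ring

end Pool.Agent.AFA
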